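import Pool.Agent.KCY.Targets

set_option autoImplicit false

open AlgebraicGeometry CategoryTheory CategoryTheory.Limits

namespace Pool.Agent.KCY

open Rees

namespace AFF_

lemma alg {R S K : Type} [CommRing R] [CommRing S] [Field K] [Algebra R S] (P : Ideal R)
    [hP : P.IsPrime] [IsLocalization.AtPrime S P] (φ : R →+* K) (hφ : Function.Injective φ)
    (ψ : S →+* K) (h : ∀ r, ψ (algebraMap R S r) = φ r) :
    ∃ (p : Ideal φ.range) (_ : p.IsPrime),
      ψ.range = locSub φ.range p ∧ Nonempty (S ≃+* Localization.AtPrime p) := by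
  let e : R ≃+* φ.range := RingEquiv.ofBijective φ.rangeRestrict
    ⟨fun a b hab => hφ (congrArg Subtype.val hab), φ.rangeRestrict_surjective⟩
  have he : ∀ r, ((e r : φ.range) : K) = φ r := fun r => rfl
  refine ⟨P.comap (e.symm : φ.range →+* R), Ideal.comap_isPrime _ _, ?_, ?_⟩
  · ext z
    constructor
    · rintro ⟨s, rfl⟩
      obtain ⟨⟨a, b⟩, hab⟩ := IsLocalization.surj P.primeCompl s
      refine ⟨e a, e b, ?_, ?_⟩
      · intro hb
        rw [Ideal.mem_comap] at hb
        have : (b : R) ∈ P := by simpa using hb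
        exact b.2 this
      · rw [he, he, ← h, ← h]
        have hb0 : ψ (algebraMap R S b) ≠ 0 := by
          rw [h]
          intro h0
          have : (b : R) = 0 := hφ (by rw [h0, map_zero])
          exact b.2 (by rw [this]; exact P.zero_mem)
        rw [eq_div_iff hb0, ← map_mul]
        exact congrArg ψ hab
    · rintro ⟨a, b, hb, rfl⟩
      obtain ⟨a', rfl⟩ := e.surjective a
      obtain ⟨b', rfl⟩ := e.surjective b
      have hb' : b' ∈ P.primeCompl := by
        intro hmem
        apply hb
        rw [Ideal.mem_comap]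
        simpa using hmem
      refine ⟨IsLocalization.mk' S a' ⟨b', hb'⟩, ?_⟩
      have hb0 : φ b' ≠ 0 := by
        intro h0
        have : b' = 0 := hφ (by rw [h0, map_zero])
        exact hb' (by rw [this]; exact P.zero_mem)
      rw [he, he, eq_div_iff hb0, ← h, ← h, ← map_mul]
      congr 1
      exact IsLocalization.mk'_spec S a' ⟨b', hb'⟩
  · refine ⟨IsLocalization.ringEquivOfRingEquiv (M := P.primeCompl) S
      (T := (P.comap (e.symm : φ.range →+* R)).primeCompl) _ e ?_⟩
    ext z
    constructor
    · rintro ⟨r, hr, rfl⟩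
      intro hmem
      have hmem' : e.symm (e r) ∈ P := hmem
      rw [e.symm_apply_apply] at hmem'
      exact hr hmem'
    · intro hz
      obtain ⟨r, rfl⟩ := e.surjective z
      refine ⟨r, ?_, rfl⟩
      intro hr
      apply hz
      have hr' : e.symm (e r) ∈ P := by
        rw [e.symm_apply_apply]
        exact hr
      exact hr'

end AFF_

open AFF_ in
theorem tAFF : T_AFF := by
  intro X _ U hU hg x hx
  have : Nonempty U := ⟨⟨x, hx⟩⟩
  let _ : Algebra Γ(X, U) (X.presheaf.stalk x) := (X.presheaf.germ U x hx).hom.toAlgebra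
  have : IsLocalization.AtPrime (X.presheaf.stalk x) (hU.primeIdealOf ⟨x, hx⟩).asIdeal :=
    hU.isLocalization_stalk ⟨x, hx⟩
  exact alg (hU.primeIdealOf ⟨x, hx⟩).asIdeal (X.presheaf.germ U (genericPoint X) hg).hom
    (X.germToFunctionField_injective U) (algebraMap (X.presheaf.stalk x) X.functionField)
    (fun r => X.algebraMap_germ_eq_germToFunctionField hx r)

end Pool.Agent.KCY
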