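import Pool.Agent.KCY.Rees2

/-!
The explicit data: the submodule `MM k l` of `k[x, y]`, the six opens and the local equations
of the line bundle; and the abstract chart rings `Bring`.
-/

open AlgebraicGeometry CategoryTheory Polynomial

namespace Pool.Agent.KCY

/-! ### The polynomials -/

section Poly

variable (k : Type) [CommRing k]

/-- The polynomial ring in the two variables `x = X 0` and `y = X 1`. -/
abbrev Sk := MvPolynomial (Fin 2) k

/-- the variable `x` -/
noncomputable abbrev xx : Sk k := MvPolynomial.X 0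

/-- the variable `y` -/
noncomputable abbrev yy : Sk k := MvPolynomial.X 1

/-- The four numbers `-1, 2, 1, 0` -/
def aa : Fin 4 → ℤ := ![-1, 2, 1, 0]

/-- `x - a i` -/
noncomputable def Xf (i : Fin 4) : Sk k := xx k - ((aa i : ℤ) : Sk k)

/-- `P(x)`, the product of the `x - a i` -/
noncomputable def PP4 : Sk k := ∏ i, Xf k i

/-- `P(x) / (x - a i)` -/
noncomputable def Pe (i : Fin 4) : Sk k := ∏ j ∈ Finset.univ.erase i, Xf k j

/-- `V = (y - 1) y` -/
noncomputable def Vy : Sk k := (yy k - 1) * yy k

/-- `U = (y + 1) (y - 2)` -/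
noncomputable def Uy : Sk k := (yy k + 1) * (yy k - 2)

variable {k} in
/-- `U_l = ((2 l - 1) y + 1) (y - 2)` -/
noncomputable def Ul (l : k) : Sk k := (MvPolynomial.C (2 * l - 1) * yy k + 1) * (yy k - 2)

variable {k} in
/-- `Q_0 = U_l V` and `Q_i = U V` for `i = 1, 2, 3` -/
noncomputable def Qf (l : k) (i : Fin 4) : Sk k := if i = 0 then Ul l * Vy k else Uy k * Vy k

variable {k} in
/-- The generator `e_i = P(x) / (x - a i) * Q_i(y)` -/
noncomputable def ee (l : k) (i : Fin 4) : Sk k := Pe k i * Qf l i

/-- The generator `w_j = P(x) y^j` -/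
noncomputable def ww (j : Fin 5) : Sk k := PP4 k * yy k ^ (j : ℕ)

variable {k} in
/-- The nine generators. -/
noncomputable def gens (l : k) : Fin 5 ⊕ Fin 4 → Sk k := Sum.elim (ww k) (ee l)

variable {k} in
/-- The submodule spanned by the nine generators. -/
noncomputable def MM (l : k) : Submodule k (Sk k) := Submodule.span k (Set.range (gens l))

variable {k} in
/-- The six elements of `MM l` which define the opens: `P V^2`, `P U_l U`, `e_0, …, e_3`. -/
noncomputable def mm (l : k) : Fin 6 → Sk k :=
  ![PP4 k * Vy k ^ 2, PP4 k * (Ul l * Uy k), ee l 0, ee l 1, ee l 2, ee l 3]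

/-- Numerators of the local equations: `1`, `V (x - a 0) (x - a 1)`, `(x - a 0) V`,
`(x - a 1) V`, `1`, `1`. -/
noncomputable def num : Fin 6 → Sk k :=
  ![1, Vy k * Xf k 0 * Xf k 1, Xf k 0 * Vy k, Xf k 1 * Vy k, 1, 1]

variable {k} in
/-- Denominators of the local equations: `1`, `U (x - a 2) (x - a 3)`, `U_l`, `U`, `1`, `1`. -/
noncomputable def den (l : k) : Fin 6 → Sk k :=
  ![1, Uy k * Xf k 2 * Xf k 3, Ul l, Uy k, 1, 1]

end Poly

/-! ### Chart rings in a field with two coordinates -/

section Chart

variable (K : Type) [Field K] [Algebra ℂ K]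

/-- `K = ℂ(u, v)` with `u, v` algebraically independent. -/
def Coord (u v : K) : Prop :=
  AlgebraicIndependent ℂ ![u, v] ∧
    ∀ z : K, ∃ p q : MvPolynomial (Fin 2) ℂ, MvPolynomial.aeval ![u, v] q ≠ 0 ∧
      z = MvPolynomial.aeval ![u, v] p / MvPolynomial.aeval ![u, v] q

variable {K}

/-- The polynomial with roots `a i`. -/
noncomputable def prodP (a : Fin 4 → ℂ) : ℂ[X] := ∏ i, (X - C (a i))

/-- The chart ring `ℂ[v, Q(v) / (u - a i)]`. -/
noncomputable def Bring (u v : K) (a : Fin 4 → ℂ) (Q : ℂ[X]) : Subalgebra ℂ K :=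
  Algebra.adjoin ℂ ({v} ∪ Set.range fun i => aeval v Q / (u - algebraMap ℂ K (a i)))

/-- The localisation of a subring of a field at a prime ideal, as a subring of the field. -/
def locSub (A : Subring K) (p : Ideal A) [hp : p.IsPrime] : Subring K where
  carrier := {z | ∃ a b : A, b ∉ p ∧ z = (a : K) / b}
  one_mem' := ⟨1, 1, fun h => hp.ne_top ((Ideal.eq_top_iff_one p).mpr h), by simp⟩
  zero_mem' := ⟨0, 1, fun h => hp.ne_top ((Ideal.eq_top_iff_one p).mpr h), by simp⟩
  mul_mem' := by
    rintro _ _ ⟨a, b, hb, rfl⟩ ⟨c, d, hd, rfl⟩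
    exact ⟨a * c, b * d, fun h => (hp.mem_or_mem h).elim hb hd, by
      push_cast; rw [div_mul_div_comm]⟩
  add_mem' := by
    rintro _ _ ⟨a, b, hb, rfl⟩ ⟨c, d, hd, rfl⟩
    have hb0 : (b : K) ≠ 0 := fun h => hb (by
      rw [show b = 0 from Subtype.ext h]; exact p.zero_mem)
    have hd0 : (d : K) ≠ 0 := fun h => hd (by
      rw [show d = 0 from Subtype.ext h]; exact p.zero_mem)
    exact ⟨a * d + b * c, b * d, fun h => (hp.mem_or_mem h).elim hb hd, by
      push_cast; rw [div_add_div _ _ hb0 hd0]⟩
  neg_mem' := by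
    rintro _ ⟨a, b, hb, rfl⟩
    exact ⟨-a, b, hb, by push_cast; rw [neg_div]⟩

end Chart

/-! ### Fractions on `PX M` and line bundles given by fractions -/

namespace Rees

variable {k S : Type} [CommRing k] [CommRing S] [Algebra k S]

/-- The identification of rational functions on `PX M` with elements of the fraction field
of `S`. -/
structure FracHom (M : Submodule k S) [IsDomain S] [IsIntegral (PX M)] where
  /-- the homomorphism of fields -/
  ψ : (PX M).functionField →+* FractionRing S
  /-- compatibility with the structure morphism -/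
  base : ∀ c : k, ψ ((PX M).presheaf.germ ⊤ (genericPoint (PX M)) trivial
    ((str M).appTop ((Scheme.ΓSpecIso (CommRingCat.of k)).inv c))) =
      algebraMap S (FractionRing S) (algebraMap k S c)
  /-- the value of the function `G / m^j` -/
  eval : ∀ (n : ℕ) (m : S) (hm : m ∈ M ^ n), 0 < n → m ≠ 0 →
    ∀ (j : ℕ) (G : S) (hG : G ∈ M ^ (j * n)) (hU : genericPoint (PX M) ∈ dplus M n m hm),
      ψ ((PX M).presheaf.germ (dplus M n m hm) (genericPoint (PX M)) hU
        (frac M n m hm j G hG)) =
        algebraMap S (FractionRing S) G / algebraMap S (FractionRing S) m ^ j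

/-- Data of a line bundle on `PX M`: elements `m i` of `M` and local equations
`num i / den i`. -/
structure LBData (M : Submodule k S) where
  /-- the index set -/
  ι : Type
  /-- the elements which define the opens -/
  m : ι → S
  mem : ∀ i, m i ∈ M ^ 1
  /-- numerators -/
  num : ι → S
  /-- denominators -/
  den : ι → S

/-- The local equation `num i / den i` in the fraction field. -/
noncomputable def LBData.φ [IsDomain S] {M : Submodule k S} (D : LBData M) (i : D.ι) :
    FractionRing S :=
  algebraMap S (FractionRing S) (D.num i) / algebraMap S (FractionRing S) (D.den i)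

/-- The open set of index `i`. -/
noncomputable def LBData.V {M : Submodule k S} (D : LBData M) (i : D.ι) : (PX M).Opens :=
  dplus M 1 (D.m i) (D.mem i)

/-- The conditions on the data: nonzero elements, the opens cover, and the quotients of local
equations are regular on the intersections. -/
structure LBData.Good {M : Submodule k S} (D : LBData M) : Prop where
  m_ne : ∀ i, D.m i ≠ 0
  num_ne : ∀ i, D.num i ≠ 0
  den_ne : ∀ i, D.den i ≠ 0
  cover : ∀ x : PX M, ∃ i, x ∈ D.V i
  coc : ∀ i j, ∃ (r : ℕ) (N : S), N ∈ M ^ (r * 2) ∧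
    N * (D.num j * D.den i) = (D.m i * D.m j) ^ r * (D.num i * D.den j)

/-- The line bundle `L` is the one given by the data `D`. -/
def Represents {M : Submodule k S} [IsDomain S] [IsIntegral (PX M)] (D : LBData M)
    (Φ : FracHom M) (L : LineBundle (PX M)) : Prop :=
  ∃ e : D.ι ≃ L.ι, (∀ i, L.U (e i) = D.V i) ∧
    ∀ i j (h : genericPoint (PX M) ∈ L.U (e i) ⊓ L.U (e j)),
      Φ.ψ ((PX M).presheaf.germ _ (genericPoint (PX M)) h (L.g (e i) (e j))) = D.φ i / D.φ j

end Rees

end Pool.Agent.KCY
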