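import Pool.Agent.KCY.Targets

/-!
Base change for `PX M` (target `T_BC`).
-/

open AlgebraicGeometry CategoryTheory Polynomial HomogeneousLocalization Limits

namespace Pool.Agent.KCY

open Rees

namespace BCProof

/-- Pushout squares of rings from surjections. -/
theorem isPushout_of_surj {R R' A A' : Type} [CommRing R] [CommRing R'] [CommRing A] [CommRing A']
    (e : R →+* R') (f : R →+* A) (f' : R' →+* A') (g : A →+* A')
    (comm : ∀ r, g (f r) = f' (e r)) (he : Function.Surjective e) (hg : Function.Surjective g)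
    (hker : ∀ x, g x = 0 → x ∈ Ideal.map f (RingHom.ker e)) :
    IsPushout (CommRingCat.ofHom f) (CommRingCat.ofHom e) (CommRingCat.ofHom g)
      (CommRingCat.ofHom f') := by
  have w : CommRingCat.ofHom f ≫ CommRingCat.ofHom g =
      CommRingCat.ofHom e ≫ CommRingCat.ofHom f' := by
    ext r
    exact comm r
  have key : ∀ s : PushoutCocone (CommRingCat.ofHom f) (CommRingCat.ofHom e),
      RingHom.ker g ≤ RingHom.ker s.inl.hom := by
    intro s x hx
    have hw := s.condition
    have hw' : ∀ r : R, s.inl.hom (f r) = s.inr.hom (e r) := fun r => by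
      have := congrArg (fun q => q.hom r) hw
      exact this
    have h1 : Ideal.map f (RingHom.ker e) ≤ RingHom.ker s.inl.hom := by
      rw [Ideal.map_le_iff_le_comap]
      intro r hr
      rw [Ideal.mem_comap, RingHom.mem_ker, hw', RingHom.mem_ker.mp hr, map_zero]
    exact h1 (hker x (RingHom.mem_ker.mp hx))
  refine ⟨⟨w⟩, ⟨PushoutCocone.IsColimit.mk w (fun s => CommRingCat.ofHom
    (RingHom.liftOfSurjective g hg ⟨s.inl.hom, key s⟩)) ?_ ?_ ?_⟩⟩
  · intro s
    ext x
    exact RingHom.liftOfRightInverse_comp_apply g _ (Function.rightInverse_surjInv hg) ⟨s.inl.hom, key s⟩ x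
  · intro s
    ext x
    obtain ⟨r, rfl⟩ := he x
    have hw' : s.inl.hom (f r) = s.inr.hom (e r) := by
      have := congrArg (fun q => q.hom r) s.condition
      exact this
    change (RingHom.liftOfSurjective g hg ⟨s.inl.hom, key s⟩) (f' (e r)) = s.inr.hom (e r)
    rw [← comm, ← hw']
    exact RingHom.liftOfRightInverse_comp_apply g _ (Function.rightInverse_surjInv hg) ⟨s.inl.hom, key s⟩ (f r)
  · intro s m hm1 hm2
    ext x
    obtain ⟨a, rfl⟩ := hg x
    have h2 : m.hom (g a) = s.inl.hom a := by
      have := congrArg (fun q => q.hom a) hm1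
      exact this
    change m.hom (g a) = (RingHom.liftOfSurjective g hg ⟨s.inl.hom, key s⟩) (g a)
    rw [h2]
    exact (RingHom.liftOfRightInverse_comp_apply g _ (Function.rightInverse_surjInv hg) ⟨s.inl.hom, key s⟩ a).symm

variable {k S k' S' : Type} [CommRing k] [CommRing S] [Algebra k S] [CommRing k'] [CommRing S']
    [Algebra k' S'] {e : k →+* k'} {σ : S →+* S'} {M : Submodule k S}
    {M' : Submodule k' S'}

theorem coe_bcHom (h : IsBC e σ M M') (F : alg M) : ((bcHom h F : alg M') : S'[X]) =
    (F : S[X]).map σ := rfl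

/-- The ring map `k → Away (gr M) f`. -/
noncomputable def sc (M : Submodule k S) (f : alg M) : k →+* Away (gr M) f :=
  (fromZeroRingHom (gr M) (Submonoid.powers f)).comp (algebraMap k (gr M 0))

theorem awayι_str {i : ℕ} (hi : 0 < i) (f : alg M) (hf : f ∈ gr M i) :
    Proj.awayι (gr M) f hf hi ≫ str M = Spec.map (CommRingCat.ofHom (sc M f)) := by
  rw [str, Proj.awayι_toSpecZero_assoc, ← Spec.map_comp]
  rfl

theorem map_surj (h : IsBC e σ M M') {f : alg M} (hf : f ∈ gr M 1) :
    Function.Surjective (Away.map (bcHom h) f : Away (gr M) f →+* Away (gr M') (bcHom h f)) := by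
  intro x
  obtain ⟨n, a, ha, rfl⟩ := Away.mk_surjective (gr M') ((bcHom h).map_mem hf) x
  have ha' : a ∈ gr M' n := by simpa using ha
  obtain ⟨G, hG, e1⟩ := h.exists_lift_pow n (a.2 n)
  refine ⟨Away.mk (gr M) hf n (el M n G hG) (by simpa using el_mem M n G hG), ?_⟩
  rw [Away.map_mk]
  congr 1
  rw [bcHom_el, eq_el ha']
  apply Subtype.ext
  rw [coe_el, coe_el, e1]

theorem sc_comm (h : IsBC e σ M M') (f : alg M) (r : k) :
    Away.map (bcHom h) f (sc M f r) = sc M' (bcHom h f) (e r) := by
  have h1 : (bcHom h) (algebraMap k (alg M) r) = algebraMap k' (alg M') (e r) := by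
    apply Subtype.ext
    rw [coe_bcHom]
    change (algebraMap k S[X] r).map σ = algebraMap k' S'[X] (e r)
    rw [Polynomial.algebraMap_apply, Polynomial.algebraMap_apply, Polynomial.map_C, h.comm]
  have h2 : sc M f r = HomogeneousLocalization.mk
    ⟨0, algebraMap k (gr M 0) r, 1, one_mem _⟩ := rfl
  have h3 : sc M' (bcHom h f) (e r) = HomogeneousLocalization.mk
    ⟨0, algebraMap k' (gr M' 0) (e r), 1, one_mem _⟩ := rfl
  rw [h2, h3]
  apply HomogeneousLocalization.val_injective
  rw [Away.map, HomogeneousLocalization.map_mk, HomogeneousLocalization.val_mk,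
    HomogeneousLocalization.val_mk]
  have h4 : (((algebraMap k' (gr M' 0) (e r)) : gr M' 0) : alg M') =
    algebraMap k' (alg M') (e r) := rfl
  have h5 : (((algebraMap k (gr M 0) r) : gr M 0) : alg M) =
    algebraMap k (alg M) r := rfl
  congr 1
  apply Subtype.ext
  change (bcHom h) (1 : alg M) = 1
  exact map_one _

/-- The element `G / f ^ n`. -/
noncomputable def fr {f : alg M} (hf : f ∈ gr M 1) (n : ℕ) (G : S) (hG : G ∈ M ^ n) :
    Away (gr M) f :=
  Away.mk (gr M) hf n (el M n G hG) (by simpa using el_mem M n G hG)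

theorem fr_add {f : alg M} (hf : f ∈ gr M 1) (n : ℕ) (G G' : S) (hG : G ∈ M ^ n)
    (hG' : G' ∈ M ^ n) (hGG : G + G' ∈ M ^ n) :
    fr hf n (G + G') hGG = fr hf n G hG + fr hf n G' hG' := by
  apply HomogeneousLocalization.val_injective
  rw [HomogeneousLocalization.val_add, fr, fr, fr, Away.val_mk, Away.val_mk, Away.val_mk,
    Localization.add_mk_self]
  congr 1
  apply Subtype.ext
  change monomial n (G + G') = monomial n G + monomial n G'
  rw [map_add]

theorem fr_smul {f : alg M} (hf : f ∈ gr M 1) (n : ℕ) (c : k) (G : S) (hG : G ∈ M ^ n)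
    (hcG : c • G ∈ M ^ n) :
    fr hf n (c • G) hcG = sc M f c * fr hf n G hG := by
  have h2 : sc M f c = HomogeneousLocalization.mk
    ⟨0, algebraMap k (gr M 0) c, 1, one_mem _⟩ := rfl
  apply HomogeneousLocalization.val_injective
  rw [HomogeneousLocalization.val_mul, fr, fr, Away.val_mk, Away.val_mk, h2,
    HomogeneousLocalization.val_mk, Localization.mk_mul]
  congr 1
  · apply Subtype.ext
    change monomial n (c • G) = algebraMap k S[X] c * monomial n G
    rw [Polynomial.algebraMap_apply, Polynomial.C_mul_monomial, Algebra.smul_def]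
  · apply Subtype.ext
    change _ = (1 : alg M) * _
    rw [one_mul]

theorem fr_mem {f : alg M} (hf : f ∈ gr M 1) (n : ℕ) (I : Ideal k) (G : S)
    (hG : G ∈ I • (M ^ n)) : ∀ hG' : G ∈ M ^ n, fr hf n G hG' ∈ Ideal.map (sc M f) I := by
  induction hG using Submodule.smul_induction_on' with
  | smul r hr G hG =>
    intro hG'
    rw [fr_smul hf n r G hG hG']
    exact Ideal.mul_mem_right _ _ (Ideal.mem_map_of_mem _ hr)
  | add x hx y hy h1 h2 =>
    intro hG'
    rw [fr_add hf n x y (Submodule.smul_le_right hx) (Submodule.smul_le_right hy) hG']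
    exact Ideal.add_mem _ (h1 _) (h2 _)

theorem ker_map [IsDomain S'] (h : IsBC e σ M M')
    (hs : ∀ (n : ℕ), ∀ G ∈ M ^ n, σ G = 0 → G ∈ (RingHom.ker e) • (M ^ n))
    (m : S) (hm : m ∈ M ^ 1) (hσ : σ m ≠ 0) (x : Away (gr M) (el M 1 m hm))
    (hx : Away.map (bcHom h) (el M 1 m hm) x = 0) :
    x ∈ Ideal.map (sc M (el M 1 m hm)) (RingHom.ker e) := by
  obtain ⟨n, a, ha, rfl⟩ := Away.mk_surjective (gr M) (el_mem M 1 m hm) x
  have ha' : a ∈ gr M n := by simpa using ha
  have e1 : Away.mk (gr M) (el_mem M 1 m hm) n a ha = fr (el_mem M 1 m hm) n _ (a.2 n) := by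
    rw [fr]
    congr 1
    exact eq_el ha'
  rw [e1]
  apply fr_mem
  apply hs n _ (a.2 n)
  rw [Away.map_mk] at hx
  have h1 := congrArg HomogeneousLocalization.val hx
  rw [Away.val_mk, HomogeneousLocalization.val_zero, Localization.mk_eq_mk',
    IsLocalization.mk'_eq_zero_iff] at h1
  obtain ⟨⟨c, N, rfl⟩, hc⟩ := h1
  rw [eq_el ha', bcHom_el, bcHom_el] at hc
  have h2 : (monomial 1 (σ m)) ^ N * monomial n (σ ((a : S[X]).coeff n)) = (0 : S'[X]) :=
    congrArg (fun F : alg M' => (F : S'[X])) hc
  rw [Polynomial.monomial_pow, Polynomial.monomial_mul_monomial,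
    Polynomial.monomial_eq_zero_iff] at h2
  rcases mul_eq_zero.mp h2 with h3 | h3
  · exact absurd h3 (pow_ne_zero _ hσ)
  · exact h3

end BCProof

open BCProof in
theorem tBC : T_BC := by
  intro k S k' S' _ _ _ _ _ _ _ e σ M M' h hs ι m hm hσ hcov
  let f : ι → alg M := fun i => el M 1 (m i) (hm i)
  have hf : ∀ i, f i ∈ gr M 1 := fun i => el_mem M 1 (m i) (hm i)
  let 𝒰 : (PX M).AffineOpenCover :=
    { I₀ := ι
      X := fun i => CommRingCat.of (Away (gr M) (f i))
      f := fun i => Proj.awayι (gr M) (f i) (hf i) one_pos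
      idx := fun x => (hcov x).choose
      covers := fun x => by
        have h1 := (hcov x).choose_spec
        have h2 : x ∈ (Proj.awayι (gr M) (f (hcov x).choose) (hf _) one_pos).opensRange := by
          rw [Proj.opensRange_awayι]
          exact h1
        exact h2 }
  refine Scheme.isPullback_of_openCover (bcMap h) (str M') (str M)
    (Spec.map (CommRingCat.ofHom e)) 𝒰.openCover ?_
  intro i
  have hP : IsPushout (CommRingCat.ofHom (sc M (f i))) (CommRingCat.ofHom e)
      (CommRingCat.ofHom (Away.map (bcHom h) (f i)))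
      (CommRingCat.ofHom (sc M' (bcHom h (f i)))) :=
    isPushout_of_surj e _ _ _ (sc_comm h (f i)) h.surj (map_surj h (hf i))
      (ker_map h hs (m i) (hm i) (hσ i))
  have h2 := isPullback_SpecMap_of_isPushout _ _ _ _ hP
  have h1 : IsPullback (Spec.map (CommRingCat.ofHom (Away.map (bcHom h) (f i))))
      (Proj.awayι (gr M') (bcHom h (f i)) ((bcHom h).map_mem (hf i)) one_pos)
      (Proj.awayι (gr M) (f i) (hf i) one_pos) (bcMap h) := by
    apply IsOpenImmersion.isPullback
    · exact Proj.awayι_comp_map (bcHom h) (bcHom_irrelevant h) one_pos (f i) (hf i)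
    · rw [Proj.opensRange_awayι, Proj.opensRange_awayι]
      rfl
  refine h2.of_iso h1.flip.isoPullback (Iso.refl _) (Iso.refl _) (Iso.refl _) ?_ ?_ ?_ ?_
  · exact (Category.comp_id _).trans h1.flip.isoPullback_hom_snd.symm
  · have h3 : h1.flip.isoPullback.hom ≫
        (Precoverage.ZeroHypercover.pullback₁ (bcMap h) 𝒰.openCover).f i =
        Proj.awayι (gr M') (bcHom h (f i)) ((bcHom h).map_mem (hf i)) one_pos :=
      h1.flip.isoPullback_hom_fst
    exact (Category.comp_id _).trans (((awayι_str one_pos _ _).symm.trans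
      (congrArg (fun q => q ≫ str M') h3.symm)).trans (Category.assoc _ _ _))
  · exact ((Category.comp_id _).trans (awayι_str one_pos (f i) (hf i)).symm).trans
      (Category.id_comp _).symm
  · exact (Category.comp_id _).trans (Category.id_comp _).symm

end Pool.Agent.KCY
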