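import Pool.Agent.KCY.Targets

set_option autoImplicit false
set_option maxHeartbeats 4000000

open AlgebraicGeometry CategoryTheory Polynomial

namespace Pool.Agent.KCY

open Rees

namespace BRN_

variable {K : Type} [Field K] [Algebra ℂ K]

/-- evaluation of polynomials at `v` -/
noncomputable def ev (v : K) : ℂ[X] →+* K := (aeval v : ℂ[X] →ₐ[ℂ] K).toRingHom

lemma ev_apply (v : K) (p : ℂ[X]) : ev v p = aeval v p := rfl

/-- evaluation of polynomials in two variables -/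
noncomputable def E (v ζ : K) : ℂ[X][X] →+* K := eval₂RingHom (ev v) ζ

lemma E_apply (v ζ : K) (G : ℂ[X][X]) : E v ζ G = eval₂ (ev v) ζ G := rfl

lemma E_C (v ζ : K) (p : ℂ[X]) : E v ζ (C p) = aeval v p := by
  rw [E_apply, eval₂_C, ev_apply]

lemma E_X (v ζ : K) : E v ζ X = ζ := by rw [E_apply, eval₂_X]

/-- from `ℂ[X][X]` to `MvPolynomial` -/
noncomputable def io : ℂ[X][X] →+* MvPolynomial (Fin 2) ℂ :=
  eval₂RingHom (aeval (MvPolynomial.X 1 : MvPolynomial (Fin 2) ℂ) : ℂ[X] →ₐ[ℂ] _).toRingHom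
    (MvPolynomial.X 0)

lemma aeval_CX (c : ℂ[X]) : aeval (C X : ℂ[X][X]) c = C c := by
  induction c using Polynomial.induction_on' with
  | add p q hp hq => rw [map_add, hp, hq, C_add]
  | monomial m b =>
    rw [aeval_monomial, ← C_mul_X_pow_eq_monomial, C_mul, C_pow]
    rfl

lemma io_inj : Function.Injective io := by
  apply Function.LeftInverse.injective
    (g := (MvPolynomial.aeval ![X, C X] : MvPolynomial (Fin 2) ℂ →ₐ[ℂ] ℂ[X][X]))
  intro G
  induction G using Polynomial.induction_on' with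
  | add p q hp hq => rw [map_add, map_add, hp, hq]
  | monomial n c =>
    have h1 : io (monomial n c) = aeval (MvPolynomial.X 1 : MvPolynomial (Fin 2) ℂ) c *
        MvPolynomial.X 0 ^ n := by
      show eval₂ _ _ _ = _
      rw [eval₂_monomial]
      rfl
    rw [h1, map_mul, map_pow, MvPolynomial.aeval_X, ← Polynomial.aeval_algHom_apply,
      MvPolynomial.aeval_X]
    show aeval (C X : ℂ[X][X]) c * X ^ n = monomial n c
    rw [aeval_CX, C_mul_X_pow_eq_monomial]

lemma E_eq (v ζ : K) (G : ℂ[X][X]) : E v ζ G = MvPolynomial.aeval ![ζ, v] (io G) := by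
  induction G using Polynomial.induction_on' with
  | add p q hp hq => rw [map_add, map_add, map_add, hp, hq]
  | monomial n c =>
    have h1 : io (monomial n c) = aeval (MvPolynomial.X 1 : MvPolynomial (Fin 2) ℂ) c *
        MvPolynomial.X 0 ^ n := by
      show eval₂ _ _ _ = _
      rw [eval₂_monomial]
      rfl
    rw [h1, map_mul, map_pow, MvPolynomial.aeval_X, ← Polynomial.aeval_algHom_apply,
      MvPolynomial.aeval_X, E_apply, eval₂_monomial]
    rfl

lemma E_inj {v ζ : K} (h : Coord K ζ v) : Function.Injective (E v ζ) := by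
  intro G G' hG
  rw [E_eq, E_eq] at hG
  exact io_inj (h.1 hG)

lemma exists_E (v ζ : K) (p : MvPolynomial (Fin 2) ℂ) :
    ∃ G : ℂ[X][X], MvPolynomial.aeval ![ζ, v] p = E v ζ G := by
  induction p using MvPolynomial.induction_on with
  | C c =>
    refine ⟨C (C c), ?_⟩
    rw [MvPolynomial.aeval_C, E_C, aeval_C]
  | add p q hp hq =>
    obtain ⟨G, hG⟩ := hp
    obtain ⟨G', hG'⟩ := hq
    exact ⟨G + G', by rw [map_add, map_add, hG, hG']⟩
  | mul_X p i hp =>
    obtain ⟨G, hG⟩ := hp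
    fin_cases i
    · refine ⟨G * X, ?_⟩
      rw [map_mul, map_mul, hG, E_X, MvPolynomial.aeval_X]
      rfl
    · refine ⟨G * C X, ?_⟩
      rw [map_mul, map_mul, hG, E_C, MvPolynomial.aeval_X, aeval_X]
      rfl

lemma sub_ne {u v : K} (h : Coord K u v) (c : ℂ) : u - algebraMap ℂ K c ≠ 0 := by
  intro h0
  have h1 : MvPolynomial.aeval ![u, v] (MvPolynomial.X 0 - MvPolynomial.C c :
      MvPolynomial (Fin 2) ℂ) = 0 := by
    rw [map_sub, MvPolynomial.aeval_X, MvPolynomial.aeval_C]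
    exact h0
  have h2 := h.1 (h1.trans (map_zero _).symm)
  have h3 := congrArg (MvPolynomial.eval ![c + 1, 0]) h2
  simp at h3

lemma ev_ne {u v : K} (h : Coord K u v) {c : ℂ[X]} (hc : c ≠ 0) : aeval v c ≠ 0 := by
  intro h0
  have h1 : E v u (C c) = 0 := by rw [E_C, h0]
  have h2 := E_inj h (h1.trans (map_zero _).symm)
  exact hc (C_eq_zero.1 h2)

/-! ### localisations of the polynomial ring in two variables -/

/-- the ring `ℂ[ζ, v][1/g]` -/
def A (ζ v : K) (g : MvPolynomial (Fin 2) ℂ) (hg : MvPolynomial.aeval ![ζ, v] g ≠ 0) :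
    Subring K where
  carrier := {w | ∃ (p : MvPolynomial (Fin 2) ℂ) (n : ℕ),
    w = MvPolynomial.aeval ![ζ, v] p / MvPolynomial.aeval ![ζ, v] g ^ n}
  zero_mem' := ⟨0, 0, by simp⟩
  one_mem' := ⟨1, 0, by simp⟩
  add_mem' := by
    rintro _ _ ⟨p, n, rfl⟩ ⟨q, m, rfl⟩
    refine ⟨p * g ^ m + q * g ^ n, n + m, ?_⟩
    rw [map_add, map_mul, map_mul, map_pow, map_pow, pow_add]
    field_simp
  mul_mem' := by
    rintro _ _ ⟨p, n, rfl⟩ ⟨q, m, rfl⟩
    refine ⟨p * q, n + m, ?_⟩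
    rw [map_mul, pow_add]
    field_simp
  neg_mem' := by
    rintro _ ⟨p, n, rfl⟩
    refine ⟨-p, n, ?_⟩
    rw [map_neg, neg_div]

lemma mem_A {ζ v : K} {g : MvPolynomial (Fin 2) ℂ} {hg : MvPolynomial.aeval ![ζ, v] g ≠ 0}
    {w : K} : w ∈ A ζ v g hg ↔ ∃ (p : MvPolynomial (Fin 2) ℂ) (n : ℕ),
    w = MvPolynomial.aeval ![ζ, v] p / MvPolynomial.aeval ![ζ, v] g ^ n := Iff.rfl

lemma pol_mem_A {ζ v : K} {g : MvPolynomial (Fin 2) ℂ} (hg : MvPolynomial.aeval ![ζ, v] g ≠ 0)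
    (p : MvPolynomial (Fin 2) ℂ) : MvPolynomial.aeval ![ζ, v] p ∈ A ζ v g hg :=
  ⟨p, 0, by rw [pow_zero, div_one]⟩

lemma E_mem_A {ζ v : K} {g : MvPolynomial (Fin 2) ℂ} (hg : MvPolynomial.aeval ![ζ, v] g ≠ 0)
    (p : ℂ[X][X]) : E v ζ p ∈ A ζ v g hg := by
  rw [E_eq]
  exact pol_mem_A hg _

/-- the elements `c(v) / (u - a i)` -/
noncomputable def zt (u v : K) (a : Fin 4 → ℂ) (c : ℂ[X]) (i : Fin 4) : K :=
  aeval v c / (u - algebraMap ℂ K (a i))

/-- the product of the `ζ_i + c / (a i - a j)`, as a polynomial in `ζ_i` over `ℂ[v]` -/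
noncomputable def DD' (a : Fin 4 → ℂ) (c : ℂ[X]) (i : Fin 4) : ℂ[X][X] :=
  ∏ j ∈ Finset.univ.erase i, (X + C (C (a i - a j)⁻¹ * c))

lemma DD'_monic (a : Fin 4 → ℂ) (c : ℂ[X]) (i : Fin 4) : (DD' a c i).Monic :=
  monic_prod_of_monic _ _ fun _ _ => monic_X_add_C _

section

set_option linter.unusedSectionVars false

variable {u v : K} (h : Coord K u v) (a : Fin 4 → ℂ) (ha : Function.Injective a)
  (c : ℂ[X]) (hc : c ≠ 0)

include h ha hc

lemma fac_eq (i j : Fin 4) (hij : j ≠ i) :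
    E v (zt u v a c i) (X + C (C (a i - a j)⁻¹ * c)) =
      zt u v a c i * (u - algebraMap ℂ K (a j)) * algebraMap ℂ K (a i - a j)⁻¹ := by
  have h1 := sub_ne h (a i)
  have h2 : algebraMap ℂ K (a i - a j) ≠ 0 := by
    rw [Ne, FaithfulSMul.algebraMap_eq_zero_iff]
    exact sub_ne_zero.2 fun h => hij (ha h).symm
  rw [map_add, E_X, E_C, map_mul, aeval_C, map_inv₀]
  unfold zt
  rw [map_sub] at h2 ⊢
  field_simp
  ring

lemma zt_ne (i : Fin 4) : zt u v a c i ≠ 0 := div_ne_zero (ev_ne h hc) (sub_ne h _)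

lemma fac_ne (i j : Fin 4) (hij : j ≠ i) :
    E v (zt u v a c i) (X + C (C (a i - a j)⁻¹ * c)) ≠ 0 := by
  rw [fac_eq h a ha c hc i j hij]
  refine mul_ne_zero (mul_ne_zero (zt_ne h a ha c hc i) (sub_ne h _)) ?_
  rw [Ne, FaithfulSMul.algebraMap_eq_zero_iff]
  exact inv_ne_zero (sub_ne_zero.2 fun h => hij (ha h).symm)

lemma DD_ne (i : Fin 4) : E v (zt u v a c i) (DD' a c i) ≠ 0 := by
  unfold DD'
  rw [map_prod]
  exact Finset.prod_ne_zero_iff.2 fun j hj =>
    fac_ne h a ha c hc i j (Finset.ne_of_mem_erase hj)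

lemma DD_ne' (i : Fin 4) : MvPolynomial.aeval ![zt u v a c i, v] (io (DD' a c i)) ≠ 0 := by
  rw [← E_eq]
  exact DD_ne h a ha c hc i

/-- `ξ_j` is in the ring `A` for `ζ_i`, `j ≠ i` -/
lemma xi_mem (i j : Fin 4) (hij : j ≠ i) :
    (u - algebraMap ℂ K (a j))⁻¹ ∈ A (zt u v a c i) v (io (DD' a c i)) (DD_ne' h a ha c hc i) := by
  have h1 := sub_ne h (a j)
  have h2 := zt_ne h a ha c hc i
  have h3 : algebraMap ℂ K (a i - a j)⁻¹ ≠ 0 := by
    rw [Ne, FaithfulSMul.algebraMap_eq_zero_iff]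
    exact inv_ne_zero (sub_ne_zero.2 fun h => hij (ha h).symm)
  have hj : j ∈ Finset.univ.erase i := Finset.mem_erase.2 ⟨hij, Finset.mem_univ j⟩
  -- the product of the other factors
  have hD : DD' a c i = (X + C (C (a i - a j)⁻¹ * c)) *
      ∏ l ∈ (Finset.univ.erase i).erase j, (X + C (C (a i - a l)⁻¹ * c)) := by
    unfold DD'
    exact (Finset.mul_prod_erase _ (fun l => (X + C (C (a i - a l)⁻¹ * c) : ℂ[X][X])) hj).symm
  have hrest : E v (zt u v a c i)
      (∏ l ∈ (Finset.univ.erase i).erase j, (X + C (C (a i - a l)⁻¹ * c))) ≠ 0 := by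
    have h4 := DD_ne h a ha c hc i
    rw [hD, map_mul] at h4
    exact right_ne_zero_of_mul h4
  refine ⟨io (X * C (C (a i - a j)⁻¹) *
      ∏ l ∈ (Finset.univ.erase i).erase j, (X + C (C (a i - a l)⁻¹ * c))), 1, ?_⟩
  rw [pow_one, ← E_eq, ← E_eq, map_mul, map_mul, E_X, E_C, aeval_C]
  conv_rhs => rw [hD, map_mul, fac_eq h a ha c hc i j hij]
  generalize algebraMap ℂ K (a i - a j)⁻¹ = k at h3 ⊢
  generalize E v (zt u v a c i)
    (∏ l ∈ (Finset.univ.erase i).erase j, (X + C (C (a i - a l)⁻¹ * c))) = r at hrest ⊢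
  generalize zt u v a c i = w at h2 ⊢
  field_simp

/-- the generators of the chart ring are in `A` -/
lemma zt_mem (Q : ℂ[X]) (i : Fin 4) (hi : zt u v a Q i ∈
    A (zt u v a c i) v (io (DD' a c i)) (DD_ne' h a ha c hc i)) (j : Fin 4) :
    zt u v a Q j ∈ A (zt u v a c i) v (io (DD' a c i)) (DD_ne' h a ha c hc i) := by
  by_cases hij : j = i
  · rw [hij]
    exact hi
  · have hz : zt u v a Q j = aeval v Q * (u - algebraMap ℂ K (a j))⁻¹ := div_eq_mul_inv _ _
    rw [hz]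
    refine Subring.mul_mem _ ?_ (xi_mem h a ha c hc i j hij)
    have := E_mem_A (DD_ne' h a ha c hc i) (C Q)
    rwa [E_C] at this

lemma Bring_le (Q : ℂ[X]) (i : Fin 4) (hi : zt u v a Q i ∈
    A (zt u v a c i) v (io (DD' a c i)) (DD_ne' h a ha c hc i)) :
    (Bring u v a Q).toSubring ≤ A (zt u v a c i) v (io (DD' a c i)) (DD_ne' h a ha c hc i) := by
  intro w hw
  have hw' : w ∈ Bring u v a Q := hw
  unfold Bring at hw'
  induction hw' using Algebra.adjoin_induction with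
  | mem x hx =>
    rcases hx with hx | ⟨j, rfl⟩
    · rw [Set.mem_singleton_iff.1 hx]
      have := E_mem_A (DD_ne' h a ha c hc i) (C X)
      rwa [E_C, aeval_X] at this
    · exact zt_mem h a ha c hc Q i hi j
  | algebraMap b =>
    have := E_mem_A (DD_ne' h a ha c hc i) (C (C b))
    rwa [E_C, aeval_C] at this
  | add x y hx hy ihx ihy => exact Subring.add_mem _ (ihx hx) (ihy hy)
  | mul x y hx hy ihx ihy => exact Subring.mul_mem _ (ihx hx) (ihy hy)

end

omit [Algebra ℂ K] in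
lemma integral_mono {A B : Subring K} (hAB : A ≤ B) {z : K} (hz : _root_.IsIntegral A z) :
    _root_.IsIntegral B z := by
  obtain ⟨p, hp, h0⟩ := hz
  refine ⟨p.map (Subring.inclusion hAB), hp.map _, ?_⟩
  rw [eval₂_map]
  exact h0

/-! ### partial fractions -/

section PF

variable (u v : K) (a : Fin 4 → ℂ)

/-- sums of polynomials in the `ξ_j` -/
def S : AddSubmonoid K where
  carrier := {w | ∃ H : Fin 4 → ℂ[X][X], w = ∑ j, E v (u - algebraMap ℂ K (a j))⁻¹ (H j)}
  zero_mem' := ⟨0, by simp⟩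
  add_mem' := by
    rintro _ _ ⟨H, rfl⟩ ⟨H', rfl⟩
    refine ⟨H + H', ?_⟩
    simp only [Pi.add_apply, map_add, Finset.sum_add_distrib]

lemma E_mem_S (j : Fin 4) (G : ℂ[X][X]) : E v (u - algebraMap ℂ K (a j))⁻¹ G ∈ S u v a := by
  refine ⟨Pi.single j G, ?_⟩
  rw [Finset.sum_eq_single j]
  · simp
  · intro i _ hij
    rw [Pi.single_eq_of_ne hij, map_zero]
  · simp

lemma smul_mem_S (r : ℂ[X]) {w : K} (hw : w ∈ S u v a) : aeval v r * w ∈ S u v a := by
  obtain ⟨H, rfl⟩ := hw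
  refine ⟨fun j => C r * H j, ?_⟩
  rw [Finset.mul_sum]
  refine Finset.sum_congr rfl fun j _ => ?_
  rw [map_mul, E_C]

variable {u v a}

lemma xi_mul (h : Coord K u v) (ha : Function.Injective a) (i j : Fin 4) (hij : i ≠ j) :
    (u - algebraMap ℂ K (a i))⁻¹ * (u - algebraMap ℂ K (a j))⁻¹ =
      algebraMap ℂ K (a i - a j)⁻¹ *
        ((u - algebraMap ℂ K (a i))⁻¹ - (u - algebraMap ℂ K (a j))⁻¹) := by
  have h1 := sub_ne h (a i)
  have h2 := sub_ne h (a j)
  have h3 : algebraMap ℂ K (a i - a j) ≠ 0 := by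
    rw [Ne, FaithfulSMul.algebraMap_eq_zero_iff]
    exact sub_ne_zero.2 fun h => hij (ha h)
  rw [map_inv₀]
  rw [map_sub] at h3 ⊢
  field_simp
  ring

lemma xi_mul_mem (h : Coord K u v) (ha : Function.Injective a) (i j : Fin 4) (hij : i ≠ j)
    (m : ℕ) (r : ℂ[X]) : (u - algebraMap ℂ K (a i))⁻¹ *
      (aeval v r * (u - algebraMap ℂ K (a j))⁻¹ ^ m) ∈ S u v a := by
  induction m generalizing r with
  | zero =>
    have h1 := E_mem_S u v a i (C r * X)
    rw [map_mul, E_C, E_X] at h1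
    rw [pow_zero, mul_one, mul_comm]
    exact h1
  | succ m ih =>
    have h1 : (u - algebraMap ℂ K (a i))⁻¹ *
        (aeval v r * (u - algebraMap ℂ K (a j))⁻¹ ^ (m + 1)) =
        (u - algebraMap ℂ K (a i))⁻¹ * (aeval v (C (a i - a j)⁻¹ * r) *
          (u - algebraMap ℂ K (a j))⁻¹ ^ m) +
        E v (u - algebraMap ℂ K (a j))⁻¹ (C (-(C (a i - a j)⁻¹ * r)) * X ^ (m + 1)) := by
      rw [map_mul (E v _), E_C, map_pow, E_X, map_neg, map_mul, aeval_C]
      have h2 := xi_mul h ha i j hij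
      calc (u - algebraMap ℂ K (a i))⁻¹ *
          (aeval v r * (u - algebraMap ℂ K (a j))⁻¹ ^ (m + 1))
          = ((u - algebraMap ℂ K (a i))⁻¹ * (u - algebraMap ℂ K (a j))⁻¹) *
            (aeval v r * (u - algebraMap ℂ K (a j))⁻¹ ^ m) := by ring
        _ = _ := by rw [h2]; ring
    rw [h1]
    exact (S u v a).add_mem (ih _) (E_mem_S u v a j _)

lemma xi_smul_mem (h : Coord K u v) (ha : Function.Injective a) (i : Fin 4) {w : K}
    (hw : w ∈ S u v a) : (u - algebraMap ℂ K (a i))⁻¹ * w ∈ S u v a := by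
  obtain ⟨H, rfl⟩ := hw
  rw [Finset.mul_sum]
  refine AddSubmonoid.sum_mem _ fun j _ => ?_
  by_cases hij : i = j
  · subst hij
    have h1 := E_mem_S u v a i (X * H i)
    rwa [map_mul, E_X] at h1
  · generalize H j = G
    induction G using Polynomial.induction_on' with
    | add p q hp hq =>
      rw [map_add, mul_add]
      exact (S u v a).add_mem hp hq
    | monomial m r =>
      have h1 : E v (u - algebraMap ℂ K (a j))⁻¹ (monomial m r) =
          aeval v r * (u - algebraMap ℂ K (a j))⁻¹ ^ m := by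
        rw [← C_mul_X_pow_eq_monomial, map_mul, E_C, map_pow, E_X]
      rw [h1]
      exact xi_mul_mem h ha i j hij m r

/-- the ring of all polynomials in `v` and the `ξ_j` is contained in `S` -/
lemma adjoin_le_S (h : Coord K u v) (ha : Function.Injective a) {w : K}
    (hw : w ∈ Algebra.adjoin ℂ ({v} ∪ Set.range fun i => (u - algebraMap ℂ K (a i))⁻¹)) :
    w ∈ S u v a := by
  have key : ∀ s ∈ S u v a, w * s ∈ S u v a := by
    induction hw using Algebra.adjoin_induction with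
    | mem x hx =>
      intro s hs
      rcases hx with hx | ⟨j, rfl⟩
      · rw [Set.mem_singleton_iff.1 hx]
        have := smul_mem_S u v a X hs
        rwa [aeval_X] at this
      · exact xi_smul_mem h ha j hs
    | algebraMap b =>
      intro s hs
      have := smul_mem_S u v a (C b) hs
      rwa [aeval_C] at this
    | add x y _ _ ihx ihy =>
      intro s hs
      rw [add_mul]
      exact (S u v a).add_mem (ihx s hs) (ihy s hs)
    | mul x y _ _ ihx ihy =>
      intro s hs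
      rw [mul_assoc]
      exact ihx _ (ihy s hs)
  have h1 := key 1 (by
    have := E_mem_S u v a 0 1
    rwa [map_one] at this)
  rwa [mul_one] at h1

end PF

/-! ### the main argument -/

lemma E_mem {v ζ : K} {B : Subring K} (hB : ∀ b : ℂ, algebraMap ℂ K b ∈ B) (hv : v ∈ B)
    (hζ : ζ ∈ B) (G : ℂ[X][X]) : E v ζ G ∈ B := by
  have hpol : ∀ c : ℂ[X], aeval v c ∈ B := by
    intro c
    induction c using Polynomial.induction_on' with
    | add p q hp hq =>
      rw [map_add]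
      exact B.add_mem hp hq
    | monomial m b =>
      rw [aeval_monomial]
      exact B.mul_mem (hB b) (B.pow_mem hv m)
  induction G using Polynomial.induction_on' with
  | add p q hp hq =>
    rw [map_add]
    exact B.add_mem hp hq
  | monomial m c =>
    rw [← C_mul_X_pow_eq_monomial, map_mul, E_C, map_pow, E_X]
    exact B.mul_mem (hpol c) (B.pow_mem hζ m)

lemma C_dvd_of_monic {D H : ℂ[X][X]} (hD : D.Monic) {q : ℂ[X]} (h : C q ∣ D * H) : C q ∣ H := by
  have h1 : ∀ P : ℂ[X][X], C q ∣ P ↔ P.map (Ideal.Quotient.mk (Ideal.span {q})) = 0 := by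
    intro P
    rw [C_dvd_iff_dvd_coeff, Polynomial.ext_iff]
    refine forall_congr' fun n => ?_
    rw [coeff_map, coeff_zero, Ideal.Quotient.eq_zero_iff_mem, Ideal.mem_span_singleton]
  rw [h1] at h ⊢
  rw [Polynomial.map_mul] at h
  exact ((hD.map _).mul_right_eq_zero_iff).1 h

lemma mem_Bring_v (u v : K) (a : Fin 4 → ℂ) (Q : ℂ[X]) : v ∈ Bring u v a Q :=
  Algebra.subset_adjoin (Or.inl rfl)

lemma mem_Bring_zt (u v : K) (a : Fin 4 → ℂ) (Q : ℂ[X]) (i : Fin 4) :
    zt u v a Q i ∈ Bring u v a Q :=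
  Algebra.subset_adjoin (Or.inr ⟨i, rfl⟩)

lemma E_mem_Bring (u v : K) (a : Fin 4 → ℂ) (Q : ℂ[X]) (i : Fin 4) (G : ℂ[X][X]) :
    E v (zt u v a Q i) G ∈ Bring u v a Q :=
  E_mem (B := (Bring u v a Q).toSubring) (fun b => (Bring u v a Q).algebraMap_mem b)
    (mem_Bring_v u v a Q) (mem_Bring_zt u v a Q i) G

/-- step (11) -/
lemma part_mem {u v : K} (h : Coord K u v) {a : Fin 4 → ℂ} (ha : Function.Injective a) {Q : ℂ[X]}
    (hQ : Q ≠ 0) (i : Fin 4) (hi : Coord K (zt u v a Q i) v) (H : ℂ[X][X])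
    (hw : E v (u - algebraMap ℂ K (a i))⁻¹ H ∈
      A (zt u v a Q i) v (io (DD' a Q i)) (DD_ne' h a ha Q hQ i)) :
    E v (u - algebraMap ℂ K (a i))⁻¹ H ∈ Bring u v a Q := by
  obtain ⟨p, n, hp⟩ := hw
  obtain ⟨G, hG⟩ := exists_E v (zt u v a Q i) p
  have hD := DD_ne h a ha Q hQ i
  have hQv := ev_ne h hQ
  rw [hG, ← E_eq] at hp
  set w := E v (u - algebraMap ℂ K (a i))⁻¹ H with hw
  have h1 : E v (zt u v a Q i) (scaleRoots H Q) = aeval v Q ^ H.natDegree * w := by
    have h2 := scaleRoots_eval₂_mul (p := H) (ev v) (u - algebraMap ℂ K (a i))⁻¹ Q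
    have h3 : zt u v a Q i = ev v Q * (u - algebraMap ℂ K (a i))⁻¹ := div_eq_mul_inv _ _
    rw [E_apply, h3, h2]
    rfl
  have h2 : E v (zt u v a Q i) (DD' a Q i ^ n * scaleRoots H Q) =
      E v (zt u v a Q i) (C (Q ^ H.natDegree) * G) := by
    rw [map_mul, map_mul, h1, E_C, map_pow, map_pow, hp]
    field_simp
  have h3 := E_inj hi h2
  have h4 : C (Q ^ H.natDegree) ∣ scaleRoots H Q :=
    C_dvd_of_monic ((DD'_monic a Q i).pow n) (h3 ▸ dvd_mul_right _ _)
  obtain ⟨G', hG'⟩ := h4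
  rw [hG', map_mul, E_C, map_pow] at h1
  have h5 : w = E v (zt u v a Q i) G' :=
    (mul_left_cancel₀ (pow_ne_zero _ hQv) h1).symm
  rw [h5]
  exact E_mem_Bring u v a Q i G'

/-- step (8') -/
lemma mem_adjoin_of_A {u v : K} (h : Coord K u v) {a : Fin 4 → ℂ} (ha : Function.Injective a)
    {z : K} (hz : z ∈ A (zt u v a 1 0) v (io (DD' a 1 0)) (DD_ne' h a ha 1 one_ne_zero 0)) :
    z ∈ Algebra.adjoin ℂ ({v} ∪ Set.range fun i => (u - algebraMap ℂ K (a i))⁻¹) := by
  set B := Algebra.adjoin ℂ ({v} ∪ Set.range fun i => (u - algebraMap ℂ K (a i))⁻¹) with hB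
  have hv : v ∈ B := Algebra.subset_adjoin (Or.inl rfl)
  have hx : ∀ i, (u - algebraMap ℂ K (a i))⁻¹ ∈ B := fun i =>
    Algebra.subset_adjoin (Or.inr ⟨i, rfl⟩)
  have hz1 : zt u v a 1 0 = (u - algebraMap ℂ K (a 0))⁻¹ := by
    unfold zt
    rw [map_one, one_div]
  obtain ⟨p, n, rfl⟩ := hz
  obtain ⟨G, hG⟩ := exists_E v (zt u v a 1 0) p
  rw [hG, ← E_eq, div_eq_mul_inv, ← inv_pow]
  refine B.mul_mem ?_ (B.pow_mem ?_ n)
  · exact E_mem (B := B.toSubring) (fun b => B.algebraMap_mem b) hv (by rw [hz1]; exact hx 0) G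
  · unfold DD'
    rw [map_prod, ← Finset.prod_inv_distrib]
    refine Subalgebra.prod_mem B fun j hj => ?_
    have hj0 := Finset.ne_of_mem_erase hj
    rw [fac_eq h a ha 1 one_ne_zero 0 j hj0, hz1]
    have h1 := sub_ne h (a 0)
    have h2 := sub_ne h (a j)
    have h3 : algebraMap ℂ K (a 0 - a j) ≠ 0 := by
      rw [Ne, FaithfulSMul.algebraMap_eq_zero_iff]
      exact sub_ne_zero.2 fun h => hj0 (ha h).symm
    have h4 : ((u - algebraMap ℂ K (a 0))⁻¹ * (u - algebraMap ℂ K (a j)) *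
        algebraMap ℂ K (a 0 - a j)⁻¹)⁻¹ = algebraMap ℂ K (a 0 - a j) *
        (1 - algebraMap ℂ K (a 0 - a j) * (u - algebraMap ℂ K (a j))⁻¹) := by
      rw [map_inv₀]
      rw [map_sub] at h3 ⊢
      field_simp
      ring
    rw [h4]
    exact B.mul_mem (B.algebraMap_mem _) (B.sub_mem B.one_mem
      (B.mul_mem (B.algebraMap_mem _) (hx j)))

end BRN_

open BRN_ in
theorem tBRN : T_UFD → T_CHG → T_BRN := by
  intro hUFD hCHG K _ _ u v h a Q ha hQ
  obtain ⟨-, c2, -, c4, -⟩ := hCHG K u v h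
  have hco : ∀ i, Coord K (zt u v a Q i) v := fun i => c4 (a i) Q hQ
  have hco1 : Coord K (zt u v a 1 0) v := by
    have h1 := c2 (a 0)
    have hz1 : zt u v a 1 0 = 1 / (u - algebraMap ℂ K (a 0)) := by
      unfold zt
      rw [map_one]
    rw [hz1]
    exact h1
  -- the fraction field
  have hfrac : ∀ z : K, ∃ p q : K, p ∈ Bring u v a Q ∧ q ∈ Bring u v a Q ∧ q ≠ 0 ∧ z = p / q := by
    intro z
    obtain ⟨p, q, hq, hz⟩ := (hco 0).2 z
    obtain ⟨G, hG⟩ := exists_E v (zt u v a Q 0) p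
    obtain ⟨G', hG'⟩ := exists_E v (zt u v a Q 0) q
    refine ⟨_, _, ?_, ?_, hq, hz⟩
    · rw [hG]
      exact E_mem_Bring u v a Q 0 G
    · rw [hG']
      exact E_mem_Bring u v a Q 0 G'
  refine ⟨?_, hfrac⟩
  have hIF : IsFractionRing (Bring u v a Q).toSubring K := by
    refine ⟨⟨?_, ?_, ?_⟩⟩
    · rintro ⟨q, hq⟩
      have hq0 : q ≠ 0 := nonZeroDivisors.ne_zero hq
      apply IsUnit.mk0
      intro h0
      exact hq0 (Subtype.ext h0)
    · intro z
      obtain ⟨p, q, hp, hq, hq0, hz⟩ := hfrac z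
      refine ⟨(⟨p, hp⟩, ⟨⟨q, hq⟩, mem_nonZeroDivisors_of_ne_zero fun h0 =>
        hq0 (congrArg Subtype.val h0)⟩), ?_⟩
      show z * q = p
      rw [hz]
      field_simp
    · intro x y hxy
      exact ⟨1, by rw [Subtype.ext hxy]⟩
  rw [isIntegrallyClosed_iff K]
  intro z hz
  -- `z` is in the ring of polynomials in `v` and the `ξ_j`
  have hzA : z ∈ A (zt u v a 1 0) v (io (DD' a 1 0)) (DD_ne' h a ha 1 one_ne_zero 0) := by
    have hne : io (DD' a 1 0) ≠ 0 := by
      intro h0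
      apply DD_ne' h a ha 1 one_ne_zero 0
      rw [h0, map_zero]
    refine hUFD K _ _ hco1 _ hne z _ (fun w => Iff.rfl) ?_
    refine integral_mono (Bring_le h a ha 1 one_ne_zero Q 0 ?_) hz
    have h1 := E_mem_A (DD_ne' h a ha 1 one_ne_zero 0) (C Q * X)
    have h2 : E v (zt u v a 1 0) (C Q * X) = zt u v a Q 0 := by
      rw [map_mul, E_C, E_X]
      unfold zt
      rw [map_one, mul_one_div]
    rwa [h2] at h1
  obtain ⟨H, hH⟩ := adjoin_le_S h ha (mem_adjoin_of_A h ha hzA)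
  have hzi : ∀ i, z ∈ A (zt u v a Q i) v (io (DD' a Q i)) (DD_ne' h a ha Q hQ i) := by
    intro i
    have hne : io (DD' a Q i) ≠ 0 := by
      intro h0
      apply DD_ne' h a ha Q hQ i
      rw [h0, map_zero]
    refine hUFD K _ _ (hco i) _ hne z _ (fun w => Iff.rfl) ?_
    refine integral_mono (Bring_le h a ha Q hQ Q i ?_) hz
    have h1 := E_mem_A (DD_ne' h a ha Q hQ i) X
    rwa [E_X] at h1
  have hpart : ∀ i, E v (u - algebraMap ℂ K (a i))⁻¹ (H i) ∈ Bring u v a Q := by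
    intro i
    apply part_mem h ha hQ i (hco i)
    set B := A (zt u v a Q i) v (io (DD' a Q i)) (DD_ne' h a ha Q hQ i) with hBdef
    have hBc : ∀ b : ℂ, algebraMap ℂ K b ∈ B := by
      intro b
      have := E_mem_A (DD_ne' h a ha Q hQ i) (C (C b))
      rwa [E_C, aeval_C] at this
    have hBv : v ∈ B := by
      have := E_mem_A (DD_ne' h a ha Q hQ i) (C X)
      rwa [E_C, aeval_X] at this
    have h1 : E v (u - algebraMap ℂ K (a i))⁻¹ (H i) =
        z - ∑ j ∈ Finset.univ.erase i, E v (u - algebraMap ℂ K (a j))⁻¹ (H j) := by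
      rw [hH, ← Finset.add_sum_erase _ _ (Finset.mem_univ i), add_sub_cancel_right]
    rw [h1]
    refine B.sub_mem (hzi i) (B.sum_mem fun j hj => ?_)
    exact E_mem hBc hBv (xi_mem h a ha Q hQ i j (Finset.ne_of_mem_erase hj)) (H j)
  have hzB : z ∈ Bring u v a Q := by
    rw [hH]
    exact Subalgebra.sum_mem _ fun j _ => hpart j
  exact ⟨⟨z, hzB⟩, rfl⟩

end Pool.Agent.KCY
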