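import Pool.Agent.KCY.Targets
import Pool.Agent.KCY.BRN

set_option autoImplicit false
set_option maxHeartbeats 4000000

open AlgebraicGeometry CategoryTheory Polynomial

namespace Pool.Agent.KCY

open Rees

namespace BRH_

open BRN_

variable {K : Type} [Field K] [Algebra ℂ K]

/-- evaluation at `(ζ, v)` -/
noncomputable abbrev ph (ζ v : K) : MvPolynomial (Fin 2) ℂ →ₐ[ℂ] K := MvPolynomial.aeval ![ζ, v]

/-- the local ring of the plane at the curve `F = 0` -/
def inO (ζ v : K) (F : MvPolynomial (Fin 2) ℂ) (w : K) : Prop :=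
  ∃ P R : MvPolynomial (Fin 2) ℂ, ¬ F ∣ R ∧ w = ph ζ v P / ph ζ v R

/-- its maximal ideal -/
def inM (ζ v : K) (F : MvPolynomial (Fin 2) ℂ) (w : K) : Prop :=
  ∃ P R : MvPolynomial (Fin 2) ℂ, ¬ F ∣ R ∧ F ∣ P ∧ w = ph ζ v P / ph ζ v R

section

variable {ζ v : K} (hco : Coord K ζ v) {F : MvPolynomial (Fin 2) ℂ} (hF : Irreducible F)

include hco in
lemma ph_ne {P : MvPolynomial (Fin 2) ℂ} (hP : P ≠ 0) : ph ζ v P ≠ 0 := fun h0 =>
  hP (hco.1 (h0.trans (map_zero _).symm))

lemma ne_of_not_dvd {R : MvPolynomial (Fin 2) ℂ} (hR : ¬ F ∣ R) : R ≠ 0 := by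
  rintro rfl
  exact hR (dvd_zero F)

include hF in
lemma not_dvd_one : ¬ F ∣ 1 := fun h => hF.not_isUnit (isUnit_of_dvd_one h)

include hF in
lemma not_dvd_mul {R R' : MvPolynomial (Fin 2) ℂ} (h : ¬ F ∣ R) (h' : ¬ F ∣ R') :
    ¬ F ∣ R * R' := fun hd => (hF.prime.dvd_or_dvd hd).elim h h'

include hco hF in
lemma inM_add {w w' : K} (h : inM ζ v F w) (h' : inM ζ v F w') : inM ζ v F (w + w') := by
  obtain ⟨P, R, hR, hP, rfl⟩ := h
  obtain ⟨P', R', hR', hP', rfl⟩ := h'
  refine ⟨P * R' + R * P', R * R', not_dvd_mul hF hR hR', dvd_add (hP.mul_right _)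
    (hP'.mul_left _), ?_⟩
  rw [div_add_div _ _ (ph_ne hco (ne_of_not_dvd hR)) (ph_ne hco (ne_of_not_dvd hR')), map_add,
    map_mul, map_mul, map_mul]

include hF in
lemma inM_mul {w w' : K} (h : inO ζ v F w) (h' : inM ζ v F w') : inM ζ v F (w * w') := by
  obtain ⟨P, R, hR, rfl⟩ := h
  obtain ⟨P', R', hR', hP', rfl⟩ := h'
  refine ⟨P * P', R * R', not_dvd_mul hF hR hR', hP'.mul_left _, ?_⟩
  rw [div_mul_div_comm, map_mul, map_mul]

include hco hF in
lemma inM_div {P R : MvPolynomial (Fin 2) ℂ} (hR : ¬ F ∣ R)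
    (h : inM ζ v F (ph ζ v P / ph ζ v R)) : F ∣ P := by
  obtain ⟨P', R', hR', hP', e⟩ := h
  have h1 := ph_ne hco (ne_of_not_dvd hR)
  have h2 := ph_ne hco (ne_of_not_dvd hR')
  rw [div_eq_div_iff h1 h2, ← map_mul, ← map_mul] at e
  have e' := hco.1 e
  have h3 : F ∣ P * R' := by
    rw [e']
    exact hP'.mul_right _
  exact (hF.prime.dvd_or_dvd h3).resolve_right hR'

end

section

set_option linter.unusedSectionVars false

variable {u v : K} (h : Coord K u v) {a : Fin 4 → ℂ} (ha : Function.Injective a)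
  {Q c e : ℂ[X]} (hc : c ≠ 0) (hQ : Q = c * e) {i : Fin 4} (hco : Coord K (zt u v a c i) v)
  {F : MvPolynomial (Fin 2) ℂ} (hF : Irreducible F) (hFD : ¬ F ∣ io (DD' a c i))

include h ha hc hQ

lemma Bring_le' : (Bring u v a Q).toSubring ≤
    A (zt u v a c i) v (io (DD' a c i)) (DD_ne' h a ha c hc i) := by
  refine Bring_le h a ha c hc Q i ?_
  have h1 := E_mem_A (DD_ne' h a ha c hc i) (C e * X)
  have h2 : E v (zt u v a c i) (C e * X) = zt u v a Q i := by
    rw [map_mul, E_C, E_X]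
    unfold zt
    rw [hQ, map_mul]
    ring
  rwa [h2] at h1

include hF hFD

lemma inO_of_mem {w : K} (hw : w ∈ Bring u v a Q) : inO (zt u v a c i) v F w := by
  obtain ⟨p, n, rfl⟩ := Bring_le' h ha hc hQ (i := i) hw
  refine ⟨p, io (DD' a c i) ^ n, ?_, by rw [map_pow]⟩
  intro hd
  exact hFD (hF.prime.dvd_of_dvd_pow hd)

include hco

/-- the contraction of the maximal ideal -/
noncomputable def p1 : Ideal (Bring u v a Q).toSubring where
  carrier := {w | inM (zt u v a c i) v F (w : K)}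
  zero_mem' := ⟨0, 1, not_dvd_one hF, dvd_zero _, by simp⟩
  add_mem' := by
    intro w w' hw hw'
    exact inM_add hco hF hw hw'
  smul_mem' := by
    intro w w' hw'
    exact inM_mul hF (inO_of_mem h ha hc hQ hF hFD w.2) hw'

lemma mem_p1 {w : (Bring u v a Q).toSubring} :
    w ∈ p1 h ha hc hQ hco hF hFD ↔ inM (zt u v a c i) v F (w : K) := Iff.rfl

lemma p1_prime : (p1 h ha hc hQ hco hF hFD).IsPrime := by
  refine ⟨?_, ?_⟩
  · intro htop
    have h1 : (1 : (Bring u v a Q).toSubring) ∈ p1 h ha hc hQ hco hF hFD := by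
      rw [htop]
      trivial
    have h2 : inM (zt u v a c i) v F (ph (zt u v a c i) v 1 / ph (zt u v a c i) v 1) := by
      rw [map_one, div_one]
      exact h1
    exact not_dvd_one hF (inM_div hco hF (not_dvd_one hF) h2)
  · intro w w' hww
    obtain ⟨P, R, hR, hw⟩ := inO_of_mem h ha hc hQ hF hFD w.2
    obtain ⟨P', R', hR', hw'⟩ := inO_of_mem h ha hc hQ hF hFD w'.2
    have h1 : inM (zt u v a c i) v F ((w : K) * w') := hww
    rw [hw, hw', div_mul_div_comm, ← map_mul, ← map_mul] at h1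
    have h2 := inM_div hco hF (not_dvd_mul hF hR hR') h1
    rcases hF.prime.dvd_or_dvd h2 with h3 | h3
    · left
      exact ⟨P, R, hR, h3, hw⟩
    · right
      exact ⟨P', R', hR', h3, hw'⟩

/-- a prime of height one which contains `p1` is equal to `p1` -/
lemma eq_p1 (p : Ideal (Bring u v a Q).toSubring) [p.IsPrime]
    (hdim : ringKrullDim (Localization.AtPrime p) = 1) (hle : p1 h ha hc hQ hco hF hFD ≤ p)
    (w : (Bring u v a Q).toSubring) (hw : w ∈ p1 h ha hc hQ hco hF hFD) (hw0 : w ≠ 0) :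
    p1 h ha hc hQ hco hF hFD = p := by
  have := p1_prime h ha hc hQ hco hF hFD
  have hht : p.height = 1 := by
    have h1 := IsLocalization.AtPrime.ringKrullDim_eq_height p (Localization.AtPrime p)
    rw [hdim] at h1
    exact_mod_cast h1.symm
  have hne : (p1 h ha hc hQ hco hF hFD).height ≠ 0 := by
    rw [Ne, Ideal.height_eq_zero_iff_eq_bot]
    intro h0
    rw [h0] at hw
    exact hw0 hw
  have hfin : (p1 h ha hc hQ hco hF hFD).FiniteHeight := by
    refine (Ideal.finiteHeight_iff _).2 (Or.inr ?_)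
    intro htop
    have h2 := Ideal.height_mono hle
    rw [htop, hht] at h2
    exact absurd h2 (by simp)
  refine Ideal.eq_of_le_of_height_le _ hle ?_
  rw [hht]
  exact Order.one_le_iff_ne_zero.2 hne

omit hco hF hFD in
/-- powers of `e` bring polynomials in `ζ` and `v` into the chart ring -/
lemma exists_pow_mem (P : MvPolynomial (Fin 2) ℂ) :
    ∃ N : ℕ, aeval v e ^ N * ph (zt u v a c i) v P ∈ Bring u v a Q := by
  have he : aeval v e ∈ Bring u v a Q := by
    rw [← E_C v (zt u v a Q 0)]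
    exact E_mem_Bring u v a Q 0 _
  have hz : aeval v e * zt u v a c i ∈ Bring u v a Q := by
    have h1 : aeval v e * zt u v a c i = zt u v a Q i := by
      unfold zt
      rw [hQ, map_mul]
      ring
    rw [h1]
    exact mem_Bring_zt u v a Q i
  induction P using MvPolynomial.induction_on with
  | C b =>
    refine ⟨0, ?_⟩
    rw [pow_zero, one_mul, MvPolynomial.aeval_C]
    exact Subalgebra.algebraMap_mem _ b
  | add p q hp hq =>
    obtain ⟨N, hN⟩ := hp
    obtain ⟨M, hM⟩ := hq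
    refine ⟨N + M, ?_⟩
    have h1 : aeval v e ^ (N + M) * ph (zt u v a c i) v (p + q) =
        aeval v e ^ M * (aeval v e ^ N * ph (zt u v a c i) v p) +
        aeval v e ^ N * (aeval v e ^ M * ph (zt u v a c i) v q) := by
      rw [map_add]
      ring
    rw [h1]
    exact Subalgebra.add_mem _ (Subalgebra.mul_mem _ (Subalgebra.pow_mem _ he _) hN)
      (Subalgebra.mul_mem _ (Subalgebra.pow_mem _ he _) hM)
  | mul_X p j hp =>
    obtain ⟨N, hN⟩ := hp
    fin_cases j
    · refine ⟨N + 1, ?_⟩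
      have h1 : aeval v e ^ (N + 1) * ph (zt u v a c i) v (p * MvPolynomial.X 0) =
          (aeval v e ^ N * ph (zt u v a c i) v p) * (aeval v e * zt u v a c i) := by
        rw [map_mul, MvPolynomial.aeval_X]
        show aeval v e ^ (N + 1) * (ph (zt u v a c i) v p * zt u v a c i) = _
        ring
      exact h1 ▸ Subalgebra.mul_mem _ hN hz
    · refine ⟨N, ?_⟩
      have h1 : aeval v e ^ N * ph (zt u v a c i) v (p * MvPolynomial.X 1) =
          (aeval v e ^ N * ph (zt u v a c i) v p) * v := by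
        rw [map_mul, MvPolynomial.aeval_X]
        show aeval v e ^ N * (ph (zt u v a c i) v p * v) = _
        ring
      exact h1 ▸ Subalgebra.mul_mem _ hN (mem_Bring_v u v a Q)

/-- the localisation at `p1` is the local ring of the plane at the curve -/
lemma mem_locSub (hFe : ¬ F ∣ io (C e)) (p : Ideal (Bring u v a Q).toSubring) [p.IsPrime]
    (hp : p1 h ha hc hQ hco hF hFD = p) (z : K) :
    z ∈ locSub (Bring u v a Q).toSubring p ↔ inO (zt u v a c i) v F z := by
  have hev : aeval v e = ph (zt u v a c i) v (io (C e)) := by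
    rw [← E_eq, E_C]
  constructor
  · rintro ⟨x, y, hy, rfl⟩
    obtain ⟨P, R, hR, hw⟩ := inO_of_mem h ha hc hQ hF hFD x.2
    obtain ⟨P', R', hR', hw'⟩ := inO_of_mem h ha hc hQ hF hFD y.2
    have hP' : ¬ F ∣ P' := by
      intro hd
      apply hy
      rw [← hp, mem_p1]
      exact ⟨P', R', hR', hd, hw'⟩
    refine ⟨P * R', R * P', not_dvd_mul hF hR hP', ?_⟩
    rw [hw, hw', div_div_div_eq, map_mul, map_mul]
  · rintro ⟨P, R, hR, hz⟩
    obtain ⟨N, hN⟩ := exists_pow_mem h ha hc hQ (i := i) P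
    obtain ⟨M, hM⟩ := exists_pow_mem h ha hc hQ (i := i) R
    have he : aeval v e ∈ Bring u v a Q := by
      rw [← E_C v (zt u v a Q 0)]
      exact E_mem_Bring u v a Q 0 _
    have he0 : aeval v e ≠ 0 := by
      rw [hev]
      exact ph_ne hco (ne_of_not_dvd hFe)
    refine ⟨⟨aeval v e ^ M * (aeval v e ^ N * ph (zt u v a c i) v P),
      Subalgebra.mul_mem _ (Subalgebra.pow_mem _ he _) hN⟩,
      ⟨aeval v e ^ N * (aeval v e ^ M * ph (zt u v a c i) v R),
      Subalgebra.mul_mem _ (Subalgebra.pow_mem _ he _) hM⟩, ?_, ?_⟩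
    · rw [← hp, mem_p1]
      intro hin
      have h1 : inM (zt u v a c i) v F (ph (zt u v a c i) v (io (C e) ^ N * (io (C e) ^ M * R)) /
          ph (zt u v a c i) v 1) := by
        rw [map_mul, map_mul, map_pow, map_pow, map_one, div_one, ← hev]
        exact hin
      have h2 := inM_div hco hF (not_dvd_one hF) h1
      have h3 : ∀ n : ℕ, ¬ F ∣ io (C e) ^ n := fun n hd => hFe (hF.prime.dvd_of_dvd_pow hd)
      exact not_dvd_mul hF (h3 N) (not_dvd_mul hF (h3 M) hR) h2
    · have h4 := ph_ne hco (ne_of_not_dvd hR)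
      show z = (aeval v e ^ M * (aeval v e ^ N * ph (zt u v a c i) v P)) /
        (aeval v e ^ N * (aeval v e ^ M * ph (zt u v a c i) v R))
      rw [hz]
      field_simp

/-- order zero -/
lemma orderZero (hOM : T_OMEGA) (hCHG : T_CHG) (hFe : ¬ F ∣ io (C e))
    (p : Ideal (Bring u v a Q).toSubring) [p.IsPrime]
    (hp : p1 h ha hc hQ hco hF hFD = p) :
    OrderZero 2 (locSub (Bring u v a Q).toSubring p) 2
      ((aeval u (prodP a) * aeval v Q)⁻¹) (wedgeD K ![u, v]) := by
  have hmem := mem_locSub h ha hc hQ hco hF hFD hFe p hp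
  obtain ⟨-, hom⟩ := hOM K _ _ hco
  obtain ⟨hunif, hreg⟩ := hom F hF (locSub (Bring u v a Q).toSubring p) hmem
  obtain ⟨-, -, -, -, -, -, -, c8⟩ := hCHG K u v h
  have hw := c8 (a i) c hc
  refine ⟨⟨_, hunif⟩, _, hreg, _, hw, ?_⟩
  have hD := DD_ne h a ha c hc i
  have he0 : aeval v e ≠ 0 := by
    have : aeval v e = ph (zt u v a c i) v (io (C e)) := by
      rw [← E_eq, E_C]
    rw [this]
    exact ph_ne hco (ne_of_not_dvd hFe)
  have hcv := ev_ne h hc
  have hk : (∏ j ∈ Finset.univ.erase i, (a i - a j)⁻¹) ≠ 0 :=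
    Finset.prod_ne_zero_iff.2 fun j hj =>
      inv_ne_zero (sub_ne_zero.2 fun h => Finset.ne_of_mem_erase hj (ha h).symm)
  set κ : ℂ := ∏ j ∈ Finset.univ.erase i, (a i - a j)⁻¹ with hκ
  -- the product of the `u - a j`
  have hprod : aeval u (prodP a) = (u - algebraMap ℂ K (a i)) *
      ∏ j ∈ Finset.univ.erase i, (u - algebraMap ℂ K (a j)) := by
    unfold prodP
    rw [map_prod, Finset.mul_prod_erase _ (fun j => u - algebraMap ℂ K (a j))
      (Finset.mem_univ i)]
    refine Finset.prod_congr rfl fun j _ => ?_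
    rw [map_sub, aeval_X, aeval_C]
  have hDprod : E v (zt u v a c i) (DD' a c i) = zt u v a c i ^ 3 *
      (∏ j ∈ Finset.univ.erase i, (u - algebraMap ℂ K (a j))) * algebraMap ℂ K κ := by
    unfold DD'
    rw [map_prod, Finset.prod_congr rfl fun j hj =>
      fac_eq h a ha c hc i j (Finset.ne_of_mem_erase hj)]
    rw [Finset.prod_mul_distrib, Finset.prod_mul_distrib, Finset.prod_const,
      Finset.card_erase_of_mem (Finset.mem_univ i), hκ, map_prod]
    simp
  have hui := sub_ne h (a i)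
  have hz : zt u v a c i = aeval v c / (u - algebraMap ℂ K (a i)) := rfl
  have hκ' : algebraMap ℂ K κ ≠ 0 := by
    rw [Ne, FaithfulSMul.algebraMap_eq_zero_iff]
    exact hk
  have hval : (aeval u (prodP a) * aeval v Q)⁻¹ *
      (-(u - algebraMap ℂ K (a i)) ^ 2 / aeval v c) ^ 2 =
      algebraMap ℂ K κ / (E v (zt u v a c i) (DD' a c i) * aeval v e) := by
    have hP : ∏ j ∈ Finset.univ.erase i, (u - algebraMap ℂ K (a j)) ≠ 0 :=
      Finset.prod_ne_zero_iff.2 fun j _ => sub_ne h (a j)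
    rw [hDprod, hprod, hz, hQ, map_mul]
    field_simp
  have hval' : algebraMap ℂ K κ / (E v (zt u v a c i) (DD' a c i) * aeval v e) =
      ph (zt u v a c i) v (MvPolynomial.C κ) /
        ph (zt u v a c i) v (io (DD' a c i) * io (C e)) := by
    rw [map_mul, ← E_eq, ← E_eq, E_C, MvPolynomial.aeval_C]
  have hCκ : ¬ F ∣ MvPolynomial.C κ := by
    intro hd
    apply hF.not_isUnit
    refine isUnit_of_dvd_unit hd ?_
    exact (IsUnit.mk0 κ hk).map MvPolynomial.C
  constructor
  · rw [hval, hval', hmem]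
    exact ⟨_, _, not_dvd_mul hF hFD hFe, rfl⟩
  · rw [hval, hval', inv_div, hmem]
    exact ⟨_, _, hCκ, rfl⟩

end

/-! ### irreducible polynomials -/

lemma io_right (p : MvPolynomial (Fin 2) ℂ) :
    io (MvPolynomial.aeval ![X, C X] p : ℂ[X][X]) = p := by
  induction p using MvPolynomial.induction_on with
  | C b =>
    rw [MvPolynomial.aeval_C]
    show io (C (C b)) = _
    show eval₂ _ _ _ = _
    rw [eval₂_C]
    show aeval _ (C b) = _
    rw [aeval_C]
    rfl
  | add p q hp hq => rw [map_add, map_add, hp, hq]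
  | mul_X p j hp =>
    rw [map_mul, map_mul, hp, MvPolynomial.aeval_X]
    congr 1
    fin_cases j
    · show eval₂ _ _ X = _
      rw [eval₂_X]
      rfl
    · show eval₂ _ _ (C X) = _
      rw [eval₂_C]
      show aeval _ X = _
      rw [aeval_X]
      rfl

/-- `io` as an isomorphism -/
noncomputable def ioEquiv : ℂ[X][X] ≃+* MvPolynomial (Fin 2) ℂ :=
  RingEquiv.ofBijective io ⟨io_inj, fun p => ⟨_, io_right p⟩⟩

lemma ioEquiv_apply (G : ℂ[X][X]) : ioEquiv G = io G := rfl

lemma io_dvd_iff (G H : ℂ[X][X]) : io G ∣ io H ↔ G ∣ H := by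
  rw [← ioEquiv_apply, ← ioEquiv_apply]
  exact map_dvd_iff ioEquiv

lemma io_irreducible (b : ℂ) : Irreducible (io (C (X - C b))) := by
  rw [← ioEquiv_apply, MulEquiv.irreducible_iff ioEquiv]
  exact (Polynomial.prime_C_iff.2 (prime_X_sub_C b)).irreducible

lemma not_isUnit_X_sub_C (b : ℂ) : ¬ IsUnit (X - C b : ℂ[X]) := (irreducible_X_sub_C b).not_isUnit

/-! ### case B: `Q(v)` is in `p` -/

section caseB

variable {u v : K} (h : Coord K u v) {a : Fin 4 → ℂ} (ha : Function.Injective a)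
  {Q : ℂ[X]} (hQ : Q ≠ 0)

/-- the ring homomorphism `ℂ[X] → B` -/
noncomputable def psi (u v : K) (a : Fin 4 → ℂ) (Q : ℂ[X]) :
    ℂ[X] →+* (Bring u v a Q).toSubring :=
  (ev v).codRestrict (Bring u v a Q).toSubring fun c => by
    have h1 := E_mem_Bring u v a Q 0 (C c)
    rw [E_C] at h1
    exact h1

lemma coe_psi (c : ℂ[X]) : ((psi u v a Q c : (Bring u v a Q).toSubring) : K) = aeval v c := rfl

include hQ in
lemma exists_root (p : Ideal (Bring u v a Q).toSubring) [hp : p.IsPrime] (hQp : psi u v a Q Q ∈ p) :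
    ∃ b : ℂ, Q.eval b = 0 ∧ psi u v a Q (X - C b) ∈ p := by
  have hq : (p.comap (psi u v a Q)).IsPrime := Ideal.comap_isPrime _ _
  have hne : p.comap (psi u v a Q) ≠ ⊥ := by
    intro h0
    have h1 : Q ∈ p.comap (psi u v a Q) := hQp
    rw [h0] at h1
    exact hQ h1
  obtain ⟨x, hx, hxp⟩ := hq.exists_mem_prime_of_ne_bot hne
  obtain ⟨b, hb⟩ := IsAlgClosed.exists_root x (fun h0 => by
    apply hxp.not_isUnit
    rw [eq_C_of_degree_eq_zero h0]
    apply IsUnit.map
    apply IsUnit.mk0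
    intro h2
    apply hxp.ne_zero
    rw [eq_C_of_degree_eq_zero h0, h2, C_0])
  obtain ⟨y, hy⟩ := dvd_iff_isRoot.2 hb
  have hyu : IsUnit y := by
    rcases hxp.irreducible.isUnit_or_isUnit hy with h1 | h1
    · exact absurd h1 (not_isUnit_X_sub_C b)
    · exact h1
  have hXb : X - C b ∈ p.comap (psi u v a Q) := by
    rw [hy] at hx
    rcases hq.mem_or_mem hx with h1 | h1
    · exact h1
    · exact absurd (Ideal.eq_top_of_isUnit_mem _ h1 hyu) hq.ne_top
  refine ⟨b, ?_, hXb⟩
  by_contra hne0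
  obtain ⟨s, hs⟩ := X_sub_C_dvd_sub_C_eval (a := b) (p := Q)
  have h1 : C (Q.eval b) ∈ p.comap (psi u v a Q) := by
    have h2 : C (Q.eval b) = Q - (X - C b) * s := by rw [← hs]; ring
    rw [h2]
    exact Ideal.sub_mem _ hQp (Ideal.mul_mem_right _ _ hXb)
  exact hq.ne_top (Ideal.eq_top_of_isUnit_mem _ h1 ((IsUnit.mk0 _ hne0).map C))

/-- the generators as elements of the chart ring -/
noncomputable def zb (u v : K) (a : Fin 4 → ℂ) (Q : ℂ[X]) (j : Fin 4) :
    (Bring u v a Q).toSubring := ⟨zt u v a Q j, mem_Bring_zt u v a Q j⟩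

include h ha in
lemma exists_index (p : Ideal (Bring u v a Q).toSubring) [hp : p.IsPrime]
    (hQp : psi u v a Q Q ∈ p) : ∃ i, ∀ j, j ≠ i → zb u v a Q j ∈ p := by
  by_cases hall : ∀ j, zb u v a Q j ∈ p
  · exact ⟨0, fun j _ => hall j⟩
  · push Not at hall
    obtain ⟨i, hi⟩ := hall
    refine ⟨i, fun j hj => ?_⟩
    have h1 : zb u v a Q i * zb u v a Q j = psi u v a Q Q *
        (psi u v a Q (C (a i - a j)⁻¹) * (zb u v a Q i - zb u v a Q j)) := by
      apply Subtype.ext
      show zt u v a Q i * zt u v a Q j = aeval v Q *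
        (aeval v (C (a i - a j)⁻¹) * (zt u v a Q i - zt u v a Q j))
      rw [aeval_C]
      have h2 := xi_mul h ha i j hj.symm
      unfold zt
      simp only [div_eq_mul_inv]
      calc aeval v Q * (u - algebraMap ℂ K (a i))⁻¹ * (aeval v Q * (u - algebraMap ℂ K (a j))⁻¹)
          = aeval v Q * aeval v Q * ((u - algebraMap ℂ K (a i))⁻¹ *
            (u - algebraMap ℂ K (a j))⁻¹) := by ring
        _ = _ := by rw [h2]; ring
    have h2 : zb u v a Q i * zb u v a Q j ∈ p := by
      rw [h1]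
      exact Ideal.mul_mem_right _ _ hQp
    exact (hp.mem_or_mem h2).resolve_left hi

lemma caseB (hOM : T_OMEGA) (hCHG : T_CHG) (h : Coord K u v) (ha : Function.Injective a)
    (hQ : Q ≠ 0) (p : Ideal (Bring u v a Q).toSubring) [hp : p.IsPrime]
    (hdim : ringKrullDim (Localization.AtPrime p) = 1) (hQp : psi u v a Q Q ∈ p) :
    OrderZero 2 (locSub (Bring u v a Q).toSubring p) 2
      ((aeval u (prodP a) * aeval v Q)⁻¹) (wedgeD K ![u, v]) := by
  obtain ⟨b, hb, hbp⟩ := exists_root hQ p hQp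
  obtain ⟨i, hi⟩ := exists_index h ha p hQp
  have hQ1 : Q = Q * 1 := (mul_one Q).symm
  obtain ⟨-, -, -, c4, -⟩ := hCHG K u v h
  have hco : Coord K (zt u v a Q i) v := c4 (a i) Q hQ
  have hF := io_irreducible b
  have hFD : ¬ io (C (X - C b)) ∣ io (DD' a Q i) := by
    rw [io_dvd_iff]
    intro hd
    rw [← mul_one (DD' a Q i)] at hd
    have h1 := C_dvd_of_monic (DD'_monic a Q i) hd
    have h2 := isUnit_of_dvd_one h1
    rw [isUnit_C] at h2
    exact not_isUnit_X_sub_C b h2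
  have hFe : ¬ io (C (X - C b)) ∣ io (C 1) := by
    rw [C_1, map_one]
    exact fun hd => hF.not_isUnit (isUnit_of_dvd_one hd)
  have hvb1 : psi u v a Q (X - C b) ∈ p1 h ha hQ hQ1 hco hF hFD := by
    refine ⟨io (C (X - C b)), 1, not_dvd_one hF, dvd_rfl, ?_⟩
    rw [coe_psi, ← E_eq, E_C, map_one, div_one]
  have hz1 : ∀ j, j ≠ i → zb u v a Q j ∈ p1 h ha hQ hQ1 hco hF hFD := by
    intro j hj
    obtain ⟨P, n, hP⟩ := xi_mem h a ha Q hQ i j hj
    refine ⟨io (C Q) * P, io (DD' a Q i) ^ n, ?_, ?_, ?_⟩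
    · exact fun hd => hFD (hF.prime.dvd_of_dvd_pow hd)
    · refine Dvd.dvd.mul_right ?_ _
      rw [io_dvd_iff]
      exact map_dvd C (dvd_iff_isRoot.2 hb)
    · show zt u v a Q j = _
      have h3 : zt u v a Q j = aeval v Q * (u - algebraMap ℂ K (a j))⁻¹ := div_eq_mul_inv _ _
      rw [h3, hP, map_mul, ← E_eq v (zt u v a Q i) (C Q), E_C, map_pow]
      ring
  -- every element is congruent to a polynomial in `z_i`
  have hzi : ∀ f : ℂ[X], aeval (zt u v a Q i) f ∈ Bring u v a Q := by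
    intro f
    induction f using Polynomial.induction_on' with
    | add p q hp hq =>
      rw [map_add]
      exact Subalgebra.add_mem _ hp hq
    | monomial m r =>
      rw [aeval_monomial]
      exact Subalgebra.mul_mem _ (Subalgebra.algebraMap_mem _ r)
        (Subalgebra.pow_mem _ (mem_Bring_zt u v a Q i) m)
  have key : ∀ w ∈ Bring u v a Q, ∃ f : ℂ[X], ∃ y : (Bring u v a Q).toSubring,
      y ∈ p ⊓ p1 h ha hQ hQ1 hco hF hFD ∧ w = aeval (zt u v a Q i) f + y := by
    intro w hw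
    unfold Bring at hw
    induction hw using Algebra.adjoin_induction with
    | mem x hx =>
      rcases hx with hx | ⟨j, rfl⟩
      · rw [Set.mem_singleton_iff.1 hx]
        refine ⟨C b, psi u v a Q (X - C b), ⟨hbp, hvb1⟩, ?_⟩
        rw [coe_psi, map_sub, aeval_C, aeval_C, aeval_X]
        ring
      · by_cases hj : j = i
        · subst hj
          refine ⟨X, 0, Ideal.zero_mem _, ?_⟩
          rw [aeval_X]
          show _ = zt u v a Q j + 0
          rw [add_zero]
          rfl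
        · refine ⟨0, zb u v a Q j, ⟨hi j hj, hz1 j hj⟩, ?_⟩
          rw [map_zero, zero_add]
          rfl
    | algebraMap r =>
      refine ⟨C r, 0, Ideal.zero_mem _, ?_⟩
      rw [aeval_C]
      show _ = _ + (0 : K)
      rw [add_zero]
    | add x y _ _ ihx ihy =>
      obtain ⟨f, s, hs, rfl⟩ := ihx
      obtain ⟨f', s', hs', rfl⟩ := ihy
      refine ⟨f + f', s + s', Ideal.add_mem _ hs hs', ?_⟩
      rw [map_add, Subring.coe_add]
      ring
    | mul x y _ _ ihx ihy =>
      obtain ⟨f, s, hs, rfl⟩ := ihx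
      obtain ⟨f', s', hs', rfl⟩ := ihy
      let z : (Bring u v a Q).toSubring := ⟨aeval (zt u v a Q i) f, hzi f⟩
      let z' : (Bring u v a Q).toSubring := ⟨aeval (zt u v a Q i) f', hzi f'⟩
      refine ⟨f * f', z * s' + (z' + s') * s, Ideal.add_mem _ (Ideal.mul_mem_left _ _ hs')
        (Ideal.mul_mem_left _ _ hs), ?_⟩
      rw [map_mul]
      show _ = _ + (aeval (zt u v a Q i) f * (s' : K) +
        (aeval (zt u v a Q i) f' + (s' : K)) * (s : K))
      ring
  have hle : p1 h ha hQ hQ1 hco hF hFD ≤ p := by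
    intro w hw
    obtain ⟨f, y, ⟨hyp, hy1⟩, hwf⟩ := key w w.2
    let z : (Bring u v a Q).toSubring := ⟨aeval (zt u v a Q i) f, hzi f⟩
    have hwz : w = z + y := Subtype.ext hwf
    have hz : z ∈ p1 h ha hQ hQ1 hco hF hFD := by
      have : z = w - y := by rw [hwz]; ring
      rw [this]
      exact Ideal.sub_mem _ hw hy1
    have hmap : aeval (zt u v a Q i) f = E v (zt u v a Q i) (f.map C) := by
      rw [E_apply, eval₂_map, aeval_def]
      congr 1
      ext r
      show _ = aeval v (C r)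
      rw [aeval_C]
    have hf : f = 0 := by
      have h1 : inM (zt u v a Q i) v (io (C (X - C b))) (ph (zt u v a Q i) v (io (f.map C)) /
          ph (zt u v a Q i) v 1) := by
        rw [map_one, div_one, ← E_eq, ← hmap]
        exact hz
      have h2 := inM_div hco hF (not_dvd_one hF) h1
      rw [io_dvd_iff, C_dvd_iff_dvd_coeff] at h2
      ext n
      have h3 := h2 n
      rw [coeff_map] at h3
      have h4 := dvd_iff_isRoot.1 h3
      rw [IsRoot.def, eval_C] at h4
      rw [h4, coeff_zero]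
    have hz0 : z = 0 := by
      apply Subtype.ext
      show aeval (zt u v a Q i) f = 0
      rw [hf, map_zero]
    rw [hwz, hz0, zero_add]
    exact hyp
  have hvb0 : psi u v a Q (X - C b) ≠ 0 := by
    intro h0
    have h1 := congrArg Subtype.val h0
    exact ev_ne h (X_sub_C_ne_zero b) h1
  have heq := eq_p1 h ha hQ hQ1 hco hF hFD p hdim hle _ hvb1 hvb0
  exact orderZero h ha hQ hQ1 hco hF hFD hOM hCHG hFe p heq

end caseB

/-! ### case A: `Q(v)` is not in `p` -/

section caseA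

variable {u v : K} {a : Fin 4 → ℂ} {Q : ℂ[X]}

/-- the contraction of `p` to the polynomial ring, up to powers of `Q` -/
def qq (ζ : K) (p : Ideal (Bring u v a Q).toSubring) (G : MvPolynomial (Fin 2) ℂ) : Prop :=
  ∃ N : ℕ, ∃ y : (Bring u v a Q).toSubring, y ∈ p ∧ (y : K) = aeval v Q ^ N * ph ζ v G

lemma exists_pow_mem_adjoin {w : K}
    (hw : w ∈ Algebra.adjoin ℂ ({v} ∪ Set.range fun i => (u - algebraMap ℂ K (a i))⁻¹)) :
    ∃ N : ℕ, aeval v Q ^ N * w ∈ Bring u v a Q := by
  have hQm : aeval v Q ∈ Bring u v a Q := by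
    rw [← E_C v (zt u v a Q 0)]
    exact E_mem_Bring u v a Q 0 _
  induction hw using Algebra.adjoin_induction with
  | mem x hx =>
    rcases hx with hx | ⟨j, rfl⟩
    · rw [Set.mem_singleton_iff.1 hx]
      refine ⟨0, ?_⟩
      rw [pow_zero, one_mul]
      exact mem_Bring_v u v a Q
    · refine ⟨1, ?_⟩
      have h1 : aeval v Q ^ 1 * (u - algebraMap ℂ K (a j))⁻¹ = zt u v a Q j := by
        unfold zt
        rw [pow_one, div_eq_mul_inv]
      show aeval v Q ^ 1 * (u - algebraMap ℂ K (a j))⁻¹ ∈ _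
      rw [h1]
      exact mem_Bring_zt u v a Q j
  | algebraMap b =>
    refine ⟨0, ?_⟩
    rw [pow_zero, one_mul]
    exact Subalgebra.algebraMap_mem _ b
  | add x y _ _ hx hy =>
    obtain ⟨N, hN⟩ := hx
    obtain ⟨M, hM⟩ := hy
    refine ⟨N + M, ?_⟩
    have h1 : aeval v Q ^ (N + M) * (x + y) = aeval v Q ^ M * (aeval v Q ^ N * x) +
        aeval v Q ^ N * (aeval v Q ^ M * y) := by ring
    rw [h1]
    exact Subalgebra.add_mem _ (Subalgebra.mul_mem _ (Subalgebra.pow_mem _ hQm _) hN)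
      (Subalgebra.mul_mem _ (Subalgebra.pow_mem _ hQm _) hM)
  | mul x y _ _ hx hy =>
    obtain ⟨N, hN⟩ := hx
    obtain ⟨M, hM⟩ := hy
    refine ⟨N + M, ?_⟩
    have h1 : aeval v Q ^ (N + M) * (x * y) = (aeval v Q ^ N * x) * (aeval v Q ^ M * y) := by ring
    rw [h1]
    exact Subalgebra.mul_mem _ hN hM

lemma caseA (hOM : T_OMEGA) (hCHG : T_CHG) (h : Coord K u v) (ha : Function.Injective a)
    (p : Ideal (Bring u v a Q).toSubring) [hp : p.IsPrime]
    (hdim : ringKrullDim (Localization.AtPrime p) = 1) (hQp : psi u v a Q Q ∉ p) :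
    OrderZero 2 (locSub (Bring u v a Q).toSubring p) 2
      ((aeval u (prodP a) * aeval v Q)⁻¹) (wedgeD K ![u, v]) := by
  have h10 : (1 : ℂ[X]) ≠ 0 := one_ne_zero
  have hQ1 : Q = 1 * Q := (one_mul Q).symm
  have hco : Coord K (zt u v a 1 0) v := by
    obtain ⟨-, c2, -⟩ := hCHG K u v h
    have h1 := c2 (a 0)
    have hz1 : zt u v a 1 0 = 1 / (u - algebraMap ℂ K (a 0)) := by
      unfold zt
      rw [map_one]
    rw [hz1]
    exact h1
  set ζ := zt u v a 1 0 with hζ
  set q := qq ζ p with hq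
  have hQpow : ∀ N : ℕ, psi u v a Q Q ^ N ∉ p := fun N hN => hQp (hp.mem_of_pow_mem N hN)
  -- for every polynomial a multiple in the chart ring
  have hmul : ∀ G : MvPolynomial (Fin 2) ℂ, ∃ N : ℕ, ∃ y : (Bring u v a Q).toSubring,
      (y : K) = aeval v Q ^ N * ph ζ v G := by
    intro G
    obtain ⟨N, hN⟩ := exists_pow_mem h ha h10 hQ1 (i := 0) G
    exact ⟨N, ⟨_, hN⟩, rfl⟩
  have q_mul : ∀ G G', q G → q (G * G') := by
    rintro G G' ⟨N, y, hy, hyG⟩
    obtain ⟨M, y', hy'⟩ := hmul G'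
    refine ⟨N + M, y * y', Ideal.mul_mem_right _ _ hy, ?_⟩
    rw [Subring.coe_mul, hyG, hy', map_mul]
    ring
  have q_prime : ∀ G G', q (G * G') → q G ∨ q G' := by
    rintro G G' ⟨N, y, hy, hyG⟩
    obtain ⟨N1, y1, hy1⟩ := hmul G
    obtain ⟨N2, y2, hy2⟩ := hmul G'
    have h1 : y1 * (y2 * psi u v a Q Q ^ N) = psi u v a Q Q ^ (N1 + N2) * y := by
      apply Subtype.ext
      show (y1 : K) * ((y2 : K) * aeval v Q ^ N) = aeval v Q ^ (N1 + N2) * (y : K)
      rw [hyG, hy1, hy2, map_mul]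
      ring
    have h2 : y1 * (y2 * psi u v a Q Q ^ N) ∈ p := by
      rw [h1]
      exact Ideal.mul_mem_left _ _ hy
    rcases hp.mem_or_mem h2 with h3 | h3
    · exact Or.inl ⟨N1, y1, h3, hy1⟩
    · rcases hp.mem_or_mem h3 with h4 | h4
      · exact Or.inr ⟨N2, y2, h4, hy2⟩
      · exact absurd h4 (hQpow N)
  have q_one : ¬ q 1 := by
    rintro ⟨N, y, hy, hy1⟩
    apply hQpow N
    have h1 : psi u v a Q Q ^ N = y := by
      apply Subtype.ext
      show aeval v Q ^ N = (y : K)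
      rw [hy1, map_one, mul_one]
    rw [h1]
    exact hy
  have q_dvd : ∀ G G', G ∣ G' → q G → q G' := by
    rintro G _ ⟨s, rfl⟩ hG
    exact q_mul G s hG
  have q_irr : ∀ P : MvPolynomial (Fin 2) ℂ, P ≠ 0 → q P → ∃ F, Irreducible F ∧ q F := by
    intro P
    induction P using WfDvdMonoid.induction_on_irreducible with
    | zero => intro h0; exact absurd rfl h0
    | unit P hP =>
      intro _ hqP
      obtain ⟨s, hs⟩ := hP.exists_right_inv
      exact absurd (hs ▸ q_mul P s hqP) q_one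
    | mul P i hP hi ih =>
      intro _ hqP
      rcases q_prime _ _ hqP with h1 | h1
      · exact ⟨i, hi, h1⟩
      · exact ih hP h1
  -- a nonzero element of `p`
  obtain ⟨w0, hw0, hw00⟩ : ∃ w ∈ p, w ≠ 0 := by
    apply Submodule.exists_mem_ne_zero_of_ne_bot
    intro h0
    have h1 := IsLocalization.AtPrime.ringKrullDim_eq_height p (Localization.AtPrime p)
    rw [hdim] at h1
    have h2 : p.height = 1 := by exact_mod_cast h1.symm
    have h3 : p.height = 0 := by rw [Ideal.height_eq_zero_iff_eq_bot]; exact h0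
    rw [h2] at h3
    exact one_ne_zero h3
  obtain ⟨P0, n0, hP0⟩ : ∃ (P0 : MvPolynomial (Fin 2) ℂ) (n0 : ℕ),
      (w0 : K) = ph ζ v P0 / ph ζ v (io (DD' a 1 0)) ^ n0 :=
    Bring_le' h ha h10 hQ1 (i := 0) w0.2
  have hDne : ph ζ v (io (DD' a 1 0)) ≠ 0 := DD_ne' h a ha 1 h10 0
  have hqP0 : q P0 := by
    obtain ⟨N, y, hy⟩ := hmul (io (DD' a 1 0) ^ n0)
    refine ⟨N, w0 * y, Ideal.mul_mem_right _ _ hw0, ?_⟩
    rw [Subring.coe_mul, hP0, hy, map_pow]
    field_simp
  have hP00 : P0 ≠ 0 := by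
    rintro rfl
    apply hw00
    apply Subtype.ext
    show (w0 : K) = 0
    rw [hP0, map_zero, zero_div]
  obtain ⟨F, hF, hqF⟩ := q_irr P0 hP00 hqP0
  -- the polynomial `D` is not in `q`
  have hqD : ¬ q (io (DD' a 1 0)) := by
    rintro ⟨N, y, hy, hyD⟩
    have h1 : (ph ζ v (io (DD' a 1 0)))⁻¹ ∈
        Algebra.adjoin ℂ ({v} ∪ Set.range fun i => (u - algebraMap ℂ K (a i))⁻¹) := by
      apply mem_adjoin_of_A h ha
      exact ⟨1, 1, by rw [map_one, pow_one, one_div]⟩
    obtain ⟨M, hM⟩ := exists_pow_mem_adjoin (Q := Q) h1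
    apply hQpow (N + M)
    have h2 : psi u v a Q Q ^ (N + M) = y * ⟨_, hM⟩ := by
      apply Subtype.ext
      show aeval v Q ^ (N + M) = (y : K) * (aeval v Q ^ M * (ph ζ v (io (DD' a 1 0)))⁻¹)
      rw [hyD, pow_add]
      field_simp
    rw [h2]
    exact Ideal.mul_mem_right _ _ hy
  have hFD : ¬ F ∣ io (DD' a 1 0) := fun hd => hqD (q_dvd _ _ hd hqF)
  have hFe : ¬ F ∣ io (C Q) := by
    intro hd
    obtain ⟨N, y, hy, hyQ⟩ := q_dvd _ _ hd hqF
    apply hQpow (N + 1)
    have h1 : psi u v a Q Q ^ (N + 1) = y := by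
      apply Subtype.ext
      show aeval v Q ^ (N + 1) = (y : K)
      rw [hyQ, ← E_eq, E_C, pow_succ]
    rw [h1]
    exact hy
  have hle : p1 h ha h10 hQ1 hco hF hFD ≤ p := by
    intro w hw
    obtain ⟨P, n, hP⟩ : ∃ (P : MvPolynomial (Fin 2) ℂ) (n : ℕ),
        (w : K) = ph ζ v P / ph ζ v (io (DD' a 1 0)) ^ n :=
      Bring_le' h ha h10 hQ1 (i := 0) w.2
    have hFn : ¬ F ∣ io (DD' a 1 0) ^ n := fun hd => hFD (hF.prime.dvd_of_dvd_pow hd)
    have h1 : inM ζ v F (ph ζ v P / ph ζ v (io (DD' a 1 0) ^ n)) := by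
      rw [map_pow, ← hP]
      exact hw
    have h2 := inM_div hco hF hFn h1
    obtain ⟨N, y, hy, hyP⟩ := q_dvd _ _ h2 hqF
    obtain ⟨M, y', hy'⟩ := hmul (io (DD' a 1 0) ^ n)
    have hy'p : y' ∉ p := by
      intro hin
      have h3 : q (io (DD' a 1 0) ^ n) := ⟨M, y', hin, hy'⟩
      have h4 : ∀ k : ℕ, ¬ q (io (DD' a 1 0) ^ k) := by
        intro k
        induction k with
        | zero => rw [pow_zero]; exact q_one
        | succ k ih =>
          rw [pow_succ]
          intro h5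
          exact (q_prime _ _ h5).elim ih hqD
      exact h4 n h3
    have h3 : w * (y' * psi u v a Q Q ^ N) = psi u v a Q Q ^ M * y := by
      apply Subtype.ext
      show (w : K) * ((y' : K) * aeval v Q ^ N) = aeval v Q ^ M * (y : K)
      rw [hP, hy', hyP, map_pow]
      field_simp
    have h4 : w * (y' * psi u v a Q Q ^ N) ∈ p := by
      rw [h3]
      exact Ideal.mul_mem_left _ _ hy
    rcases hp.mem_or_mem h4 with h5 | h5
    · exact h5
    · rcases hp.mem_or_mem h5 with h6 | h6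
      · exact absurd h6 hy'p
      · exact absurd h6 (hQpow N)
  obtain ⟨N, y, hy, hyF⟩ := hqF
  have hy1 : y ∈ p1 h ha h10 hQ1 hco hF hFD := by
    refine ⟨io (C Q) ^ N * F, 1, not_dvd_one hF, Dvd.intro_left _ rfl, ?_⟩
    rw [hyF, map_one, div_one, map_mul, map_pow, ← E_eq, E_C]
  have hy0 : y ≠ 0 := by
    intro h0
    have h1 := ph_ne hco hF.ne_zero
    have h2 : aeval v Q ≠ 0 := by
      have : aeval v Q = ph ζ v (io (C Q)) := by
        rw [← E_eq, E_C]
      rw [this]
      exact ph_ne hco (ne_of_not_dvd hFe)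
    rw [h0] at hyF
    exact (mul_ne_zero (pow_ne_zero _ h2) h1) hyF.symm
  have heq := eq_p1 h ha h10 hQ1 hco hF hFD p hdim hle y hy1 hy0
  exact orderZero h ha h10 hQ1 hco hF hFD hOM hCHG hFe p heq

end caseA

end BRH_

open BRH_ in
theorem tBRH : T_OMEGA → T_SCALE → T_CHG → T_BRH := by
  intro hOM _ hCHG K _ _ u v h a Q ha hQ p _ hdim
  by_cases hQp : psi u v a Q Q ∈ p
  · exact caseB hOM hCHG h ha hQ p hdim hQp
  · exact caseA hOM hCHG h ha p hdim hQp

end Pool.Agent.KCY
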