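import Pool.Agent.KCY.CY

/-!
# CY2: the canonical class of the central fibre, with an explicit form
-/

set_option autoImplicit false
set_option maxHeartbeats 4000000

open AlgebraicGeometry CategoryTheory Polynomial

namespace Pool.Agent.KCY

open Rees

/-- The condition `TorsionCanonicalKlt` for a form `d g₁ ∧ … ∧ d gₙ`. -/
def TorsionG (K : Type) [Field K] [Algebra ℂ K] (n : ℕ) (C : Set (Subring K)) : Prop :=
  ∃ (m : ℕ) (f : K) (g : Fin n → K), 0 < m ∧ f ≠ 0 ∧ wedgeD K g ≠ 0 ∧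
    (∀ O ∈ C, OrderZero n O m f (wedgeD K g)) ∧
    (∀ O, IsDivisorial K n O → OrderGE n O m f (wedgeD K g) (1 - m))

open CY_ in
/-- CY2: the canonical class of the central fibre, with an explicit form. -/
theorem tCY2 : T_MODEL → T_AFF → T_BRH → T_KLT2 → T_SCALE → T_CHG →
    ∃ _ : IsIntegral (PX (MM (1 : ℂ))),
      letI := ffAlgebra (str (MM (1 : ℂ)))
      TorsionG (PX (MM (1 : ℂ))).functionField 2 (codimOneRings (PX (MM (1 : ℂ)))) := by
  intro hMODEL hAFF hBRH hKLT2 hSCALE hCHG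
  obtain ⟨hI, x, y, hxy, hch⟩ := hMODEL
  let _ : Algebra ℂ (PX (MM (1 : ℂ))).functionField := ffAlgebra (str (MM (1 : ℂ)))
  have hyi : Coord (PX (MM (1 : ℂ))).functionField x y⁻¹ := (hCHG _ x y hxy).2.2.1
  have hyx : Coord (PX (MM (1 : ℂ))).functionField y x := (hCHG _ x y hxy).1
  have hw1 := (hCHG _ x y hxy).2.2.2.2.1
  have hw2 := (hCHG _ x y hxy).2.2.2.2.2.1
  have hy0 : y ≠ 0 := by
    have h := ne_snd hxy (P := X) X_ne_zero
    rwa [aeval_X] at h
  have hPx : aeval x (prodP ac) ≠ 0 := ne_fst hxy prodP_ne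
  have hPy : aeval y (prodP ac) ≠ 0 := ne_snd hxy prodP_ne
  -- the three kinds of charts
  have key : ∀ p : PX (MM (1 : ℂ)), ∃ (A : Subring (PX (MM (1 : ℂ))).functionField)
      (q : Ideal A) (_ : q.IsPrime), localRing (PX (MM (1 : ℂ))) p = locSub A q ∧
      Nonempty ((PX (MM (1 : ℂ))).presheaf.stalk p ≃+* Localization.AtPrime q) ∧
      (A = (Bring x y ac (prodP ac)).toSubring ∨ A = (Bring x y⁻¹ ac Prev).toSubring ∨
        A = (Bring y x ac (prodP ac)).toSubring) := by
    intro p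
    obtain ⟨U, hU, haff, hp, h⟩ := hch p
    obtain ⟨q, hq, h1, h2⟩ := chart hAFF _ p U hU haff hp _ rfl
    exact ⟨_, q, hq, h1, h2, h⟩
  refine ⟨hI, ?_⟩
  · refine ⟨2, (aeval x (prodP ac) * aeval y (prodP ac))⁻¹, ![x, y], by norm_num,
      inv_ne_zero (mul_ne_zero hPx hPy), OMEGA_.wedgeD_ne hxy, ?_, ?_⟩
    · rintro O ⟨p, hdim, rfl⟩
      obtain ⟨A, q, hq, hloc, ⟨e⟩, h⟩ := key p
      rw [hloc]
      rcases h with h | h | h
      · exact zero_of hBRH hxy prodP_ne A h q e hdim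
      · have h1 := zero_of hBRH hyi Prev_ne A h q e hdim
        rw [hw2] at h1
        have hc : (-(y ^ 2)⁻¹ : (PX (MM (1 : ℂ))).functionField) ≠ 0 :=
          neg_ne_zero.mpr (inv_ne_zero (pow_ne_zero _ hy0))
        refine (hSCALE _ 2 (locSub A q) 2 _ (-(y ^ 2)⁻¹) _ 0 hc).1.mp ?_
        have hf : (aeval x (prodP ac) * aeval y⁻¹ Prev)⁻¹ =
            (aeval x (prodP ac) * aeval y (prodP ac))⁻¹ /
              (-(y ^ 2)⁻¹ : (PX (MM (1 : ℂ))).functionField) ^ 2 := by
          have hPy' := hPy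
          rw [aeval_ac] at hPy'
          rw [aeval_Prev y hy0, aeval_ac y]
          field_simp
        rw [hf] at h1
        exact h1
      · have h1 := zero_of hBRH hyx prodP_ne A h q e hdim
        rw [hw1] at h1
        refine (hSCALE _ 2 (locSub A q) 2 _ (-1) _ 0 (by norm_num)).1.mp ?_
        have hf : (aeval y (prodP ac) * aeval x (prodP ac))⁻¹ =
            (aeval x (prodP ac) * aeval y (prodP ac))⁻¹ /
              (-1 : (PX (MM (1 : ℂ))).functionField) ^ 2 := by
          rw [mul_comm (aeval y (prodP ac))]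
          norm_num
        rw [hf] at h1
        exact h1
    · intro O hO
      exact hKLT2 _ x y hxy O hO.1 hO.2.1

end Pool.Agent.KCY
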