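import Pool.Agent.KCY.Stmt
import Pool.Agent.KCY.CY2

/-!
The definitions of `Pool.Agent.KCY.Stmt` and those of `Pool.Agent.KCY.Defs` agree.
-/

set_option autoImplicit false

open AlgebraicGeometry CategoryTheory CategoryTheory.Limits

namespace Pool.Agent.KCY

/-! ### Line bundles -/

/-- The line bundle in the sense of `Pool.Agent.KCY.Stmt`. -/
noncomputable def LineBundle.toS {X : Scheme.{0}} (L : LineBundle X) : KCYS.LineBundle X where
  ι := L.ι
  U := L.U
  cover := L.cover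
  g := L.g
  g_self := L.g_self
  cocycle i j l _ _ _ := L.cocycle i j l

theorem LineBundle.toS_pullback {X Y : Scheme.{0}} (f : Y ⟶ X) (L : LineBundle X) :
    L.toS.pullback f = (L.pullback f).toS := rfl

/-- Sections of powers correspond. -/
noncomputable def LineBundle.ofS {X : Scheme.{0}} {L : LineBundle X} {m : ℕ}
    (t : L.toS.PowSection m) : L.PowSection m where
  s := t.s
  compat i j := t.compat i j inf_le_left inf_le_right

/-- Sections of powers correspond. -/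
noncomputable def LineBundle.PowSection.toS {X : Scheme.{0}} {L : LineBundle X} {m : ℕ}
    (t : L.PowSection m) : L.toS.PowSection m where
  s := t.s
  compat i j _ _ := t.compat i j

theorem LineBundle.ofS_nv {X : Scheme.{0}} {L : LineBundle X} {m : ℕ}
    (t : L.toS.PowSection m) (x : X) (h : t.NonvanishingAt x) :
    (LineBundle.ofS t).NonvanishingAt x := h

theorem LineBundle.toS_nv {X : Scheme.{0}} {L : LineBundle X} {m : ℕ}
    (t : L.PowSection m) (x : X) (h : t.NonvanishingAt x) : t.toS.NonvanishingAt x := h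

theorem LineBundle.toS_semiample {X : Scheme.{0}} (L : LineBundle X) :
    L.toS.IsSemiample ↔ L.IsSemiample := by
  constructor
  · rintro ⟨m, hm, h⟩
    refine ⟨m, hm, fun x => ?_⟩
    obtain ⟨t, ht⟩ := h x
    exact ⟨_, LineBundle.ofS_nv t x ht⟩
  · rintro ⟨m, hm, h⟩
    refine ⟨m, hm, fun x => ?_⟩
    obtain ⟨t, ht⟩ := h x
    exact ⟨_, LineBundle.toS_nv t x ht⟩

theorem relSemiample_of {X B : Scheme.{0}} (π : X ⟶ B) (L : LineBundle X) (b : B)
    (h : KCYS.IsRelSemiampleNear π L.toS b) : IsRelSemiampleNear π L b := by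
  obtain ⟨V, hb, m, hm, h⟩ := h
  refine ⟨V, hb, m, hm, fun x hx => ?_⟩
  obtain ⟨W, y, hy, t, ht⟩ := h x hx
  exact ⟨W, y, hy, LineBundle.ofS (L := L.pullback (π ⁻¹ᵁ W).ι) t, ht⟩

/-! ### Forms -/

section Field

variable {K : Type} [Field K] [Algebra ℂ K]

/-- The inclusion of the forms of degree `n` in the algebra of forms. -/
noncomputable def valS {n : ℕ} (w : ⋀[K]^n (Ω[K⁄ℂ])) : KCYS.Forms K :=
  (w : ExteriorAlgebra K (Ω[K⁄ℂ]))

theorem valS_inj {n : ℕ} {w w' : ⋀[K]^n (Ω[K⁄ℂ])} (h : valS w = valS w') : w = w' :=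
  Subtype.ext h

theorem valS_add {n : ℕ} (w w' : ⋀[K]^n (Ω[K⁄ℂ])) : valS (w + w') = valS w + valS w' := rfl

theorem valS_zero {n : ℕ} : valS (0 : ⋀[K]^n (Ω[K⁄ℂ])) = 0 := rfl

theorem valS_smul {n : ℕ} (c : K) (w : ⋀[K]^n (Ω[K⁄ℂ])) : valS (c • w) = c • valS w := rfl

theorem valS_smulO {n : ℕ} (O : Subring K) (c : O) (w : ⋀[K]^n (Ω[K⁄ℂ])) :
    valS (c • w) = c • valS w := rfl

theorem valS_wedge {n : ℕ} (g : Fin n → K) : valS (wedgeD K g) = KCYS.wedgeD K g := by
  change (ExteriorAlgebra.ιMulti K n fun i => KaehlerDifferential.D ℂ K (g i)) = _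
  rw [ExteriorAlgebra.ιMulti_apply]
  rfl

theorem valS_mem {n : ℕ} (O : Subring K) {w : ⋀[K]^n (Ω[K⁄ℂ])} (h : w ∈ regForms K n O) :
    valS w ∈ KCYS.regForms K n O := by
  unfold regForms at h
  induction h using Submodule.span_induction with
  | mem x hx =>
    obtain ⟨g, hg, rfl⟩ := hx
    rw [valS_wedge]
    exact Submodule.subset_span ⟨g, hg, rfl⟩
  | zero =>
    rw [valS_zero]
    exact Submodule.zero_mem _
  | add x y _ _ hx hy =>
    rw [valS_add]
    exact Submodule.add_mem _ hx hy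
  | smul a x _ hx =>
    exact Submodule.smul_mem _ a hx

omit [Algebra ℂ K] in
theorem unif_iff (O : Subring K) (t : K) : IsUniformizer K O t → KCYS.IsUniformizer K O t :=
  fun h => ⟨h.mem, h.ne_zero, h.inv_notMem, h.exists_zpow⟩

omit [Algebra ℂ K] in
theorem unif_iff' (O : Subring K) (t : K) : KCYS.IsUniformizer K O t → IsUniformizer K O t :=
  fun h => ⟨h.mem, h.ne_zero, h.inv_notMem, h.exists_zpow⟩

theorem orderGE_S {n : ℕ} {O : Subring K} {m : ℕ} {f : K} {ω : ⋀[K]^n (Ω[K⁄ℂ])} {N : ℤ}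
    (h : OrderGE n O m f ω N) : KCYS.OrderGE n O m f (valS ω) N := by
  obtain ⟨t, ht, η, hη, c, rfl, hc⟩ := h
  exact ⟨t, unif_iff _ _ ht, valS η, valS_mem O hη, c, valS_smul c η, hc⟩

theorem orderZero_S {n : ℕ} {O : Subring K} {m : ℕ} {f : K} {ω : ⋀[K]^n (Ω[K⁄ℂ])}
    (h : OrderZero n O m f ω) : KCYS.OrderZero n O m f (valS ω) := by
  obtain ⟨⟨t, ht⟩, η, hη, c, rfl, hc⟩ := h
  refine ⟨⟨t, unif_iff _ _ ht⟩, valS η, ?_, c, valS_smul c η, hc⟩
  apply le_antisymm
  · refine Submodule.span_le.mpr ?_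
    rintro w ⟨g, hg, rfl⟩
    have h1 : wedgeD K g ∈ regForms K n O := Submodule.subset_span ⟨g, hg, rfl⟩
    rw [hη, Submodule.mem_span_singleton] at h1
    obtain ⟨a, ha⟩ := h1
    exact Submodule.mem_span_singleton.mpr ⟨a, (congrArg valS ha).trans (valS_wedge g)⟩
  · refine Submodule.span_le.mpr ?_
    rintro w hw
    rw [Set.mem_singleton_iff] at hw
    subst hw
    refine valS_mem O ?_
    rw [hη]
    exact Submodule.mem_span_singleton_self η

theorem torsion_S {n : ℕ} {C : Set (Subring K)} (h : TorsionG K n C) :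
    KCYS.TorsionCanonicalKlt K n C := by
  obtain ⟨m, f, g, hm, hf, hg, h1, h2⟩ := h
  refine ⟨m, f, g, hm, hf, ?_, ?_, ?_⟩
  · rw [← valS_wedge]
    intro h0
    exact hg (valS_inj (h0.trans valS_zero.symm))
  · intro O hO
    rw [← valS_wedge]
    exact orderZero_S (h1 O hO)
  · intro O hO
    rw [← valS_wedge]
    refine orderGE_S (h2 O ?_)
    obtain ⟨h3, ⟨t, ht⟩, h4⟩ := hO
    exact ⟨h3, ⟨t, unif_iff' _ _ ht⟩, h4⟩

end Field

/-! ### Calabi-Yau varieties -/

theorem proj_S {X : Scheme.{0}} {s : X ⟶ Spec (CommRingCat.of ℂ)} (h : IsProjective s) :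
    KCYS.IsProjective s := h

theorem rational_S {X : Scheme.{0}} {s : X ⟶ Spec (CommRingCat.of ℂ)}
    (h : IsRationalSurface s) : KCYS.IsRationalSurface s := h

theorem calabiYau_S {X : Scheme.{0}} {s : X ⟶ Spec (CommRingCat.of ℂ)} {n : ℕ}
    (h : IsCalabiYau s n) (hI : IsIntegral X)
    (h2 : letI := ffAlgebra s; TorsionG X.functionField n (codimOneRings X)) :
    KCYS.IsCalabiYau s n :=
  ⟨h.integral, h.normal, proj_S h.projective, h.dim, by
    have h3 := @torsion_S _ _ (ffAlgebra s) _ _ h2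
    exact h3⟩

end Pool.Agent.KCY
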