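import Pool.Agent.KCY.Targets

/-!
CCR: elements of the algebras generated by fractions.
-/

set_option linter.unusedSectionVars false

open AlgebraicGeometry CategoryTheory Polynomial

namespace Pool.Agent.KCY

open Rees

namespace CCR_

variable {k S : Type} [CommRing k] [CommRing S] [Algebra k S] [IsDomain S]

theorem two (M : Submodule k S) (m m' : S) (hm : m ∈ M) (hm' : m' ∈ M) (r : ℕ) :
    (m * m') ^ r ∈ M ^ (r * 2) := by
  rw [mul_comm r 2, pow_mul]
  refine Submodule.pow_mem_pow _ ?_ r
  rw [pow_two]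
  exact Submodule.mul_mem_mul hm hm'

theorem mulmem (M : Submodule k S) (a b : ℕ) (x y : S) (hx : x ∈ M ^ a) (hy : y ∈ M ^ b) :
    x * y ∈ M ^ (a + b) := by
  rw [pow_add]
  exact Submodule.mul_mem_mul hx hy

theorem ccr (M : Submodule k S) (m m' : S) (hm : m ∈ M) (hm' : m' ∈ M) (h0 : m ≠ 0)
    (h0' : m' ≠ 0) : ∀ z ∈ Algebra.adjoin k
      ((fun G => algebraMap S (FractionRing S) G / algebraMap S (FractionRing S) m) '' M ∪
       (fun G => algebraMap S (FractionRing S) G / algebraMap S (FractionRing S) m') '' M),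
      ∃ (r : ℕ) (N : S), N ∈ M ^ (r * 2) ∧
        z = algebraMap S (FractionRing S) N / algebraMap S (FractionRing S) ((m * m') ^ r) := by
  have hi : Function.Injective (algebraMap S (FractionRing S)) :=
    IsFractionRing.injective S (FractionRing S)
  have e0 : algebraMap S (FractionRing S) m ≠ 0 := by
    rwa [Ne, map_eq_zero_iff _ hi]
  have e0' : algebraMap S (FractionRing S) m' ≠ 0 := by
    rwa [Ne, map_eq_zero_iff _ hi]
  have e1 : ∀ r : ℕ, algebraMap S (FractionRing S) ((m * m') ^ r) ≠ 0 := fun r => by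
    rw [map_pow, map_mul]
    exact pow_ne_zero _ (mul_ne_zero e0 e0')
  intro z hz
  induction hz using Algebra.adjoin_induction with
  | mem x hx =>
    rcases hx with ⟨G, hG, rfl⟩ | ⟨G, hG, rfl⟩
    · refine ⟨1, G * m', ?_, ?_⟩
      · rw [one_mul, pow_two]
        exact Submodule.mul_mem_mul hG hm'
      · simp only [pow_one, map_mul]
        field_simp
    · refine ⟨1, G * m, ?_, ?_⟩
      · rw [one_mul, pow_two]
        exact Submodule.mul_mem_mul hG hm
      · simp only [pow_one, map_mul]
        field_simp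
  | algebraMap c =>
    refine ⟨0, algebraMap k S c, ?_, ?_⟩
    · rw [zero_mul, pow_zero]
      exact Submodule.algebraMap_mem c
    · rw [pow_zero, map_one, div_one, IsScalarTower.algebraMap_apply k S (FractionRing S)]
  | add x y _ _ hx hy =>
    obtain ⟨r, N, hN, rfl⟩ := hx
    obtain ⟨r', N', hN', rfl⟩ := hy
    refine ⟨r + r', N * (m * m') ^ r' + N' * (m * m') ^ r, ?_, ?_⟩
    · rw [add_mul]
      refine Submodule.add_mem _ (mulmem M _ _ _ _ hN (two M m m' hm hm' r')) ?_
      rw [add_comm]
      exact mulmem M _ _ _ _ hN' (two M m m' hm hm' r)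
    · rw [div_add_div _ _ (e1 r) (e1 r'), pow_add, map_mul (algebraMap S (FractionRing S)),
        map_add, map_mul, map_mul, mul_comm (algebraMap S (FractionRing S) N')]
  | mul x y _ _ hx hy =>
    obtain ⟨r, N, hN, rfl⟩ := hx
    obtain ⟨r', N', hN', rfl⟩ := hy
    refine ⟨r + r', N * N', ?_, ?_⟩
    · rw [add_mul]
      exact mulmem M _ _ _ _ hN hN'
    · rw [div_mul_div_comm, pow_add, map_mul, map_mul]

theorem ccr1 (M : Submodule k S) (m : S) (hm : m ∈ M) (h0 : m ≠ 0) (z : FractionRing S) :
    z ∈ Algebra.adjoin k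
      ((fun G => algebraMap S (FractionRing S) G / algebraMap S (FractionRing S) m) '' M) ↔
      ∃ (r : ℕ) (N : S), N ∈ M ^ r ∧
        z = algebraMap S (FractionRing S) N / algebraMap S (FractionRing S) m ^ r := by
  have hi : Function.Injective (algebraMap S (FractionRing S)) :=
    IsFractionRing.injective S (FractionRing S)
  have e0 : algebraMap S (FractionRing S) m ≠ 0 := by
    rwa [Ne, map_eq_zero_iff _ hi]
  constructor
  · intro hz
    induction hz using Algebra.adjoin_induction with
    | mem x hx =>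
      obtain ⟨G, hG, rfl⟩ := hx
      exact ⟨1, G, by rw [pow_one]; exact hG, by rw [pow_one]⟩
    | algebraMap c =>
      refine ⟨0, algebraMap k S c, ?_, ?_⟩
      · rw [pow_zero]
        exact Submodule.algebraMap_mem c
      · rw [pow_zero, div_one, IsScalarTower.algebraMap_apply k S (FractionRing S)]
    | add x y _ _ hx hy =>
      obtain ⟨r, N, hN, rfl⟩ := hx
      obtain ⟨r', N', hN', rfl⟩ := hy
      refine ⟨r + r', N * m ^ r' + N' * m ^ r, ?_, ?_⟩
      · refine Submodule.add_mem _ (mulmem M _ _ _ _ hN (Submodule.pow_mem_pow _ hm r')) ?_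
        rw [add_comm]
        exact mulmem M _ _ _ _ hN' (Submodule.pow_mem_pow _ hm r)
      · rw [div_add_div _ _ (pow_ne_zero _ e0) (pow_ne_zero _ e0), pow_add, map_add, map_mul,
          map_mul, map_pow, map_pow, mul_comm (algebraMap S (FractionRing S) N')]
    | mul x y _ _ hx hy =>
      obtain ⟨r, N, hN, rfl⟩ := hx
      obtain ⟨r', N', hN', rfl⟩ := hy
      refine ⟨r + r', N * N', mulmem M _ _ _ _ hN hN', ?_⟩
      rw [div_mul_div_comm, pow_add, map_mul]
  · rintro ⟨r, N, hN, rfl⟩
    induction r generalizing N with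
    | zero =>
      rw [pow_zero] at hN
      obtain ⟨c, rfl⟩ := Submodule.mem_one.1 hN
      rw [pow_zero, div_one, ← IsScalarTower.algebraMap_apply k S (FractionRing S)]
      exact Subalgebra.algebraMap_mem _ c
    | succ r ih =>
      rw [pow_succ] at hN
      induction hN using Submodule.mul_induction_on' with
      | mem_mul_mem a ha b hb =>
        rw [map_mul, pow_succ, mul_div_mul_comm]
        exact Subalgebra.mul_mem _ (ih a ha) (Algebra.subset_adjoin ⟨b, hb, rfl⟩)
      | add a _ b _ ha hb =>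
        rw [map_add, add_div]
        exact Subalgebra.add_mem _ ha hb

end CCR_

theorem tCCR : T_CCR ∧ T_CCR1 :=
  ⟨fun _ _ _ _ _ _ M m m' hm hm' h0 h0' => CCR_.ccr M m m' hm hm' h0 h0',
    fun _ _ _ _ _ _ M m hm h0 z => CCR_.ccr1 M m hm h0 z⟩

end Pool.Agent.KCY
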