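import Pool.Agent.KCY.Targets

set_option autoImplicit false

/-! # Three chart rings of the central fibre (`T_CHART`) -/

open AlgebraicGeometry CategoryTheory Polynomial

namespace Pool.Agent.KCY

open Rees

namespace CHART_

/-- the field `ℂ(x, y)` -/
abbrev FF := FractionRing (Sk ℂ)

/-- the inclusion of the polynomial ring -/
noncomputable abbrev ph : Sk ℂ →+* FF := algebraMap (Sk ℂ) FF

theorem aeval_eq (p : Sk ℂ) :
    MvPolynomial.aeval ![ph (xx ℂ), ph (yy ℂ)] p = ph p := by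
  have h : (MvPolynomial.aeval ![ph (xx ℂ), ph (yy ℂ)] : Sk ℂ →ₐ[ℂ] FF) =
      IsScalarTower.toAlgHom ℂ (Sk ℂ) FF := by
    apply MvPolynomial.algHom_ext
    intro i
    fin_cases i <;> simp
  rw [h]
  rfl

theorem coord : Coord FF (ph (xx ℂ)) (ph (yy ℂ)) := by
  constructor
  · rw [algebraicIndependent_iff_injective_aeval]
    intro p q h
    rw [aeval_eq, aeval_eq] at h
    exact IsFractionRing.injective (Sk ℂ) FF h
  · intro z
    obtain ⟨p, q, hq, rfl⟩ := IsFractionRing.div_surjective (A := Sk ℂ) z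
    refine ⟨p, q, ?_, ?_⟩
    · rw [aeval_eq]
      exact IsFractionRing.to_map_ne_zero_of_mem_nonZeroDivisors hq
    · rw [aeval_eq, aeval_eq]

theorem adj (m : Sk ℂ) : Algebra.adjoin ℂ ((fun G => ph G / ph m) '' (MM (1 : ℂ) : Set (Sk ℂ))) =
    Algebra.adjoin ℂ (Set.range fun g => ph (gens (1 : ℂ) g) / ph m) := by
  have h1 : (fun G => ph G / ph m) '' (MM (1 : ℂ) : Set (Sk ℂ)) =
      (Submodule.span ℂ (Set.range fun g => ph (gens (1 : ℂ) g) / ph m) : Set FF) := by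
    set L : Sk ℂ →ₗ[ℂ] FF := (LinearMap.mulRight ℂ (ph m)⁻¹).comp
      (IsScalarTower.toAlgHom ℂ (Sk ℂ) FF).toLinearMap with hL
    have h2 : ∀ G, L G = ph G / ph m := fun G => by
      rw [hL, div_eq_mul_inv]
      rfl
    have h3 : (fun G => ph G / ph m) = L := by
      funext G
      exact (h2 G).symm
    rw [h3, ← Submodule.map_coe, MM, Submodule.map_span, ← Set.range_comp]
    congr 2
  rw [h1, Algebra.adjoin_span]

theorem cne (i : Fin 2) (a : ℂ) : ph (MvPolynomial.X i) - algebraMap ℂ FF a ≠ 0 := by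
  have h1 : ph (MvPolynomial.X i) - algebraMap ℂ FF a =
      ph (MvPolynomial.X i - MvPolynomial.C a) := by
    rw [map_sub, IsScalarTower.algebraMap_apply ℂ (Sk ℂ) FF]
    rfl
  rw [h1]
  intro h2
  have h3 : (MvPolynomial.X i - MvPolynomial.C a : Sk ℂ) = 0 := by
    apply IsFractionRing.injective (Sk ℂ) FF
    rw [h2, map_zero]
  have h4 := congrArg (MvPolynomial.eval (fun _ => a + 1)) h3
  simp at h4

section field

variable {K : Type} [Field K] [Algebra ℂ K]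

theorem mem_of_eq {A : Subalgebra ℂ K} {a b : K} (h : b ∈ A) (e : a = b) : a ∈ A := e ▸ h

theorem ac_eq (x : K) : (x - algebraMap ℂ K (ac 0) = x + 1) ∧ (x - algebraMap ℂ K (ac 1) = x - 2) ∧
    (x - algebraMap ℂ K (ac 2) = x - 1) ∧ (x - algebraMap ℂ K (ac 3) = x) := by
  have h2 : algebraMap ℂ K 2 = 2 := map_ofNat _ 2
  refine ⟨?_, ?_, ?_, ?_⟩ <;> simp [ac, aa, h2]

theorem prod_eq (x : K) : aeval x (prodP ac) = (x + 1) * (x - 2) * (x - 1) * x := by
  obtain ⟨h0, h1, h2, h3⟩ := ac_eq x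
  rw [prodP, map_prod, Fin.prod_univ_four]
  simp only [map_sub, aeval_X, aeval_C, h0, h1, h2, h3]

theorem prev_eq (x : K) : aeval x Prev = 1 - 2 * x - x ^ 2 + 2 * x ^ 3 := by
  have h2 : aeval x (2 : ℂ[X]) = 2 := map_ofNat _ 2
  simp [Prev, h2]

/-- the first chart -/
theorem chart1 (x y : K) (g : Fin 5 ⊕ Fin 4 → K) (h1 : ∀ j : Fin 5, g (Sum.inl j) = y ^ (j : ℕ))
    (h2 : ∀ i : Fin 4, g (Sum.inr i) = aeval y (prodP ac) / (x - algebraMap ℂ K (ac i))) :
    Algebra.adjoin ℂ (Set.range g) = Bring x y ac (prodP ac) := by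
  apply le_antisymm
  · apply Algebra.adjoin_le
    rintro _ ⟨j | i, rfl⟩
    · rw [h1]
      exact pow_mem (Algebra.subset_adjoin (Or.inl rfl) :
        (_ : K) ∈ Algebra.adjoin ℂ _) _
    · rw [h2]
      exact Algebra.subset_adjoin (Or.inr ⟨i, rfl⟩)
  · apply Algebra.adjoin_le
    rintro z (hz | ⟨i, rfl⟩)
    · rw [Set.mem_singleton_iff.1 hz]
      have : y = g (Sum.inl 1) := by rw [h1]; simp
      rw [this]
      exact Algebra.subset_adjoin ⟨_, rfl⟩
    · have := h2 i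
      show aeval y (prodP ac) / (x - algebraMap ℂ K (ac i)) ∈ _
      rw [← this]
      exact Algebra.subset_adjoin ⟨_, rfl⟩

/-- the second chart -/
theorem chart2 (x y : K) (g : Fin 5 ⊕ Fin 4 → K)
    (h1 : ∀ j : Fin 5, g (Sum.inl j) = y⁻¹ ^ (4 - (j : ℕ)))
    (h2 : ∀ i : Fin 4, g (Sum.inr i) = aeval y⁻¹ Prev / (x - algebraMap ℂ K (ac i))) :
    Algebra.adjoin ℂ (Set.range g) = Bring x y⁻¹ ac Prev := by
  apply le_antisymm
  · apply Algebra.adjoin_le
    rintro _ ⟨j | i, rfl⟩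
    · rw [h1]
      exact pow_mem (Algebra.subset_adjoin (Or.inl rfl) :
        (_ : K) ∈ Algebra.adjoin ℂ _) _
    · rw [h2]
      exact Algebra.subset_adjoin (Or.inr ⟨i, rfl⟩)
  · apply Algebra.adjoin_le
    rintro z (hz | ⟨i, rfl⟩)
    · rw [Set.mem_singleton_iff.1 hz]
      have : y⁻¹ = g (Sum.inl 3) := by
        rw [h1]
        have : 4 - ((3 : Fin 5) : ℕ) = 1 := by decide
        rw [this, pow_one]
      rw [this]
      exact Algebra.subset_adjoin ⟨_, rfl⟩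
    · have := h2 i
      show aeval y⁻¹ Prev / (x - algebraMap ℂ K (ac i)) ∈ _
      rw [← this]
      exact Algebra.subset_adjoin ⟨_, rfl⟩

/-- `P(x) / (x - a i)` -/
def pe (x : K) : Fin 4 → K :=
  ![(x - 2) * (x - 1) * x, (x + 1) * (x - 1) * x, (x + 1) * (x - 2) * x,
    (x + 1) * (x - 2) * (x - 1)]

theorem mem_num (A : Subalgebra ℂ K) (a b : ℤ) : (a : K) / (b : K) ∈ A := by
  have : (a : K) / (b : K) = algebraMap ℂ K ((a : ℂ) / (b : ℂ)) := by simp
  rw [this]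
  exact A.algebraMap_mem _

/-- the third chart -/
theorem chart3 (x y : K) (hy0 : y + 1 ≠ 0) (hy1 : y - 2 ≠ 0) (hy2 : y - 1 ≠ 0) (hy3 : y ≠ 0)
    (h20 : (2 : K) ≠ 0) (h30 : (3 : K) ≠ 0)
    (g : Fin 5 ⊕ Fin 4 → K)
    (h1 : ∀ j : Fin 5, g (Sum.inl j) = ((x + 1) * (x - 2) * (x - 1) * x) * y ^ (j : ℕ) /
      ((y + 1) * (y - 2) * (y - 1) * y))
    (h2 : ∀ i : Fin 4, g (Sum.inr i) = pe x i) :
    Algebra.adjoin ℂ (Set.range g) = Bring y x ac (prodP ac) := by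
  obtain ⟨e0, e1, e2, e3⟩ := ac_eq (K := K) y
  apply le_antisymm
  · apply Algebra.adjoin_le
    have hx : x ∈ Bring y x ac (prodP ac) := Algebra.subset_adjoin (Or.inl rfl)
    have hz : ∀ i, aeval x (prodP ac) / (y - algebraMap ℂ K (ac i)) ∈ Bring y x ac (prodP ac) :=
      fun i => Algebra.subset_adjoin (Or.inr ⟨i, rfl⟩)
    have hz0 := hz 0
    have hz1 := hz 1
    have hz2 := hz 2
    have hz3 := hz 3
    rw [e0, prod_eq] at hz0
    rw [e1, prod_eq] at hz1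
    rw [e2, prod_eq] at hz2
    rw [e3, prod_eq] at hz3
    have hn : ∀ n : ℤ, (n : K) ∈ Bring y x ac (prodP ac) := fun n => intCast_mem _ n
    have hn1 : (1 : K) ∈ Bring y x ac (prodP ac) := one_mem _
    have hn2 : (2 : K) ∈ Bring y x ac (prodP ac) := by exact_mod_cast hn 2
    rintro _ ⟨j | i, rfl⟩
    · rw [h1]
      have q := mem_num (Bring y x ac (prodP ac))
      have key : ∀ a0 a1 a2 a3 b0 b1 b2 b3 c : ℤ,
          (a0 : K) / b0 * ((x + 1) * (x - 2) * (x - 1) * x / (y + 1)) +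
          (a1 : K) / b1 * ((x + 1) * (x - 2) * (x - 1) * x / (y - 2)) +
          (a2 : K) / b2 * ((x + 1) * (x - 2) * (x - 1) * x / (y - 1)) +
          (a3 : K) / b3 * ((x + 1) * (x - 2) * (x - 1) * x / y) +
          c * ((x + 1) * (x - 2) * (x - 1) * x) ∈ Bring y x ac (prodP ac) := by
        intro a0 a1 a2 a3 b0 b1 b2 b3 c
        exact add_mem (add_mem (add_mem (add_mem (mul_mem (q _ _) hz0) (mul_mem (q _ _) hz1))
          (mul_mem (q _ _) hz2)) (mul_mem (q _ _) hz3))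
          (mul_mem (hn c) (mul_mem (mul_mem (mul_mem (add_mem hx hn1) (sub_mem hx hn2))
            (sub_mem hx hn1)) hx))
      have h60 : (6 : K) ≠ 0 := by
        have : (6 : K) = 2 * 3 := by norm_num
        rw [this]
        exact mul_ne_zero h20 h30
      fin_cases j
      · have := key (-1) 1 (-1) 1 6 6 2 2 0
        refine mem_of_eq this ?_
        push_cast
        field_simp
        ring
      · have := key 1 2 (-1) 0 6 6 2 2 0
        refine mem_of_eq this ?_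
        push_cast
        field_simp
        ring
      · have := key (-1) 4 (-1) 0 6 6 2 2 0
        refine mem_of_eq this ?_
        push_cast
        field_simp
        ring
      · have := key 1 8 (-1) 0 6 6 2 2 0
        refine mem_of_eq this ?_
        push_cast
        field_simp
        ring
      · have := key (-1) 16 (-1) 0 6 6 2 2 1
        refine mem_of_eq this ?_
        push_cast
        field_simp
        ring
    · rw [h2]
      fin_cases i
      · exact mul_mem (mul_mem (sub_mem hx hn2) (sub_mem hx hn1)) hx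
      · exact mul_mem (mul_mem (add_mem hx hn1) (sub_mem hx hn1)) hx
      · exact mul_mem (mul_mem (add_mem hx hn1) (sub_mem hx hn2)) hx
      · exact mul_mem (mul_mem (add_mem hx hn1) (sub_mem hx hn2)) (sub_mem hx hn1)
  · apply Algebra.adjoin_le
    have hg : ∀ t, g t ∈ Algebra.adjoin ℂ (Set.range g) := fun t =>
      Algebra.subset_adjoin ⟨t, rfl⟩
    have q := mem_num (Algebra.adjoin ℂ (Set.range g))
    have hn : ∀ n : ℤ, (n : K) ∈ Algebra.adjoin ℂ (Set.range g) := fun n => intCast_mem _ n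
    rintro z (hz | ⟨i, rfl⟩)
    · rw [Set.mem_singleton_iff.1 hz]
      have h3 : x = ((1 : ℤ) : K) / ((6 : ℤ) : K) * g (Sum.inr 0) +
          ((1 : ℤ) : K) / ((3 : ℤ) : K) * g (Sum.inr 1) +
          ((-1 : ℤ) : K) / ((2 : ℤ) : K) * g (Sum.inr 2) := by
        rw [h2, h2, h2]
        have h60 : (6 : K) ≠ 0 := by
          have : (6 : K) = 2 * 3 := by norm_num
          rw [this]
          exact mul_ne_zero h20 h30
        simp only [pe, Matrix.cons_val_zero, Matrix.cons_val_one, Matrix.cons_val]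
        push_cast
        field_simp
        ring
      rw [h3]
      exact add_mem (add_mem (mul_mem (q _ _) (hg _)) (mul_mem (q _ _) (hg _)))
        (mul_mem (q _ _) (hg _))
    · have key : ∀ c0 c1 c2 c3 : ℤ, (c0 : K) * g (Sum.inl 0) + c1 * g (Sum.inl 1) +
          c2 * g (Sum.inl 2) + c3 * g (Sum.inl 3) ∈ Algebra.adjoin ℂ (Set.range g) := by
        intro c0 c1 c2 c3
        exact add_mem (add_mem (add_mem (mul_mem (hn _) (hg _)) (mul_mem (hn _) (hg _)))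
          (mul_mem (hn _) (hg _))) (mul_mem (hn _) (hg _))
      show aeval x (prodP ac) / (y - algebraMap ℂ K (ac i)) ∈ _
      rw [prod_eq]
      have f0 : ((0 : Fin 5) : ℕ) = 0 := rfl
      have f1 : ((1 : Fin 5) : ℕ) = 1 := rfl
      have f2 : ((2 : Fin 5) : ℕ) = 2 := rfl
      have f3 : ((3 : Fin 5) : ℕ) = 3 := rfl
      fin_cases i
      · show _ / (y - algebraMap ℂ K (ac 0)) ∈ _
        rw [e0]
        refine mem_of_eq (key 0 2 (-3) 1) ?_
        rw [h1, h1, h1, h1, f0, f1, f2, f3]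
        push_cast
        field_simp
        ring
      · show _ / (y - algebraMap ℂ K (ac 1)) ∈ _
        rw [e1]
        refine mem_of_eq (key 0 (-1) 0 1) ?_
        rw [h1, h1, h1, h1, f0, f1, f2, f3]
        push_cast
        field_simp
        ring
      · show _ / (y - algebraMap ℂ K (ac 2)) ∈ _
        rw [e2]
        refine mem_of_eq (key 0 (-2) (-1) 1) ?_
        rw [h1, h1, h1, h1, f0, f1, f2, f3]
        push_cast
        field_simp
        ring
      · show _ / (y - algebraMap ℂ K (ac 3)) ∈ _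
        rw [e3]
        refine mem_of_eq (key 2 (-1) (-2) 1) ?_
        rw [h1, h1, h1, h1, f0, f1, f2, f3]
        push_cast
        field_simp
        ring

end field

theorem ph_C (a : ℂ) : ph (MvPolynomial.C a) = algebraMap ℂ FF a := by
  rw [IsScalarTower.algebraMap_apply ℂ (Sk ℂ) FF]
  rfl

theorem fX (i : Fin 4) : ph (Xf ℂ i) = ph (xx ℂ) - algebraMap ℂ FF (ac i) := by
  rw [Xf, map_sub, ← ph_C, ac]
  simp

theorem Xf_eq : Xf ℂ 0 = xx ℂ + 1 ∧ Xf ℂ 1 = xx ℂ - 2 ∧ Xf ℂ 2 = xx ℂ - 1 ∧ Xf ℂ 3 = xx ℂ := by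
  refine ⟨?_, ?_, ?_, ?_⟩ <;> simp [Xf, aa]

theorem PP4_eq : PP4 ℂ = (xx ℂ + 1) * (xx ℂ - 2) * (xx ℂ - 1) * xx ℂ := by
  obtain ⟨h0, h1, h2, h3⟩ := Xf_eq
  rw [PP4, Fin.prod_univ_four, h0, h1, h2, h3]

theorem Pe_mul (i : Fin 4) : Pe ℂ i * Xf ℂ i = PP4 ℂ := by
  rw [Pe, PP4, mul_comm]
  exact Finset.mul_prod_erase _ _ (Finset.mem_univ i)

theorem Pe_eq : Pe ℂ 0 = (xx ℂ - 2) * (xx ℂ - 1) * xx ℂ ∧ Pe ℂ 1 = (xx ℂ + 1) * (xx ℂ - 1) * xx ℂ ∧
    Pe ℂ 2 = (xx ℂ + 1) * (xx ℂ - 2) * xx ℂ ∧ Pe ℂ 3 = (xx ℂ + 1) * (xx ℂ - 2) * (xx ℂ - 1) := by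
  obtain ⟨h0, h1, h2, h3⟩ := Xf_eq
  have e0 : (Finset.univ : Finset (Fin 4)).erase 0 = {1, 2, 3} := by decide
  have e1 : (Finset.univ : Finset (Fin 4)).erase 1 = {0, 2, 3} := by decide
  have e2 : (Finset.univ : Finset (Fin 4)).erase 2 = {0, 1, 3} := by decide
  have e3 : (Finset.univ : Finset (Fin 4)).erase 3 = {0, 1, 2} := by decide
  refine ⟨?_, ?_, ?_, ?_⟩
  · rw [Pe, e0, Finset.prod_insert (by decide), Finset.prod_insert (by decide),
      Finset.prod_singleton, h1, h2, h3, mul_assoc]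
  · rw [Pe, e1, Finset.prod_insert (by decide), Finset.prod_insert (by decide),
      Finset.prod_singleton, h0, h2, h3, mul_assoc]
  · rw [Pe, e2, Finset.prod_insert (by decide), Finset.prod_insert (by decide),
      Finset.prod_singleton, h0, h1, h3, mul_assoc]
  · rw [Pe, e3, Finset.prod_insert (by decide), Finset.prod_insert (by decide),
      Finset.prod_singleton, h0, h1, h2, mul_assoc]

theorem Ul_one : Ul (1 : ℂ) = Uy ℂ := by
  have h : (2 : ℂ) * 1 - 1 = 1 := by norm_num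
  rw [Ul, Uy, h, MvPolynomial.C_1, one_mul]

theorem Qf_one (i : Fin 4) : Qf (1 : ℂ) i = Uy ℂ * Vy ℂ := by
  rw [Qf, Ul_one, ite_self]

theorem UV_eq : Uy ℂ * Vy ℂ = (yy ℂ + 1) * (yy ℂ - 2) * (yy ℂ - 1) * yy ℂ := by
  rw [Uy, Vy]
  ring

theorem ph_PP4 : ph (PP4 ℂ) =
    (ph (xx ℂ) + 1) * (ph (xx ℂ) - 2) * (ph (xx ℂ) - 1) * ph (xx ℂ) := by
  rw [PP4_eq]
  simp only [map_mul, map_add, map_sub, map_one, map_ofNat]

theorem ph_UV : ph (Uy ℂ * Vy ℂ) =
    (ph (yy ℂ) + 1) * (ph (yy ℂ) - 2) * (ph (yy ℂ) - 1) * ph (yy ℂ) := by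
  rw [UV_eq]
  simp only [map_mul, map_add, map_sub, map_one, map_ofNat]

theorem nz (i : Fin 2) : ph (MvPolynomial.X i) + 1 ≠ 0 ∧ ph (MvPolynomial.X i) - 2 ≠ 0 ∧
    ph (MvPolynomial.X i) - 1 ≠ 0 ∧ ph (MvPolynomial.X i) ≠ 0 := by
  obtain ⟨h0, h1, h2, h3⟩ := ac_eq (K := FF) (ph (MvPolynomial.X i))
  rw [← h0, ← h1, ← h2]
  refine ⟨cne i _, cne i _, cne i _, ?_⟩
  rw [← h3]
  exact cne i _

theorem PP4_mem : PP4 ℂ ∈ MM (1 : ℂ) := by
  have h := ww_mem (1 : ℂ) 0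
  rwa [ww, Fin.val_zero, pow_zero, mul_one] at h

theorem PP4y_mem : PP4 ℂ * yy ℂ ^ 4 ∈ MM (1 : ℂ) := ww_mem (1 : ℂ) 4

theorem UV_mem : Uy ℂ * Vy ℂ ∈ MM (1 : ℂ) := by
  have h : (6 : ℂ) • (Uy ℂ * Vy ℂ) ∈ MM (1 : ℂ) := by
    have h1 : (6 : ℂ) • (Uy ℂ * Vy ℂ) = ((-1 : ℂ) • ee (1 : ℂ) 0 + (1 : ℂ) • ee (1 : ℂ) 1 +
        (-3 : ℂ) • ee (1 : ℂ) 2 + (3 : ℂ) • ee (1 : ℂ) 3) := by
      obtain ⟨p0, p1, p2, p3⟩ := Pe_eq
      simp only [ee, Qf_one, p0, p1, p2, p3, MvPolynomial.smul_eq_C_mul]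
      have c6 : (MvPolynomial.C (6 : ℂ) : Sk ℂ) = 6 := map_ofNat _ 6
      have c3 : (MvPolynomial.C (3 : ℂ) : Sk ℂ) = 3 := map_ofNat _ 3
      have c1 : (MvPolynomial.C (-1 : ℂ) : Sk ℂ) = -1 := by simp
      have c3' : (MvPolynomial.C (-3 : ℂ) : Sk ℂ) = -3 := by rw [map_neg, c3]
      rw [c6, c3, c1, c3', MvPolynomial.C_1]
      ring
    rw [h1]
    exact Submodule.add_mem _ (Submodule.add_mem _ (Submodule.add_mem _
      (Submodule.smul_mem _ _ (ee_mem _ _)) (Submodule.smul_mem _ _ (ee_mem _ _)))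
      (Submodule.smul_mem _ _ (ee_mem _ _))) (Submodule.smul_mem _ _ (ee_mem _ _))
  have h2 := Submodule.smul_mem _ ((6 : ℂ)⁻¹) h
  rwa [smul_smul, inv_mul_cancel₀ (by norm_num), one_smul] at h2

end CHART_

open CHART_ in
theorem tCHART : T_CCR1 → T_CHART := by
  intro ccr x y hx hy
  obtain ⟨x0, x1, x2, x3⟩ := nz 0
  obtain ⟨y0, y1, y2, y3⟩ := nz 1
  have hP : ph (PP4 ℂ) ≠ 0 := by
    rw [ph_PP4]
    exact mul_ne_zero (mul_ne_zero (mul_ne_zero x0 x1) x2) x3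
  have hQ : ph (Uy ℂ * Vy ℂ) ≠ 0 := by
    rw [ph_UV]
    exact mul_ne_zero (mul_ne_zero (mul_ne_zero y0 y1) y2) y3
  have hP0 : PP4 ℂ ≠ 0 := fun h => hP (by rw [h, map_zero])
  have hQ0 : Uy ℂ * Vy ℂ ≠ 0 := fun h => hQ (by rw [h, map_zero])
  have hY0 : yy ℂ ≠ 0 := fun h => y3 (by
    show ph (yy ℂ) = 0
    rw [h, map_zero])
  have hPe : ∀ i, ph (Pe ℂ i) = ph (PP4 ℂ) / (ph (xx ℂ) - algebraMap ℂ FF (ac i)) := by
    intro i
    rw [eq_div_iff (cne 0 _), ← fX, ← map_mul, Pe_mul]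
  subst hx hy
  refine ⟨coord, ?_, ?_, ?_, ?_, ?_, ?_⟩
  · intro z
    rw [← ccr ℂ (Sk ℂ) (MM 1) (PP4 ℂ) PP4_mem hP0 z, adj]
    rw [chart1 (ph (xx ℂ)) (ph (yy ℂ))]
    · intro j
      show ph (ww ℂ j) / _ = _
      rw [ww, map_mul, map_pow, mul_div_cancel_left₀ _ hP]
    · intro i
      show ph (ee 1 i) / _ = _
      rw [ee, Qf_one, map_mul, ph_UV, hPe, prod_eq]
      have := cne 0 (ac i)
      field_simp
  · intro z
    rw [← ccr ℂ (Sk ℂ) (MM 1) (PP4 ℂ * yy ℂ ^ 4) PP4y_mem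
      (mul_ne_zero hP0 (pow_ne_zero _ hY0)) z, adj]
    rw [chart2 (ph (xx ℂ)) (ph (yy ℂ))]
    · intro j
      show ph (ww ℂ j) / _ = _
      rw [ww, map_mul, map_mul, map_pow, map_pow, mul_div_mul_left _ _ hP]
      have hj : (j : ℕ) ≤ 4 := by omega
      have h4 : ph (yy ℂ) ^ 4 = ph (yy ℂ) ^ (j : ℕ) * ph (yy ℂ) ^ (4 - (j : ℕ)) := by
        rw [← pow_add]
        congr 1
        omega
      rw [h4, inv_pow]
      have h5 : ph (yy ℂ) ^ (j : ℕ) ≠ 0 := pow_ne_zero _ y3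
      have h6 : ph (yy ℂ) ^ (4 - (j : ℕ)) ≠ 0 := pow_ne_zero _ y3
      field_simp
    · intro i
      show ph (ee 1 i) / _ = _
      rw [ee, Qf_one, map_mul, ph_UV, hPe, prev_eq, map_mul, map_pow]
      have := cne 0 (ac i)
      have h7 : ph (yy ℂ) ≠ 0 := y3
      field_simp
      ring
  · intro z
    rw [← ccr ℂ (Sk ℂ) (MM 1) (Uy ℂ * Vy ℂ) UV_mem hQ0 z, adj]
    rw [chart3 (ph (xx ℂ)) (ph (yy ℂ)) y0 y1 y2 y3]
    · norm_num
    · norm_num
    · intro j
      show ph (ww ℂ j) / _ = _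
      rw [ww, map_mul, map_pow, ph_UV, ph_PP4]
    · intro i
      show ph (ee 1 i) / _ = _
      rw [ee, Qf_one, map_mul, mul_div_cancel_right₀ _ hQ]
      obtain ⟨p0, p1, p2, p3⟩ := Pe_eq
      fin_cases i
      · show ph (Pe ℂ 0) = _
        rw [p0]
        simp only [map_mul, map_add, map_sub, map_one, map_ofNat]
        rfl
      · show ph (Pe ℂ 1) = _
        rw [p1]
        simp only [map_mul, map_add, map_sub, map_one, map_ofNat]
        rfl
      · show ph (Pe ℂ 2) = _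
        rw [p2]
        simp only [map_mul, map_add, map_sub, map_one, map_ofNat]
        rfl
      · show ph (Pe ℂ 3) = _
        rw [p3]
        simp only [map_mul, map_add, map_sub, map_one, map_ofNat]
        rfl
  · rw [pow_one]
    exact PP4_mem
  · rw [pow_one]
    exact PP4y_mem
  · rw [pow_one]
    exact UV_mem

end Pool.Agent.KCY
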