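import Pool.Agent.KCY.Targets

/-!
The cocycle condition: the quotients of local equations are regular on the intersections.
-/

open AlgebraicGeometry CategoryTheory Polynomial

namespace Pool.Agent.KCY

open Rees

namespace COC

variable {F : Type} [Field F]

/-- The ten quotients by `m` belong to `C`. -/
structure Has (C : Subring F) (x V U u m : F) : Prop where
  vv : ((x + 1) * (x - 2) * (x - 1) * x) * V ^ 2 / m ∈ C
  uv : ((x + 1) * (x - 2) * (x - 1) * x) * (U * V) / m ∈ C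
  lv : ((x + 1) * (x - 2) * (x - 1) * x) * (u * V) / m ∈ C
  uu : ((x + 1) * (x - 2) * (x - 1) * x) * U ^ 2 / m ∈ C
  lu : ((x + 1) * (x - 2) * (x - 1) * x) * (u * U) / m ∈ C
  ll : ((x + 1) * (x - 2) * (x - 1) * x) * u ^ 2 / m ∈ C
  e0 : ((x - 2) * (x - 1) * x) * (u * V) / m ∈ C
  e1 : ((x + 1) * (x - 1) * x) * (U * V) / m ∈ C
  e2 : ((x + 1) * (x - 2) * x) * (U * V) / m ∈ C
  e3 : ((x + 1) * (x - 2) * (x - 1)) * (U * V) / m ∈ C

variable (x V U u : F)

/-- The six elements `m i`. -/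
def mF : Fin 6 → F :=
  ![((x + 1) * (x - 2) * (x - 1) * x) * V ^ 2, ((x + 1) * (x - 2) * (x - 1) * x) * (u * U),
    ((x - 2) * (x - 1) * x) * (u * V), ((x + 1) * (x - 1) * x) * (U * V),
    ((x + 1) * (x - 2) * x) * (U * V), ((x + 1) * (x - 2) * (x - 1)) * (U * V)]

/-- The six local equations. -/
def pF : Fin 6 → F :=
  ![1, V * (x + 1) * (x - 2) / (U * (x - 1) * x), (x + 1) * V / u, (x - 2) * V / U, 1, 1]

variable {x V U u : F} in
theorem pair01 (C : Subring F) (hx0 : x + 1 ≠ 0) (hx1 : x - 2 ≠ 0)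
    (hx2 : x - 1 ≠ 0) (hx3 : x ≠ 0) (hV : V ≠ 0) (hU : U ≠ 0) (hu : u ≠ 0)
    (h2 : (2 : F) ≠ 0) (h3 : (3 : F) ≠ 0) (c2 : (2 : F)⁻¹ ∈ C) (c3 : (3 : F)⁻¹ ∈ C)
    (hi : Has C x V U u (mF x V U u 0)) (hj : Has C x V U u (mF x V U u 1)) :
    pF x V U u 0 / pF x V U u 1 ∈ C ∧ pF x V U u 1 / pF x V U u 0 ∈ C := by
  have vu : V / U ∈ C := by
    have h : V / U = ((x + 1) * (x - 2) * (x - 1) * x) * (u * V) / (((x + 1) * (x - 2) * (x - 1) * x) * (u * U)) := by field_simp
    rw [h]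
    exact hj.lv
  have uv : U / V ∈ C := by
    have h : U / V = ((x + 1) * (x - 2) * (x - 1) * x) * (U * V) / (((x + 1) * (x - 2) * (x - 1) * x) * V ^ 2) := by field_simp
    rw [h]
    exact hi.uv
  have vl : V / u ∈ C := by
    have h : V / u = ((x + 1) * (x - 2) * (x - 1) * x) * (U * V) / (((x + 1) * (x - 2) * (x - 1) * x) * (u * U)) := by field_simp
    rw [h]
    exact hj.uv
  have a1 : U / (V * (x - 2)) ∈ C := by
    have h : U / (V * (x - 2)) = ((x + 1) * (x - 1) * x) * (U * V) / (((x + 1) * (x - 2) * (x - 1) * x) * V ^ 2) := by field_simp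
    rw [h]
    exact hi.e1
  have a2 : U / (V * (x - 1)) ∈ C := by
    have h : U / (V * (x - 1)) = ((x + 1) * (x - 2) * x) * (U * V) / (((x + 1) * (x - 2) * (x - 1) * x) * V ^ 2) := by field_simp
    rw [h]
    exact hi.e2
  have a3 : U / (V * x) ∈ C := by
    have h : U / (V * x) = ((x + 1) * (x - 2) * (x - 1)) * (U * V) / (((x + 1) * (x - 2) * (x - 1) * x) * V ^ 2) := by field_simp
    rw [h]
    exact hi.e3
  have a0 : u / (V * (x + 1)) ∈ C := by
    have h : u / (V * (x + 1)) = ((x - 2) * (x - 1) * x) * (u * V) / (((x + 1) * (x - 2) * (x - 1) * x) * V ^ 2) := by field_simp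
    rw [h]
    exact hi.e0
  have i0 : 1 / (x + 1) ∈ C := by
    have h : 1 / (x + 1) = u / (V * (x + 1)) * (V / u) := by
      first
        | ring1
        | (field_simp; done)
        | (field_simp; ring1)
    rw [h]
    exact C.mul_mem a0 vl
  have i1 : 1 / (x - 2) ∈ C := by
    have h : 1 / (x - 2) = U / (V * (x - 2)) * (V / U) := by
      first
        | ring1
        | (field_simp; done)
        | (field_simp; ring1)
    rw [h]
    exact C.mul_mem a1 vu
  have i2 : 1 / (x - 1) ∈ C := by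
    have h : 1 / (x - 1) = U / (V * (x - 1)) * (V / U) := by
      first
        | ring1
        | (field_simp; done)
        | (field_simp; ring1)
    rw [h]
    exact C.mul_mem a2 vu
  have i3 : 1 / x ∈ C := by
    have h : 1 / x = U / (V * x) * (V / U) := by
      first
        | ring1
        | (field_simp; done)
        | (field_simp; ring1)
    rw [h]
    exact C.mul_mem a3 vu
  have t2 : (2 : F) ∈ C := ofNat_mem C 2
  constructor
  · change (1) / (V * (x + 1) * (x - 2) / (U * (x - 1) * x)) ∈ C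
    have h : (1) / (V * (x + 1) * (x - 2) / (U * (x - 1) * x)) = (U / V) * ((1 - 2 * (1 / (x + 1))) * (1 + 2 * (1 / (x - 2)))) := by
      field_simp
      try ring
    rw [h]
    exact C.mul_mem uv (C.mul_mem (C.sub_mem C.one_mem (C.mul_mem t2 i0)) (C.add_mem C.one_mem (C.mul_mem t2 i1)))
  · change (V * (x + 1) * (x - 2) / (U * (x - 1) * x)) / (1) ∈ C
    have h : (V * (x + 1) * (x - 2) / (U * (x - 1) * x)) / (1) = (V / U) * ((1 + 2 * (1 / (x - 1))) * (1 - 2 * (1 / x))) := by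
      field_simp
      try ring
    rw [h]
    exact C.mul_mem vu (C.mul_mem (C.add_mem C.one_mem (C.mul_mem t2 i2)) (C.sub_mem C.one_mem (C.mul_mem t2 i3)))

variable {x V U u : F} in
theorem pair02 (C : Subring F) (hx0 : x + 1 ≠ 0) (hx1 : x - 2 ≠ 0)
    (hx2 : x - 1 ≠ 0) (hx3 : x ≠ 0) (hV : V ≠ 0) (hU : U ≠ 0) (hu : u ≠ 0)
    (h2 : (2 : F) ≠ 0) (h3 : (3 : F) ≠ 0) (c2 : (2 : F)⁻¹ ∈ C) (c3 : (3 : F)⁻¹ ∈ C)
    (hi : Has C x V U u (mF x V U u 0)) (hj : Has C x V U u (mF x V U u 2)) :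
    pF x V U u 0 / pF x V U u 2 ∈ C ∧ pF x V U u 2 / pF x V U u 0 ∈ C := by
  have a : (x + 1) * V / u ∈ C := by
    have h : (x + 1) * V / u = ((x + 1) * (x - 2) * (x - 1) * x) * V ^ 2 / (((x - 2) * (x - 1) * x) * (u * V)) := by field_simp
    rw [h]
    exact hj.vv
  have b : u / (V * (x + 1)) ∈ C := by
    have h : u / (V * (x + 1)) = ((x - 2) * (x - 1) * x) * (u * V) / (((x + 1) * (x - 2) * (x - 1) * x) * V ^ 2) := by field_simp
    rw [h]
    exact hi.e0
  constructor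
  · change (1) / ((x + 1) * V / u) ∈ C
    have h : (1) / ((x + 1) * V / u) = u / (V * (x + 1)) := by
      field_simp
      try ring
    rw [h]
    exact b
  · change ((x + 1) * V / u) / (1) ∈ C
    have h : ((x + 1) * V / u) / (1) = (x + 1) * V / u := by
      field_simp
      try ring
    rw [h]
    exact a

variable {x V U u : F} in
theorem pair03 (C : Subring F) (hx0 : x + 1 ≠ 0) (hx1 : x - 2 ≠ 0)
    (hx2 : x - 1 ≠ 0) (hx3 : x ≠ 0) (hV : V ≠ 0) (hU : U ≠ 0) (hu : u ≠ 0)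
    (h2 : (2 : F) ≠ 0) (h3 : (3 : F) ≠ 0) (c2 : (2 : F)⁻¹ ∈ C) (c3 : (3 : F)⁻¹ ∈ C)
    (hi : Has C x V U u (mF x V U u 0)) (hj : Has C x V U u (mF x V U u 3)) :
    pF x V U u 0 / pF x V U u 3 ∈ C ∧ pF x V U u 3 / pF x V U u 0 ∈ C := by
  have a : (x - 2) * V / U ∈ C := by
    have h : (x - 2) * V / U = ((x + 1) * (x - 2) * (x - 1) * x) * V ^ 2 / (((x + 1) * (x - 1) * x) * (U * V)) := by field_simp
    rw [h]
    exact hj.vv
  have b : U / (V * (x - 2)) ∈ C := by
    have h : U / (V * (x - 2)) = ((x + 1) * (x - 1) * x) * (U * V) / (((x + 1) * (x - 2) * (x - 1) * x) * V ^ 2) := by field_simp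
    rw [h]
    exact hi.e1
  constructor
  · change (1) / ((x - 2) * V / U) ∈ C
    have h : (1) / ((x - 2) * V / U) = U / (V * (x - 2)) := by
      field_simp
      try ring
    rw [h]
    exact b
  · change ((x - 2) * V / U) / (1) ∈ C
    have h : ((x - 2) * V / U) / (1) = (x - 2) * V / U := by
      field_simp
      try ring
    rw [h]
    exact a

variable {x V U u : F} in
theorem pair12 (C : Subring F) (hx0 : x + 1 ≠ 0) (hx1 : x - 2 ≠ 0)
    (hx2 : x - 1 ≠ 0) (hx3 : x ≠ 0) (hV : V ≠ 0) (hU : U ≠ 0) (hu : u ≠ 0)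
    (h2 : (2 : F) ≠ 0) (h3 : (3 : F) ≠ 0) (c2 : (2 : F)⁻¹ ∈ C) (c3 : (3 : F)⁻¹ ∈ C)
    (hi : Has C x V U u (mF x V U u 1)) (hj : Has C x V U u (mF x V U u 2)) :
    pF x V U u 1 / pF x V U u 2 ∈ C ∧ pF x V U u 2 / pF x V U u 1 ∈ C := by
  have ul : U / u ∈ C := by
    have h : U / u = ((x + 1) * (x - 2) * (x - 1) * x) * U ^ 2 / (((x + 1) * (x - 2) * (x - 1) * x) * (u * U)) := by field_simp
    rw [h]
    exact hi.uu
  have lu : u / U ∈ C := by
    have h : u / U = ((x + 1) * (x - 2) * (x - 1) * x) * u ^ 2 / (((x + 1) * (x - 2) * (x - 1) * x) * (u * U)) := by field_simp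
    rw [h]
    exact hi.ll
  have X0 : x + 1 ∈ C := by
    have h : x + 1 = ((x + 1) * (x - 2) * (x - 1) * x) * (u * V) / (((x - 2) * (x - 1) * x) * (u * V)) := by field_simp
    rw [h]
    exact hj.lv
  have n3 : (3 : F) ∈ C := ofNat_mem C 3
  have n2 : (2 : F) ∈ C := ofNat_mem C 2
  have X2 : x - 1 ∈ C := by
    have h : x - 1 = (x + 1) - 2 := by
      first
        | ring1
        | (field_simp; done)
        | (field_simp; ring1)
    rw [h]
    exact C.sub_mem X0 n2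
  have X3 : x ∈ C := by
    have h : x = (x + 1) - 1 := by
      first
        | ring1
        | (field_simp; done)
        | (field_simp; ring1)
    rw [h]
    exact C.sub_mem X0 C.one_mem
  have X1 : x - 2 ∈ C := by
    have h : x - 2 = (x + 1) - 3 := by
      first
        | ring1
        | (field_simp; done)
        | (field_simp; ring1)
    rw [h]
    exact C.sub_mem X0 n3
  have b1 : (x + 1) * U / ((x - 2) * u) ∈ C := by
    have h : (x + 1) * U / ((x - 2) * u) = ((x + 1) * (x - 1) * x) * (U * V) / (((x - 2) * (x - 1) * x) * (u * V)) := by field_simp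
    rw [h]
    exact hj.e1
  have r1 : (x + 1) / (x - 2) ∈ C := by
    have h : (x + 1) / (x - 2) = (x + 1) * U / ((x - 2) * u) * (u / U) := by
      first
        | ring1
        | (field_simp; done)
        | (field_simp; ring1)
    rw [h]
    exact C.mul_mem b1 lu
  have b2 : (x + 1) * U / ((x - 1) * u) ∈ C := by
    have h : (x + 1) * U / ((x - 1) * u) = ((x + 1) * (x - 2) * x) * (U * V) / (((x - 2) * (x - 1) * x) * (u * V)) := by field_simp
    rw [h]
    exact hj.e2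
  have r2 : (x + 1) / (x - 1) ∈ C := by
    have h : (x + 1) / (x - 1) = (x + 1) * U / ((x - 1) * u) * (u / U) := by
      first
        | ring1
        | (field_simp; done)
        | (field_simp; ring1)
    rw [h]
    exact C.mul_mem b2 lu
  have b3 : (x + 1) * U / ((x) * u) ∈ C := by
    have h : (x + 1) * U / ((x) * u) = ((x + 1) * (x - 2) * (x - 1)) * (U * V) / (((x - 2) * (x - 1) * x) * (u * V)) := by field_simp
    rw [h]
    exact hj.e3
  have r3 : (x + 1) / (x) ∈ C := by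
    have h : (x + 1) / (x) = (x + 1) * U / ((x) * u) * (u / U) := by
      first
        | ring1
        | (field_simp; done)
        | (field_simp; ring1)
    rw [h]
    exact C.mul_mem b3 lu
  have i1 : 1 / (x - 2) ∈ C := by
    have h : 1 / (x - 2) = ((x + 1) / (x - 2) - 1) * (3 : F)⁻¹ := by
      first
        | ring1
        | (field_simp; done)
        | (field_simp; ring1)
    rw [h]
    exact C.mul_mem (C.sub_mem r1 C.one_mem) c3
  have i2 : 1 / (x - 1) ∈ C := by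
    have h : 1 / (x - 1) = ((x + 1) / (x - 1) - 1) * (2 : F)⁻¹ := by
      first
        | ring1
        | (field_simp; done)
        | (field_simp; ring1)
    rw [h]
    exact C.mul_mem (C.sub_mem r2 C.one_mem) c2
  have i3 : 1 / x ∈ C := by
    have h : 1 / x = (x + 1) / x - 1 := by
      first
        | ring1
        | (field_simp; done)
        | (field_simp; ring1)
    rw [h]
    exact C.sub_mem r3 C.one_mem
  constructor
  · change (V * (x + 1) * (x - 2) / (U * (x - 1) * x)) / ((x + 1) * V / u) ∈ C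
    have h : (V * (x + 1) * (x - 2) / (U * (x - 1) * x)) / ((x + 1) * V / u) = (u / U) * ((x - 2) * ((1 / (x - 1)) * (1 / x))) := by
      field_simp
      try ring
    rw [h]
    exact C.mul_mem lu (C.mul_mem X1 (C.mul_mem i2 i3))
  · change ((x + 1) * V / u) / (V * (x + 1) * (x - 2) / (U * (x - 1) * x)) ∈ C
    have h : ((x + 1) * V / u) / (V * (x + 1) * (x - 2) / (U * (x - 1) * x)) = (U / u) * ((x - 1) * (x * (1 / (x - 2)))) := by
      field_simp
      try ring
    rw [h]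
    exact C.mul_mem ul (C.mul_mem X2 (C.mul_mem X3 i1))

variable {x V U u : F} in
theorem pair13 (C : Subring F) (hx0 : x + 1 ≠ 0) (hx1 : x - 2 ≠ 0)
    (hx2 : x - 1 ≠ 0) (hx3 : x ≠ 0) (hV : V ≠ 0) (hU : U ≠ 0) (hu : u ≠ 0)
    (h2 : (2 : F) ≠ 0) (h3 : (3 : F) ≠ 0) (c2 : (2 : F)⁻¹ ∈ C) (c3 : (3 : F)⁻¹ ∈ C)
    (hi : Has C x V U u (mF x V U u 1)) (hj : Has C x V U u (mF x V U u 3)) :
    pF x V U u 1 / pF x V U u 3 ∈ C ∧ pF x V U u 3 / pF x V U u 1 ∈ C := by
  have ul : U / u ∈ C := by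
    have h : U / u = ((x + 1) * (x - 2) * (x - 1) * x) * U ^ 2 / (((x + 1) * (x - 2) * (x - 1) * x) * (u * U)) := by field_simp
    rw [h]
    exact hi.uu
  have X1 : x - 2 ∈ C := by
    have h : x - 2 = ((x + 1) * (x - 2) * (x - 1) * x) * (U * V) / (((x + 1) * (x - 1) * x) * (U * V)) := by field_simp
    rw [h]
    exact hj.uv
  have n3 : (3 : F) ∈ C := ofNat_mem C 3
  have n2 : (2 : F) ∈ C := ofNat_mem C 2
  have X0 : x + 1 ∈ C := by
    have h : x + 1 = (x - 2) + 3 := by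
      first
        | ring1
        | (field_simp; done)
        | (field_simp; ring1)
    rw [h]
    exact C.add_mem X1 n3
  have X2 : x - 1 ∈ C := by
    have h : x - 1 = (x - 2) + 1 := by
      first
        | ring1
        | (field_simp; done)
        | (field_simp; ring1)
    rw [h]
    exact C.add_mem X1 C.one_mem
  have X3 : x ∈ C := by
    have h : x = (x - 2) + 2 := by
      first
        | ring1
        | (field_simp; done)
        | (field_simp; ring1)
    rw [h]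
    exact C.add_mem X1 n2
  have r2 : (x - 2) / (x - 1) ∈ C := by
    have h : (x - 2) / (x - 1) = ((x + 1) * (x - 2) * x) * (U * V) / (((x + 1) * (x - 1) * x) * (U * V)) := by field_simp
    rw [h]
    exact hj.e2
  have r3 : (x - 2) / x ∈ C := by
    have h : (x - 2) / x = ((x + 1) * (x - 2) * (x - 1)) * (U * V) / (((x + 1) * (x - 1) * x) * (U * V)) := by field_simp
    rw [h]
    exact hj.e3
  have b0 : (x - 2) * u / ((x + 1) * U) ∈ C := by
    have h : (x - 2) * u / ((x + 1) * U) = ((x - 2) * (x - 1) * x) * (u * V) / (((x + 1) * (x - 1) * x) * (U * V)) := by field_simp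
    rw [h]
    exact hj.e0
  have r0 : (x - 2) / (x + 1) ∈ C := by
    have h : (x - 2) / (x + 1) = (x - 2) * u / ((x + 1) * U) * (U / u) := by
      first
        | ring1
        | (field_simp; done)
        | (field_simp; ring1)
    rw [h]
    exact C.mul_mem b0 ul
  have i2 : 1 / (x - 1) ∈ C := by
    have h : 1 / (x - 1) = 1 - (x - 2) / (x - 1) := by
      first
        | ring1
        | (field_simp; done)
        | (field_simp; ring1)
    rw [h]
    exact C.sub_mem C.one_mem r2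
  have i3 : 1 / x ∈ C := by
    have h : 1 / x = (1 - (x - 2) / x) * (2 : F)⁻¹ := by
      first
        | ring1
        | (field_simp; done)
        | (field_simp; ring1)
    rw [h]
    exact C.mul_mem (C.sub_mem C.one_mem r3) c2
  have i0 : 1 / (x + 1) ∈ C := by
    have h : 1 / (x + 1) = (1 - (x - 2) / (x + 1)) * (3 : F)⁻¹ := by
      first
        | ring1
        | (field_simp; done)
        | (field_simp; ring1)
    rw [h]
    exact C.mul_mem (C.sub_mem C.one_mem r0) c3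
  constructor
  · change (V * (x + 1) * (x - 2) / (U * (x - 1) * x)) / ((x - 2) * V / U) ∈ C
    have h : (V * (x + 1) * (x - 2) / (U * (x - 1) * x)) / ((x - 2) * V / U) = (x + 1) * ((1 / (x - 1)) * (1 / x)) := by
      field_simp
      try ring
    rw [h]
    exact C.mul_mem X0 (C.mul_mem i2 i3)
  · change ((x - 2) * V / U) / (V * (x + 1) * (x - 2) / (U * (x - 1) * x)) ∈ C
    have h : ((x - 2) * V / U) / (V * (x + 1) * (x - 2) / (U * (x - 1) * x)) = (x - 1) * (x * (1 / (x + 1))) := by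
      field_simp
      try ring
    rw [h]
    exact C.mul_mem X2 (C.mul_mem X3 i0)

variable {x V U u : F} in
theorem pair14 (C : Subring F) (hx0 : x + 1 ≠ 0) (hx1 : x - 2 ≠ 0)
    (hx2 : x - 1 ≠ 0) (hx3 : x ≠ 0) (hV : V ≠ 0) (hU : U ≠ 0) (hu : u ≠ 0)
    (h2 : (2 : F) ≠ 0) (h3 : (3 : F) ≠ 0) (c2 : (2 : F)⁻¹ ∈ C) (c3 : (3 : F)⁻¹ ∈ C)
    (hi : Has C x V U u (mF x V U u 1)) (hj : Has C x V U u (mF x V U u 4)) :
    pF x V U u 1 / pF x V U u 4 ∈ C ∧ pF x V U u 4 / pF x V U u 1 ∈ C := by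
  have ul : U / u ∈ C := by
    have h : U / u = ((x + 1) * (x - 2) * (x - 1) * x) * U ^ 2 / (((x + 1) * (x - 2) * (x - 1) * x) * (u * U)) := by field_simp
    rw [h]
    exact hi.uu
  have lu : u / U ∈ C := by
    have h : u / U = ((x + 1) * (x - 2) * (x - 1) * x) * u ^ 2 / (((x + 1) * (x - 2) * (x - 1) * x) * (u * U)) := by field_simp
    rw [h]
    exact hi.ll
  have X2 : x - 1 ∈ C := by
    have h : x - 1 = ((x + 1) * (x - 2) * (x - 1) * x) * (U * V) / (((x + 1) * (x - 2) * x) * (U * V)) := by field_simp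
    rw [h]
    exact hj.uv
  have n2 : (2 : F) ∈ C := ofNat_mem C 2
  have X0 : x + 1 ∈ C := by
    have h : x + 1 = (x - 1) + 2 := by
      first
        | ring1
        | (field_simp; done)
        | (field_simp; ring1)
    rw [h]
    exact C.add_mem X2 n2
  have X1 : x - 2 ∈ C := by
    have h : x - 2 = (x - 1) - 1 := by
      first
        | ring1
        | (field_simp; done)
        | (field_simp; ring1)
    rw [h]
    exact C.sub_mem X2 C.one_mem
  have X3 : x ∈ C := by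
    have h : x = (x - 1) + 1 := by
      first
        | ring1
        | (field_simp; done)
        | (field_simp; ring1)
    rw [h]
    exact C.add_mem X2 C.one_mem
  have s : V / ((x - 1) * u) ∈ C := by
    have h : V / ((x - 1) * u) = ((x + 1) * (x - 2) * x) * (U * V) / (((x + 1) * (x - 2) * (x - 1) * x) * (u * U)) := by field_simp
    rw [h]
    exact hi.e2
  have s2 : V / ((x - 1) * U) ∈ C := by
    have h : V / ((x - 1) * U) = V / ((x - 1) * u) * (u / U) := by
      first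
        | ring1
        | (field_simp; done)
        | (field_simp; ring1)
    rw [h]
    exact C.mul_mem s lu
  have r3 : (x - 1) / x ∈ C := by
    have h : (x - 1) / x = ((x + 1) * (x - 2) * (x - 1)) * (U * V) / (((x + 1) * (x - 2) * x) * (U * V)) := by field_simp
    rw [h]
    exact hj.e3
  have r1 : (x - 1) / (x - 2) ∈ C := by
    have h : (x - 1) / (x - 2) = ((x + 1) * (x - 1) * x) * (U * V) / (((x + 1) * (x - 2) * x) * (U * V)) := by field_simp
    rw [h]
    exact hj.e1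
  have b0 : (x - 1) * u / ((x + 1) * U) ∈ C := by
    have h : (x - 1) * u / ((x + 1) * U) = ((x - 2) * (x - 1) * x) * (u * V) / (((x + 1) * (x - 2) * x) * (U * V)) := by field_simp
    rw [h]
    exact hj.e0
  have r0 : (x - 1) / (x + 1) ∈ C := by
    have h : (x - 1) / (x + 1) = (x - 1) * u / ((x + 1) * U) * (U / u) := by
      first
        | ring1
        | (field_simp; done)
        | (field_simp; ring1)
    rw [h]
    exact C.mul_mem b0 ul
  have q : (x - 1) * U / V ∈ C := by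
    have h : (x - 1) * U / V = ((x + 1) * (x - 2) * (x - 1) * x) * U ^ 2 / (((x + 1) * (x - 2) * x) * (U * V)) := by field_simp
    rw [h]
    exact hj.uu
  have i3 : 1 / x ∈ C := by
    have h : 1 / x = 1 - (x - 1) / x := by
      first
        | ring1
        | (field_simp; done)
        | (field_simp; ring1)
    rw [h]
    exact C.sub_mem C.one_mem r3
  have i1 : 1 / (x - 2) ∈ C := by
    have h : 1 / (x - 2) = (x - 1) / (x - 2) - 1 := by
      first
        | ring1
        | (field_simp; done)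
        | (field_simp; ring1)
    rw [h]
    exact C.sub_mem r1 C.one_mem
  have i0 : 1 / (x + 1) ∈ C := by
    have h : 1 / (x + 1) = (1 - (x - 1) / (x + 1)) * (2 : F)⁻¹ := by
      first
        | ring1
        | (field_simp; done)
        | (field_simp; ring1)
    rw [h]
    exact C.mul_mem (C.sub_mem C.one_mem r0) c2
  constructor
  · change (V * (x + 1) * (x - 2) / (U * (x - 1) * x)) / (1) ∈ C
    have h : (V * (x + 1) * (x - 2) / (U * (x - 1) * x)) / (1) = V / ((x - 1) * U) * ((x + 1) * ((x - 2) * (1 / x))) := by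
      field_simp
      try ring
    rw [h]
    exact C.mul_mem s2 (C.mul_mem X0 (C.mul_mem X1 i3))
  · change (1) / (V * (x + 1) * (x - 2) / (U * (x - 1) * x)) ∈ C
    have h : (1) / (V * (x + 1) * (x - 2) / (U * (x - 1) * x)) = (x - 1) * U / V * (x * ((1 / (x + 1)) * (1 / (x - 2)))) := by
      field_simp
      try ring
    rw [h]
    exact C.mul_mem q (C.mul_mem X3 (C.mul_mem i0 i1))

variable {x V U u : F} in
theorem pair15 (C : Subring F) (hx0 : x + 1 ≠ 0) (hx1 : x - 2 ≠ 0)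
    (hx2 : x - 1 ≠ 0) (hx3 : x ≠ 0) (hV : V ≠ 0) (hU : U ≠ 0) (hu : u ≠ 0)
    (h2 : (2 : F) ≠ 0) (h3 : (3 : F) ≠ 0) (c2 : (2 : F)⁻¹ ∈ C) (c3 : (3 : F)⁻¹ ∈ C)
    (hi : Has C x V U u (mF x V U u 1)) (hj : Has C x V U u (mF x V U u 5)) :
    pF x V U u 1 / pF x V U u 5 ∈ C ∧ pF x V U u 5 / pF x V U u 1 ∈ C := by
  have ul : U / u ∈ C := by
    have h : U / u = ((x + 1) * (x - 2) * (x - 1) * x) * U ^ 2 / (((x + 1) * (x - 2) * (x - 1) * x) * (u * U)) := by field_simp
    rw [h]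
    exact hi.uu
  have lu : u / U ∈ C := by
    have h : u / U = ((x + 1) * (x - 2) * (x - 1) * x) * u ^ 2 / (((x + 1) * (x - 2) * (x - 1) * x) * (u * U)) := by field_simp
    rw [h]
    exact hi.ll
  have X3 : x ∈ C := by
    have h : x = ((x + 1) * (x - 2) * (x - 1) * x) * (U * V) / (((x + 1) * (x - 2) * (x - 1)) * (U * V)) := by field_simp
    rw [h]
    exact hj.uv
  have n2 : (2 : F) ∈ C := ofNat_mem C 2
  have X0 : x + 1 ∈ C := C.add_mem X3 C.one_mem
  have X1 : x - 2 ∈ C := C.sub_mem X3 n2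
  have X2 : x - 1 ∈ C := C.sub_mem X3 C.one_mem
  have s : V / (x * u) ∈ C := by
    have h : V / (x * u) = ((x + 1) * (x - 2) * (x - 1)) * (U * V) / (((x + 1) * (x - 2) * (x - 1) * x) * (u * U)) := by field_simp
    rw [h]
    exact hi.e3
  have s2 : V / (x * U) ∈ C := by
    have h : V / (x * U) = V / (x * u) * (u / U) := by
      first
        | ring1
        | (field_simp; done)
        | (field_simp; ring1)
    rw [h]
    exact C.mul_mem s lu
  have r2 : x / (x - 1) ∈ C := by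
    have h : x / (x - 1) = ((x + 1) * (x - 2) * x) * (U * V) / (((x + 1) * (x - 2) * (x - 1)) * (U * V)) := by field_simp
    rw [h]
    exact hj.e2
  have r1 : x / (x - 2) ∈ C := by
    have h : x / (x - 2) = ((x + 1) * (x - 1) * x) * (U * V) / (((x + 1) * (x - 2) * (x - 1)) * (U * V)) := by field_simp
    rw [h]
    exact hj.e1
  have b0 : x * u / ((x + 1) * U) ∈ C := by
    have h : x * u / ((x + 1) * U) = ((x - 2) * (x - 1) * x) * (u * V) / (((x + 1) * (x - 2) * (x - 1)) * (U * V)) := by field_simp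
    rw [h]
    exact hj.e0
  have r0 : x / (x + 1) ∈ C := by
    have h : x / (x + 1) = x * u / ((x + 1) * U) * (U / u) := by
      first
        | ring1
        | (field_simp; done)
        | (field_simp; ring1)
    rw [h]
    exact C.mul_mem b0 ul
  have q : x * U / V ∈ C := by
    have h : x * U / V = ((x + 1) * (x - 2) * (x - 1) * x) * U ^ 2 / (((x + 1) * (x - 2) * (x - 1)) * (U * V)) := by field_simp
    rw [h]
    exact hj.uu
  have i2 : 1 / (x - 1) ∈ C := by
    have h : 1 / (x - 1) = x / (x - 1) - 1 := by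
      first
        | ring1
        | (field_simp; done)
        | (field_simp; ring1)
    rw [h]
    exact C.sub_mem r2 C.one_mem
  have i1 : 1 / (x - 2) ∈ C := by
    have h : 1 / (x - 2) = (x / (x - 2) - 1) * (2 : F)⁻¹ := by
      first
        | ring1
        | (field_simp; done)
        | (field_simp; ring1)
    rw [h]
    exact C.mul_mem (C.sub_mem r1 C.one_mem) c2
  have i0 : 1 / (x + 1) ∈ C := by
    have h : 1 / (x + 1) = 1 - x / (x + 1) := by
      first
        | ring1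
        | (field_simp; done)
        | (field_simp; ring1)
    rw [h]
    exact C.sub_mem C.one_mem r0
  constructor
  · change (V * (x + 1) * (x - 2) / (U * (x - 1) * x)) / (1) ∈ C
    have h : (V * (x + 1) * (x - 2) / (U * (x - 1) * x)) / (1) = V / (x * U) * ((x + 1) * ((x - 2) * (1 / (x - 1)))) := by
      field_simp
      try ring
    rw [h]
    exact C.mul_mem s2 (C.mul_mem X0 (C.mul_mem X1 i2))
  · change (1) / (V * (x + 1) * (x - 2) / (U * (x - 1) * x)) ∈ C
    have h : (1) / (V * (x + 1) * (x - 2) / (U * (x - 1) * x)) = x * U / V * ((x - 1) * ((1 / (x + 1)) * (1 / (x - 2)))) := by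
      field_simp
      try ring
    rw [h]
    exact C.mul_mem q (C.mul_mem X2 (C.mul_mem i0 i1))

variable {x V U u : F} in
theorem pair23 (C : Subring F) (hx0 : x + 1 ≠ 0) (hx1 : x - 2 ≠ 0)
    (hx2 : x - 1 ≠ 0) (hx3 : x ≠ 0) (hV : V ≠ 0) (hU : U ≠ 0) (hu : u ≠ 0)
    (h2 : (2 : F) ≠ 0) (h3 : (3 : F) ≠ 0) (c2 : (2 : F)⁻¹ ∈ C) (c3 : (3 : F)⁻¹ ∈ C)
    (hi : Has C x V U u (mF x V U u 2)) (hj : Has C x V U u (mF x V U u 3)) :
    pF x V U u 2 / pF x V U u 3 ∈ C ∧ pF x V U u 3 / pF x V U u 2 ∈ C := by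
  have a : (x + 1) * U / ((x - 2) * u) ∈ C := by
    have h : (x + 1) * U / ((x - 2) * u) = ((x + 1) * (x - 1) * x) * (U * V) / (((x - 2) * (x - 1) * x) * (u * V)) := by field_simp
    rw [h]
    exact hi.e1
  have b : (x - 2) * u / ((x + 1) * U) ∈ C := by
    have h : (x - 2) * u / ((x + 1) * U) = ((x - 2) * (x - 1) * x) * (u * V) / (((x + 1) * (x - 1) * x) * (U * V)) := by field_simp
    rw [h]
    exact hj.e0
  constructor
  · change ((x + 1) * V / u) / ((x - 2) * V / U) ∈ C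
    have h : ((x + 1) * V / u) / ((x - 2) * V / U) = (x + 1) * U / ((x - 2) * u) := by
      field_simp
      try ring
    rw [h]
    exact a
  · change ((x - 2) * V / U) / ((x + 1) * V / u) ∈ C
    have h : ((x - 2) * V / U) / ((x + 1) * V / u) = (x - 2) * u / ((x + 1) * U) := by
      field_simp
      try ring
    rw [h]
    exact b

variable {x V U u : F} in
theorem pair24 (C : Subring F) (hx0 : x + 1 ≠ 0) (hx1 : x - 2 ≠ 0)
    (hx2 : x - 1 ≠ 0) (hx3 : x ≠ 0) (hV : V ≠ 0) (hU : U ≠ 0) (hu : u ≠ 0)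
    (h2 : (2 : F) ≠ 0) (h3 : (3 : F) ≠ 0) (c2 : (2 : F)⁻¹ ∈ C) (c3 : (3 : F)⁻¹ ∈ C)
    (hi : Has C x V U u (mF x V U u 2)) (hj : Has C x V U u (mF x V U u 4)) :
    pF x V U u 2 / pF x V U u 4 ∈ C ∧ pF x V U u 4 / pF x V U u 2 ∈ C := by
  have a : (x + 1) * V / u ∈ C := by
    have h : (x + 1) * V / u = ((x + 1) * (x - 2) * (x - 1) * x) * V ^ 2 / (((x - 2) * (x - 1) * x) * (u * V)) := by field_simp
    rw [h]
    exact hi.vv
  have n2 : (2 : F) ∈ C := ofNat_mem C 2
  have r : (x - 1) * u / ((x + 1) * U) ∈ C := by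
    have h : (x - 1) * u / ((x + 1) * U) = ((x - 2) * (x - 1) * x) * (u * V) / (((x + 1) * (x - 2) * x) * (U * V)) := by field_simp
    rw [h]
    exact hj.e0
  have s : (x - 1) * U / V ∈ C := by
    have h : (x - 1) * U / V = ((x + 1) * (x - 2) * (x - 1) * x) * U ^ 2 / (((x + 1) * (x - 2) * x) * (U * V)) := by field_simp
    rw [h]
    exact hj.uu
  have t : (x - 1) * u / V ∈ C := by
    have h : (x - 1) * u / V = ((x + 1) * (x - 2) * (x - 1) * x) * (u * U) / (((x + 1) * (x - 2) * x) * (U * V)) := by field_simp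
    rw [h]
    exact hj.lu
  have v : (x + 1) * u / V ∈ C := by
    have h : (x + 1) * u / V = ((x + 1) * (x - 2) * (x - 1) * x) * u ^ 2 / (((x - 2) * (x - 1) * x) * (u * V)) := by field_simp
    rw [h]
    exact hi.ll
  constructor
  · change ((x + 1) * V / u) / (1) ∈ C
    have h : ((x + 1) * V / u) / (1) = (x + 1) * V / u := by
      field_simp
      try ring
    rw [h]
    exact a
  · change (1) / ((x + 1) * V / u) ∈ C
    have h : (1) / ((x + 1) * V / u) = (((x - 1) * u / ((x + 1) * U)) * ((x - 1) * U / V) - 2 * ((x - 1) * u / V) + (x + 1) * u / V) * ((2 : F)⁻¹ * (2 : F)⁻¹) := by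
      field_simp
      try ring
    rw [h]
    exact C.mul_mem (C.add_mem (C.sub_mem (C.mul_mem r s) (C.mul_mem n2 t)) v) (C.mul_mem c2 c2)

variable {x V U u : F} in
theorem pair25 (C : Subring F) (hx0 : x + 1 ≠ 0) (hx1 : x - 2 ≠ 0)
    (hx2 : x - 1 ≠ 0) (hx3 : x ≠ 0) (hV : V ≠ 0) (hU : U ≠ 0) (hu : u ≠ 0)
    (h2 : (2 : F) ≠ 0) (h3 : (3 : F) ≠ 0) (c2 : (2 : F)⁻¹ ∈ C) (c3 : (3 : F)⁻¹ ∈ C)
    (hi : Has C x V U u (mF x V U u 2)) (hj : Has C x V U u (mF x V U u 5)) :
    pF x V U u 2 / pF x V U u 5 ∈ C ∧ pF x V U u 5 / pF x V U u 2 ∈ C := by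
  have a : (x + 1) * V / u ∈ C := by
    have h : (x + 1) * V / u = ((x + 1) * (x - 2) * (x - 1) * x) * V ^ 2 / (((x - 2) * (x - 1) * x) * (u * V)) := by field_simp
    rw [h]
    exact hi.vv
  have n2 : (2 : F) ∈ C := ofNat_mem C 2
  have r : (x) * u / ((x + 1) * U) ∈ C := by
    have h : (x) * u / ((x + 1) * U) = ((x - 2) * (x - 1) * x) * (u * V) / (((x + 1) * (x - 2) * (x - 1)) * (U * V)) := by field_simp
    rw [h]
    exact hj.e0
  have s : (x) * U / V ∈ C := by
    have h : (x) * U / V = ((x + 1) * (x - 2) * (x - 1) * x) * U ^ 2 / (((x + 1) * (x - 2) * (x - 1)) * (U * V)) := by field_simp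
    rw [h]
    exact hj.uu
  have t : (x) * u / V ∈ C := by
    have h : (x) * u / V = ((x + 1) * (x - 2) * (x - 1) * x) * (u * U) / (((x + 1) * (x - 2) * (x - 1)) * (U * V)) := by field_simp
    rw [h]
    exact hj.lu
  have v : (x + 1) * u / V ∈ C := by
    have h : (x + 1) * u / V = ((x + 1) * (x - 2) * (x - 1) * x) * u ^ 2 / (((x - 2) * (x - 1) * x) * (u * V)) := by field_simp
    rw [h]
    exact hi.ll
  constructor
  · change ((x + 1) * V / u) / (1) ∈ C
    have h : ((x + 1) * V / u) / (1) = (x + 1) * V / u := by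
      field_simp
      try ring
    rw [h]
    exact a
  · change (1) / ((x + 1) * V / u) ∈ C
    have h : (1) / ((x + 1) * V / u) = (((x) * u / ((x + 1) * U)) * ((x) * U / V) - 2 * ((x) * u / V) + (x + 1) * u / V)  := by
      field_simp
      try ring
    rw [h]
    exact C.add_mem (C.sub_mem (C.mul_mem r s) (C.mul_mem n2 t)) v

variable {x V U u : F} in
theorem pair34 (C : Subring F) (hx0 : x + 1 ≠ 0) (hx1 : x - 2 ≠ 0)
    (hx2 : x - 1 ≠ 0) (hx3 : x ≠ 0) (hV : V ≠ 0) (hU : U ≠ 0) (hu : u ≠ 0)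
    (h2 : (2 : F) ≠ 0) (h3 : (3 : F) ≠ 0) (c2 : (2 : F)⁻¹ ∈ C) (c3 : (3 : F)⁻¹ ∈ C)
    (hi : Has C x V U u (mF x V U u 3)) (hj : Has C x V U u (mF x V U u 4)) :
    pF x V U u 3 / pF x V U u 4 ∈ C ∧ pF x V U u 4 / pF x V U u 3 ∈ C := by
  have a : (x - 2) * V / U ∈ C := by
    have h : (x - 2) * V / U = ((x + 1) * (x - 2) * (x - 1) * x) * V ^ 2 / (((x + 1) * (x - 1) * x) * (U * V)) := by field_simp
    rw [h]
    exact hi.vv
  have n2 : (2 : F) ∈ C := ofNat_mem C 2
  have r : (x - 1) * U / ((x - 2) * U) ∈ C := by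
    have h : (x - 1) * U / ((x - 2) * U) = ((x + 1) * (x - 1) * x) * (U * V) / (((x + 1) * (x - 2) * x) * (U * V)) := by field_simp
    rw [h]
    exact hj.e1
  have s : (x - 1) * U / V ∈ C := by
    have h : (x - 1) * U / V = ((x + 1) * (x - 2) * (x - 1) * x) * U ^ 2 / (((x + 1) * (x - 2) * x) * (U * V)) := by field_simp
    rw [h]
    exact hj.uu
  have t : (x - 1) * U / V ∈ C := by
    have h : (x - 1) * U / V = ((x + 1) * (x - 2) * (x - 1) * x) * U ^ 2 / (((x + 1) * (x - 2) * x) * (U * V)) := by field_simp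
    rw [h]
    exact hj.uu
  have v : (x - 2) * U / V ∈ C := by
    have h : (x - 2) * U / V = ((x + 1) * (x - 2) * (x - 1) * x) * U ^ 2 / (((x + 1) * (x - 1) * x) * (U * V)) := by field_simp
    rw [h]
    exact hi.uu
  constructor
  · change ((x - 2) * V / U) / (1) ∈ C
    have h : ((x - 2) * V / U) / (1) = (x - 2) * V / U := by
      field_simp
      try ring
    rw [h]
    exact a
  · change (1) / ((x - 2) * V / U) ∈ C
    have h : (1) / ((x - 2) * V / U) = (((x - 1) * U / ((x - 2) * U)) * ((x - 1) * U / V) - 2 * ((x - 1) * U / V) + (x - 2) * U / V)  := by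
      field_simp
      try ring
    rw [h]
    exact C.add_mem (C.sub_mem (C.mul_mem r s) (C.mul_mem n2 t)) v

variable {x V U u : F} in
theorem pair35 (C : Subring F) (hx0 : x + 1 ≠ 0) (hx1 : x - 2 ≠ 0)
    (hx2 : x - 1 ≠ 0) (hx3 : x ≠ 0) (hV : V ≠ 0) (hU : U ≠ 0) (hu : u ≠ 0)
    (h2 : (2 : F) ≠ 0) (h3 : (3 : F) ≠ 0) (c2 : (2 : F)⁻¹ ∈ C) (c3 : (3 : F)⁻¹ ∈ C)
    (hi : Has C x V U u (mF x V U u 3)) (hj : Has C x V U u (mF x V U u 5)) :
    pF x V U u 3 / pF x V U u 5 ∈ C ∧ pF x V U u 5 / pF x V U u 3 ∈ C := by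
  have a : (x - 2) * V / U ∈ C := by
    have h : (x - 2) * V / U = ((x + 1) * (x - 2) * (x - 1) * x) * V ^ 2 / (((x + 1) * (x - 1) * x) * (U * V)) := by field_simp
    rw [h]
    exact hi.vv
  have n2 : (2 : F) ∈ C := ofNat_mem C 2
  have r : (x) * U / ((x - 2) * U) ∈ C := by
    have h : (x) * U / ((x - 2) * U) = ((x + 1) * (x - 1) * x) * (U * V) / (((x + 1) * (x - 2) * (x - 1)) * (U * V)) := by field_simp
    rw [h]
    exact hj.e1
  have s : (x) * U / V ∈ C := by
    have h : (x) * U / V = ((x + 1) * (x - 2) * (x - 1) * x) * U ^ 2 / (((x + 1) * (x - 2) * (x - 1)) * (U * V)) := by field_simp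
    rw [h]
    exact hj.uu
  have t : (x) * U / V ∈ C := by
    have h : (x) * U / V = ((x + 1) * (x - 2) * (x - 1) * x) * U ^ 2 / (((x + 1) * (x - 2) * (x - 1)) * (U * V)) := by field_simp
    rw [h]
    exact hj.uu
  have v : (x - 2) * U / V ∈ C := by
    have h : (x - 2) * U / V = ((x + 1) * (x - 2) * (x - 1) * x) * U ^ 2 / (((x + 1) * (x - 1) * x) * (U * V)) := by field_simp
    rw [h]
    exact hi.uu
  constructor
  · change ((x - 2) * V / U) / (1) ∈ C
    have h : ((x - 2) * V / U) / (1) = (x - 2) * V / U := by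
      field_simp
      try ring
    rw [h]
    exact a
  · change (1) / ((x - 2) * V / U) ∈ C
    have h : (1) / ((x - 2) * V / U) = (((x) * U / ((x - 2) * U)) * ((x) * U / V) - 2 * ((x) * U / V) + (x - 2) * U / V) * ((2 : F)⁻¹ * (2 : F)⁻¹) := by
      field_simp
      try ring
    rw [h]
    exact C.mul_mem (C.add_mem (C.sub_mem (C.mul_mem r s) (C.mul_mem n2 t)) v) (C.mul_mem c2 c2)

variable {x V U u : F} in
theorem pair04 (C : Subring F) (hx0 : x + 1 ≠ 0) (hx1 : x - 2 ≠ 0)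
    (hx2 : x - 1 ≠ 0) (hx3 : x ≠ 0) (hV : V ≠ 0) (hU : U ≠ 0) (hu : u ≠ 0)
    (h2 : (2 : F) ≠ 0) (h3 : (3 : F) ≠ 0) (c2 : (2 : F)⁻¹ ∈ C) (c3 : (3 : F)⁻¹ ∈ C)
    (hi : Has C x V U u (mF x V U u 0)) (hj : Has C x V U u (mF x V U u 4)) :
    pF x V U u 0 / pF x V U u 4 ∈ C ∧ pF x V U u 4 / pF x V U u 0 ∈ C := by
  constructor
  · change (1 : F) / 1 ∈ C
    rw [div_one]
    exact C.one_mem
  · change (1 : F) / 1 ∈ C
    rw [div_one]
    exact C.one_mem

variable {x V U u : F} in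
theorem pair05 (C : Subring F) (hx0 : x + 1 ≠ 0) (hx1 : x - 2 ≠ 0)
    (hx2 : x - 1 ≠ 0) (hx3 : x ≠ 0) (hV : V ≠ 0) (hU : U ≠ 0) (hu : u ≠ 0)
    (h2 : (2 : F) ≠ 0) (h3 : (3 : F) ≠ 0) (c2 : (2 : F)⁻¹ ∈ C) (c3 : (3 : F)⁻¹ ∈ C)
    (hi : Has C x V U u (mF x V U u 0)) (hj : Has C x V U u (mF x V U u 5)) :
    pF x V U u 0 / pF x V U u 5 ∈ C ∧ pF x V U u 5 / pF x V U u 0 ∈ C := by
  constructor
  · change (1 : F) / 1 ∈ C
    rw [div_one]
    exact C.one_mem
  · change (1 : F) / 1 ∈ C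
    rw [div_one]
    exact C.one_mem

variable {x V U u : F} in
theorem pair45 (C : Subring F) (hx0 : x + 1 ≠ 0) (hx1 : x - 2 ≠ 0)
    (hx2 : x - 1 ≠ 0) (hx3 : x ≠ 0) (hV : V ≠ 0) (hU : U ≠ 0) (hu : u ≠ 0)
    (h2 : (2 : F) ≠ 0) (h3 : (3 : F) ≠ 0) (c2 : (2 : F)⁻¹ ∈ C) (c3 : (3 : F)⁻¹ ∈ C)
    (hi : Has C x V U u (mF x V U u 4)) (hj : Has C x V U u (mF x V U u 5)) :
    pF x V U u 4 / pF x V U u 5 ∈ C ∧ pF x V U u 5 / pF x V U u 4 ∈ C := by
  constructor
  · change (1 : F) / 1 ∈ C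
    rw [div_one]
    exact C.one_mem
  · change (1 : F) / 1 ∈ C
    rw [div_one]
    exact C.one_mem

theorem pF_ne {x V U u : F} (hx0 : x + 1 ≠ 0) (hx1 : x - 2 ≠ 0)
    (hx2 : x - 1 ≠ 0) (hx3 : x ≠ 0) (hV : V ≠ 0) (hU : U ≠ 0) (hu : u ≠ 0) (i : Fin 6) :
    pF x V U u i ≠ 0 := by
  fin_cases i
  · change (1 : F) ≠ 0
    exact one_ne_zero
  · change V * (x + 1) * (x - 2) / (U * (x - 1) * x) ≠ 0
    exact div_ne_zero (by simp [*]) (by simp [*])
  · change (x + 1) * V / u ≠ 0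
    exact div_ne_zero (by simp [*]) (by simp [*])
  · change (x - 2) * V / U ≠ 0
    exact div_ne_zero (by simp [*]) (by simp [*])
  · change (1 : F) ≠ 0
    exact one_ne_zero
  · change (1 : F) ≠ 0
    exact one_ne_zero

variable {x V U u : F} in
theorem quot_mem (C : Subring F) (hx0 : x + 1 ≠ 0) (hx1 : x - 2 ≠ 0)
    (hx2 : x - 1 ≠ 0) (hx3 : x ≠ 0) (hV : V ≠ 0) (hU : U ≠ 0) (hu : u ≠ 0)
    (h2 : (2 : F) ≠ 0) (h3 : (3 : F) ≠ 0) (c2 : (2 : F)⁻¹ ∈ C) (c3 : (3 : F)⁻¹ ∈ C) (i j : Fin 6)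
    (hi : Has C x V U u (mF x V U u i)) (hj : Has C x V U u (mF x V U u j)) :
    pF x V U u i / pF x V U u j ∈ C := by
  by_cases hij : i = j
  · subst hij
    rw [div_self (pF_ne hx0 hx1 hx2 hx3 hV hU hu i)]
    exact C.one_mem
  · fin_cases i <;> fin_cases j
    all_goals first
      | exact absurd rfl hij
      | exact (pair01 C hx0 hx1 hx2 hx3 hV hU hu h2 h3 c2 c3 hi hj).1
      | exact (pair01 C hx0 hx1 hx2 hx3 hV hU hu h2 h3 c2 c3 hj hi).2
      | exact (pair02 C hx0 hx1 hx2 hx3 hV hU hu h2 h3 c2 c3 hi hj).1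
      | exact (pair02 C hx0 hx1 hx2 hx3 hV hU hu h2 h3 c2 c3 hj hi).2
      | exact (pair03 C hx0 hx1 hx2 hx3 hV hU hu h2 h3 c2 c3 hi hj).1
      | exact (pair03 C hx0 hx1 hx2 hx3 hV hU hu h2 h3 c2 c3 hj hi).2
      | exact (pair04 C hx0 hx1 hx2 hx3 hV hU hu h2 h3 c2 c3 hi hj).1
      | exact (pair04 C hx0 hx1 hx2 hx3 hV hU hu h2 h3 c2 c3 hj hi).2
      | exact (pair05 C hx0 hx1 hx2 hx3 hV hU hu h2 h3 c2 c3 hi hj).1
      | exact (pair05 C hx0 hx1 hx2 hx3 hV hU hu h2 h3 c2 c3 hj hi).2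
      | exact (pair12 C hx0 hx1 hx2 hx3 hV hU hu h2 h3 c2 c3 hi hj).1
      | exact (pair12 C hx0 hx1 hx2 hx3 hV hU hu h2 h3 c2 c3 hj hi).2
      | exact (pair13 C hx0 hx1 hx2 hx3 hV hU hu h2 h3 c2 c3 hi hj).1
      | exact (pair13 C hx0 hx1 hx2 hx3 hV hU hu h2 h3 c2 c3 hj hi).2
      | exact (pair14 C hx0 hx1 hx2 hx3 hV hU hu h2 h3 c2 c3 hi hj).1
      | exact (pair14 C hx0 hx1 hx2 hx3 hV hU hu h2 h3 c2 c3 hj hi).2
      | exact (pair15 C hx0 hx1 hx2 hx3 hV hU hu h2 h3 c2 c3 hi hj).1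
      | exact (pair15 C hx0 hx1 hx2 hx3 hV hU hu h2 h3 c2 c3 hj hi).2
      | exact (pair23 C hx0 hx1 hx2 hx3 hV hU hu h2 h3 c2 c3 hi hj).1
      | exact (pair23 C hx0 hx1 hx2 hx3 hV hU hu h2 h3 c2 c3 hj hi).2
      | exact (pair24 C hx0 hx1 hx2 hx3 hV hU hu h2 h3 c2 c3 hi hj).1
      | exact (pair24 C hx0 hx1 hx2 hx3 hV hU hu h2 h3 c2 c3 hj hi).2
      | exact (pair25 C hx0 hx1 hx2 hx3 hV hU hu h2 h3 c2 c3 hi hj).1
      | exact (pair25 C hx0 hx1 hx2 hx3 hV hU hu h2 h3 c2 c3 hj hi).2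
      | exact (pair34 C hx0 hx1 hx2 hx3 hV hU hu h2 h3 c2 c3 hi hj).1
      | exact (pair34 C hx0 hx1 hx2 hx3 hV hU hu h2 h3 c2 c3 hj hi).2
      | exact (pair35 C hx0 hx1 hx2 hx3 hV hU hu h2 h3 c2 c3 hi hj).1
      | exact (pair35 C hx0 hx1 hx2 hx3 hV hU hu h2 h3 c2 c3 hj hi).2
      | exact (pair45 C hx0 hx1 hx2 hx3 hV hU hu h2 h3 c2 c3 hi hj).1
      | exact (pair45 C hx0 hx1 hx2 hx3 hV hU hu h2 h3 c2 c3 hj hi).2

end COC

open COC

section Concrete

variable {k : Type} [CommRing k]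

theorem PP4_eq : PP4 k = (xx k + 1) * (xx k - 2) * (xx k - 1) * xx k := by
  simp only [PP4, Fin.prod_univ_succ, Xf, aa]
  simp
  ring

theorem Pe0_eq : Pe k 0 = (xx k - 2) * (xx k - 1) * xx k := by
  have h : (Finset.univ.erase (0 : Fin 4)) = {1, 2, 3} := by decide
  rw [Pe, h]
  simp [Xf, aa]
  ring

theorem Pe1_eq : Pe k 1 = (xx k + 1) * (xx k - 1) * xx k := by
  have h : (Finset.univ.erase (1 : Fin 4)) = {0, 2, 3} := by decide
  rw [Pe, h]
  simp [Xf, aa]
  ring

theorem Pe2_eq : Pe k 2 = (xx k + 1) * (xx k - 2) * xx k := by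
  have h : (Finset.univ.erase (2 : Fin 4)) = {0, 1, 3} := by decide
  rw [Pe, h]
  simp [Xf, aa]
  ring

theorem Pe3_eq : Pe k 3 = (xx k + 1) * (xx k - 2) * (xx k - 1) := by
  have h : (Finset.univ.erase (3 : Fin 4)) = {0, 1, 2} := by decide
  rw [Pe, h]
  simp [Xf, aa]
  ring

/-- Products of two quadratic polynomials in `y`. -/
theorem quad_mem (l a b c d e f : k) :
    PP4 k * ((MvPolynomial.C a * yy k ^ 2 + MvPolynomial.C b * yy k + MvPolynomial.C c) *
      (MvPolynomial.C d * yy k ^ 2 + MvPolynomial.C e * yy k + MvPolynomial.C f)) ∈ MM l := by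
  have h := PPq_mem l (![c * f, b * f + c * e, a * f + b * e + c * d, a * e + b * d, a * d] :
    Fin 5 → k)
  convert h using 2
  simp [Fin.sum_univ_succ]
  ring

theorem Vy_eq : Vy k = MvPolynomial.C 1 * yy k ^ 2 + MvPolynomial.C (-1) * yy k +
    MvPolynomial.C 0 := by
  simp [Vy]
  ring

theorem Uy_eq : Uy k = MvPolynomial.C 1 * yy k ^ 2 + MvPolynomial.C (-1) * yy k +
    MvPolynomial.C (-2) := by
  have h2 : (MvPolynomial.C (2 : k) : Sk k) = 2 := map_ofNat _ 2
  simp [Uy, h2]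
  ring

theorem Ul_eq (l : k) : Ul l = MvPolynomial.C (2 * l - 1) * yy k ^ 2 +
    MvPolynomial.C (3 - 4 * l) * yy k + MvPolynomial.C (-2) := by
  have h2 : (MvPolynomial.C (2 : k) : Sk k) = 2 := map_ofNat _ 2
  have h3 : (MvPolynomial.C (3 : k) : Sk k) = 3 := map_ofNat _ 3
  have h4 : (MvPolynomial.C (4 : k) : Sk k) = 4 := map_ofNat _ 4
  simp [Ul, h2, h3, h4]
  ring

theorem VV_mem (l : k) : PP4 k * Vy k ^ 2 ∈ MM l := by
  rw [sq, Vy_eq]
  exact quad_mem l _ _ _ _ _ _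

theorem UV_mem (l : k) : PP4 k * (Uy k * Vy k) ∈ MM l := by
  rw [Uy_eq, Vy_eq]
  exact quad_mem l _ _ _ _ _ _

theorem UlV_mem (l : k) : PP4 k * (Ul l * Vy k) ∈ MM l := by
  rw [Ul_eq, Vy_eq]
  exact quad_mem l _ _ _ _ _ _

theorem UU_mem (l : k) : PP4 k * Uy k ^ 2 ∈ MM l := by
  rw [sq, Uy_eq]
  exact quad_mem l _ _ _ _ _ _

theorem UlU_mem (l : k) : PP4 k * (Ul l * Uy k) ∈ MM l := by
  rw [Ul_eq, Uy_eq]
  exact quad_mem l _ _ _ _ _ _

theorem UlUl_mem (l : k) : PP4 k * Ul l ^ 2 ∈ MM l := by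
  rw [sq, Ul_eq]
  exact quad_mem l _ _ _ _ _ _

theorem ee0_eq (l : k) : ee l 0 = (xx k - 2) * (xx k - 1) * xx k * (Ul l * Vy k) := by
  rw [ee, Pe0_eq]
  simp [Qf]

theorem ee1_eq (l : k) : ee l 1 = (xx k + 1) * (xx k - 1) * xx k * (Uy k * Vy k) := by
  rw [ee, Pe1_eq]
  simp [Qf]

theorem ee2_eq (l : k) : ee l 2 = (xx k + 1) * (xx k - 2) * xx k * (Uy k * Vy k) := by
  rw [ee, Pe2_eq]
  simp [Qf]

theorem ee3_eq (l : k) : ee l 3 = (xx k + 1) * (xx k - 2) * (xx k - 1) * (Uy k * Vy k) := by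
  rw [ee, Pe3_eq]
  simp [Qf]

end Concrete

section Final

variable {k : Type} [CommRing k] [IsDomain k]

/-- The fraction field. -/
abbrev FF (k : Type) [CommRing k] [IsDomain k] := FractionRing (Sk k)

/-- The embedding. -/
noncomputable abbrev ia (k : Type) [CommRing k] [IsDomain k] : Sk k →+* FF k :=
  algebraMap (Sk k) (FractionRing (Sk k))

theorem ia_ne (p : Sk k) (v : Fin 2 → k) (h : MvPolynomial.eval v p ≠ 0) : ia k p ≠ 0 := by
  intro h0
  have h1 : p = 0 := by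
    apply IsFractionRing.injective (Sk k) (FractionRing (Sk k))
    rw [map_zero]
    exact h0
  rw [h1, map_zero] at h
  exact h rfl

theorem ia_two : ia k 2 = 2 := map_ofNat _ 2

theorem ia_mm (l : k) (i : Fin 6) :
    ia k (mm l i) = mF (ia k (xx k)) (ia k (Vy k)) (ia k (Uy k)) (ia k (Ul l)) i := by
  fin_cases i
  · change ia k (PP4 k * Vy k ^ 2) = _ * _
    rw [PP4_eq]
    simp [ia_two]
  · change ia k (PP4 k * (Ul l * Uy k)) = _ * _
    rw [PP4_eq]
    simp [ia_two]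
  · change ia k (ee l 0) = _ * _
    rw [ee0_eq]
    simp [ia_two]
  · change ia k (ee l 1) = _ * _
    rw [ee1_eq]
    simp [ia_two]
  · change ia k (ee l 2) = _ * _
    rw [ee2_eq]
    simp [ia_two]
  · change ia k (ee l 3) = _ * _
    rw [ee3_eq]
    simp [ia_two]

theorem ia_num (l : k) (i : Fin 6) :
    ia k (num k i) / ia k (den l i) =
      pF (ia k (xx k)) (ia k (Vy k)) (ia k (Uy k)) (ia k (Ul l)) i := by
  fin_cases i
  · change ia k 1 / ia k 1 = 1
    simp
  · change ia k (Vy k * Xf k 0 * Xf k 1) / ia k (Uy k * Xf k 2 * Xf k 3) = _ / _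
    simp [Xf, aa, ia_two]
  · change ia k (Xf k 0 * Vy k) / ia k (Ul l) = _ / _
    simp [Xf, aa, ia_two]
  · change ia k (Xf k 1 * Vy k) / ia k (Uy k) = _ / _
    simp [Xf, aa, ia_two]
  · change ia k 1 / ia k 1 = 1
    simp
  · change ia k 1 / ia k 1 = 1
    simp

theorem has_of (l : k) (C : Subring (FF k)) (m : Sk k)
    (hC : ∀ G ∈ MM l, ia k G / ia k m ∈ C) :
    Has C (ia k (xx k)) (ia k (Vy k)) (ia k (Uy k)) (ia k (Ul l)) (ia k m) := by
  have key : ∀ (G : Sk k) (g : FF k), G ∈ MM l → ia k G = g → g / ia k m ∈ C := by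
    intro G g h1 h2
    rw [← h2]
    exact hC G h1
  constructor
  · refine key _ _ (VV_mem l) ?_
    rw [PP4_eq]
    simp [ia_two]
  · refine key _ _ (UV_mem l) ?_
    rw [PP4_eq]
    simp [ia_two]
  · refine key _ _ (UlV_mem l) ?_
    rw [PP4_eq]
    simp [ia_two]
  · refine key _ _ (UU_mem l) ?_
    rw [PP4_eq]
    simp [ia_two]
  · refine key _ _ (UlU_mem l) ?_
    rw [PP4_eq]
    simp [ia_two]
  · refine key _ _ (UlUl_mem l) ?_
    rw [PP4_eq]
    simp [ia_two]
  · refine key _ _ (ee_mem l 0) ?_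
    rw [ee0_eq]
    simp [ia_two]
  · refine key _ _ (ee_mem l 1) ?_
    rw [ee1_eq]
    simp [ia_two]
  · refine key _ _ (ee_mem l 2) ?_
    rw [ee2_eq]
    simp [ia_two]
  · refine key _ _ (ee_mem l 3) ?_
    rw [ee3_eq]
    simp [ia_two]

end Final

theorem tCOC (hCCR : T_CCR) : T_COC := by
  intro k _ _ _ l i j
  have hchar : CharZero k := by
    exact charZero_of_injective_algebraMap (algebraMap ℂ k).injective
  have h2k : (2 : k) ≠ 0 := two_ne_zero
  have hx0 : ia k (xx k) + 1 ≠ 0 := by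
    have h := ia_ne (xx k + 1) (fun _ => 0) (by simp)
    simpa using h
  have hx1 : ia k (xx k) - 2 ≠ 0 := by
    have h := ia_ne (xx k - 2) (fun _ => 0) (by
      have h4 : MvPolynomial.constantCoeff (2 : Sk k) = 2 := map_ofNat _ 2
      simp [h4])
    rw [map_sub, map_ofNat] at h
    exact h
  have hx2 : ia k (xx k) - 1 ≠ 0 := by
    have h := ia_ne (xx k - 1) (fun _ => 0) (by simp)
    simpa using h
  have hx3 : ia k (xx k) ≠ 0 := ia_ne (xx k) (fun _ => 1) (by simp)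
  have hV : ia k (Vy k) ≠ 0 := by
    refine ia_ne _ (fun _ => 2) ?_
    simp [Vy]
    norm_num
  have hU : ia k (Uy k) ≠ 0 := by
    refine ia_ne _ (fun _ => 0) ?_
    have h4 : MvPolynomial.constantCoeff (2 : Sk k) = 2 := map_ofNat _ 2
    simp [Uy, h4]
  have hu : ia k (Ul l) ≠ 0 := by
    refine ia_ne _ (fun _ => 0) ?_
    have h4 : MvPolynomial.constantCoeff (2 : Sk k) = 2 := map_ofNat _ 2
    simp [Ul, h4]
  have hcF : CharZero (FF k) :=
    charZero_of_injective_algebraMap (R := k) (A := FF k) (by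
      rw [IsScalarTower.algebraMap_eq k (Sk k) (FractionRing (Sk k))]
      exact (IsFractionRing.injective (Sk k) (FractionRing (Sk k))).comp
        (MvPolynomial.C_injective _ _))
  have h2 : (2 : FF k) ≠ 0 := two_ne_zero
  have h3 : (3 : FF k) ≠ 0 := three_ne_zero
  have hmi : ia k (mm l i) ≠ 0 := by
    rw [ia_mm]
    fin_cases i <;> simp [mF, hx0, hx1, hx2, hx3, hV, hU, hu]
  have hmj : ia k (mm l j) ≠ 0 := by
    rw [ia_mm]
    fin_cases j <;> simp [mF, hx0, hx1, hx2, hx3, hV, hU, hu]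
  have hmi' : mm l i ≠ 0 := fun h => hmi (by rw [h, map_zero])
  have hmj' : mm l j ≠ 0 := fun h => hmj (by rw [h, map_zero])
  have hcc := hCCR k (Sk k) (MM l) (mm l i) (mm l j) (mm_mem l i) (mm_mem l j) hmi' hmj'
  set A := Algebra.adjoin k
      ((fun G => algebraMap (Sk k) (FractionRing (Sk k)) G /
          algebraMap (Sk k) (FractionRing (Sk k)) (mm l i)) '' (MM l) ∪
       (fun G => algebraMap (Sk k) (FractionRing (Sk k)) G /
          algebraMap (Sk k) (FractionRing (Sk k)) (mm l j)) '' (MM l)) with hA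
  have hAi : ∀ G ∈ MM l, ia k G / ia k (mm l i) ∈ A.toSubring := by
    intro G hG
    exact Algebra.subset_adjoin (Or.inl ⟨G, hG, rfl⟩)
  have hAj : ∀ G ∈ MM l, ia k G / ia k (mm l j) ∈ A.toSubring := by
    intro G hG
    exact Algebra.subset_adjoin (Or.inr ⟨G, hG, rfl⟩)
  have hconst : ∀ n : ℕ, n ≠ 0 → ((n : FF k))⁻¹ ∈ A.toSubring := by
    intro n hn
    have h : ((n : FF k))⁻¹ = algebraMap k (FF k) (algebraMap ℂ k ((n : ℂ)⁻¹)) := by
      have hn0 : (n : FF k) ≠ 0 := Nat.cast_ne_zero.mpr hn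
      have hnC : (n : ℂ) ≠ 0 := Nat.cast_ne_zero.mpr hn
      symm
      apply eq_inv_of_mul_eq_one_left
      have e1 : (n : FF k) = algebraMap k (FF k) (algebraMap ℂ k (n : ℂ)) := by simp
      rw [e1, ← map_mul, ← map_mul, inv_mul_cancel₀ hnC, map_one, map_one]
    rw [h]
    exact A.algebraMap_mem _
  have c2 : (2 : FF k)⁻¹ ∈ A.toSubring := by
    have h := hconst 2 two_ne_zero
    exact_mod_cast h
  have c3 : (3 : FF k)⁻¹ ∈ A.toSubring := by
    have h := hconst 3 three_ne_zero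
    exact_mod_cast h
  have hi := has_of l A.toSubring (mm l i) hAi
  have hj := has_of l A.toSubring (mm l j) hAj
  rw [ia_mm] at hi hj
  have hq := quot_mem A.toSubring hx0 hx1 hx2 hx3 hV hU hu h2 h3 c2 c3 i j hi hj
  rw [← ia_num, ← ia_num] at hq
  obtain ⟨r, N, hN, e⟩ := hcc _ hq
  refine ⟨r, N, hN, ?_⟩
  have hdi : ia k (den l i) ≠ 0 := by
    fin_cases i
    · change ia k 1 ≠ 0
      simp
    · change ia k (Uy k * Xf k 2 * Xf k 3) ≠ 0
      simp [Xf, aa, hU, hx2, hx3]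
    · exact hu
    · exact hU
    · change ia k 1 ≠ 0
      simp
    · change ia k 1 ≠ 0
      simp
  have hdj : ia k (den l j) ≠ 0 := by
    fin_cases j
    · change ia k 1 ≠ 0
      simp
    · change ia k (Uy k * Xf k 2 * Xf k 3) ≠ 0
      simp [Xf, aa, hU, hx2, hx3]
    · exact hu
    · exact hU
    · change ia k 1 ≠ 0
      simp
    · change ia k 1 ≠ 0
      simp
  have hnj : ia k (num k j) ≠ 0 := by
    intro h0
    have h1 := pF_ne hx0 hx1 hx2 hx3 hV hU hu j
    rw [← ia_num, h0, zero_div] at h1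
    exact h1 rfl
  apply IsFractionRing.injective (Sk k) (FractionRing (Sk k))
  change ia k _ = ia k _
  have e' : ia k (num k i) / ia k (den l i) / (ia k (num k j) / ia k (den l j)) =
      ia k N / ia k ((mm l i * mm l j) ^ r) := e
  have hmm : ia k ((mm l i * mm l j) ^ r) ≠ 0 := by
    rw [map_pow, map_mul]
    exact pow_ne_zero _ (mul_ne_zero hmi hmj)
  rw [div_div_div_eq, div_eq_div_iff (mul_ne_zero hdi hnj) hmm] at e'
  rw [map_mul, map_mul, map_mul (ia k) ((mm l i * mm l j) ^ r), map_mul (ia k) (num k i)]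
  linear_combination -e'

end Pool.Agent.KCY
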