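import Pool.Agent.KCY.Targets

/-!
The six opens cover.
-/

open AlgebraicGeometry CategoryTheory Polynomial

namespace Pool.Agent.KCY

open Rees

namespace COVER_

section General

variable {k S : Type} [CommRing k] [CommRing S] [Algebra k S] {M : Submodule k S}

theorem el_mul' {n m : ℕ} {a b : S} (ha : a ∈ M ^ n) (hb : b ∈ M ^ m)
    (hab : a * b ∈ M ^ (n + m)) :
    el M (n + m) (a * b) hab = el M n a ha * el M m b hb := by
  apply Subtype.ext
  change (el M (n + m) (a * b) hab : S[X]) = (el M n a ha : S[X]) * (el M m b hb : S[X])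
  rw [coe_el, coe_el, coe_el, Polynomial.monomial_mul_monomial]

theorem el_add' {n : ℕ} {a b : S} (ha : a ∈ M ^ n) (hb : b ∈ M ^ n) (hab : a + b ∈ M ^ n) :
    el M n (a + b) hab = el M n a ha + el M n b hb := by
  apply Subtype.ext
  change (el M n (a + b) hab : S[X]) = (el M n a ha : S[X]) + (el M n b hb : S[X])
  rw [coe_el, coe_el, coe_el, map_add]

theorem el_smul' {n : ℕ} (c : k) {a : S} (ha : a ∈ M ^ n) (hca : c • a ∈ M ^ n) :
    el M n (c • a) hca = algebraMap k (alg M) c * el M n a ha := by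
  rw [← Algebra.smul_def]
  apply Subtype.ext
  change (el M n (c • a) hca : S[X]) = c • (el M n a ha : S[X])
  rw [coe_el, coe_el, Polynomial.smul_monomial]

theorem el_zero' (n : ℕ) (h : (0 : S) ∈ M ^ n) : el M n 0 h = 0 := by
  apply Subtype.ext
  change (el M n 0 h : S[X]) = 0
  rw [coe_el, map_zero]

/-- The elements `G` of `M ^ n` such that `G T ^ n` vanishes at `x`. -/
noncomputable def J (x : PX M) (n : ℕ) : Submodule k S where
  carrier := {G | ∃ h : G ∈ M ^ n, el M n G h ∈ x.asHomogeneousIdeal.toIdeal}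
  zero_mem' := ⟨Submodule.zero_mem _, by rw [el_zero']; exact Ideal.zero_mem _⟩
  add_mem' := by
    rintro a b ⟨ha, ha'⟩ ⟨hb, hb'⟩
    refine ⟨Submodule.add_mem _ ha hb, ?_⟩
    rw [el_add' ha hb]
    exact Ideal.add_mem _ ha' hb'
  smul_mem' := by
    rintro c a ⟨ha, ha'⟩
    refine ⟨Submodule.smul_mem _ c ha, ?_⟩
    rw [el_smul' c ha]
    exact Ideal.mul_mem_left _ _ ha'

theorem J_mul (x : PX M) {n m : ℕ} {a b : S} (ha : a ∈ J x n) (hb : b ∈ M ^ m) :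
    a * b ∈ J x (n + m) := by
  obtain ⟨h1, h2⟩ := ha
  have h3 : a * b ∈ M ^ (n + m) := by
    rw [pow_add]
    exact Submodule.mul_mem_mul h1 hb
  refine ⟨h3, ?_⟩
  rw [el_mul' h1 hb h3]
  exact Ideal.mul_mem_right _ _ h2

theorem J_prime (x : PX M) {n m : ℕ} {a b : S} (ha : a ∈ M ^ n) (hb : b ∈ M ^ m)
    (hab : a * b ∈ J x (n + m)) : a ∈ J x n ∨ b ∈ J x m := by
  obtain ⟨h1, h2⟩ := hab
  rw [el_mul' ha hb h1] at h2
  rcases x.isPrime.mem_or_mem h2 with h3 | h3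
  · exact Or.inl ⟨ha, h3⟩
  · exact Or.inr ⟨hb, h3⟩

theorem J_sq (x : PX M) {a : S} (ha : a ∈ M) (h : a * a ∈ J x (1 + 1)) : a ∈ J x 1 := by
  have ha1 : a ∈ M ^ 1 := by rwa [pow_one]
  rcases J_prime x ha1 ha1 h with h1 | h1 <;> exact h1

theorem pow_le_J (x : PX M) (h : M ≤ J x 1) (n : ℕ) : M ^ (n + 1) ≤ J x (n + 1) := by
  induction n with
  | zero =>
    rw [zero_add, pow_one]
    exact h
  | succ n ih =>
    intro G hG
    rw [pow_succ] at hG
    induction hG using Submodule.mul_induction_on' with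
    | mem_mul_mem a ha b hb =>
      exact J_mul x (ih ha) (by rwa [pow_one])
    | add a _ b _ ha hb => exact Submodule.add_mem _ ha hb

theorem contra (x : PX M) (h : M ≤ J x 1) : False := by
  apply x.not_irrelevant_le
  rw [HomogeneousIdeal.irrelevant_le]
  intro i hi F hF
  have hF' : F ∈ gr M i := hF
  obtain ⟨n, rfl⟩ : ∃ n, i = n + 1 := ⟨i - 1, by omega⟩
  obtain ⟨h1, h2⟩ := pow_le_J x h n (F.2 (n + 1))
  rw [eq_el hF']
  exact h2

theorem mem_J_of_not (x : PX M) {G : S} (h : G ∈ M ^ 1) (hx : x ∉ dplus M 1 G h) :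
    G ∈ J x 1 := by
  refine ⟨h, ?_⟩
  by_contra h2
  exact hx h2

end General

section Id

variable {k : Type} [CommRing k]

theorem id1 (l m : k) (h : l * m = 1) :
    (PP4 k * Vy k ^ 2) * (PP4 k * ∑ j : Fin 5, MvPolynomial.C
      ((![4 * m ^ 2 - 20 * m + 54 - 64 * l + 32 * l ^ 2, 2,
        -3 * m ^ 2 + 15 * m - 38 + 48 * l - 24 * l ^ 2,
        m ^ 2 - 5 * m + 12 - 16 * l + 8 * l ^ 2, 0] : Fin 5 → k) j) * yy k ^ (j : ℕ)) +
    (PP4 k * (Ul l * Uy k)) * (PP4 k * ∑ j : Fin 5, MvPolynomial.C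
      ((![2, 2 - 4 * l, -m ^ 2 + 5 * m - 10 + 8 * l, m ^ 2 - 3 * m + 6 - 4 * l, 0] :
        Fin 5 → k) j) * yy k ^ (j : ℕ)) = (8 : k) • (PP4 k * PP4 k) := by
  have h' : (MvPolynomial.C l : Sk k) * MvPolynomial.C m = 1 := by
    rw [← MvPolynomial.C_mul, h, MvPolynomial.C_1]
  rw [MvPolynomial.smul_eq_C_mul]
  have e8 : (MvPolynomial.C (8 : k) : Sk k) = 8 := map_ofNat _ 8
  rw [e8]
  simp only [Fin.sum_univ_succ, Fin.sum_univ_zero, Ul, Uy, Vy, Matrix.cons_val_zero,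
    Matrix.cons_val_succ, map_add, map_sub, map_mul, map_pow, map_neg, map_ofNat, map_one,
    map_zero, Fin.val_zero, Fin.val_succ]
  generalize (MvPolynomial.C l : Sk k) = L at *
  generalize (MvPolynomial.C m : Sk k) = N at *
  generalize PP4 k = Q at *
  generalize (yy k : Sk k) = y at *
  linear_combination (-(Q * Q * (-40 * y ^ 3 + 8 * y ^ 3 * N + 24 * y ^ 4 - 8 * y ^ 4 * N +
    30 * y ^ 5 - 6 * y ^ 5 * N - 28 * y ^ 6 + 8 * y ^ 6 * N + 6 * y ^ 7 -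
    2 * y ^ 7 * N))) * h'

theorem id2 (l m : k) (h : l * m = 1) :
    (PP4 k * Vy k ^ 2) * (PP4 k * ∑ j : Fin 5, MvPolynomial.C
      ((![4 * m ^ 2 + 44 * m, 88, -3 * m ^ 2 - 33 * m + 72, m ^ 2 + 11 * m - 10, 8] :
        Fin 5 → k) j) * yy k ^ (j : ℕ)) +
    (PP4 k * (Ul l * Uy k)) * (PP4 k * ∑ j : Fin 5, MvPolynomial.C
      ((![0, 0, -m ^ 2 - 11 * m, m ^ 2 + 13 * m, 0] : Fin 5 → k) j) * yy k ^ (j : ℕ)) =
    (8 : k) • ((PP4 k * yy k ^ 4) * (PP4 k * yy k ^ 4)) := by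
  have h' : (MvPolynomial.C l : Sk k) * MvPolynomial.C m = 1 := by
    rw [← MvPolynomial.C_mul, h, MvPolynomial.C_1]
  rw [MvPolynomial.smul_eq_C_mul]
  have e8 : (MvPolynomial.C (8 : k) : Sk k) = 8 := map_ofNat _ 8
  rw [e8]
  simp only [Fin.sum_univ_succ, Fin.sum_univ_zero, Ul, Uy, Vy, Matrix.cons_val_zero,
    Matrix.cons_val_succ, map_add, map_sub, map_mul, map_pow, map_neg, map_ofNat, map_one,
    map_zero, Fin.val_zero, Fin.val_succ]
  generalize (MvPolynomial.C l : Sk k) = L at *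
  generalize (MvPolynomial.C m : Sk k) = N at *
  generalize PP4 k = Q at *
  generalize (yy k : Sk k) = y at *
  linear_combination (-(Q * Q * (88 * y ^ 3 + 8 * y ^ 3 * N - 104 * y ^ 4 - 8 * y ^ 4 * N -
    66 * y ^ 5 - 6 * y ^ 5 * N + 100 * y ^ 6 + 8 * y ^ 6 * N - 26 * y ^ 7 -
    2 * y ^ 7 * N))) * h'

end Id

end COVER_

open COVER_ in
/-- The six opens cover. -/
theorem tCOVER : T_COVER := by
  intro k _ _ l hl x
  by_contra hcon
  push Not at hcon
  have hm : ∀ i : Fin 6, mm l i ∈ J x 1 := fun i => mem_J_of_not x _ (hcon i)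
  obtain ⟨m, hlm⟩ : ∃ m, l * m = 1 := hl.exists_right_inv
  have c8 : (8 : k) * algebraMap ℂ k (1 / 8) = 1 := by
    have h1 : (8 : k) = algebraMap ℂ k 8 := (map_ofNat _ 8).symm
    rw [h1, ← map_mul]
    norm_num
  have h8 : ∀ (n : ℕ) (G : Sk k), (8 : k) • G ∈ J x n → G ∈ J x n := by
    intro n G hG
    have h1 := Submodule.smul_mem _ (algebraMap ℂ k (1 / 8)) hG
    rwa [smul_smul, mul_comm, c8, one_smul] at h1
  have hP : ∀ c : Fin 5 → k, PP4 k * ∑ j, MvPolynomial.C (c j) * yy k ^ (j : ℕ) ∈ MM l ^ 1 := by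
    intro c
    rw [pow_one]
    exact PPq_mem l c
  have h0 : PP4 k * Vy k ^ 2 ∈ J x 1 := hm 0
  have h1 : PP4 k * (Ul l * Uy k) ∈ J x 1 := hm 1
  have w : ∀ j : Fin 5, PP4 k * yy k ^ (j : ℕ) ∈ MM l := ww_mem l
  have hw0' : PP4 k ∈ MM l := by
    have := w 0
    simpa using this
  have hw0 : PP4 k ∈ J x 1 := by
    refine J_sq x hw0' (h8 _ _ ?_)
    rw [← id1 l m hlm]
    exact Submodule.add_mem _ (J_mul x h0 (hP _)) (J_mul x h1 (hP _))
  have hw4' : PP4 k * yy k ^ 4 ∈ MM l := w 4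
  have hw4 : PP4 k * yy k ^ 4 ∈ J x 1 := by
    refine J_sq x hw4' (h8 _ _ ?_)
    rw [← id2 l m hlm]
    exact Submodule.add_mem _ (J_mul x h0 (hP _)) (J_mul x h1 (hP _))
  have hw2' : PP4 k * yy k ^ 2 ∈ MM l := w 2
  have hw2 : PP4 k * yy k ^ 2 ∈ J x 1 := by
    refine J_sq x hw2' ?_
    have e : (PP4 k * yy k ^ 2) * (PP4 k * yy k ^ 2) = PP4 k * (PP4 k * yy k ^ 4) := by ring
    rw [e]
    exact J_mul x hw0 (by rwa [pow_one])
  have hw1' : PP4 k * yy k ^ 1 ∈ MM l := w 1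
  have hw1 : PP4 k * yy k ^ 1 ∈ J x 1 := by
    refine J_sq x hw1' ?_
    have e : (PP4 k * yy k ^ 1) * (PP4 k * yy k ^ 1) = PP4 k * (PP4 k * yy k ^ 2) := by ring
    rw [e]
    exact J_mul x hw0 (by rwa [pow_one])
  have hw3' : PP4 k * yy k ^ 3 ∈ MM l := w 3
  have hw3 : PP4 k * yy k ^ 3 ∈ J x 1 := by
    refine J_sq x hw3' ?_
    have e : (PP4 k * yy k ^ 3) * (PP4 k * yy k ^ 3) =
        (PP4 k * yy k ^ 2) * (PP4 k * yy k ^ 4) := by ring
    rw [e]
    exact J_mul x hw2 (by rwa [pow_one])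
  apply contra x
  refine Submodule.span_le.2 ?_
  rintro _ ⟨i | i, rfl⟩
  · fin_cases i
    · show PP4 k * yy k ^ 0 ∈ J x 1
      rw [pow_zero, mul_one]
      exact hw0
    · exact hw1
    · exact hw2
    · exact hw3
    · exact hw4
  · fin_cases i
    · exact hm 2
    · exact hm 3
    · exact hm 4
    · exact hm 5

end Pool.Agent.KCY
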