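import Pool.Agent.KCY.Targets

/-!
The three basic opens of the central fibre cover.
-/

open AlgebraicGeometry CategoryTheory Polynomial

namespace Pool.Agent.KCY

open Rees

namespace Cover3Pf

section Gen

variable {k S : Type} [CommRing k] [CommRing S] [Algebra k S] (M : Submodule k S)

theorem el_mul {n m : ℕ} {a b : S} (ha : a ∈ M ^ n) (hb : b ∈ M ^ m) (hab : a * b ∈ M ^ (n + m)) :
    el M (n + m) (a * b) hab = el M n a ha * el M m b hb := by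
  apply Subtype.ext
  change (el M (n + m) (a * b) hab : S[X]) = (el M n a ha : S[X]) * (el M m b hb : S[X])
  rw [coe_el, coe_el, coe_el, Polynomial.monomial_mul_monomial]

theorem el_add {n : ℕ} {a b : S} (ha : a ∈ M ^ n) (hb : b ∈ M ^ n) (hab : a + b ∈ M ^ n) :
    el M n (a + b) hab = el M n a ha + el M n b hb := by
  apply Subtype.ext
  change (el M n (a + b) hab : S[X]) = (el M n a ha : S[X]) + (el M n b hb : S[X])
  rw [coe_el, coe_el, coe_el, map_add]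

theorem el_smul {n : ℕ} (c : k) {a : S} (ha : a ∈ M ^ n) (hca : c • a ∈ M ^ n) :
    el M n (c • a) hca = algebraMap k (alg M) c * el M n a ha := by
  rw [← Algebra.smul_def]
  apply Subtype.ext
  change (el M n (c • a) hca : S[X]) = c • (el M n a ha : S[X])
  rw [coe_el, coe_el, Polynomial.smul_monomial]

theorem el_zero (n : ℕ) (h : (0 : S) ∈ M ^ n) : el M n 0 h = 0 := by
  apply Subtype.ext
  change (el M n 0 h : S[X]) = 0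
  rw [coe_el, map_zero]

variable (I : HomogeneousIdeal (gr M))

/-- the elements of `M ^ n` which lie in the ideal -/
noncomputable def NN (n : ℕ) : Submodule k S where
  carrier := {G | ∃ h : G ∈ M ^ n, el M n G h ∈ I.toIdeal}
  zero_mem' := ⟨Submodule.zero_mem _, by rw [el_zero]; exact I.toIdeal.zero_mem⟩
  add_mem' := by
    rintro a b ⟨ha, ha'⟩ ⟨hb, hb'⟩
    refine ⟨Submodule.add_mem _ ha hb, ?_⟩
    rw [el_add M ha hb]
    exact I.toIdeal.add_mem ha' hb'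
  smul_mem' := by
    rintro c a ⟨ha, ha'⟩
    refine ⟨Submodule.smul_mem _ c ha, ?_⟩
    rw [el_smul M c ha]
    exact I.toIdeal.mul_mem_left _ ha'

theorem NN_mul {n m : ℕ} {a b : S} (ha : a ∈ NN M I n) (hb : b ∈ M ^ m) :
    a * b ∈ NN M I (n + m) := by
  obtain ⟨ha, ha'⟩ := ha
  have hab : a * b ∈ M ^ (n + m) := by rw [pow_add]; exact Submodule.mul_mem_mul ha hb
  refine ⟨hab, ?_⟩
  rw [el_mul M ha hb]
  exact I.toIdeal.mul_mem_right _ ha'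

theorem NN_prime (hI : I.toIdeal.IsPrime) {n m : ℕ} {a b : S} (ha : a ∈ M ^ n) (hb : b ∈ M ^ m)
    (hab : a * b ∈ NN M I (n + m)) : a ∈ NN M I n ∨ b ∈ NN M I m := by
  obtain ⟨hab, hab'⟩ := hab
  rw [el_mul M ha hb] at hab'
  rcases hI.mem_or_mem hab' with h | h
  · exact Or.inl ⟨ha, h⟩
  · exact Or.inr ⟨hb, h⟩

theorem NN_sq (hI : I.toIdeal.IsPrime) {a : S} (ha : a ∈ M) (hab : a * a ∈ NN M I 2) :
    a ∈ NN M I 1 := by
  have ha1 : a ∈ M ^ 1 := by rwa [pow_one]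
  rcases NN_prime M I hI (n := 1) (m := 1) ha1 ha1 hab with h | h <;> exact h

theorem not_le (h : ¬ HomogeneousIdeal.irrelevant (gr M) ≤ I) : ¬ M ≤ NN M I 1 := by
  intro hM
  apply h
  have key : ∀ n : ℕ, 0 < n → M ^ n ≤ NN M I n := by
    intro n hn
    induction n with
    | zero => exact absurd hn (lt_irrefl 0)
    | succ n ih =>
      rcases Nat.eq_zero_or_pos n with h0 | h0
      · subst h0
        rw [zero_add, pow_one]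
        exact hM
      · rw [pow_succ, Submodule.mul_le]
        intro a ha b hb
        exact NN_mul M I (ih h0 ha) (by rwa [pow_one])
  rw [HomogeneousIdeal.irrelevant_le]
  intro i hi F hF
  have h1 := eq_el (M := M) (F := F) hF
  obtain ⟨h2, h3⟩ := key i hi (F.2 i)
  rw [h1]
  exact h3

end Gen

section Alg

theorem X0 : Xf ℂ 0 = xx ℂ + 1 := by simp [Xf, aa]
theorem X1 : Xf ℂ 1 = xx ℂ - 2 := by simp [Xf, aa]
theorem X2 : Xf ℂ 2 = xx ℂ - 1 := by simp [Xf, aa]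
theorem X3 : Xf ℂ 3 = xx ℂ := by simp [Xf, aa]

theorem P4 : PP4 ℂ = (xx ℂ + 1) * (xx ℂ - 2) * (xx ℂ - 1) * xx ℂ := by
  rw [PP4, Fin.prod_univ_four, X0, X1, X2, X3]

theorem Pe0 : Pe ℂ 0 = (xx ℂ - 2) * (xx ℂ - 1) * xx ℂ := by
  rw [Pe, show (Finset.univ.erase (0 : Fin 4)) = {1, 2, 3} by decide]
  rw [Finset.prod_insert (by decide), Finset.prod_insert (by decide), Finset.prod_singleton,
    X1, X2, X3]
  ring

theorem Pe1 : Pe ℂ 1 = (xx ℂ + 1) * (xx ℂ - 1) * xx ℂ := by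
  rw [Pe, show (Finset.univ.erase (1 : Fin 4)) = {0, 2, 3} by decide]
  rw [Finset.prod_insert (by decide), Finset.prod_insert (by decide), Finset.prod_singleton,
    X0, X2, X3]
  ring

theorem Pe2 : Pe ℂ 2 = (xx ℂ + 1) * (xx ℂ - 2) * xx ℂ := by
  rw [Pe, show (Finset.univ.erase (2 : Fin 4)) = {0, 1, 3} by decide]
  rw [Finset.prod_insert (by decide), Finset.prod_insert (by decide), Finset.prod_singleton,
    X0, X1, X3]
  ring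

theorem Pe3 : Pe ℂ 3 = (xx ℂ + 1) * (xx ℂ - 2) * (xx ℂ - 1) := by
  rw [Pe, show (Finset.univ.erase (3 : Fin 4)) = {0, 1, 2} by decide]
  rw [Finset.prod_insert (by decide), Finset.prod_insert (by decide), Finset.prod_singleton,
    X0, X1, X2]
  ring

theorem Ul1 : Ul (1 : ℂ) = Uy ℂ := by
  unfold Ul Uy
  rw [show (2 * 1 - 1 : ℂ) = 1 by norm_num, map_one, one_mul]

theorem Q1 (i : Fin 4) : Qf (1 : ℂ) i = Uy ℂ * Vy ℂ := by
  unfold Qf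
  split_ifs
  · rw [Ul1]
  · rfl

theorem e_eq (i : Fin 4) : ee (1 : ℂ) i = Pe ℂ i * (Uy ℂ * Vy ℂ) := by
  rw [ee, Q1]

/-- multiplication by a constant -/
theorem smul_mem {N : Submodule ℂ (Sk ℂ)} (c : ℂ) (d : Sk ℂ) (hc : c ≠ 0) (hd : d = MvPolynomial.C c)
    {G : Sk ℂ} (h : d * G ∈ N) : G ∈ N := by
  rw [hd, ← MvPolynomial.smul_eq_C_mul] at h
  exact (Submodule.smul_mem_iff N hc).1 h

end Alg

end Cover3Pf

set_option maxHeartbeats 4000000 in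
open Cover3Pf in
theorem tCOVER3 : T_COVER3 := by
  intro h1 h2 h3 x
  by_contra hcon
  push Not at hcon
  obtain ⟨g1, g2, g3⟩ := hcon
  set I : HomogeneousIdeal (gr (MM (1 : ℂ))) := x.asHomogeneousIdeal with hI
  have hprime : I.toIdeal.IsPrime := x.isPrime
  have g1' : PP4 ℂ ∈ NN (MM (1 : ℂ)) I 1 := ⟨h1, not_not.1 g1⟩
  have g2' : PP4 ℂ * yy ℂ ^ 4 ∈ NN (MM (1 : ℂ)) I 1 := ⟨h2, not_not.1 g2⟩
  have g3' : Uy ℂ * Vy ℂ ∈ NN (MM (1 : ℂ)) I 1 := ⟨h3, not_not.1 g3⟩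
  clear g1 g2 g3
  have hw : ∀ j : Fin 5, PP4 ℂ * yy ℂ ^ (j : ℕ) ∈ MM (1 : ℂ) := fun j =>
    Submodule.subset_span ⟨Sum.inl j, rfl⟩
  have he : ∀ i : Fin 4, ee (1 : ℂ) i ∈ MM (1 : ℂ) := fun i =>
    Submodule.subset_span ⟨Sum.inr i, rfl⟩
  have hw2 : PP4 ℂ * yy ℂ ^ 2 ∈ MM (1 : ℂ) := hw 2
  have hw3 : PP4 ℂ * yy ℂ ^ 3 ∈ MM (1 : ℂ) := hw 3
  have hw4 : PP4 ℂ * yy ℂ ^ 4 ∈ MM (1 : ℂ) := hw 4
  have hw1 : PP4 ℂ * yy ℂ ∈ MM (1 : ℂ) := by simpa using hw 1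
  have c3 : (3 : Sk ℂ) = MvPolynomial.C (3 : ℂ) := (map_ofNat MvPolynomial.C 3).symm
  have c2 : (2 : Sk ℂ) = MvPolynomial.C (2 : ℂ) := (map_ofNat MvPolynomial.C 2).symm
  have c6 : (6 : Sk ℂ) = MvPolynomial.C (6 : ℂ) := (map_ofNat MvPolynomial.C 6).symm
  have w2 : PP4 ℂ * yy ℂ ^ 2 ∈ NN (MM (1 : ℂ)) I 1 := by
    apply NN_sq (MM (1 : ℂ)) I hprime hw2
    rw [show PP4 ℂ * yy ℂ ^ 2 * (PP4 ℂ * yy ℂ ^ 2) = PP4 ℂ * (PP4 ℂ * yy ℂ ^ 4) by ring]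
    exact NN_mul _ _ g1' (by rw [pow_one]; exact hw4)
  have w1 : PP4 ℂ * yy ℂ ∈ NN (MM (1 : ℂ)) I 1 := by
    apply NN_sq (MM (1 : ℂ)) I hprime hw1
    rw [show PP4 ℂ * yy ℂ * (PP4 ℂ * yy ℂ) = PP4 ℂ * (PP4 ℂ * yy ℂ ^ 2) by ring]
    exact NN_mul _ _ g1' (by rw [pow_one]; exact hw2)
  have w3 : PP4 ℂ * yy ℂ ^ 3 ∈ NN (MM (1 : ℂ)) I 1 := by
    apply NN_sq (MM (1 : ℂ)) I hprime hw3
    rw [show PP4 ℂ * yy ℂ ^ 3 * (PP4 ℂ * yy ℂ ^ 3) =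
      PP4 ℂ * yy ℂ ^ 4 * (PP4 ℂ * yy ℂ ^ 2) by ring]
    exact NN_mul _ _ g2' (by rw [pow_one]; exact hw2)
  -- the product of `P` and `UV`
  have wq : PP4 ℂ * (Uy ℂ * Vy ℂ) ∈ NN (MM (1 : ℂ)) I 1 := by
    have e : PP4 ℂ * (Uy ℂ * Vy ℂ) = PP4 ℂ * yy ℂ ^ 4 - (PP4 ℂ * yy ℂ ^ 3 + PP4 ℂ * yy ℂ ^ 3) -
        PP4 ℂ * yy ℂ ^ 2 + (PP4 ℂ * yy ℂ + PP4 ℂ * yy ℂ) := by
      unfold Uy Vy
      ring
    rw [e]
    exact Submodule.add_mem _ (Submodule.sub_mem _ (Submodule.sub_mem _ g2'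
      (Submodule.add_mem _ w3 w3)) w2) (Submodule.add_mem _ w1 w1)
  -- products of two different `e`
  have hee : ∀ i j : Fin 4, ∀ (c : ℂ) (d : Sk ℂ), c ≠ 0 → d = MvPolynomial.C c →
      d * (Pe ℂ i * Pe ℂ j) = PP4 ℂ * (Pe ℂ i - Pe ℂ j) →
      ee (1 : ℂ) i * ee (1 : ℂ) j ∈ NN (MM (1 : ℂ)) I 2 := by
    intro i j c d hc hd hid
    apply smul_mem c d hc hd
    have e : d * (ee (1 : ℂ) i * ee (1 : ℂ) j) =
        PP4 ℂ * (Uy ℂ * Vy ℂ) * (ee (1 : ℂ) i - ee (1 : ℂ) j) := by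
      rw [e_eq, e_eq]
      calc _ = d * (Pe ℂ i * Pe ℂ j) * (Uy ℂ * Vy ℂ) ^ 2 := by ring
        _ = _ := by rw [hid]; ring
    rw [e]
    exact NN_mul _ _ wq (by rw [pow_one]; exact Submodule.sub_mem _ (he i) (he j))
  have e01 := hee 0 1 (-3) (-3) (by norm_num) (by rw [map_neg, ← c3]) (by
    rw [Pe0, Pe1, P4]; ring)
  have e02 := hee 0 2 (-2) (-2) (by norm_num) (by rw [map_neg, ← c2]) (by
    rw [Pe0, Pe2, P4]; ring)
  have e03 := hee 0 3 (-1) (-1) (by norm_num) (by rw [map_neg, map_one]) (by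
    rw [Pe0, Pe3, P4]; ring)
  have e12 := hee 1 2 1 1 (by norm_num) (by rw [map_one]) (by
    rw [Pe1, Pe2, P4]; ring)
  have e13 := hee 1 3 2 2 (by norm_num) c2 (by
    rw [Pe1, Pe3, P4]; ring)
  have e23 := hee 2 3 1 1 (by norm_num) (by rw [map_one]) (by
    rw [Pe2, Pe3, P4]; ring)
  have hsix : 6 * (Uy ℂ * Vy ℂ) = - ee (1 : ℂ) 0 + ee (1 : ℂ) 1 - 3 * ee (1 : ℂ) 2 +
      3 * ee (1 : ℂ) 3 := by
    rw [e_eq, e_eq, e_eq, e_eq, Pe0, Pe1, Pe2, Pe3]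
    ring
  have hm : ∀ i : Fin 4, (Uy ℂ * Vy ℂ) * ee (1 : ℂ) i ∈ NN (MM (1 : ℂ)) I 2 := fun i =>
    NN_mul _ _ g3' (by rw [pow_one]; exact he i)
  have hcm : ∀ (c : ℂ) (d : Sk ℂ) (G : Sk ℂ), d = MvPolynomial.C c → G ∈ NN (MM (1 : ℂ)) I 2 →
      d * G ∈ NN (MM (1 : ℂ)) I 2 := by
    intro c d G hd hG
    rw [hd, ← MvPolynomial.smul_eq_C_mul]
    exact Submodule.smul_mem _ c hG
  have s0 : ee (1 : ℂ) 0 ∈ NN (MM (1 : ℂ)) I 1 := by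
    apply NN_sq (MM (1 : ℂ)) I hprime (he 0)
    have e : ee (1 : ℂ) 0 * ee (1 : ℂ) 0 = ee (1 : ℂ) 0 * ee (1 : ℂ) 1 -
        3 * (ee (1 : ℂ) 0 * ee (1 : ℂ) 2) + 3 * (ee (1 : ℂ) 0 * ee (1 : ℂ) 3) -
        6 * (Uy ℂ * Vy ℂ * ee (1 : ℂ) 0) := by
      have := congrArg (fun z => z * ee (1 : ℂ) 0) hsix
      linear_combination this
    rw [e]
    exact Submodule.sub_mem _ (Submodule.add_mem _ (Submodule.sub_mem _ e01
      (hcm 3 3 _ c3 e02)) (hcm 3 3 _ c3 e03)) (hcm 6 6 _ c6 (hm 0))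
  have s1 : ee (1 : ℂ) 1 ∈ NN (MM (1 : ℂ)) I 1 := by
    apply NN_sq (MM (1 : ℂ)) I hprime (he 1)
    have e : ee (1 : ℂ) 1 * ee (1 : ℂ) 1 = ee (1 : ℂ) 0 * ee (1 : ℂ) 1 +
        3 * (ee (1 : ℂ) 1 * ee (1 : ℂ) 2) - 3 * (ee (1 : ℂ) 1 * ee (1 : ℂ) 3) +
        6 * (Uy ℂ * Vy ℂ * ee (1 : ℂ) 1) := by
      have := congrArg (fun z => z * ee (1 : ℂ) 1) hsix
      linear_combination -this
    rw [e]
    exact Submodule.add_mem _ (Submodule.sub_mem _ (Submodule.add_mem _ e01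
      (hcm 3 3 _ c3 e12)) (hcm 3 3 _ c3 e13)) (hcm 6 6 _ c6 (hm 1))
  have s2 : ee (1 : ℂ) 2 ∈ NN (MM (1 : ℂ)) I 1 := by
    apply NN_sq (MM (1 : ℂ)) I hprime (he 2)
    apply smul_mem 3 3 (by norm_num) c3
    have e : 3 * (ee (1 : ℂ) 2 * ee (1 : ℂ) 2) = - (ee (1 : ℂ) 0 * ee (1 : ℂ) 2) +
        ee (1 : ℂ) 1 * ee (1 : ℂ) 2 + 3 * (ee (1 : ℂ) 2 * ee (1 : ℂ) 3) -
        6 * (Uy ℂ * Vy ℂ * ee (1 : ℂ) 2) := by
      have := congrArg (fun z => z * ee (1 : ℂ) 2) hsix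
      linear_combination this
    rw [e]
    exact Submodule.sub_mem _ (Submodule.add_mem _ (Submodule.add_mem _ (Submodule.neg_mem _ e02)
      e12) (hcm 3 3 _ c3 e23)) (hcm 6 6 _ c6 (hm 2))
  have s3 : ee (1 : ℂ) 3 ∈ NN (MM (1 : ℂ)) I 1 := by
    apply NN_sq (MM (1 : ℂ)) I hprime (he 3)
    apply smul_mem 3 3 (by norm_num) c3
    have e : 3 * (ee (1 : ℂ) 3 * ee (1 : ℂ) 3) = ee (1 : ℂ) 0 * ee (1 : ℂ) 3 -
        ee (1 : ℂ) 1 * ee (1 : ℂ) 3 + 3 * (ee (1 : ℂ) 2 * ee (1 : ℂ) 3) +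
        6 * (Uy ℂ * Vy ℂ * ee (1 : ℂ) 3) := by
      have := congrArg (fun z => z * ee (1 : ℂ) 3) hsix
      linear_combination -this
    rw [e]
    exact Submodule.add_mem _ (Submodule.add_mem _ (Submodule.sub_mem _ e03 e13)
      (hcm 3 3 _ c3 e23)) (hcm 6 6 _ c6 (hm 3))
  apply not_le (MM (1 : ℂ)) I x.not_irrelevant_le
  unfold MM
  rw [Submodule.span_le]
  rintro _ ⟨i, rfl⟩
  rcases i with j | i
  · change PP4 ℂ * yy ℂ ^ (j : ℕ) ∈ NN (MM (1 : ℂ)) I 1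
    fin_cases j
    · simpa using g1'
    · simpa using w1
    · exact w2
    · exact w3
    · exact g2'
  · change ee (1 : ℂ) i ∈ NN (MM (1 : ℂ)) I 1
    fin_cases i
    · exact s0
    · exact s1
    · exact s2
    · exact s3

end Pool.Agent.KCY
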