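import Pool.Agent.KCY.Defs

/-!
The pluricanonical form `(dx ∧ dy)² / (P(x) Q(y))`, with `P` and `Q` products of four different
linear factors, has order at least `-1` along every discrete valuation ring of a field `K`
which contains the complex numbers.
-/

set_option autoImplicit false
set_option maxHeartbeats 4000000

namespace Pool.Agent.KCY

namespace ORD

variable {K : Type} [Field K] [Algebra ℂ K]

/-! ### discrete valuation rings -/

section DVR

set_option linter.unusedSectionVars false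

variable {O : Subring K} {t : K}

/-- the units of the subring -/
def IsU (O : Subring K) (z : K) : Prop := z ≠ 0 ∧ z ∈ O ∧ z⁻¹ ∈ O

lemma IsU.mul {z w : K} (hz : IsU O z) (hw : IsU O w) : IsU O (z * w) := by
  refine ⟨mul_ne_zero hz.1 hw.1, O.mul_mem hz.2.1 hw.2.1, ?_⟩
  rw [mul_inv]
  exact O.mul_mem hz.2.2 hw.2.2

lemma IsU.inv {z : K} (hz : IsU O z) : IsU O z⁻¹ :=
  ⟨inv_ne_zero hz.1, hz.2.2, by rw [inv_inv]; exact hz.2.1⟩

lemma IsU.prod {ι : Type} (s : Finset ι) (g : ι → K) (h : ∀ i ∈ s, IsU O (g i)) :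
    IsU O (∏ i ∈ s, g i) := by
  classical
  induction s using Finset.induction_on with
  | empty => simpa using ⟨one_ne_zero, O.one_mem, by simp [O.one_mem]⟩
  | insert a s ha ih =>
    rw [Finset.prod_insert ha]
    exact (h _ (Finset.mem_insert_self _ _)).mul
      (ih fun i hi => h i (Finset.mem_insert_of_mem hi))

lemma exists_fac (ht : IsUniformizer K O t) {z : K} (hz : z ≠ 0) :
    ∃ (u : K) (j : ℤ), IsU O u ∧ z = u * t ^ j := by
  obtain ⟨j, h1, h2⟩ := ht.exists_zpow z hz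
  refine ⟨z * t ^ j, -j, ⟨mul_ne_zero hz (zpow_ne_zero _ ht.ne_zero), h1, h2⟩, ?_⟩
  rw [mul_assoc, ← zpow_add₀ ht.ne_zero, add_neg_cancel, zpow_zero, mul_one]

lemma neg_zpow_notMem (ht : IsUniformizer K O t) {j : ℤ} (hj : j < 0) : t ^ j ∉ O := by
  intro h
  apply ht.inv_notMem
  obtain ⟨n, hn⟩ : ∃ n : ℕ, j = -(n : ℤ) - 1 := ⟨(-j - 1).toNat, by omega⟩
  have h1 : t⁻¹ = t ^ j * t ^ n := by
    rw [hn, ← zpow_natCast t n, ← zpow_add₀ ht.ne_zero]
    have : -(n : ℤ) - 1 + n = -1 := by ring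
    rw [this, zpow_neg_one]
  rw [h1]
  exact O.mul_mem h (O.pow_mem ht.mem n)

/-- nonunits of `O` -/
lemma exists_fac_pos (ht : IsUniformizer K O t) {z : K} (hz : z ≠ 0) (hO : z ∈ O)
    (hinv : z⁻¹ ∉ O) : ∃ (u : K) (n : ℕ), IsU O u ∧ 1 ≤ n ∧ z = u * t ^ n := by
  obtain ⟨u, j, hu, hj⟩ := exists_fac ht hz
  have hj1 : 0 < j := by
    by_contra hcon
    rcases lt_or_eq_of_le (not_lt.1 hcon) with h | h
    · apply neg_zpow_notMem ht h
      have : t ^ j = u⁻¹ * z := by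
        rw [hj, ← mul_assoc, inv_mul_cancel₀ hu.1, one_mul]
      rw [this]
      exact O.mul_mem hu.2.2 hO
    · rw [h, zpow_zero, mul_one] at hj
      rw [hj] at hinv
      exact hinv hu.2.2
  refine ⟨u, j.toNat, hu, by omega, ?_⟩
  rw [← zpow_natCast, Int.toNat_of_nonneg hj1.le]
  exact hj

lemma mem_or_inv_mem (ht : IsUniformizer K O t) (z : K) : z ∈ O ∨ z⁻¹ ∈ O := by
  by_cases hz : z = 0
  · left
    rw [hz]
    exact O.zero_mem
  obtain ⟨u, j, hu, hj⟩ := exists_fac ht hz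
  rcases le_total 0 j with h | h
  · left
    obtain ⟨n, rfl⟩ := Int.eq_ofNat_of_zero_le h
    rw [hj, zpow_natCast]
    exact O.mul_mem hu.2.1 (O.pow_mem ht.mem n)
  · right
    obtain ⟨n, hn⟩ := Int.eq_ofNat_of_zero_le (neg_nonneg.2 h)
    rw [hj, mul_inv, ← zpow_neg, hn, zpow_natCast]
    exact O.mul_mem hu.2.2 (O.pow_mem ht.mem n)

lemma isU_const (hC : ∀ c : ℂ, algebraMap ℂ K c ∈ O) {a : ℂ} (ha : a ≠ 0) :
    IsU O (algebraMap ℂ K a) := by
  refine ⟨?_, hC a, ?_⟩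
  · rw [Ne, FaithfulSMul.algebraMap_eq_zero_iff]
    exact ha
  · rw [← map_inv₀]
    exact hC _

/-- a nonunit plus a nonzero constant is a unit -/
lemma isU_add (ht : IsUniformizer K O t) (hC : ∀ c : ℂ, algebraMap ℂ K c ∈ O) {z : K}
    (hO : z ∈ O) (hinv : z = 0 ∨ z⁻¹ ∉ O) {a : ℂ} (ha : a ≠ 0) :
    IsU O (z + algebraMap ℂ K a) := by
  have hau := isU_const (K := K) (O := O) hC ha
  by_cases hz : z = 0
  · rw [hz, zero_add]
    exact hau
  have hinv' : z⁻¹ ∉ O := hinv.resolve_left hz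
  have hw : z + algebraMap ℂ K a ∈ O := O.add_mem hO (hC a)
  have hw0 : z + algebraMap ℂ K a ≠ 0 := by
    intro h
    apply hinv'
    rw [eq_neg_of_add_eq_zero_left h, inv_neg]
    exact O.neg_mem hau.2.2
  refine ⟨hw0, hw, ?_⟩
  by_contra hcon
  obtain ⟨u, n, hu, hn, hzu⟩ := exists_fac_pos ht hz hO hinv'
  obtain ⟨v, k, hv, hk, hwv⟩ := exists_fac_pos ht hw0 hw hcon
  obtain ⟨n, rfl⟩ : ∃ n', n = n' + 1 := ⟨n - 1, by omega⟩
  obtain ⟨k, rfl⟩ : ∃ k', k = k' + 1 := ⟨k - 1, by omega⟩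
  apply ht.inv_notMem
  have h1 : algebraMap ℂ K a = t * (v * t ^ k - u * t ^ n) := by
    have : algebraMap ℂ K a = (z + algebraMap ℂ K a) - z := by ring
    rw [this, hwv]
    conv_lhs => rw [hzu]
    ring
  have h2 : t⁻¹ = (algebraMap ℂ K a)⁻¹ * (v * t ^ k - u * t ^ n) := by
    have h3 := ht.ne_zero
    have h4 := hau.1
    rw [eq_inv_mul_iff_mul_eq₀ h4]
    rw [h1]
    field_simp
  rw [h2]
  exact O.mul_mem hau.2.2 (O.sub_mem (O.mul_mem hv.2.1 (O.pow_mem ht.mem _))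
    (O.mul_mem hu.2.1 (O.pow_mem ht.mem _)))

end DVR

/-! ### one variable -/

/-- the four linear factors -/
noncomputable def pr (a : Fin 4 → ℂ) (x : K) : K := ∏ i, (x - algebraMap ℂ K (a i))

/-- `dx = c₁ dx₁` with a local coordinate `x₁ = u tⁿ` in `O`, such that `P(x)⁻¹ c₁² tⁿ` is in
`O` -/
lemma one_var {O : Subring K} {t : K} (ht : IsUniformizer K O t)
    (hC : ∀ c : ℂ, algebraMap ℂ K c ∈ O) (a : Fin 4 → ℂ) (ha : Function.Injective a) (x : K) :
    ∃ (u c₁ : K) (n : ℕ), u ∈ O ∧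
      KaehlerDifferential.D ℂ K x = c₁ • KaehlerDifferential.D ℂ K (u * t ^ n) ∧
      (pr a x)⁻¹ * c₁ ^ 2 * t ^ n ∈ O := by
  by_cases hx : x ∈ O
  · -- `x` is in `O`
    by_cases hex : ∃ i, (x - algebraMap ℂ K (a i)) = 0 ∨ (x - algebraMap ℂ K (a i))⁻¹ ∉ O
    · obtain ⟨i, hi⟩ := hex
      have hmem : x - algebraMap ℂ K (a i) ∈ O := O.sub_mem hx (hC _)
      by_cases h0 : x - algebraMap ℂ K (a i) = 0
      · refine ⟨x, 1, 0, hx, by simp, ?_⟩
        have : pr a x = 0 := Finset.prod_eq_zero (Finset.mem_univ i) h0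
        rw [this]
        simp [O.zero_mem]
      · have hi' := hi.resolve_left h0
        obtain ⟨u, n, hu, hn, hxu⟩ := exists_fac_pos ht h0 hmem hi'
        refine ⟨u, 1, n, hu.2.1, ?_, ?_⟩
        · rw [← hxu, one_smul, map_sub, Derivation.map_algebraMap, sub_zero]
        · have hother : IsU O (∏ j ∈ Finset.univ.erase i, (x - algebraMap ℂ K (a j))) := by
            apply IsU.prod
            intro j hj
            have hji : j ≠ i := Finset.ne_of_mem_erase hj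
            have h1 : a i - a j ≠ 0 := sub_ne_zero.2 fun h => hji (ha h).symm
            have h2 := isU_add ht hC hmem hi h1
            rw [map_sub] at h2
            have h3 : x - algebraMap ℂ K (a i) + (algebraMap ℂ K (a i) - algebraMap ℂ K (a j)) =
              x - algebraMap ℂ K (a j) := by ring
            rwa [h3] at h2
          have hpr : pr a x = (u * t ^ n) *
              ∏ j ∈ Finset.univ.erase i, (x - algebraMap ℂ K (a j)) := by
            unfold pr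
            rw [← Finset.mul_prod_erase _ _ (Finset.mem_univ i), hxu]
          have h4 : (pr a x)⁻¹ * 1 ^ 2 * t ^ n =
              u⁻¹ * (∏ j ∈ Finset.univ.erase i, (x - algebraMap ℂ K (a j)))⁻¹ := by
            rw [hpr]
            have h5 := hu.1
            have h6 := ht.ne_zero
            have h7 := hother.1
            field_simp
          rw [h4]
          exact O.mul_mem hu.2.2 hother.2.2
    · push Not at hex
      refine ⟨x, 1, 0, hx, by simp, ?_⟩
      have : IsU O (pr a x) := by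
        apply IsU.prod
        intro i _
        exact ⟨(hex i).1, O.sub_mem hx (hC _), (hex i).2⟩
      simpa using this.2.2
  · -- `x` is not in `O`
    have hx0 : x ≠ 0 := fun h => hx (h ▸ O.zero_mem)
    have hxi : x⁻¹ ∈ O := (mem_or_inv_mem ht x).resolve_left hx
    have hxn : x⁻¹ = 0 ∨ (x⁻¹)⁻¹ ∉ O := Or.inr (by rw [inv_inv]; exact hx)
    refine ⟨x⁻¹, -x ^ 2, 0, hxi, ?_, ?_⟩
    · rw [pow_zero, mul_one, Derivation.leibniz_inv, smul_smul]
      have : -x ^ 2 * -x⁻¹ ^ 2 = 1 := by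
        field_simp
      rw [this, one_smul]
    · have hun : IsU O (∏ i, (1 - algebraMap ℂ K (a i) * x⁻¹)) := by
        apply IsU.prod
        intro i _
        by_cases hai : a i = 0
        · rw [hai, map_zero, zero_mul, sub_zero]
          exact ⟨one_ne_zero, O.one_mem, by simp [O.one_mem]⟩
        · -- `1 - a x⁻¹ = - a (x⁻¹ - a⁻¹)`
          have h1 := isU_add ht hC hxi hxn (neg_ne_zero.2 (inv_ne_zero hai))
          have h2 := (isU_const (K := K) (O := O) hC (neg_ne_zero.2 hai)).mul h1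
          have h3 : algebraMap ℂ K (-a i) * (x⁻¹ + algebraMap ℂ K (-(a i)⁻¹)) =
              1 - algebraMap ℂ K (a i) * x⁻¹ := by
            have h4 : algebraMap ℂ K (a i) ≠ 0 := (isU_const (K := K) (O := O) hC hai).1
            rw [map_neg, map_neg, map_inv₀]
            field_simp
            ring
          rwa [h3] at h2
      have h5 : pr a x = x ^ 4 * ∏ i, (1 - algebraMap ℂ K (a i) * x⁻¹) := by
        unfold pr
        simp only [Fin.prod_univ_four]
        field_simp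
      have h6 : (pr a x)⁻¹ * (-x ^ 2) ^ 2 * t ^ 0 = (∏ i, (1 - algebraMap ℂ K (a i) * x⁻¹))⁻¹ := by
        rw [h5]
        have h7 := hun.1
        field_simp
      rw [h6]
      exact hun.2.2

/-! ### two variables -/

/-- the wedge product of two one-forms -/
noncomputable def W (α β : Ω[K⁄ℂ]) : ⋀[K]^2 (Ω[K⁄ℂ]) := exteriorPower.ιMulti K 2 ![α, β]

lemma wedgeD_eq (x y : K) :
    wedgeD K ![x, y] = W (KaehlerDifferential.D ℂ K x) (KaehlerDifferential.D ℂ K y) := by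
  unfold wedgeD W
  congr 1
  ext i
  fin_cases i <;> rfl

lemma upd0 (α β γ : Ω[K⁄ℂ]) : Function.update ![α, β] 0 γ = ![γ, β] := by
  funext i
  fin_cases i <;> rfl

lemma upd1 (α β γ : Ω[K⁄ℂ]) : Function.update ![α, β] 1 γ = ![α, γ] := by
  funext i
  fin_cases i <;> rfl

lemma W_add_left (α α' β : Ω[K⁄ℂ]) : W (α + α') β = W α β + W α' β := by
  unfold W
  have h := (exteriorPower.ιMulti K 2 (M := Ω[K⁄ℂ])).map_update_add ![α, β] 0 α α'
  rw [upd0, upd0, upd0] at h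
  exact h

lemma W_add_right (α β β' : Ω[K⁄ℂ]) : W α (β + β') = W α β + W α β' := by
  unfold W
  have h := (exteriorPower.ιMulti K 2 (M := Ω[K⁄ℂ])).map_update_add ![α, β] 1 β β'
  rw [upd1, upd1, upd1] at h
  exact h

lemma W_smul_left (c : K) (α β : Ω[K⁄ℂ]) : W (c • α) β = c • W α β := by
  unfold W
  have h := (exteriorPower.ιMulti K 2 (M := Ω[K⁄ℂ])).map_update_smul ![α, β] 0 c α
  rw [upd0, upd0] at h
  exact h

lemma W_smul_right (c : K) (α β : Ω[K⁄ℂ]) : W α (c • β) = c • W α β := by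
  unfold W
  have h := (exteriorPower.ιMulti K 2 (M := Ω[K⁄ℂ])).map_update_smul ![α, β] 1 c β
  rw [upd1, upd1] at h
  exact h

lemma W_self (α : Ω[K⁄ℂ]) : W α α = 0 := by
  unfold W
  exact (exteriorPower.ιMulti K 2 (M := Ω[K⁄ℂ])).map_eq_zero_of_eq ![α, α] (i := 0) (j := 1)
    (by simp) (by simp)

lemma W_swap (α β : Ω[K⁄ℂ]) : W α β = - W β α := by
  have h := W_self (α + β)
  rw [W_add_left, W_add_right, W_add_right, W_self, W_self, zero_add, add_zero] at h
  exact eq_neg_of_add_eq_zero_left h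

lemma W_mem {O : Subring K} {g h : K} (hg : g ∈ O) (hh : h ∈ O) :
    W (KaehlerDifferential.D ℂ K g) (KaehlerDifferential.D ℂ K h) ∈ regForms K 2 O := by
  rw [← wedgeD_eq]
  apply Submodule.subset_span
  exact ⟨![g, h], fun i => by fin_cases i <;> assumption, rfl⟩

lemma smul_mem_reg {O : Subring K} {c : K} (hc : c ∈ O) {η : ⋀[K]^2 (Ω[K⁄ℂ])}
    (hη : η ∈ regForms K 2 O) : c • η ∈ regForms K 2 O :=
  (regForms K 2 O).smul_mem (⟨c, hc⟩ : O) hη

lemma D_mul_pow (u t : K) (n : ℕ) : KaehlerDifferential.D ℂ K (u * t ^ n) =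
    t ^ n • KaehlerDifferential.D ℂ K u + ((n : K) * u * t ^ ((n : ℤ) - 1)) •
      KaehlerDifferential.D ℂ K t := by
  rw [Derivation.leibniz, Derivation.leibniz_pow, add_comm]
  congr 1
  rw [← Nat.cast_smul_eq_nsmul K, smul_smul, smul_smul]
  congr 1
  rcases n with _ | n
  · simp
  · have : ((n + 1 : ℕ) : ℤ) - 1 = (n : ℤ) := by push_cast; ring
    rw [this, zpow_natCast, Nat.add_sub_cancel]
    ring

lemma wedge_fac {O : Subring K} {t : K} (ht : IsUniformizer K O t) {u v : K} (hu : u ∈ O)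
    (hv : v ∈ O) (n k : ℕ) : ∃ η ∈ regForms K 2 O,
      W (KaehlerDifferential.D ℂ K (u * t ^ n)) (KaehlerDifferential.D ℂ K (v * t ^ k)) =
        t ^ ((n : ℤ) + k - 1) • η := by
  have ht0 := ht.ne_zero
  set Du := KaehlerDifferential.D ℂ K u with hDu
  set Dv := KaehlerDifferential.D ℂ K v with hDv
  set Dt := KaehlerDifferential.D ℂ K t with hDt
  refine ⟨t • W Du Dv + ((k : K) * v) • W Du Dt + ((n : K) * u) • W Dt Dv, ?_, ?_⟩
  · refine (regForms K 2 O).add_mem ((regForms K 2 O).add_mem ?_ ?_) ?_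
    · exact smul_mem_reg ht.mem (W_mem hu hv)
    · exact smul_mem_reg (O.mul_mem (natCast_mem O k) hv) (W_mem hu ht.mem)
    · exact smul_mem_reg (O.mul_mem (natCast_mem O n) hu) (W_mem ht.mem hv)
  · rw [D_mul_pow, D_mul_pow, W_add_left, W_add_right, W_add_right]
    simp only [W_smul_left, W_smul_right, W_self, smul_zero, add_zero, smul_add, smul_smul]
    have e1 : t ^ k * t ^ n = t ^ ((n : ℤ) + k - 1) * t := by
      rw [← zpow_natCast, ← zpow_natCast, ← zpow_add₀ ht0]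
      conv_rhs => rw [← zpow_one t, ← zpow_mul, one_mul]
      rw [← zpow_add₀ ht0]
      congr 1
      ring
    have e2 : (k : K) * v * t ^ ((k : ℤ) - 1) * t ^ n =
        t ^ ((n : ℤ) + k - 1) * ((k : K) * v) := by
      have : t ^ ((n : ℤ) + k - 1) = t ^ n * t ^ ((k : ℤ) - 1) := by
        rw [← zpow_natCast, ← zpow_add₀ ht0]
        congr 1
        ring
      rw [this]
      ring
    have e3 : t ^ k * ((n : K) * u * t ^ ((n : ℤ) - 1)) = t ^ ((n : ℤ) + k - 1) * ((n : K) * u) := by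
      have : t ^ ((n : ℤ) + k - 1) = t ^ ((n : ℤ) - 1) * t ^ k := by
        rw [← zpow_natCast, ← zpow_add₀ ht0]
        congr 1
        ring
      rw [this]
      ring
    rw [e1, e2, e3]

/-- The form `(dx ∧ dy)² / (P(x) Q(y))` has order at least `-1` along every discrete valuation
ring of `K` which contains the complex numbers. -/
theorem orderGE {O : Subring K} (hC : ∀ c : ℂ, algebraMap ℂ K c ∈ O)
    (hO : ∃ t, IsUniformizer K O t) (a b : Fin 4 → ℂ) (ha : Function.Injective a)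
    (hb : Function.Injective b) (x y : K) :
    OrderGE 2 O 2 (pr a x * pr b y)⁻¹ (wedgeD K ![x, y]) (1 - ((2 : ℕ) : ℤ)) := by
  obtain ⟨t, ht⟩ := hO
  obtain ⟨u, c₁, n, hu, hDx, hPx⟩ := one_var ht hC a ha x
  obtain ⟨v, c₂, k, hv, hDy, hPy⟩ := one_var ht hC b hb y
  have ht0 := ht.ne_zero
  refine ⟨t, ht, ?_⟩
  rw [wedgeD_eq, hDx, hDy, W_smul_left, W_smul_right, smul_smul]
  have hN : -(1 - ((2 : ℕ) : ℤ)) = 1 := by norm_num
  rw [hN, zpow_one]
  by_cases hnk : n = 0 ∧ k = 0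
  · obtain ⟨rfl, rfl⟩ := hnk
    refine ⟨_, W_mem (O.mul_mem hu (O.pow_mem ht.mem 0)) (O.mul_mem hv (O.pow_mem ht.mem 0)),
      c₁ * c₂, rfl, ?_⟩
    have : (pr a x * pr b y)⁻¹ * (c₁ * c₂) ^ 2 * t =
        ((pr a x)⁻¹ * c₁ ^ 2 * t ^ 0) * ((pr b y)⁻¹ * c₂ ^ 2 * t ^ 0) * t := by
      rw [mul_inv]
      ring
    rw [this]
    exact O.mul_mem (O.mul_mem hPx hPy) ht.mem
  · obtain ⟨η, hη, hW⟩ := wedge_fac ht hu hv n k
    refine ⟨η, hη, c₁ * c₂ * t ^ ((n : ℤ) + k - 1), ?_, ?_⟩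
    · rw [hW, smul_smul]
    · obtain ⟨e, he⟩ : ∃ e : ℕ, n + k = e + 1 := ⟨n + k - 1, by omega⟩
      have he' : (n : ℤ) + k - 1 = e := by
        have : (n : ℤ) + k = e + 1 := by exact_mod_cast he
        linarith
      rw [he', zpow_natCast]
      have : (pr a x * pr b y)⁻¹ * (c₁ * c₂ * t ^ e) ^ 2 * t =
          ((pr a x)⁻¹ * c₁ ^ 2 * t ^ n) * ((pr b y)⁻¹ * c₂ ^ 2 * t ^ k) * t ^ e := by
        have h1 : t ^ n * t ^ k = t ^ e * t := by
          rw [← pow_add, he, pow_succ]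
        rw [mul_inv]
        calc (pr a x)⁻¹ * (pr b y)⁻¹ * (c₁ * c₂ * t ^ e) ^ 2 * t
            = (pr a x)⁻¹ * (pr b y)⁻¹ * c₁ ^ 2 * c₂ ^ 2 * t ^ e * (t ^ e * t) := by ring
          _ = _ := by rw [← h1]; ring
      rw [this]
      exact O.mul_mem (O.mul_mem hPx hPy) (O.pow_mem ht.mem e)

/-! ### order zero -/

/-- Every element of `O` is a quotient `p(u,v) / q(u,v)` with `q(u,v)` a unit of `O`. -/
def IsLoc (O : Subring K) (u v : K) : Prop :=
  u ∈ O ∧ v ∈ O ∧ ∀ g ∈ O, ∃ p ∈ Algebra.adjoin ℂ {u, v}, ∃ q ∈ Algebra.adjoin ℂ {u, v},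
    IsU O q ∧ g = p / q

lemma D_adjoin {O : Subring K} (hC : ∀ c : ℂ, algebraMap ℂ K c ∈ O) {u v : K} (hu : u ∈ O)
    (hv : v ∈ O) (p : K) (hp : p ∈ Algebra.adjoin ℂ {u, v}) :
    p ∈ O ∧ ∃ α ∈ O, ∃ β ∈ O, KaehlerDifferential.D ℂ K p =
      α • KaehlerDifferential.D ℂ K u + β • KaehlerDifferential.D ℂ K v := by
  induction hp using Algebra.adjoin_induction with
  | mem x hx =>
    rcases hx with rfl | hx
    · exact ⟨hu, 1, O.one_mem, 0, O.zero_mem, by simp⟩
    · rw [Set.mem_singleton_iff.1 hx]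
      exact ⟨hv, 0, O.zero_mem, 1, O.one_mem, by simp⟩
  | algebraMap c => exact ⟨hC c, 0, O.zero_mem, 0, O.zero_mem, by simp⟩
  | add x y _ _ hx hy =>
    obtain ⟨hxO, α, hα, β, hβ, hx⟩ := hx
    obtain ⟨hyO, α', hα', β', hβ', hy⟩ := hy
    refine ⟨O.add_mem hxO hyO, α + α', O.add_mem hα hα', β + β', O.add_mem hβ hβ', ?_⟩
    rw [map_add, hx, hy]
    module
  | mul x y _ _ hx hy =>
    obtain ⟨hxO, α, hα, β, hβ, hx⟩ := hx
    obtain ⟨hyO, α', hα', β', hβ', hy⟩ := hy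
    refine ⟨O.mul_mem hxO hyO, x * α' + y * α, O.add_mem (O.mul_mem hxO hα') (O.mul_mem hyO hα),
      x * β' + y * β, O.add_mem (O.mul_mem hxO hβ') (O.mul_mem hyO hβ), ?_⟩
    rw [Derivation.leibniz, hx, hy]
    module

lemma D_loc {O : Subring K} (hC : ∀ c : ℂ, algebraMap ℂ K c ∈ O) {u v : K}
    (h : IsLoc O u v) {g : K} (hg : g ∈ O) :
    ∃ α ∈ O, ∃ β ∈ O, KaehlerDifferential.D ℂ K g =
      α • KaehlerDifferential.D ℂ K u + β • KaehlerDifferential.D ℂ K v := by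
  obtain ⟨hu, hv, h⟩ := h
  obtain ⟨p, hp, q, hq, hqU, hgpq⟩ := h g hg
  obtain ⟨hpO, α, hα, β, hβ, hDp⟩ := D_adjoin hC hu hv p hp
  obtain ⟨hqO, α', hα', β', hβ', hDq⟩ := D_adjoin hC hu hv q hq
  have hpg : p = q * g := by
    rw [hgpq]
    field_simp [hqU.1]
  have h1 : KaehlerDifferential.D ℂ K g =
      q⁻¹ • (KaehlerDifferential.D ℂ K p - g • KaehlerDifferential.D ℂ K q) := by
    rw [hpg, Derivation.leibniz, add_sub_cancel_right, smul_smul, inv_mul_cancel₀ hqU.1,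
      one_smul]
  refine ⟨q⁻¹ * (α - g * α'), O.mul_mem hqU.2.2 (O.sub_mem hα (O.mul_mem hg hα')),
    q⁻¹ * (β - g * β'), O.mul_mem hqU.2.2 (O.sub_mem hβ (O.mul_mem hg hβ')), ?_⟩
  rw [h1, hDp, hDq]
  module

/-- the regular forms of a localisation of `ℂ[u,v]` are generated by `du ∧ dv` -/
lemma reg_eq {O : Subring K} (hC : ∀ c : ℂ, algebraMap ℂ K c ∈ O) {u v : K}
    (h : IsLoc O u v) : regForms K 2 O = Submodule.span O {wedgeD K ![u, v]} := by
  apply le_antisymm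
  · unfold regForms
    rw [Submodule.span_le]
    rintro _ ⟨g, hg, rfl⟩
    obtain ⟨α, hα, β, hβ, h0⟩ := D_loc hC h (hg 0)
    obtain ⟨α', hα', β', hβ', h1⟩ := D_loc hC h (hg 1)
    have hgg : g = ![g 0, g 1] := by
      funext i
      fin_cases i <;> rfl
    have : wedgeD K g = (⟨α * β' - β * α', O.sub_mem (O.mul_mem hα hβ') (O.mul_mem hβ hα')⟩ : O) •
        wedgeD K ![u, v] := by
      show _ = (α * β' - β * α') • wedgeD K ![u, v]
      rw [hgg, wedgeD_eq, wedgeD_eq, h0, h1]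
      simp only [W_add_left, W_add_right, W_smul_left, W_smul_right, W_self]
      rw [W_swap (KaehlerDifferential.D ℂ K v) (KaehlerDifferential.D ℂ K u)]
      module
    rw [this]
    exact Submodule.smul_mem _ _ (Submodule.mem_span_singleton_self _)
  · rw [Submodule.span_le, Set.singleton_subset_iff]
    rw [wedgeD_eq]
    exact W_mem h.1 h.2.1

/-- Order zero at an ordinary codimension one point: `u` is `x` or `1 / x`, `v` is `y` or
`1 / y`, and the numbers `P(x)⁻¹ c₁²` and `Q(y)⁻¹ c₂²` are units. -/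
theorem orderZero_of_coord {O : Subring K} (hC : ∀ c : ℂ, algebraMap ℂ K c ∈ O)
    (hO : ∃ t, IsUniformizer K O t) {x y u v c₁ c₂ p q : K} (h : IsLoc O u v)
    (hx : KaehlerDifferential.D ℂ K x = c₁ • KaehlerDifferential.D ℂ K u)
    (hy : KaehlerDifferential.D ℂ K y = c₂ • KaehlerDifferential.D ℂ K v)
    (hp : IsU O (p⁻¹ * c₁ ^ 2)) (hq : IsU O (q⁻¹ * c₂ ^ 2)) :
    OrderZero 2 O 2 (p * q)⁻¹ (wedgeD K ![x, y]) := by
  refine ⟨hO, wedgeD K ![u, v], reg_eq hC h, c₁ * c₂, ?_, ?_⟩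
  · rw [wedgeD_eq, wedgeD_eq, hx, hy, W_smul_left, W_smul_right, smul_smul]
  · have h1 : (p * q)⁻¹ * (c₁ * c₂) ^ 2 = (p⁻¹ * c₁ ^ 2) * (q⁻¹ * c₂ ^ 2) := by
      rw [mul_inv]
      ring
    rw [h1]
    exact (hp.mul hq).2

/-- Order zero at an exceptional curve: `y - b = (x - a) s`. -/
theorem orderZero_of_exc {O : Subring K} (hC : ∀ c : ℂ, algebraMap ℂ K c ∈ O)
    (hO : ∃ t, IsUniformizer K O t) {x y s p q : K} (a b : ℂ)
    (h : IsLoc O (x - algebraMap ℂ K a) s)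
    (hys : y = algebraMap ℂ K b + (x - algebraMap ℂ K a) * s)
    (hp : IsU O (p * q * ((x - algebraMap ℂ K a) ^ 2)⁻¹)) :
    OrderZero 2 O 2 (p * q)⁻¹ (wedgeD K ![x, y]) := by
  refine ⟨hO, wedgeD K ![x - algebraMap ℂ K a, s], reg_eq hC h, x - algebraMap ℂ K a, ?_, ?_⟩
  · rw [wedgeD_eq, wedgeD_eq, hys]
    have h1 : KaehlerDifferential.D ℂ K (x - algebraMap ℂ K a) = KaehlerDifferential.D ℂ K x := by
      rw [map_sub, Derivation.map_algebraMap, sub_zero]
    rw [map_add, Derivation.map_algebraMap, zero_add, Derivation.leibniz, h1, W_add_right,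
      W_smul_right, W_smul_right, W_self, smul_zero, add_zero]
  · have h2 := hp.inv.2
    have h3 : (p * q * ((x - algebraMap ℂ K a) ^ 2)⁻¹)⁻¹ =
        (p * q)⁻¹ * (x - algebraMap ℂ K a) ^ 2 := by
      rw [mul_inv, inv_inv]
    rw [h3] at h2
    exact h2

end ORD

end Pool.Agent.KCY
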