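import Pool.Agent.KCY.Targets
import Pool.Agent.KCY.ORDER

set_option autoImplicit false
set_option maxHeartbeats 4000000

open AlgebraicGeometry CategoryTheory Polynomial

namespace Pool.Agent.KCY

open Rees

namespace OMEGA_

variable {K : Type} [Field K] [Algebra ℂ K] {u v : K}

lemma inj (h : Coord K u v) : Function.Injective (MvPolynomial.aeval (R := ℂ) ![u, v]) := h.1

/-- the alternating map with value `1` on `(du, dv)` -/
lemma wedgeD_ne (h : Coord K u v) : wedgeD K ![u, v] ≠ 0 := by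
  let φ : MvPolynomial (Fin 2) ℂ →ₐ[ℂ] K := MvPolynomial.aeval ![u, v]
  have hφ : Function.Injective φ := h.1
  let _ : Algebra (MvPolynomial (Fin 2) ℂ) K := φ.toRingHom.toAlgebra
  have hmap : ∀ p, algebraMap (MvPolynomial (Fin 2) ℂ) K p = MvPolynomial.aeval ![u, v] p :=
    fun p => rfl
  have : IsScalarTower ℂ (MvPolynomial (Fin 2) ℂ) K := IsScalarTower.of_algebraMap_eq fun c => by
    rw [hmap, MvPolynomial.algebraMap_eq, MvPolynomial.aeval_C]
  have : IsLocalization (nonZeroDivisors (MvPolynomial (Fin 2) ℂ)) K := by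
    refine ⟨⟨?_, ?_, ?_⟩⟩
    · rintro ⟨q, hq⟩
      have hq0 : q ≠ 0 := nonZeroDivisors.ne_zero hq
      apply IsUnit.mk0
      rw [hmap]
      intro h0
      exact hq0 (h.1 (h0.trans (map_zero _).symm))
    · intro z
      obtain ⟨p, q, hq, hz⟩ := h.2 z
      have hq0 : q ≠ 0 := by
        rintro rfl
        exact hq (map_zero _)
      refine ⟨(p, ⟨q, mem_nonZeroDivisors_of_ne_zero hq0⟩), ?_⟩
      show z * algebraMap _ K q = algebraMap _ K p
      rw [hmap, hmap, hz]
      field_simp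
    · intro x y hxy
      exact ⟨1, by rw [h.1 hxy]⟩
  have : Algebra.FormallyEtale (MvPolynomial (Fin 2) ℂ) K :=
    Algebra.FormallyEtale.of_isLocalization (nonZeroDivisors (MvPolynomial (Fin 2) ℂ))
  let E := KaehlerDifferential.tensorKaehlerEquivOfFormallyEtale ℂ (MvPolynomial (Fin 2) ℂ) K
  let b := KaehlerDifferential.mvPolynomialBasis ℂ (Fin 2)
  let ψ : Fin 2 → Ω[K⁄ℂ] →ₗ[K] K := fun i =>
    (LinearMap.liftBaseChange K ((Algebra.linearMap (MvPolynomial (Fin 2) ℂ) K).comp
      (b.coord i))).comp E.symm.toLinearMap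
  have hψ : ∀ i j, ψ i (KaehlerDifferential.D ℂ K (![u, v] j)) = if i = j then 1 else 0 := by
    intro i j
    have h1 : (![u, v] j : K) = algebraMap (MvPolynomial (Fin 2) ℂ) K (MvPolynomial.X j) := by
      rw [hmap, MvPolynomial.aeval_X]
    show (LinearMap.liftBaseChange K ((Algebra.linearMap (MvPolynomial (Fin 2) ℂ) K).comp
      (b.coord i))) (E.symm (KaehlerDifferential.D ℂ K (![u, v] j))) = _
    rw [h1, KaehlerDifferential.tensorKaehlerEquivOfFormallyEtale_symm_D_algebraMap,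
      LinearMap.liftBaseChange_tmul, one_smul, LinearMap.comp_apply, Module.Basis.coord_apply,
      KaehlerDifferential.mvPolynomialBasis_repr_D_X, Finsupp.single_apply]
    by_cases hij : i = j
    · subst hij
      simp
    · rw [if_neg hij, if_neg (fun h => hij h.symm)]
      simp
  let A : Ω[K⁄ℂ] [⋀^Fin 2]→ₗ[K] K :=
    (Matrix.detRowAlternating (n := Fin 2) (R := K)).compLinearMap (LinearMap.pi ψ)
  intro h0
  have h2 : A (fun i => KaehlerDifferential.D ℂ K (![u, v] i)) = 0 := by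
    rw [← exteriorPower.alternatingMapLinearEquiv_apply_ιMulti A]
    have h3 : exteriorPower.ιMulti K 2 (fun i => KaehlerDifferential.D ℂ K (![u, v] i)) = 0 := h0
    rw [h3, map_zero]
  have h4 : A (fun i => KaehlerDifferential.D ℂ K (![u, v] i)) = 1 := by
    show Matrix.det (Matrix.of fun i =>
      LinearMap.pi ψ (KaehlerDifferential.D ℂ K (![u, v] i))) = 1
    rw [Matrix.det_fin_two]
    simp only [Matrix.of_apply, LinearMap.pi_apply, hψ]
    simp
  rw [h4] at h2
  exact one_ne_zero h2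

lemma isLoc (h : Coord K u v) {F : MvPolynomial (Fin 2) ℂ} (hF : Irreducible F) {O : Subring K}
    (hO : ∀ z : K, z ∈ O ↔ ∃ p q : MvPolynomial (Fin 2) ℂ, ¬ F ∣ q ∧
      z = MvPolynomial.aeval ![u, v] p / MvPolynomial.aeval ![u, v] q) : ORD.IsLoc O u v := by
  have h1 : ¬ F ∣ 1 := fun hd => hF.not_isUnit (isUnit_of_dvd_one hd)
  have hpol : ∀ p : MvPolynomial (Fin 2) ℂ, MvPolynomial.aeval ![u, v] p ∈ O := fun p =>
    (hO _).2 ⟨p, 1, h1, by rw [map_one, div_one]⟩
  have hadj : ∀ p : MvPolynomial (Fin 2) ℂ,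
      MvPolynomial.aeval ![u, v] p ∈ Algebra.adjoin ℂ {u, v} := by
    intro p
    have h2 : MvPolynomial.aeval ![u, v] p ∈ Algebra.adjoin ℂ (Set.range ![u, v]) := by
      rw [Algebra.adjoin_range_eq_range_aeval]
      exact ⟨p, rfl⟩
    have h3 : Set.range ![u, v] = {u, v} := by
      ext z
      simp only [Set.mem_range, Fin.exists_fin_two, Set.mem_insert_iff, Set.mem_singleton_iff]
      constructor
      · rintro (h | h)
        · exact Or.inl h.symm
        · exact Or.inr h.symm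
      · rintro (h | h)
        · exact Or.inl h.symm
        · exact Or.inr h.symm
    rwa [h3] at h2
  refine ⟨?_, ?_, ?_⟩
  · have := hpol (MvPolynomial.X 0)
    rwa [MvPolynomial.aeval_X] at this
  · have := hpol (MvPolynomial.X 1)
    rwa [MvPolynomial.aeval_X] at this
  · intro g hg
    obtain ⟨p, q, hq, hz⟩ := (hO g).1 hg
    refine ⟨_, hadj p, _, hadj q, ⟨?_, hpol q, ?_⟩, hz⟩
    · intro h0
      apply hq
      rw [h.1 (h0.trans (map_zero _).symm)]
      exact dvd_zero F
    · exact (hO _).2 ⟨1, q, hq, by rw [map_one, one_div]⟩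

lemma uniformizer (h : Coord K u v) {F : MvPolynomial (Fin 2) ℂ} (hF : Irreducible F)
    {O : Subring K}
    (hO : ∀ z : K, z ∈ O ↔ ∃ p q : MvPolynomial (Fin 2) ℂ, ¬ F ∣ q ∧
      z = MvPolynomial.aeval ![u, v] p / MvPolynomial.aeval ![u, v] q) :
    IsUniformizer K O (MvPolynomial.aeval ![u, v] F) := by
  have h1 : ¬ F ∣ 1 := fun hd => hF.not_isUnit (isUnit_of_dvd_one hd)
  have hne : ∀ p : MvPolynomial (Fin 2) ℂ, p ≠ 0 → MvPolynomial.aeval ![u, v] p ≠ 0 := by
    intro p hp h0
    exact hp (h.1 (h0.trans (map_zero _).symm))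
  have hF0 := hne F hF.ne_zero
  refine ⟨(hO _).2 ⟨F, 1, h1, by rw [map_one, div_one]⟩, hF0, ?_, ?_⟩
  · intro hmem
    obtain ⟨p, q, hq, hz⟩ := (hO _).1 hmem
    have hq0 : q ≠ 0 := by
      rintro rfl
      exact hq (dvd_zero F)
    have hq0' := hne q hq0
    have h2 : MvPolynomial.aeval ![u, v] q = MvPolynomial.aeval ![u, v] (F * p) := by
      rw [map_mul]
      field_simp at hz
      exact hz
    apply hq
    rw [h.1 h2]
    exact dvd_mul_right F p
  · intro z hz
    obtain ⟨p, q, hq, hzpq⟩ := h.2 z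
    have hq0 : q ≠ 0 := by
      rintro rfl
      exact hq (map_zero _)
    have hp0 : p ≠ 0 := by
      rintro rfl
      apply hz
      rw [hzpq, map_zero, zero_div]
    obtain ⟨a, p', hp', hpp⟩ := WfDvdMonoid.max_power_factor hp0 hF
    obtain ⟨b, q', hq', hqq⟩ := WfDvdMonoid.max_power_factor hq0 hF
    have hp0' : p' ≠ 0 := by
      rintro rfl
      exact hp' (dvd_zero F)
    have hq0' : q' ≠ 0 := by
      rintro rfl
      exact hq' (dvd_zero F)
    have e : z * MvPolynomial.aeval ![u, v] F ^ ((b : ℤ) - a) =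
        MvPolynomial.aeval ![u, v] p' / MvPolynomial.aeval ![u, v] q' := by
      rw [hzpq, hpp, hqq, map_mul, map_mul, map_pow, map_pow, zpow_sub₀ hF0, zpow_natCast,
        zpow_natCast]
      have := hne _ hq0'
      field_simp
    refine ⟨(b : ℤ) - a, ?_, ?_⟩
    · rw [e]
      exact (hO _).2 ⟨p', q', hq', rfl⟩
    · rw [e, inv_div]
      exact (hO _).2 ⟨q', p', hp', rfl⟩

end OMEGA_

open OMEGA_ in
theorem tOMEGA : T_OMEGA := by
  intro K _ _ u v h
  refine ⟨wedgeD_ne h, ?_⟩
  intro F hF O hO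
  refine ⟨uniformizer h hF hO, ?_⟩
  have h1 : ¬ F ∣ 1 := fun hd => hF.not_isUnit (isUnit_of_dvd_one hd)
  apply ORD.reg_eq _ (isLoc h hF hO)
  intro c
  exact (hO _).2 ⟨MvPolynomial.C c, 1, h1, by rw [map_one, div_one, MvPolynomial.aeval_C]⟩

end Pool.Agent.KCY
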