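import Pool.Agent.KCY.Targets
import Pool.Agent.KCY.OMEGA

/-!
# CY: the central fibre is a rational Calabi-Yau surface (assembly)
-/

set_option autoImplicit false
set_option maxHeartbeats 4000000

open AlgebraicGeometry CategoryTheory Polynomial

namespace Pool.Agent.KCY

open Rees

namespace CY_

theorem ac_inj : Function.Injective ac := by
  intro i j h
  have h1 : ((aa i : ℤ) : ℂ) = ((aa j : ℤ) : ℂ) := h
  have h2 : aa i = aa j := by exact_mod_cast h1
  revert h2
  unfold aa
  fin_cases i <;> fin_cases j <;> simp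

theorem prodP_ne : prodP ac ≠ 0 := by
  unfold prodP
  exact Finset.prod_ne_zero_iff.mpr fun i _ => X_sub_C_ne_zero _

theorem Prev_ne : Prev ≠ 0 := by
  intro h
  have h1 := congrArg (Polynomial.eval 0) h
  simp [Prev] at h1

section Fld

variable {K : Type} [Field K] [Algebra ℂ K] {x y : K}

theorem aeval_ac (z : K) : aeval z (prodP ac) = z * (z - 1) * (z + 1) * (z - 2) := by
  have h1 : algebraMap ℂ K (-1) = -1 := by rw [map_neg, map_one]
  have h2 : algebraMap ℂ K 2 = 2 := map_ofNat _ 2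
  have h0 : ac 0 = -1 := by simp [ac, aa]
  have h3 : ac 1 = 2 := by simp [ac, aa]
  have h4 : ac 2 = 1 := by simp [ac, aa]
  have h5 : ac 3 = 0 := by simp [ac, aa]
  rw [prodP, Fin.prod_univ_four, map_mul, map_mul, map_mul, h0, h3, h4, h5]
  simp only [map_sub, aeval_X, aeval_C, h1, h2, map_one, map_zero]
  ring

theorem aeval_Prev (z : K) (hz : z ≠ 0) :
    aeval z⁻¹ Prev = (z * (z - 1) * (z + 1) * (z - 2)) / z ^ 4 := by
  have h2 : aeval z⁻¹ (2 : ℂ[X]) = (2 : K) := map_ofNat _ 2
  simp only [Prev, map_sub, map_add, map_mul, map_pow, map_one, aeval_X, h2]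
  field_simp
  ring

/-- A nonzero polynomial does not vanish at the first coordinate. -/
theorem ne_fst (h : Coord K x y) {P : ℂ[X]} (hP : P ≠ 0) : aeval x P ≠ 0 := by
  have h1 : Transcendental ℂ x := by
    have h2 := h.1.transcendental (0 : Fin 2)
    simpa using h2
  exact (transcendental_iff.mp h1 P).mt hP

theorem ne_snd (h : Coord K x y) {P : ℂ[X]} (hP : P ≠ 0) : aeval y P ≠ 0 := by
  have h1 : Transcendental ℂ y := by
    have h2 := h.1.transcendental (1 : Fin 2)
    simpa using h2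
  exact (transcendental_iff.mp h1 P).mt hP

end Fld

/-- The local rings, in terms of the chart rings. -/
theorem chart (hAFF : T_AFF) (X : Scheme.{0}) [IsIntegral X] (p : X) (U : X.Opens)
    (hU : genericPoint X ∈ U) (haff : IsAffineOpen U) (hp : p ∈ U)
    (A : Subring X.functionField) (hA : funRing X U hU = A) :
    ∃ (q : Ideal A) (_ : q.IsPrime), localRing X p = locSub A q ∧
      Nonempty (X.presheaf.stalk p ≃+* Localization.AtPrime q) := by
  subst hA
  exact hAFF X U haff hU p hp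

/-- Normality of one local ring. -/
theorem normal_of {R : Type} [CommRing R] {F : Type} [Field F] (A : Subring F)
    (hA : IsIntegrallyClosed A) (q : Ideal A) [q.IsPrime]
    (e : R ≃+* Localization.AtPrime q) : IsIntegrallyClosed R := by
  have h : IsIntegrallyClosed (Localization.AtPrime q) :=
    isIntegrallyClosed_of_isLocalization _ q.primeCompl (Ideal.primeCompl_le_nonZeroDivisors q)
  exact IsIntegrallyClosed.of_equiv e.symm

/-- The canonical form has order zero at the codimension one points of one chart. -/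
theorem zero_of (hBRH : T_BRH) {R : Type} [CommRing R] {K : Type} [Field K] [Algebra ℂ K]
    {u v : K} (hc : Coord K u v) {Q : ℂ[X]} (hQ : Q ≠ 0) (A : Subring K)
    (hA : A = (Bring u v ac Q).toSubring) (q : Ideal A) [q.IsPrime]
    (e : R ≃+* Localization.AtPrime q) (hR : ringKrullDim R = 1) :
    OrderZero 2 (locSub A q) 2 ((aeval u (prodP ac) * aeval v Q)⁻¹) (wedgeD K ![u, v]) := by
  subst hA
  refine hBRH K u v hc ac Q ac_inj hQ q ?_
  rw [← ringKrullDim_eq_of_ringEquiv e]
  exact hR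

end CY_

open CY_ in
/-- CY: the central fibre is a rational Calabi-Yau surface. -/
theorem tCY : T_MODEL → T_AFF → T_BRN → T_BRH → T_KLT2 → T_SCALE → T_CHG → T_PROJ → T_TRD →
    T_CY := by
  intro hMODEL hAFF hBRN hBRH hKLT2 hSCALE hCHG hPROJ hTRD
  obtain ⟨hI, x, y, hxy, hch⟩ := hMODEL
  let _ : Algebra ℂ (PX (MM (1 : ℂ))).functionField := ffAlgebra (str (MM (1 : ℂ)))
  have hyi : Coord (PX (MM (1 : ℂ))).functionField x y⁻¹ := (hCHG _ x y hxy).2.2.1
  have hyx : Coord (PX (MM (1 : ℂ))).functionField y x := (hCHG _ x y hxy).1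
  have hw1 := (hCHG _ x y hxy).2.2.2.2.1
  have hw2 := (hCHG _ x y hxy).2.2.2.2.2.1
  obtain ⟨htr, hgen⟩ := hTRD _ x y hxy
  have hy0 : y ≠ 0 := by
    have h := ne_snd hxy (P := X) X_ne_zero
    rwa [aeval_X] at h
  have hPx : aeval x (prodP ac) ≠ 0 := ne_fst hxy prodP_ne
  have hPy : aeval y (prodP ac) ≠ 0 := ne_snd hxy prodP_ne
  -- the three kinds of charts
  have key : ∀ p : PX (MM (1 : ℂ)), ∃ (A : Subring (PX (MM (1 : ℂ))).functionField)
      (q : Ideal A) (_ : q.IsPrime), localRing (PX (MM (1 : ℂ))) p = locSub A q ∧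
      Nonempty ((PX (MM (1 : ℂ))).presheaf.stalk p ≃+* Localization.AtPrime q) ∧
      (A = (Bring x y ac (prodP ac)).toSubring ∨ A = (Bring x y⁻¹ ac Prev).toSubring ∨
        A = (Bring y x ac (prodP ac)).toSubring) := by
    intro p
    obtain ⟨U, hU, haff, hp, h⟩ := hch p
    obtain ⟨q, hq, h1, h2⟩ := chart hAFF _ p U hU haff hp _ rfl
    exact ⟨_, q, hq, h1, h2, h⟩
  have hproj : IsProjective (str (MM (1 : ℂ))) := by
    refine hPROJ (Sk ℂ) (MM (1 : ℂ)) 8
      (fun i => gens (1 : ℂ) ((finSumFinEquiv (m := 5) (n := 4)).symm i)) ?_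
    rw [MM]
    congr 1
    ext z
    constructor
    · rintro ⟨i, rfl⟩
      exact ⟨finSumFinEquiv (m := 5) (n := 4) i, by simp only [Equiv.symm_apply_apply]⟩
    · rintro ⟨i, rfl⟩
      exact ⟨_, rfl⟩
  refine ⟨⟨hI, ?_, hproj, ?_, ?_⟩, ⟨hI, ![x, y], hxy.1, hgen⟩⟩
  · intro p
    obtain ⟨A, q, hq, _, ⟨e⟩, h⟩ := key p
    refine normal_of A ?_ q e
    rcases h with h | h | h
    · rw [h]
      exact (hBRN _ x y hxy ac (prodP ac) ac_inj prodP_ne).1
    · rw [h]
      exact (hBRN _ x y⁻¹ hyi ac Prev ac_inj Prev_ne).1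
    · rw [h]
      exact (hBRN _ y x hyx ac (prodP ac) ac_inj prodP_ne).1
  · rw [htr]
    norm_num
  · refine ⟨2, (aeval x (prodP ac) * aeval y (prodP ac))⁻¹, wedgeD _ ![x, y], by norm_num,
      inv_ne_zero (mul_ne_zero hPx hPy), OMEGA_.wedgeD_ne hxy, ?_, ?_⟩
    · rintro O ⟨p, hdim, rfl⟩
      obtain ⟨A, q, hq, hloc, ⟨e⟩, h⟩ := key p
      rw [hloc]
      rcases h with h | h | h
      · exact zero_of hBRH hxy prodP_ne A h q e hdim
      · have h1 := zero_of hBRH hyi Prev_ne A h q e hdim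
        rw [hw2] at h1
        have hc : (-(y ^ 2)⁻¹ : (PX (MM (1 : ℂ))).functionField) ≠ 0 :=
          neg_ne_zero.mpr (inv_ne_zero (pow_ne_zero _ hy0))
        refine (hSCALE _ 2 (locSub A q) 2 _ (-(y ^ 2)⁻¹) _ 0 hc).1.mp ?_
        have hf : (aeval x (prodP ac) * aeval y⁻¹ Prev)⁻¹ =
            (aeval x (prodP ac) * aeval y (prodP ac))⁻¹ /
              (-(y ^ 2)⁻¹ : (PX (MM (1 : ℂ))).functionField) ^ 2 := by
          have hPy' := hPy
          rw [aeval_ac] at hPy'
          rw [aeval_Prev y hy0, aeval_ac y]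
          field_simp
        rw [hf] at h1
        exact h1
      · have h1 := zero_of hBRH hyx prodP_ne A h q e hdim
        rw [hw1] at h1
        refine (hSCALE _ 2 (locSub A q) 2 _ (-1) _ 0 (by norm_num)).1.mp ?_
        have hf : (aeval y (prodP ac) * aeval x (prodP ac))⁻¹ =
            (aeval x (prodP ac) * aeval y (prodP ac))⁻¹ /
              (-1 : (PX (MM (1 : ℂ))).functionField) ^ 2 := by
          rw [mul_comm (aeval y (prodP ac))]
          norm_num
        rw [hf] at h1
        exact h1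
    · intro O hO
      exact hKLT2 _ x y hxy O hO.1 hO.2.1

end Pool.Agent.KCY
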