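import Pool.Agent.KCY.Alg

/-!
The concrete line bundle data and some elementary facts.
-/

open AlgebraicGeometry CategoryTheory Polynomial

namespace Pool.Agent.KCY

section

variable {k : Type} [CommRing k]

theorem ww_mem (l : k) (j : Fin 5) : ww k j ∈ MM l :=
  Submodule.subset_span ⟨Sum.inl j, rfl⟩

theorem ee_mem (l : k) (i : Fin 4) : ee l i ∈ MM l :=
  Submodule.subset_span ⟨Sum.inr i, rfl⟩

/-- `P(x) q(y)` belongs to `MM l` for `q` of degree at most `4`. -/
theorem PPq_mem (l : k) (c : Fin 5 → k) :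
    PP4 k * ∑ j, MvPolynomial.C (c j) * yy k ^ (j : ℕ) ∈ MM l := by
  rw [Finset.mul_sum]
  refine Submodule.sum_mem _ fun j _ => ?_
  have h : PP4 k * (MvPolynomial.C (c j) * yy k ^ (j : ℕ)) = c j • ww k j := by
    rw [MvPolynomial.smul_eq_C_mul, ww]
    ring
  rw [h]
  exact Submodule.smul_mem _ _ (ww_mem l j)

theorem mm_mem (l : k) (i : Fin 6) : mm l i ∈ MM l := by
  fin_cases i
  · have h := PPq_mem l (![0, 0, 1, -2, 1] : Fin 5 → k)
    have e : PP4 k * ∑ j, MvPolynomial.C ((![0, 0, 1, -2, 1] : Fin 5 → k) j) * yy k ^ (j : ℕ) =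
        PP4 k * Vy k ^ 2 := by
      have h2 : (MvPolynomial.C (2 : k) : Sk k) = 2 := map_ofNat _ 2
      simp [Fin.sum_univ_succ, Vy, h2]
      ring
    rw [e] at h
    exact h
  · have h := PPq_mem l (![4, 8 * l - 4, -3, 4 - 6 * l, 2 * l - 1] : Fin 5 → k)
    have e : PP4 k * ∑ j, MvPolynomial.C
        ((![4, 8 * l - 4, -3, 4 - 6 * l, 2 * l - 1] : Fin 5 → k) j) * yy k ^ (j : ℕ) =
        PP4 k * (Ul l * Uy k) := by
      have h2 : (MvPolynomial.C (2 : k) : Sk k) = 2 := map_ofNat _ 2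
      have h3 : (MvPolynomial.C (3 : k) : Sk k) = 3 := map_ofNat _ 3
      have h4 : (MvPolynomial.C (4 : k) : Sk k) = 4 := map_ofNat _ 4
      have h6 : (MvPolynomial.C (6 : k) : Sk k) = 6 := map_ofNat _ 6
      have h8 : (MvPolynomial.C (8 : k) : Sk k) = 8 := map_ofNat _ 8
      simp [Fin.sum_univ_succ, Ul, Uy, h2, h3, h4, h6, h8]
      ring
    rw [e] at h
    exact h
  · exact ee_mem l 0
  · exact ee_mem l 1
  · exact ee_mem l 2
  · exact ee_mem l 3

/-- The data of the line bundle. -/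
noncomputable def DD (l : k) : Rees.LBData (MM l) where
  ι := Fin 6
  m := mm l
  mem i := by rw [pow_one]; exact mm_mem l i
  num := num k
  den := den l

end

namespace Rees

variable {k S : Type} [CommRing k] [CommRing S] [Algebra k S]
variable {k' S' : Type} [CommRing k'] [CommRing S'] [Algebra k' S']
variable {e : k →+* k'} {σ : S →+* S'} {M : Submodule k S} {M' : Submodule k' S'}

/-- The image of the data of a line bundle under a base change. -/
def LBData.map (D : LBData M) (h : IsBC e σ M M') : LBData M' where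
  ι := D.ι
  m i := σ (D.m i)
  mem i := h.map_mem_pow 1 (D.mem i)
  num i := σ (D.num i)
  den i := σ (D.den i)

end Rees

/-- The evaluation `x = -1`, from `ℂ[x, y]` to `ℂ[y]`. -/
noncomputable def evx : Sk ℂ →ₐ[ℂ] ℂ[X] := MvPolynomial.aeval ![C (-1), X]

/-- The numbers `a i` as complex numbers. -/
def ac : Fin 4 → ℂ := fun i => (aa i : ℂ)

/-- The reversed polynomial `X^4 P(1/X) = 1 - 2 X - X^2 + 2 X^3`. -/
noncomputable def Prev : ℂ[X] := 1 - 2 * X - X ^ 2 + 2 * X ^ 3

end Pool.Agent.KCY
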