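import Mathlib

/-!
Definitions for the problem MP_83476f_ag (relative semi-ampleness over the deformation space
of a Calabi-Yau variety with a semi-ample line bundle).
-/

open AlgebraicGeometry CategoryTheory CategoryTheory.Limits

namespace Pool.Agent.KCY

/-! ### Line bundles, powers, sections, semi-ampleness -/

/-- A line bundle on a scheme `X`, given by an open cover `U i` and transition functions
`g i j` on `U i ∩ U j` which satisfy the cocycle condition (so they are units). -/
structure LineBundle (X : Scheme.{0}) where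
  /-- index set of the cover -/
  ι : Type
  /-- the members of the cover -/
  U : ι → X.Opens
  /-- they cover `X` -/
  cover : ∀ x : X, ∃ i, x ∈ U i
  /-- the transition functions -/
  g : ∀ i j, Γ(X, U i ⊓ U j)
  /-- normalisation -/
  g_self : ∀ i, g i i = 1
  /-- the cocycle condition on triple intersections -/
  cocycle : ∀ i j l,
    X.presheaf.map (homOfLE (inf_le_left : U i ⊓ U j ⊓ U l ≤ U i ⊓ U j)).op (g i j) *
      X.presheaf.map (homOfLE (le_inf (inf_le_left.trans inf_le_right) inf_le_right :
        U i ⊓ U j ⊓ U l ≤ U j ⊓ U l)).op (g j l) =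
      X.presheaf.map (homOfLE (le_inf (inf_le_left.trans inf_le_left) inf_le_right :
        U i ⊓ U j ⊓ U l ≤ U i ⊓ U l)).op (g i l)

namespace LineBundle

variable {X : Scheme.{0}}

/-- A global section of the power `L ^ m`: functions `s i` on `U i` with
`s i = (g i j) ^ m * s j` on `U i ∩ U j`. -/
structure PowSection (L : LineBundle X) (m : ℕ) where
  /-- the local components -/
  s : ∀ i, Γ(X, L.U i)
  /-- compatibility -/
  compat : ∀ i j,
    X.presheaf.map (homOfLE (inf_le_left : L.U i ⊓ L.U j ≤ L.U i)).op (s i) =
      (L.g i j) ^ m *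
        X.presheaf.map (homOfLE (inf_le_right : L.U i ⊓ L.U j ≤ L.U j)).op (s j)

/-- The section does not vanish at the point `x`. -/
def PowSection.NonvanishingAt {L : LineBundle X} {m : ℕ} (t : L.PowSection m) (x : X) : Prop :=
  ∃ i, x ∈ X.basicOpen (t.s i)

/-- `L` is semi-ample: some positive power of `L` is generated by its global sections
(is base point free). -/
def IsSemiample (L : LineBundle X) : Prop :=
  ∃ m : ℕ, 0 < m ∧ ∀ x : X, ∃ t : L.PowSection m, t.NonvanishingAt x

/-- The pullback of a line bundle along a morphism of schemes. -/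
noncomputable def pullback {Y : Scheme.{0}} (f : Y ⟶ X) (L : LineBundle X) : LineBundle Y where
  ι := L.ι
  U i := f ⁻¹ᵁ (L.U i)
  cover y := L.cover (f y)
  g i j := f.app (L.U i ⊓ L.U j) (L.g i j)
  g_self i := by rw [L.g_self]; exact map_one _
  cocycle i j l := by
    have h := congrArg (f.app (L.U i ⊓ L.U j ⊓ L.U l)) (L.cocycle i j l)
    rw [map_mul] at h
    simp only [← ConcreteCategory.comp_apply, Scheme.Hom.naturality] at h
    exact h

end LineBundle

/-! ### The base of the family and its fibres -/

/-- The multiplicative group `Spec ℂ[T, T⁻¹]`, the base of the family. -/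
noncomputable abbrev Gm : Scheme.{0} := Spec (CommRingCat.of (LaurentPolynomial ℂ))

/-- Evaluation of Laurent polynomials at the nonzero complex number `c`. -/
noncomputable def evalAt (c : ℂˣ) : LaurentPolynomial ℂ →+* ℂ :=
  LaurentPolynomial.eval₂ (RingHom.id ℂ) c

/-- The inclusion of the point `c` into the base. -/
noncomputable def ptHom (c : ℂˣ) : Spec (CommRingCat.of ℂ) ⟶ Gm :=
  Spec.map (CommRingCat.ofHom (evalAt c))

/-- The point `c` of the base. -/
noncomputable def pt (c : ℂˣ) : Gm := ptHom c (IsLocalRing.closedPoint ℂ)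

/-- `L` is relatively semi-ample over a neighbourhood of the point `b` of the base: there are an
open neighbourhood `V` of `b` and `m ≥ 1` such that over `V` the map `π^* π_* L^m → L^m` is
surjective, i.e. every point `x` of `X` over `V` has a section of `L^m` over the preimage of an
open neighbourhood `W` of `π x` which does not vanish at `x`. -/
def IsRelSemiampleNear {X B : Scheme.{0}} (π : X ⟶ B) (L : LineBundle X) (b : B) : Prop :=
  ∃ V : B.Opens, b ∈ V ∧ ∃ m : ℕ, 0 < m ∧ ∀ x : X, π x ∈ V →
    ∃ (W : B.Opens) (y : (π ⁻¹ᵁ W : X.Opens)), y.1 = x ∧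
      ∃ t : (L.pullback (π ⁻¹ᵁ W).ι).PowSection m, t.NonvanishingAt y

/-! ### Projectivity -/

section Projective

attribute [local instance] MvPolynomial.gradedAlgebra

/-- Projective space of dimension `N` over `ℂ`, as `Proj ℂ[x₀, …, x_N]`. -/
noncomputable def PP (N : ℕ) : Scheme.{0} :=
  Proj (MvPolynomial.homogeneousSubmodule (Fin (N + 1)) ℂ)

/-- The structure morphism of projective space. -/
noncomputable def PPstr (N : ℕ) : PP N ⟶ Spec (CommRingCat.of ℂ) :=
  Proj.toSpecZero (MvPolynomial.homogeneousSubmodule (Fin (N + 1)) ℂ) ≫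
    Spec.map (CommRingCat.ofHom
      (algebraMap ℂ (MvPolynomial.homogeneousSubmodule (Fin (N + 1)) ℂ 0)))

end Projective

/-- A scheme over `ℂ` is projective: it is a closed subscheme of a projective space. -/
def IsProjective {X : Scheme.{0}} (s : X ⟶ Spec (CommRingCat.of ℂ)) : Prop :=
  ∃ (N : ℕ) (i : X ⟶ PP N), IsClosedImmersion i ∧ i ≫ PPstr N = s

/-! ### Differential forms and divisorial valuations of a field -/

section Field

variable (K : Type) [Field K] [Algebra ℂ K]

/-- The form `d g₁ ∧ … ∧ d gₙ` in the `n`-th exterior power of the Kaehler differentials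
of `K` over `ℂ`. -/
noncomputable def wedgeD {n : ℕ} (g : Fin n → K) : ⋀[K]^n (Ω[K⁄ℂ]) :=
  exteriorPower.ιMulti K n (fun i => KaehlerDifferential.D ℂ K (g i))

/-- The `n`-forms which are regular on the subring `O`: the `O`-span of the forms
`d g₁ ∧ … ∧ d gₙ` with `gᵢ` in `O` (the image of the `n`-forms of `O` over `ℂ`). -/
noncomputable def regForms (n : ℕ) (O : Subring K) : Submodule O (⋀[K]^n (Ω[K⁄ℂ])) :=
  Submodule.span O {w | ∃ g : Fin n → K, (∀ i, g i ∈ O) ∧ w = wedgeD K g}

/-- `O` is a discrete valuation ring with fraction field `K`, and `t` is a uniformizer: every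
nonzero element of `K` is a power of `t` times a unit of `O`. -/
structure IsUniformizer (O : Subring K) (t : K) : Prop where
  mem : t ∈ O
  ne_zero : t ≠ 0
  inv_notMem : t⁻¹ ∉ O
  exists_zpow : ∀ z : K, z ≠ 0 → ∃ j : ℤ, z * t ^ j ∈ O ∧ (z * t ^ j)⁻¹ ∈ O

/-- The divisorial valuation rings of a field `K` of transcendence degree `n` over `ℂ`:
discrete valuation rings of `K` which contain `ℂ` and whose residue field has
transcendence degree (at least, hence exactly) `n - 1` over `ℂ`. -/
def IsDivisorial (n : ℕ) (O : Subring K) : Prop :=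
  (∀ c : ℂ, algebraMap ℂ K c ∈ O) ∧ (∃ t, IsUniformizer K O t) ∧
    ∃ g : Fin (n - 1) → K, (∀ i, g i ∈ O) ∧
      ∀ p : MvPolynomial (Fin (n - 1)) ℂ, p ≠ 0 →
        MvPolynomial.aeval g p ≠ 0 ∧ (MvPolynomial.aeval g p)⁻¹ ∈ O

variable {K}

/-- The pluricanonical form `f ω^m` has order at least `N` along the discrete valuation
ring `O`: one has `ω = c η` with `η` a regular form and `f c^m` of order at least `N`. -/
def OrderGE (n : ℕ) (O : Subring K) (m : ℕ) (f : K) (ω : ⋀[K]^n (Ω[K⁄ℂ])) (N : ℤ) : Prop :=
  ∃ t : K, IsUniformizer K O t ∧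
    ∃ η ∈ regForms K n O, ∃ c : K, ω = c • η ∧ f * c ^ m * t ^ (-N) ∈ O

/-- The pluricanonical form `f ω^m` has order exactly `0` along the discrete valuation
ring `O`: the regular forms are generated by one form `η`, and `ω = c η` with `f c^m` a
unit of `O`. -/
def OrderZero (n : ℕ) (O : Subring K) (m : ℕ) (f : K) (ω : ⋀[K]^n (Ω[K⁄ℂ])) : Prop :=
  (∃ t : K, IsUniformizer K O t) ∧
    ∃ η, regForms K n O = Submodule.span O {η} ∧
      ∃ c : K, ω = c • η ∧ f * c ^ m ∈ O ∧ (f * c ^ m)⁻¹ ∈ O

variable (K)

/-- Let `K` be the function field of a normal projective variety of dimension `n`, with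
local rings `C` at the codimension one points. The condition says that for some `m ≥ 1` there is
a nonzero rational pluricanonical form `f ω^m` without zeros and poles in codimension one
(so `m K_X` is linearly equivalent to `0`, in particular `K_X` is `ℚ`-Cartier and numerically
trivial), and that this form has order `> -m` along every divisorial valuation (all
discrepancies are `> -1`, i.e. klt singularities). -/
def TorsionCanonicalKlt (n : ℕ) (C : Set (Subring K)) : Prop :=
  ∃ (m : ℕ) (f : K) (ω : ⋀[K]^n (Ω[K⁄ℂ])), 0 < m ∧ f ≠ 0 ∧ ω ≠ 0 ∧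
    (∀ O ∈ C, OrderZero n O m f ω) ∧
    (∀ O, IsDivisorial K n O → OrderGE n O m f ω (1 - m))

end Field

/-! ### Calabi-Yau varieties -/

section CalabiYau

variable {X : Scheme.{0}}

/-- The function field of an integral scheme over `ℂ` is a `ℂ`-algebra. -/
noncomputable abbrev ffAlgebra [IsIntegral X] (s : X ⟶ Spec (CommRingCat.of ℂ)) :
    Algebra ℂ X.functionField :=
  ((X.presheaf.germ ⊤ (genericPoint X) trivial).hom.comp
    (s.appTop.hom.comp (Scheme.ΓSpecIso (CommRingCat.of ℂ)).inv.hom)).toAlgebra

/-- The local ring at the point `x`, as a subring of the function field. -/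
noncomputable def localRing (X : Scheme.{0}) [IsIntegral X] (x : X) :
    Subring X.functionField :=
  (algebraMap (X.presheaf.stalk x) X.functionField).range

/-- The local rings at the points of codimension one, as subrings of the function field. -/
def codimOneRings (X : Scheme.{0}) [IsIntegral X] : Set (Subring X.functionField) :=
  {O | ∃ x : X, ringKrullDim (X.presheaf.stalk x) = 1 ∧ O = localRing X x}

/-- `X` is a normal projective variety of dimension `n` over `ℂ` with klt singularities
and torsion canonical class (`m K_X` linearly equivalent to `0` for some `m ≥ 1`; in particular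
`K_X` is `ℚ`-Cartier and numerically trivial). -/
structure IsCalabiYau (s : X ⟶ Spec (CommRingCat.of ℂ)) (n : ℕ) : Prop where
  integral : IsIntegral X
  normal : ∀ x : X, IsIntegrallyClosed (X.presheaf.stalk x)
  projective : IsProjective s
  dim : letI := ffAlgebra s; Algebra.trdeg ℂ X.functionField = n
  canonical : letI := ffAlgebra s; TorsionCanonicalKlt X.functionField n (codimOneRings X)

/-- `X` is a rational surface: its function field is generated by two algebraically independent
elements. -/
def IsRationalSurface (s : X ⟶ Spec (CommRingCat.of ℂ)) : Prop :=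
  ∃ _ : IsIntegral X, letI := ffAlgebra s; ∃ x : Fin 2 → X.functionField,
    AlgebraicIndependent ℂ x ∧ IntermediateField.adjoin ℂ (Set.range x) = ⊤

end CalabiYau

/-- The pair `(X₀, L₀)`, with `X₀` a scheme over `ℂ` (structure morphism `s`), deforms in the
family `(π : X ⟶ Gm, L)`: the morphism `π` is flat and proper, and `i : X₀ ⟶ X` identifies
`X₀` with the fibre of `π` over the point `1` and `L₀` with the restriction of `L`. -/
structure IsDeformation {X₀ X : Scheme.{0}} (s : X₀ ⟶ Spec (CommRingCat.of ℂ))
    (L₀ : LineBundle X₀) (π : X ⟶ Gm) (L : LineBundle X) (i : X₀ ⟶ X) : Prop where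
  flat : Flat π
  proper : IsProper π
  fibre : IsPullback i s π (ptHom 1)
  restrict : L₀ = L.pullback i

/-- The main statement: there are a rational Calabi-Yau surface `X₀` (normal, projective, klt,
torsion canonical class), a semi-ample line bundle `L₀` on it and a deformation `(X, L)` of the
pair `(X₀, L₀)` over `Gm` such that `L` is not relatively semi-ample over any neighbourhood of
the point `1`. More precisely, `L` is not semi-ample on the fibre over `c` for every complex
number `c ≠ 0` which is not a root of unity. -/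
def MainStatement : Prop :=
  ∃ (X₀ : Scheme.{0}) (s : X₀ ⟶ Spec (CommRingCat.of ℂ)) (L₀ : LineBundle X₀)
    (X : Scheme.{0}) (π : X ⟶ Gm) (L : LineBundle X) (i : X₀ ⟶ X),
    IsCalabiYau s 2 ∧ IsRationalSurface s ∧ L₀.IsSemiample ∧
    IsDeformation s L₀ π L i ∧
    ¬ IsRelSemiampleNear π L (pt 1) ∧
    ∀ c : ℂˣ, (∀ m : ℕ, 0 < m → c ^ m ≠ 1) →
      ∀ (Y : Scheme.{0}) (j : Y ⟶ X) (r : Y ⟶ Spec (CommRingCat.of ℂ)),
        IsPullback j r π (ptHom c) → ¬ (L.pullback j).IsSemiample

end Pool.Agent.KCY
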