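import Pool.Agent.KCY.Defs

/-!
If a line bundle is relatively semi-ample near the point `1` of the base, then it is semi-ample
on the fibre over some complex number which is not a root of unity.
-/

set_option autoImplicit false
set_option maxHeartbeats 4000000

open AlgebraicGeometry CategoryTheory CategoryTheory.Limits

namespace Pool.Agent.KCY

namespace LineBundle

theorem pullback_comp {X Y Z : Scheme.{0}} (L : LineBundle X) (g : Y ⟶ X) (f : Z ⟶ Y) :
    L.pullback (f ≫ g) = (L.pullback g).pullback f := rfl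

/-- pullback of sections -/
noncomputable def PowSection.pull {X Y : Scheme.{0}} (f : Y ⟶ X) {L : LineBundle X} {m : ℕ}
    (t : L.PowSection m) : (L.pullback f).PowSection m where
  s i := f.app (L.U i) (t.s i)
  compat i j := by
    have h := congrArg (f.app (L.U i ⊓ L.U j)) (t.compat i j)
    rw [map_mul, map_pow] at h
    simp only [← ConcreteCategory.comp_apply, Scheme.Hom.naturality] at h
    exact h

theorem PowSection.pull_nonvanishingAt {X Y : Scheme.{0}} (f : Y ⟶ X) {L : LineBundle X} {m : ℕ}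
    (t : L.PowSection m) (y : Y) (h : t.NonvanishingAt (f y)) :
    (PowSection.pull f t).NonvanishingAt y := by
  obtain ⟨i, hi⟩ := h
  refine ⟨i, ?_⟩
  have h1 : y ∈ f ⁻¹ᵁ X.basicOpen (t.s i) := hi
  rw [Scheme.preimage_basicOpen] at h1
  exact h1

end LineBundle

/-- A nonempty neighbourhood of a point of `Gm` contains a point which is not a root of unity. -/
theorem exists_pt_mem (V : Gm.Opens) (b : Gm) (hb : b ∈ V) :
    ∃ c : ℂˣ, (∀ m : ℕ, 0 < m → c ^ m ≠ 1) ∧ pt c ∈ V := by
  classical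
  obtain ⟨_, ⟨f, rfl⟩, hbf, hfV⟩ :=
    PrimeSpectrum.isTopologicalBasis_basic_opens.exists_subset_of_mem_open
      (show b ∈ (V : Set Gm) from hb) V.isOpen
  have hf0 : f ≠ 0 := by
    rintro rfl
    exact (PrimeSpectrum.mem_basicOpen _ _).1 hbf (Submodule.zero_mem _)
  -- `f = p / T ^ n`
  obtain ⟨n, p, hp⟩ := LaurentPolynomial.exists_T_pow f
  have hp0 : p ≠ 0 := by
    rintro rfl
    apply hf0
    rw [map_zero] at hp
    have h1 : f * LaurentPolynomial.T (n : ℤ) * LaurentPolynomial.T (-(n : ℤ)) = 0 := by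
      rw [← hp, zero_mul]
    rw [mul_assoc, ← LaurentPolynomial.T_add, add_neg_cancel, LaurentPolynomial.T_zero,
      mul_one] at h1
    exact h1
  have hfin : (p.rootSet ℂ).Finite := Polynomial.rootSet_finite p ℂ
  obtain ⟨k, hk2, hk⟩ : ∃ k : ℕ, 2 ≤ k ∧ Polynomial.eval (k : ℂ) p ≠ 0 := by
    by_contra hcon
    push Not at hcon
    apply hp0
    apply Polynomial.eq_zero_of_infinite_isRoot
    have : Set.Infinite (Set.range fun k : ℕ => ((k + 2 : ℕ) : ℂ)) := by
      apply Set.infinite_range_of_injective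
      intro a b hab
      have : ((a + 2 : ℕ) : ℂ) = ((b + 2 : ℕ) : ℂ) := hab
      have := Nat.cast_injective this
      omega
    refine this.mono ?_
    rintro _ ⟨k, rfl⟩
    exact hcon (k + 2) (by omega)
  have hk0 : (k : ℂ) ≠ 0 := by
    have : k ≠ 0 := by omega
    exact_mod_cast this
  let c : ℂˣ := Units.mk0 (k : ℂ) hk0
  refine ⟨c, ?_, ?_⟩
  · intro m hm h
    have h1 : (k : ℂ) ^ m = 1 := by
      have := congrArg Units.val h
      simpa [c] using this
    have h2 : k ^ m = 1 := by exact_mod_cast h1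
    have h3 : 1 < k ^ m := Nat.one_lt_pow (by omega) (by omega)
    omega
  · apply hfV
    show pt c ∈ ((PrimeSpectrum.basicOpen f : TopologicalSpace.Opens _) : Set
      (PrimeSpectrum (LaurentPolynomial ℂ)))
    have hev : evalAt c f ≠ 0 := by
      intro h0
      apply hk
      have h1 := congrArg (evalAt c) hp
      rw [map_mul, h0, zero_mul] at h1
      have h2 : evalAt c (Polynomial.toLaurent p) = Polynomial.eval (k : ℂ) p := by
        unfold evalAt
        rw [LaurentPolynomial.eval₂_toLaurent]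
        simp [c]
      rw [← h2]
      exact h1
    intro hmem
    have h1 : evalAt c f ∈ (IsLocalRing.closedPoint ℂ).asIdeal := hmem
    have h2 : (IsLocalRing.closedPoint ℂ).asIdeal = ⊥ := IsLocalRing.maximalIdeal_eq_bot
    rw [h2] at h1
    exact hev (by simpa using h1)

/-- Relative semi-ampleness near a point is inherited by the fibres over the points of the
neighbourhood. -/
theorem isSemiample_fibre {X B Y Z : Scheme.{0}} (π : X ⟶ B) (L : LineBundle X) (V : B.Opens)
    (m : ℕ) (hm : 0 < m)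
    (h : ∀ x : X, π x ∈ V → ∃ (W : B.Opens) (y : (π ⁻¹ᵁ W : X.Opens)), y.1 = x ∧
      ∃ t : (L.pullback (π ⁻¹ᵁ W).ι).PowSection m, t.NonvanishingAt y)
    (j : Y ⟶ X) (r : Y ⟶ Z) (q : Z ⟶ B) (comm : j ≫ π = r ≫ q) (z : Z) (hz : ∀ z', z' = z)
    (hzV : q z ∈ V) : (L.pullback j).IsSemiample := by
  refine ⟨m, hm, fun y => ?_⟩
  have hπ : ∀ y : Y, π (j y) = q z := by
    intro y
    have h1 : (j ≫ π) y = (r ≫ q) y := by rw [comm]
    have h2 : (j ≫ π) y = π (j y) := by simp
    have h3 : (r ≫ q) y = q (r y) := by simp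
    rw [← h2, h1, h3, hz (r y)]
  obtain ⟨W, x, hx, t, ht⟩ := h (j y) (by rw [hπ]; exact hzV)
  have hW : q z ∈ W := by
    have h1 : π x.1 ∈ W := x.2
    rw [hx, hπ] at h1
    exact h1
  have hrange : Set.range j ⊆ Set.range (π ⁻¹ᵁ W).ι := by
    rw [Scheme.Opens.range_ι]
    rintro _ ⟨y', rfl⟩
    show π (j y') ∈ W
    rw [hπ]
    exact hW
  let j' : Y ⟶ (π ⁻¹ᵁ W : X.Opens) := IsOpenImmersion.lift (π ⁻¹ᵁ W).ι j hrange
  have hj' : j' ≫ (π ⁻¹ᵁ W).ι = j := IsOpenImmersion.lift_fac _ _ _
  have hj'y : j' y = x := by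
    apply (π ⁻¹ᵁ W).ι.isOpenEmbedding.injective
    have h1 : (j' ≫ (π ⁻¹ᵁ W).ι) y = (π ⁻¹ᵁ W).ι (j' y) := by simp
    rw [← h1, hj', ← hx]
    rfl
  have hL : L.pullback j = (L.pullback (π ⁻¹ᵁ W).ι).pullback j' := by
    rw [← LineBundle.pullback_comp, hj']
  rw [hL]
  exact ⟨t.pull j', t.pull_nonvanishingAt j' y (by rw [hj'y]; exact ht)⟩

/-- If the line bundle is not semi-ample on the fibres over the complex numbers which are not
roots of unity then it is not relatively semi-ample near any point of the base. -/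
theorem not_isRelSemiampleNear {X : Scheme.{0}} (π : X ⟶ Gm) (L : LineBundle X)
    (h : ∀ c : ℂˣ, (∀ m : ℕ, 0 < m → c ^ m ≠ 1) →
      ∀ (Y : Scheme.{0}) (j : Y ⟶ X) (r : Y ⟶ Spec (CommRingCat.of ℂ)),
        IsPullback j r π (ptHom c) → ¬ (L.pullback j).IsSemiample) (b : Gm) :
    ¬ IsRelSemiampleNear π L b := by
  rintro ⟨V, hb, m, hm, hV⟩
  obtain ⟨c, hc, hcV⟩ := exists_pt_mem V b hb
  have hp := IsPullback.of_hasPullback π (ptHom c)
  refine h c hc _ _ _ hp ?_
  exact isSemiample_fibre π L V m hm hV _ _ (ptHom c) hp.w (IsLocalRing.closedPoint ℂ)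
    (fun z' => Subsingleton.elim _ _) hcV

end Pool.Agent.KCY
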