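import Pool.Agent.KCY.Targets

/-!
Flatness of `PX M` over a principal ideal domain (target `T_FLAT`).
-/

open AlgebraicGeometry CategoryTheory Polynomial HomogeneousLocalization

namespace Pool.Agent.KCY

open Rees

namespace FLATProof

variable {k S : Type} [CommRing k] [CommRing S] [Algebra k S]

/-- The ring map `k → Away (gr M) f`. -/
noncomputable def sc (M : Submodule k S) (f : alg M) : k →+* Away (gr M) f :=
  (fromZeroRingHom (gr M) (Submonoid.powers f)).comp (algebraMap k (gr M 0))

theorem awayι_str (M : Submodule k S) {i : ℕ} (hi : 0 < i) (f : alg M) (hf : f ∈ gr M i) :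
    Proj.awayι (gr M) f hf hi ≫ str M = Spec.map (CommRingCat.ofHom (sc M f)) := by
  rw [str, Proj.awayι_toSpecZero_assoc, ← Spec.map_comp]
  rfl

theorem sc_val (M : Submodule k S) (f : alg M) (r : k) :
    (sc M f r).val = algebraMap (alg M) (Localization (Submonoid.powers f))
      (algebraMap k (alg M) r) := by
  have h2 : sc M f r = HomogeneousLocalization.mk
    ⟨0, algebraMap k (gr M 0) r, 1, one_mem _⟩ := rfl
  rw [h2, HomogeneousLocalization.val_mk]
  have h5 : (((algebraMap k (gr M 0) r) : gr M 0) : alg M) =
    algebraMap k (alg M) r := rfl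
  rw [h5]
  exact Localization.mk_one_eq_algebraMap _

theorem eq_zero_of_mul [IsDomain S] (M : Submodule k S)
    (hk : Function.Injective (algebraMap k S)) (f : alg M) (r : k) (x : Away (gr M) f)
    (h : sc M f r * x = 0) : r = 0 ∨ x = 0 := by
  by_cases hf : f = 0
  · right
    apply HomogeneousLocalization.val_injective
    have hs : Subsingleton (Localization (Submonoid.powers f)) := by
      exact IsLocalization.subsingleton (M := Submonoid.powers f) ⟨1, by simp [hf]⟩
    exact Subsingleton.elim _ _
  · have hM : Submonoid.powers f ≤ nonZeroDivisors (alg M) :=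
      powers_le_nonZeroDivisors_of_noZeroDivisors hf
    have hd : IsDomain (Localization (Submonoid.powers f)) :=
      IsLocalization.isDomain_localization hM
    have h1 : (sc M f r).val * x.val = 0 := by
      rw [← HomogeneousLocalization.val_mul, h, HomogeneousLocalization.val_zero]
    rw [sc_val] at h1
    rcases mul_eq_zero.mp h1 with h2 | h2
    · left
      have h3 : algebraMap k (alg M) r = 0 :=
        (injective_iff_map_eq_zero _).mp
          (IsLocalization.injective (Localization (Submonoid.powers f)) hM) _ h2
      have h4 : algebraMap k S[X] r = 0 := congrArg Subtype.val h3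
      rw [Polynomial.algebraMap_apply, Polynomial.C_eq_zero] at h4
      exact hk (h4.trans (map_zero _).symm)
    · right
      exact HomogeneousLocalization.val_injective _ (h2.trans
        HomogeneousLocalization.val_zero.symm)

theorem flat_of_torsionFree {R A : Type} [CommRing R] [IsDomain R] [IsPrincipalIdealRing R]
    [CommRing A] (φ : R →+* A) (h : ∀ r x, φ r * x = 0 → r = 0 ∨ x = 0) : φ.Flat := by
  let _ : Algebra R A := φ.toAlgebra
  have ht : Module.IsTorsionFree R A := Module.IsTorsionFree.of_smul_eq_zero fun r x hx =>
    h r x (by rwa [Algebra.smul_def] at hx)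
  have hf : Module.Flat R A := inferInstance
  exact hf

theorem appTop_flat {R A : Type} [CommRing R] [CommRing A] (φ : R →+* A) (h : φ.Flat) :
    ((Spec.map (CommRingCat.ofHom φ)).appTop.hom).Flat := by
  rw [← HasRingHomProperty.iff_of_isAffine (P := @AlgebraicGeometry.Flat),
    AlgebraicGeometry.Flat.SpecMap_iff]
  exact h

theorem chart_flat [IsDomain k] [IsPrincipalIdealRing k] [IsDomain S] (M : Submodule k S)
    (hk : Function.Injective (algebraMap k S)) {i : ℕ} (hi : 0 < i) (f : alg M)
    (hf : f ∈ gr M i) : ((Proj.awayι (gr M) f hf hi ≫ str M).appTop.hom).Flat := by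
  rw [awayι_str]
  exact appTop_flat _ (flat_of_torsionFree _ (eq_zero_of_mul M hk f))

end FLATProof

open FLATProof in
theorem tFLAT : T_FLAT := by
  intro k S _ _ _ _ _ _ M hk
  have haff : ∀ i, IsAffine ((Proj.affineOpenCover (gr M)).openCover.X i) :=
    fun i => isAffine_Spec ((Proj.affineOpenCover (gr M)).X i)
  have hY : IsAffine (Spec (CommRingCat.of k)) := isAffine_Spec _
  refine HasRingHomProperty.of_source_openCover (P := @AlgebraicGeometry.Flat)
    (Proj.affineOpenCover (gr M)).openCover ?_
  rintro ⟨i, f⟩
  exact chart_flat M hk i.pos (f : alg M) f.2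

end Pool.Agent.KCY
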