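import Pool.Agent.KCY.Targets

/-!
The function field of `PX M` (target `T_FRAC`).
-/

open AlgebraicGeometry CategoryTheory Polynomial HomogeneousLocalization

namespace Pool.Agent.KCY

open Rees

namespace FRACProof

variable {k S : Type} [CommRing k] [CommRing S] [Algebra k S] (M : Submodule k S)

instance primeInst (x : PX M) : x.asHomogeneousIdeal.toIdeal.IsPrime := x.isPrime

section

variable [IsDomain S]

/-- The zero ideal as a point of `PX M`. -/
noncomputable def zpt [Nonempty (PX M)] : PX M where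
  asHomogeneousIdeal := ⊥
  isPrime := by
    change (⊥ : Ideal (alg M)).IsPrime
    exact Ideal.isPrime_bot
  not_irrelevant_le := by
    intro h
    obtain ⟨x⟩ := ‹Nonempty (PX M)›
    exact x.not_irrelevant_le (h.trans bot_le)

theorem zpt_mem [Nonempty (PX M)] {F : alg M} (hF : F ≠ 0) :
    zpt M ∈ Proj.basicOpen (gr M) F := by
  rw [Proj.mem_basicOpen]
  intro h
  apply hF
  exact h

theorem gen_mem [IsIntegral (PX M)] {F : alg M} (hF : F ≠ 0) :
    genericPoint (PX M) ∈ Proj.basicOpen (gr M) F := by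
  have h1 := genericPoint_spec (PX M)
  have h2 : zpt M ∈ closure ({genericPoint (PX M)} : Set (PX M)) := by
    rw [h1]
    trivial
  rw [mem_closure_iff] at h2
  obtain ⟨x, hx1, hx2⟩ := h2 _ (Proj.basicOpen (gr M) F).2 (zpt_mem M hF)
  rw [Set.mem_singleton_iff] at hx2
  rw [← hx2]
  exact hx1

/-- The embedding `Frac S → Frac S[X]`. -/
noncomputable def jj (S : Type) [CommRing S] [IsDomain S] : FractionRing S →+* FractionRing S[X] :=
  IsFractionRing.lift (A := S) (K := FractionRing S)
    (g := (algebraMap S[X] (FractionRing S[X])).comp (C : S →+* S[X]))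
    ((IsFractionRing.injective S[X] (FractionRing S[X])).comp C_injective)

theorem jj_alg (s : S) : jj S (algebraMap S (FractionRing S) s) =
    algebraMap S[X] (FractionRing S[X]) (C s) :=
  IsFractionRing.lift_algebraMap _ _

/-- The map `alg M → Frac S[X]`. -/
noncomputable def aa0 : alg M →+* FractionRing S[X] :=
  (algebraMap S[X] (FractionRing S[X])).comp (alg M).val.toRingHom

omit [IsDomain S] in
theorem aa0_ne {F : alg M} (hF : F ≠ 0) : aa0 M F ≠ 0 := by
  intro h
  apply hF
  have h1 := (IsFractionRing.injective S[X] (FractionRing S[X]))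
    (h.trans (map_zero _).symm)
  exact Subtype.ext h1

theorem aa0_el (n : ℕ) (G : S) (hG : G ∈ M ^ n) : aa0 M (el M n G hG) =
    jj S (algebraMap S (FractionRing S) G) * algebraMap S[X] (FractionRing S[X]) X ^ n := by
  change algebraMap S[X] (FractionRing S[X]) (monomial n G) = _
  rw [jj_alg, ← map_pow, ← map_mul, C_mul_X_pow_eq_monomial]

theorem XX_ne : algebraMap S[X] (FractionRing S[X]) X ≠ 0 := by
  intro h
  exact X_ne_zero ((IsFractionRing.injective S[X] (FractionRing S[X]))
    (h.trans (map_zero _).symm))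

/-- The map from the localisation. -/
noncomputable def bb (P : Submonoid (alg M)) (hP : ∀ F ∈ P, F ≠ 0) :
    HomogeneousLocalization (gr M) P →+* FractionRing S[X] :=
  (IsLocalization.lift (M := P) (S := Localization P) (g := aa0 M)
    (fun F => (aa0_ne M (hP F F.2)).isUnit)).comp
    (algebraMap (HomogeneousLocalization (gr M) P) (Localization P))

theorem bb_mk (P : Submonoid (alg M)) (hP : ∀ F ∈ P, F ≠ 0) (x : HomogeneousLocalization (gr M) P)
    (a : alg M) (b : P) (hx : x.val = Localization.mk a b) :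
    bb M P hP x = aa0 M a / aa0 M b := by
  change IsLocalization.lift (M := P) (S := Localization P) (g := aa0 M)
    (fun F => (aa0_ne M (hP F F.2)).isUnit) x.val = _
  rw [hx, Localization.mk_eq_mk'_apply, IsLocalization.lift_mk'_spec,
    mul_div_cancel₀ _ (aa0_ne M (hP b b.2))]

theorem bb_range (P : Submonoid (alg M)) (hP : ∀ F ∈ P, F ≠ 0)
    (x : HomogeneousLocalization (gr M) P) : ∃ y, jj S y = bb M P hP x := by
  obtain ⟨c, rfl⟩ := HomogeneousLocalization.mk_surjective x
  refine ⟨algebraMap S (FractionRing S) (((c.num : alg M) : S[X]).coeff c.deg) /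
    algebraMap S (FractionRing S) (((c.den : alg M) : S[X]).coeff c.deg), ?_⟩
  rw [bb_mk M P hP _ _ _ (HomogeneousLocalization.val_mk c)]
  have h1 : aa0 M (c.num : alg M) = jj S (algebraMap S (FractionRing S)
      (((c.num : alg M) : S[X]).coeff c.deg)) *
        algebraMap S[X] (FractionRing S[X]) X ^ c.deg := by
    conv_lhs => rw [eq_el c.num.2]
    exact aa0_el M _ _ _
  have h2 : aa0 M (c.den : alg M) = jj S (algebraMap S (FractionRing S)
      (((c.den : alg M) : S[X]).coeff c.deg)) *
        algebraMap S[X] (FractionRing S[X]) X ^ c.deg := by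
    conv_lhs => rw [eq_el c.den.2]
    exact aa0_el M _ _ _
  rw [map_div₀]
  change _ = aa0 M (c.num : alg M) / aa0 M (c.den : alg M)
  rw [h1, h2, mul_div_mul_right _ _ (pow_ne_zero _ XX_ne)]

theorem jj_inj : Function.Injective (jj S) := (jj S).injective

/-- The map to the fraction field of `S`. -/
noncomputable def cc (P : Submonoid (alg M)) (hP : ∀ F ∈ P, F ≠ 0) :
    HomogeneousLocalization (gr M) P →+* FractionRing S where
  toFun x := (bb_range M P hP x).choose
  map_one' := jj_inj (by rw [(bb_range M P hP 1).choose_spec, map_one, map_one])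
  map_zero' := jj_inj (by rw [(bb_range M P hP 0).choose_spec, map_zero, map_zero])
  map_mul' x y := jj_inj (by
    rw [(bb_range M P hP (x * y)).choose_spec, map_mul, map_mul,
      (bb_range M P hP x).choose_spec, (bb_range M P hP y).choose_spec])
  map_add' x y := jj_inj (by
    rw [(bb_range M P hP (x + y)).choose_spec, map_add, map_add,
      (bb_range M P hP x).choose_spec, (bb_range M P hP y).choose_spec])

theorem jj_cc (P : Submonoid (alg M)) (hP : ∀ F ∈ P, F ≠ 0)
    (x : HomogeneousLocalization (gr M) P) : jj S (cc M P hP x) = bb M P hP x :=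
  (bb_range M P hP x).choose_spec

end

/-- The ring map `k → Away (gr M) f`. -/
noncomputable def sc (f : alg M) : k →+* Away (gr M) f :=
  (fromZeroRingHom (gr M) (Submonoid.powers f)).comp (algebraMap k (gr M 0))

theorem awayι_str {i : ℕ} (hi : 0 < i) (f : alg M) (hf : f ∈ gr M i) :
    Proj.awayι (gr M) f hf hi ≫ str M = Spec.map (CommRingCat.ofHom (sc M f)) := by
  rw [str, Proj.awayι_toSpecZero_assoc, ← Spec.map_comp]
  rfl

theorem ι_str {i : ℕ} (hi : 0 < i) (f : alg M) (hf : f ∈ gr M i) :
    (Proj.basicOpen (gr M) f).ι ≫ str M = (Proj.basicOpen (gr M) f).toSpecΓ ≫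
      Spec.map (CommRingCat.ofHom (sc M f) ≫ Proj.awayToSection (gr M) f) := by
  have h1 : (Proj.basicOpen (gr M) f).ι =
      (Proj.basicOpenIsoSpec (gr M) f hf hi).hom ≫ Proj.awayι (gr M) f hf hi := by
    rw [Proj.awayι, Iso.hom_inv_id_assoc]
  rw [h1, Category.assoc, awayι_str, Proj.basicOpenIsoSpec_hom, Proj.basicOpenToSpec,
    Category.assoc, ← Spec.map_comp]

theorem res_of_toSpec {X : Scheme.{0}} (U : X.Opens) {R : CommRingCat.{0}} (p : X ⟶ Spec R)
    (φ : R ⟶ Γ(X, U)) (h : U.ι ≫ p = U.toSpecΓ ≫ Spec.map φ) :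
    (Scheme.ΓSpecIso R).inv ≫ p.appTop ≫ X.presheaf.map (homOfLE (le_top : U ≤ ⊤)).op = φ := by
  have h1 := congrArg Scheme.Hom.appTop h
  rw [Scheme.Hom.comp_appTop, Scheme.Hom.comp_appTop, Scheme.Opens.toSpecΓ_appTop,
    Scheme.ΓSpecIso_naturality_assoc] at h1
  have h2 : X.presheaf.map (homOfLE (le_top : U ≤ ⊤)).op = U.ι.appTop ≫ U.topIso.hom := by
    rw [Scheme.Opens.ι_appTop, Scheme.Opens.topIso_hom]
    exact (X.presheaf.map_comp _ _)
  rw [h2, reassoc_of% h1]
  rw [Iso.inv_hom_id_assoc, Iso.inv_hom_id, Category.comp_id]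

theorem str_res {i : ℕ} (hi : 0 < i) (f : alg M) (hf : f ∈ gr M i) (c : k) :
    (PX M).presheaf.map (homOfLE (le_top : Proj.basicOpen (gr M) f ≤ ⊤)).op
      ((str M).appTop ((Scheme.ΓSpecIso (CommRingCat.of k)).inv c)) =
      (Proj.awayToSection (gr M) f).hom (sc M f c) := by
  have h1 := res_of_toSpec (Proj.basicOpen (gr M) f) (str M) _ (ι_str M hi f hf)
  exact congrArg (fun q => q.hom c) h1

theorem cc_germ [IsDomain S] [IsIntegral (PX M)]
    (hP : ∀ F ∈ (genericPoint (PX M)).asHomogeneousIdeal.toIdeal.primeCompl, F ≠ 0)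
    (f : alg M) (hU : genericPoint (PX M) ∈ Proj.basicOpen (gr M) f) (z : Away (gr M) f) :
    cc M _ hP ((Proj.stalkIso (gr M) (genericPoint (PX M))).hom
      ((PX M).presheaf.germ (Proj.basicOpen (gr M) f) (genericPoint (PX M)) hU
        ((Proj.awayToSection (gr M) f).hom z))) =
      cc M _ hP (HomogeneousLocalization.mapId (gr M) (Submonoid.powers_le.mpr hU) z) := by
  congr 1
  have h2 := ProjectiveSpectrum.Proj.awayToSection_germ (gr M) f (genericPoint (PX M)) hU
  have h3 := congrArg (fun q => q.hom z) h2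
  have h4 := congrArg (Proj.stalkIso (gr M) (genericPoint (PX M))).hom.hom h3
  refine Eq.trans h4 ?_
  exact congrArg (fun q => q.hom (HomogeneousLocalization.mapId (gr M)
    (Submonoid.powers_le.mpr hU) z)) (Proj.stalkIso (gr M) (genericPoint (PX M))).inv_hom_id

end FRACProof

open FRACProof

theorem tFRAC : T_FRAC := by
  intro k S _ _ _ _ M _
  have hP : ∀ F ∈ (genericPoint (PX M)).asHomogeneousIdeal.toIdeal.primeCompl, F ≠ 0 := by
    rintro F hF rfl
    exact hF (Ideal.zero_mem _)
  refine ⟨⟨(cc M _ hP).comp (Proj.stalkIso (gr M) (genericPoint (PX M))).hom.hom, ?_, ?_⟩⟩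
  · intro c
    obtain ⟨i, F, hi, hF, hF0⟩ : ∃ (i : ℕ) (F : alg M), 0 < i ∧ F ∈ gr M i ∧ F ≠ 0 := by
      by_contra hcon
      push Not at hcon
      obtain ⟨x⟩ := (inferInstance : Nonempty (PX M))
      apply x.not_irrelevant_le
      rw [HomogeneousIdeal.irrelevant_le]
      intro i hi F hF
      rw [hcon i F hi hF]
      exact Ideal.zero_mem _
    have hU := gen_mem M hF0
    have h0 : (PX M).presheaf.germ ⊤ (genericPoint (PX M)) trivial
        ((str M).appTop ((Scheme.ΓSpecIso (CommRingCat.of k)).inv c)) =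
        (PX M).presheaf.germ (Proj.basicOpen (gr M) F) (genericPoint (PX M)) hU
          ((Proj.awayToSection (gr M) F).hom (sc M F c)) := by
      rw [← str_res M hi F hF c]
      exact ((PX M).presheaf.germ_res_apply (homOfLE (le_top : Proj.basicOpen (gr M) F ≤ ⊤))
        (genericPoint (PX M)) hU _).symm
    apply jj_inj
    refine Eq.trans (congrArg (fun q => jj S (cc M _ hP
      ((Proj.stalkIso (gr M) (genericPoint (PX M))).hom.hom q))) h0) ?_
    refine Eq.trans (congrArg (jj S) (cc_germ M hP F hU _)) ?_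
    rw [jj_cc]
    have h1 := bb_mk M _ hP (HomogeneousLocalization.mapId (gr M) (Submonoid.powers_le.mpr hU)
      (sc M F c)) (algebraMap k (alg M) c) 1 rfl
    rw [h1, jj_alg]
    have h2 : aa0 M ((1 : (genericPoint (PX M)).asHomogeneousIdeal.toIdeal.primeCompl) :
      alg M) = 1 := map_one _
    rw [h2, div_one]
    rfl
  · intro n m hm hn hm0 j G hG hU
    apply jj_inj
    refine Eq.trans (congrArg (jj S) (cc_germ M hP (el M n m hm) hU _)) ?_
    rw [jj_cc]
    have h1 := bb_mk M _ hP (HomogeneousLocalization.mapId (gr M) (Submonoid.powers_le.mpr hU)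
      (Away.mk (gr M) (el_mem M n m hm) j (el M (j * n) G hG) (el_mem M (j * n) G hG)))
      (el M (j * n) G hG) ⟨(el M n m hm) ^ j, Submonoid.pow_mem _ hU j⟩ rfl
    rw [h1]
    change aa0 M (el M (j * n) G hG) / aa0 M ((el M n m hm) ^ j) = _
    rw [map_pow, aa0_el, aa0_el, map_div₀, map_pow, mul_pow, ← pow_mul, mul_comm n j,
      mul_div_mul_right _ _ (pow_ne_zero _ XX_ne)]

end Pool.Agent.KCY
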