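import Pool.Agent.KCY.Targets

/-!
Sections over basic opens of `PX M` are fractions (targets `T_DMUL`, `T_FSURJ`, `T_FBC`).
-/

open AlgebraicGeometry CategoryTheory Polynomial HomogeneousLocalization

namespace Pool.Agent.KCY

open Rees

namespace FRCProof

variable {k S : Type} [CommRing k] [CommRing S] [Algebra k S] (M : Submodule k S)

theorem el_mul (n n' : ℕ) (m m' : S) (hm : m ∈ M ^ n) (hm' : m' ∈ M ^ n')
    (h : m * m' ∈ M ^ (n + n')) : el M (n + n') (m * m') h = el M n m hm * el M n' m' hm' := by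
  apply Subtype.ext
  change monomial (n + n') (m * m') = monomial n m * monomial n' m'
  rw [Polynomial.monomial_mul_monomial]

theorem val_mapId (P : Submonoid (alg M)) (n : ℕ) (m : S) (hm : m ∈ M ^ n)
    (hP : Submonoid.powers (el M n m hm) ≤ P) (j : ℕ) (a : alg M) (ha : a ∈ gr M (j • n)) :
    (HomogeneousLocalization.mapId (gr M) hP (Away.mk (gr M) (el_mem M n m hm) j a ha)).val =
      Localization.mk a ⟨(el M n m hm) ^ j, hP ⟨j, rfl⟩⟩ := by
  rfl

theorem germ_unit (n : ℕ) (m : S) (hm : m ∈ M ^ n) (j : ℕ) (G : S) (hG : G ∈ M ^ (j * n))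
    (x : PX M) (hx : x ∈ dplus M n m hm) :
    IsUnit ((PX M).presheaf.germ (dplus M n m hm) x hx (frac M n m hm j G hG)) ↔
      x ∈ dplus M (j * n) G hG := by
  have : x.1.toIdeal.IsPrime := x.isPrime
  set y := (HomogeneousLocalization.mapId (gr M) (Submonoid.powers_le.mpr hx) :
    HomogeneousLocalization (gr M) (Submonoid.powers (el M n m hm)) →+*
      HomogeneousLocalization (gr M) x.1.toIdeal.primeCompl)
    (Away.mk (gr M) (el_mem M n m hm) j (el M (j * n) G hG) (el_mem M (j * n) G hG)) with hy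
  have h1 : (PX M).presheaf.germ (dplus M n m hm) x hx (frac M n m hm j G hG) =
      (Proj.stalkIso (gr M) x).inv.hom y := by
    have h2 := ProjectiveSpectrum.Proj.awayToSection_germ (gr M) (el M n m hm) x hx
    have h3 := congrArg (fun q => q.hom
      (Away.mk (gr M) (el_mem M n m hm) j (el M (j * n) G hG) (el_mem M (j * n) G hG))) h2
    exact h3
  rw [h1]
  have h4 : IsUnit ((Proj.stalkIso (gr M) x).inv.hom y) ↔ IsUnit y :=
    MulEquiv.isUnit_map (Proj.stalkIso (gr M) x).symm.commRingCatIsoToRingEquiv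
  rw [h4, ← HomogeneousLocalization.isUnit_iff_isUnit_val]
  have h5 : y.val = IsLocalization.mk' (Localization x.1.toIdeal.primeCompl) (el M (j * n) G hG)
      ⟨(el M n m hm) ^ j, Submonoid.pow_mem _
        (show el M n m hm ∈ x.1.toIdeal.primeCompl from hx) j⟩ := by
    have h6 := val_mapId M x.1.toIdeal.primeCompl n m hm (Submonoid.powers_le.mpr hx) j
      (el M (j * n) G hG) (el_mem M (j * n) G hG)
    exact h6.trans (Localization.mk_eq_mk'_apply _ _)
  rw [h5, IsLocalization.AtPrime.isUnit_mk'_iff (Localization x.1.toIdeal.primeCompl)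
    x.1.toIdeal]
  rfl

end FRCProof

open FRCProof

theorem tDMUL : T_DMUL := by
  intro k S _ _ _ M n n' m m' hm hm' h
  rw [dplus, dplus, dplus, el_mul M n n' m m' hm hm' h, Proj.basicOpen_mul]

theorem tFSURJ : T_FSURJ := by
  intro k S _ _ _ M n m hm hn
  refine ⟨fun s => ?_, fun j G hG => ?_⟩
  · obtain ⟨j, a, ha, e1⟩ := Away.mk_surjective (gr M) (el_mem M n m hm)
      ((Proj.basicOpenIsoAway (gr M) (el M n m hm) (el_mem M n m hm) hn).inv.hom s)
    refine ⟨j, (a : S[X]).coeff (j * n), a.2 (j * n), ?_⟩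
    have h1 : s = (Proj.basicOpenIsoAway (gr M) (el M n m hm) (el_mem M n m hm) hn).hom.hom
        (Away.mk (gr M) (el_mem M n m hm) j a ha) := by
      rw [e1]
      have := congrArg (fun q => q.hom s)
        (Proj.basicOpenIsoAway (gr M) (el M n m hm) (el_mem M n m hm) hn).inv_hom_id
      exact this.symm
    rw [h1, frac, Proj.basicOpenIsoAway_hom]
    congr 2
    exact eq_el ha
  · ext x
    constructor
    · intro hx
      have h1 : x ∈ dplus M n m hm := (PX M).basicOpen_le _ hx
      refine ⟨h1, ?_⟩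
      have h2 := ((PX M).mem_basicOpen _ x h1).mp hx
      exact (germ_unit M n m hm j G hG x h1).mp h2
    · intro hx
      exact ((PX M).mem_basicOpen _ x hx.1).mpr ((germ_unit M n m hm j G hG x hx.1).mpr hx.2)

theorem FRCProof.sec_congr {k S : Type} [CommRing k] [CommRing S] [Algebra k S]
    (M : Submodule k S) {f f' : alg M} (hff : f = f') {n : ℕ} (hf : f ∈ gr M n)
    (hf' : f' ∈ gr M n) (j : ℕ) {a a' : alg M} (haa : a = a') (ha : a ∈ gr M (j • n))
    (ha' : a' ∈ gr M (j • n)) (hle : Proj.basicOpen (gr M) f ≤ Proj.basicOpen (gr M) f') :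
    (Proj.awayToSection (gr M) f).hom (Away.mk (gr M) hf j a ha) =
      (PX M).presheaf.map (homOfLE hle).op
        ((Proj.awayToSection (gr M) f').hom (Away.mk (gr M) hf' j a' ha')) := by
  subst hff
  subst haa
  have h1 : (homOfLE hle).op = 𝟙 _ := rfl
  rw [h1, (PX M).presheaf.map_id]
  rfl

theorem tFBC : T_FBC := by
  intro k S k' S' _ _ _ _ _ _ e σ M M' h n m hm j G hG
  have h1 := Proj.awayToSection_comp_appLE (bcHom h) (bcHom_irrelevant h)
    (hs := el_mem M n m hm)
  have h2 := congrArg (fun q => q.hom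
      (Away.mk (gr M) (el_mem M n m hm) j (el M (j * n) G hG) (el_mem M (j * n) G hG))) h1
  have h4 : Scheme.Hom.appLE (Proj.map (bcHom h) (bcHom_irrelevant h))
      (Proj.basicOpen (gr M) (el M n m hm)) (Proj.basicOpen (gr M') (bcHom h (el M n m hm)))
      (by rfl) = (bcMap h).app (dplus M n m hm) := by
    exact (Scheme.Hom.app_eq_appLE (Proj.map (bcHom h) (bcHom_irrelevant h))).symm
  rw [h4] at h2
  have h3 := sec_congr M' (bcHom_el h n m hm) ((bcHom h).map_mem (el_mem M n m hm))
    (el_mem M' n (σ m) (h.map_mem_pow n hm)) j (bcHom_el h (j * n) G hG)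
    ((bcHom h).map_mem (el_mem M (j * n) G hG))
    (el_mem M' (j * n) (σ G) (h.map_mem_pow (j * n) hG)) (bc_preimage h n m hm).le
  refine Eq.trans ?_ h3
  refine Eq.trans h2 ?_
  exact congrArg (Proj.awayToSection (gr M') (bcHom h (el M n m hm))).hom
    (Away.map_mk (bcHom h) _ _ _ _ _)

theorem tFRC : T_DMUL ∧ T_FSURJ ∧ T_FBC := ⟨tDMUL, tFSURJ, tFBC⟩

end Pool.Agent.KCY
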