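import Pool.Agent.KCY.Targets

/-!
`PX M` is integral, for a nonzero submodule `M` of a domain.
-/

open AlgebraicGeometry CategoryTheory Polynomial

namespace Pool.Agent.KCY

open Rees

namespace IntPf

variable {k S : Type} [CommRing k] [CommRing S] [Algebra k S] [IsDomain S] (M : Submodule k S)

/-- The zero ideal, as a point of `PX M`. -/
noncomputable def zeroPt (hM : M ≠ ⊥) : PX M :=
  { asHomogeneousIdeal := ⊥
    isPrime := by
      rw [HomogeneousIdeal.toIdeal_bot]
      exact Ideal.isPrime_bot
    not_irrelevant_le := by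
      intro h
      obtain ⟨m, hm, hm0⟩ := (Submodule.ne_bot_iff M).mp hM
      have h1 : m ∈ M ^ 1 := by rw [pow_one]; exact hm
      have h2 : el M 1 m h1 ∈ HomogeneousIdeal.irrelevant (gr M) := by
        rw [HomogeneousIdeal.mem_irrelevant_iff]
        change (DirectSum.decompose (gr M) (el M 1 m h1) 0 : alg M) = 0
        exact DirectSum.decompose_of_mem_ne (gr M) (el_mem M 1 m h1) one_ne_zero
      have h3 := h h2
      have h4 : el M 1 m h1 = 0 := by
        have : el M 1 m h1 ∈ (⊥ : HomogeneousIdeal (gr M)).toIdeal := h3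
        rw [HomogeneousIdeal.toIdeal_bot] at this
        exact this
      have h5 := congrArg (fun F : alg M => (F : S[X]).coeff 1) h4
      simp only [coe_el, Polynomial.coeff_monomial, if_true] at h5
      exact hm0 (by simpa using h5) }

theorem zeroPt_mem (hM : M ≠ ⊥) (U : (PX M).Opens) (x : PX M) (hx : x ∈ U) :
    zeroPt M hM ∈ U := by
  obtain ⟨_, ⟨_, ⟨f, rfl⟩, rfl⟩, hxf, hfU⟩ :=
    (Proj.isBasis_basicOpen (gr M)).exists_subset_of_mem_open hx U.2
  apply hfU
  change f ∉ (⊥ : HomogeneousIdeal (gr M))
  intro h0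
  apply hxf
  have h1 : f ∈ (⊥ : HomogeneousIdeal (gr M)).toIdeal := h0
  rw [HomogeneousIdeal.toIdeal_bot] at h1
  have h2 : f = 0 := h1
  rw [h2]
  exact zero_mem _

theorem irred (hM : M ≠ ⊥) : IrreducibleSpace (PX M) := by
  have : Nonempty (PX M) := ⟨zeroPt M hM⟩
  have : PreirreducibleSpace (PX M) := by
    refine ⟨?_⟩
    rintro U V hU hV ⟨x, -, hx⟩ ⟨y, -, hy⟩
    exact ⟨zeroPt M hM, trivial, zeroPt_mem M hM ⟨U, hU⟩ x hx, zeroPt_mem M hM ⟨V, hV⟩ y hy⟩
  exact ⟨inferInstance⟩

theorem red : IsReduced (PX M) := by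
  have : ∀ x : PX M, _root_.IsReduced ((PX M).presheaf.stalk x) := by
    intro x
    have e := (Proj.stalkIso (gr M) x).commRingCatIsoToRingEquiv
    have hp : x.asHomogeneousIdeal.toIdeal.IsPrime := x.isPrime
    have h1 : IsDomain (Localization.AtPrime x.asHomogeneousIdeal.toIdeal) :=
      IsLocalization.isDomain_localization (Ideal.primeCompl_le_nonZeroDivisors _)
    have h2 : _root_.IsReduced
        (HomogeneousLocalization.AtPrime (gr M) x.asHomogeneousIdeal.toIdeal) := by
      refine ⟨fun a ha => ?_⟩
      obtain ⟨n, hn⟩ := ha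
      apply HomogeneousLocalization.val_injective
      rw [HomogeneousLocalization.val_zero]
      have h4 := congrArg HomogeneousLocalization.val hn
      rw [HomogeneousLocalization.val_pow, HomogeneousLocalization.val_zero] at h4
      exact eq_zero_of_pow_eq_zero h4
    have h3 : _root_.IsReduced (CommRingCat.of
        (HomogeneousLocalization.AtPrime (gr M) x.asHomogeneousIdeal.toIdeal)) := h2
    exact isReduced_of_injective e.toRingHom e.injective
  exact isReduced_of_isReduced_stalk _

end IntPf

theorem tINT : T_INT := by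
  intro k S _ _ _ _ M hM
  have := IntPf.irred M hM
  have := IntPf.red M
  exact isIntegral_of_irreducibleSpace_of_isReduced _

end Pool.Agent.KCY
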