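import Pool.Agent.KCY.Targets
import Pool.Agent.KCY.ORDER

set_option autoImplicit false
set_option maxHeartbeats 4000000

open AlgebraicGeometry CategoryTheory Polynomial

namespace Pool.Agent.KCY

open Rees

theorem ac_injective : Function.Injective ac := by
  intro i j h
  have h1 : ((aa i : ℤ) : ℂ) = ((aa j : ℤ) : ℂ) := h
  have h2 : aa i = aa j := by exact_mod_cast h1
  revert h2
  unfold aa
  fin_cases i <;> fin_cases j <;> simp

theorem aeval_prodP {K : Type} [Field K] [Algebra ℂ K] (a : Fin 4 → ℂ) (x : K) :
    aeval x (prodP a) = ORD.pr a x := by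
  unfold prodP ORD.pr
  rw [map_prod]
  refine Finset.prod_congr rfl fun i _ => ?_
  rw [map_sub, aeval_X, aeval_C]

/-- The discrepancy bound, without any hypothesis. -/
theorem tKLT2 : T_KLT2 := by
  intro K _ _ x y _ O hC hO
  rw [aeval_prodP, aeval_prodP]
  exact ORD.orderGE hC hO ac ac ac_injective ac_injective x y

end Pool.Agent.KCY
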