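import Pool.Agent.KCY.Targets

/-!
The line bundle with given local equations.
-/

open AlgebraicGeometry CategoryTheory Polynomial

namespace Pool.Agent.KCY

open Rees

namespace LBPf

variable {k S : Type} [CommRing k] [CommRing S] [Algebra k S] [IsDomain S] {M : Submodule k S}
  [IsIntegral (PX M)]

/-- Sections with the same value in the fraction field are equal. -/
theorem sec_ext (Φ : FracHom M) (W : (PX M).Opens) (s t : Γ(PX M, W))
    (h : ∀ hg : genericPoint (PX M) ∈ W,
      Φ.ψ ((PX M).presheaf.germ W (genericPoint (PX M)) hg s) =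
        Φ.ψ ((PX M).presheaf.germ W (genericPoint (PX M)) hg t)) : s = t := by
  by_cases hg : genericPoint (PX M) ∈ W
  · exact germ_injective_of_isIntegral (X := PX M) (genericPoint (PX M)) hg
      (Φ.ψ.injective (h hg))
  · refine TopCat.Presheaf.section_ext (PX M).sheaf W s t fun x hx => ?_
    exact absurd (((genericPoint_spec (PX M)).mem_open_set_iff W.isOpen).2 ⟨x, trivial, hx⟩) hg

omit [IsIntegral (PX M)] in
theorem phi_ne {D : LBData M} (hD : D.Good) (i : D.ι) : D.φ i ≠ 0 := by
  unfold LBData.φ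
  have h := IsFractionRing.injective S (FractionRing S)
  apply div_ne_zero
  · rw [map_ne_zero_iff _ h]; exact hD.num_ne i
  · rw [map_ne_zero_iff _ h]; exact hD.den_ne i

theorem exists_g (hDM : T_DMUL) (D : LBData M) (Φ : FracHom M) (hD : D.Good) (i j : D.ι) :
    ∃ g : Γ(PX M, D.V i ⊓ D.V j), ∀ hg : genericPoint (PX M) ∈ D.V i ⊓ D.V j,
      Φ.ψ ((PX M).presheaf.germ _ (genericPoint (PX M)) hg g) = D.φ i / D.φ j := by
  obtain ⟨r, N, hN, hE⟩ := hD.coc i j
  have hmm : D.m i * D.m j ∈ M ^ (1 + 1) := by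
    rw [pow_add]
    exact Submodule.mul_mem_mul (D.mem i) (D.mem j)
  have hop := hDM k S M 1 1 (D.m i) (D.m j) (D.mem i) (D.mem j) hmm
  have hle : D.V i ⊓ D.V j ≤ dplus M (1 + 1) (D.m i * D.m j) hmm := hop.ge
  refine ⟨(PX M).presheaf.map (homOfLE hle).op (frac M (1 + 1) (D.m i * D.m j) hmm r N hN), ?_⟩
  intro hg
  have hg2 : genericPoint (PX M) ∈ dplus M (1 + 1) (D.m i * D.m j) hmm := hle hg
  have hne : D.m i * D.m j ≠ 0 := mul_ne_zero (hD.m_ne i) (hD.m_ne j)
  rw [TopCat.Presheaf.germ_res_apply]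
  rw [Φ.eval (1 + 1) (D.m i * D.m j) hmm (by norm_num) hne r N hN hg2]
  have hinj := IsFractionRing.injective S (FractionRing S)
  have h1 : algebraMap S (FractionRing S) (D.m i * D.m j) ≠ 0 := by
    rw [map_ne_zero_iff _ hinj]; exact hne
  have h2 : algebraMap S (FractionRing S) (D.num j) ≠ 0 := by
    rw [map_ne_zero_iff _ hinj]; exact hD.num_ne j
  have h3 : algebraMap S (FractionRing S) (D.den i) ≠ 0 := by
    rw [map_ne_zero_iff _ hinj]; exact hD.den_ne i
  have h4 : algebraMap S (FractionRing S) (D.den j) ≠ 0 := by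
    rw [map_ne_zero_iff _ hinj]; exact hD.den_ne j
  have h5 := congrArg (algebraMap S (FractionRing S)) hE
  rw [map_mul, map_mul, map_mul, map_mul, map_pow] at h5
  unfold LBData.φ
  rw [div_div_div_eq, div_eq_div_iff (pow_ne_zero r h1) (mul_ne_zero h3 h2)]
  linear_combination h5

end LBPf

theorem tLB : T_DMUL → T_LB := by
  intro hDM k S _ _ _ _ M _ D Φ hD
  choose g hgv using LBPf.exists_g hDM D Φ hD
  refine ⟨{ ι := D.ι, U := D.V, cover := hD.cover, g := g, g_self := ?_, cocycle := ?_ },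
    Equiv.refl _, fun i => rfl, fun i j h => hgv i j h⟩
  · intro i
    apply LBPf.sec_ext Φ
    intro hg
    rw [hgv i i hg, map_one, map_one, div_self (LBPf.phi_ne hD i)]
  · intro i j l
    apply LBPf.sec_ext Φ
    intro hg
    rw [map_mul, map_mul, TopCat.Presheaf.germ_res_apply, TopCat.Presheaf.germ_res_apply,
      TopCat.Presheaf.germ_res_apply, hgv, hgv, hgv, div_mul_div_cancel₀ (LBPf.phi_ne hD j)]

end Pool.Agent.KCY
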