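import Pool.Agent.KCY.Targets

/-!
The pullback of a line bundle given by fractions under base change (target `T_LBBC`).
-/

open AlgebraicGeometry CategoryTheory Polynomial

namespace Pool.Agent.KCY

open Rees

namespace LBBCProof

/-- The generic point lies in every nonempty open set. -/
theorem generic_mem {X : Scheme.{0}} [IsIntegral X] (U : X.Opens) {x : X} (hx : x ∈ U) :
    genericPoint X ∈ U :=
  ((genericPoint_spec X).mem_open_set_iff U.isOpen).mpr (by
    rw [Set.univ_inter]
    exact ⟨x, hx⟩)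

variable {k S k' S' : Type} [CommRing k] [CommRing S] [Algebra k S] [CommRing k'] [CommRing S']
    [Algebra k' S'] [IsDomain S] [IsDomain S'] {e : k →+* k'} {σ : S →+* S'} {M : Submodule k S}
    {M' : Submodule k' S'} [IsIntegral (PX M)] [IsIntegral (PX M')]

/-- The value of the pullback of a function. -/
theorem key (hFS : T_FSURJ) (hFB : T_FBC) (h : IsBC e σ M M') (Φ : FracHom M) (Φ' : FracHom M')
    (n : ℕ) (hn : 0 < n) (m : S) (hm : m ∈ M ^ n) (hm0 : m ≠ 0) (hs0 : σ m ≠ 0)
    (W : (PX M).Opens) (hW : W = dplus M n m hm) (s : Γ(PX M, W))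
    (hg : genericPoint (PX M) ∈ W) (hg' : genericPoint (PX M') ∈ bcMap h ⁻¹ᵁ W) :
    ∃ (r : ℕ) (G : S),
      Φ.ψ ((PX M).presheaf.germ W (genericPoint (PX M)) hg s) =
        algebraMap S (FractionRing S) G / algebraMap S (FractionRing S) m ^ r ∧
      Φ'.ψ ((PX M').presheaf.germ (bcMap h ⁻¹ᵁ W) (genericPoint (PX M')) hg'
        ((bcMap h).app W s)) =
        algebraMap S' (FractionRing S') (σ G) / algebraMap S' (FractionRing S') (σ m) ^ r := by
  subst hW
  obtain ⟨r, G, hG, rfl⟩ := (hFS k S M n m hm hn).1 s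
  refine ⟨r, G, Φ.eval n m hm hn hm0 r G hG hg, ?_⟩
  rw [hFB k S k' S' e σ M M' h n m hm r G hG]
  have hg2 : genericPoint (PX M') ∈ dplus M' n (σ m) (h.map_mem_pow n hm) := by
    rw [← bc_preimage h n m hm]
    exact hg'
  have h3 := Φ'.eval n (σ m) (h.map_mem_pow n hm) hn hs0 r (σ G) (h.map_mem_pow (r * n) hG) hg2
  rw [← h3]
  congr 1
  exact TopCat.Presheaf.germ_res_apply (PX M').presheaf
    (homOfLE (bc_preimage h n m hm).le) (genericPoint (PX M')) hg' _

end LBBCProof

open LBBCProof in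
theorem tLBBC : T_FSURJ → T_FBC → T_DMUL → T_LBBC := by
  intro hFS hFB hDM k S k' S' _ _ _ _ _ _ _ _ e σ M M' _ _ h D Φ Φ' L hD hm hnum hden hR
  obtain ⟨e0, hU, hg⟩ := hR
  refine ⟨e0, fun (i : D.ι) => ?_, fun (i : D.ι) (j : D.ι) hgen => ?_⟩
  · exact (congrArg (fun W => bcMap h ⁻¹ᵁ W) (hU i)).trans (bc_preimage h 1 (D.m i) (D.mem i))
  · have hmm : D.m i * D.m j ∈ M ^ (1 + 1) := by
      rw [pow_add]
      exact Submodule.mul_mem_mul (D.mem i) (D.mem j)
    have hW : L.U (e0 i) ⊓ L.U (e0 j) = dplus M (1 + 1) (D.m i * D.m j) hmm := by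
      rw [hU, hU]
      exact (hDM k S M 1 1 _ _ (D.mem i) (D.mem j) hmm).symm
    have hgM : genericPoint (PX M) ∈ L.U (e0 i) ⊓ L.U (e0 j) := generic_mem _ hgen
    obtain ⟨r, G, e1, e2⟩ := key hFS hFB h Φ Φ' (1 + 1) (by norm_num) (D.m i * D.m j) hmm
      (mul_ne_zero (hD.m_ne i) (hD.m_ne j)) (by rw [map_mul]; exact mul_ne_zero (hm i) (hm j))
      _ hW (L.g (e0 i) (e0 j)) hgM hgen
    rw [hg i j hgM] at e1
    refine Eq.trans e2 ?_
    have inj := IsFractionRing.injective S (FractionRing S)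
    have inj' := IsFractionRing.injective S' (FractionRing S')
    have ne : ∀ {x : S}, x ≠ 0 → algebraMap S (FractionRing S) x ≠ 0 := fun hx h0 =>
      hx (inj (by rw [h0, map_zero]))
    have ne' : ∀ {x : S'}, x ≠ 0 → algebraMap S' (FractionRing S') x ≠ 0 := fun hx h0 =>
      hx (inj' (by rw [h0, map_zero]))
    have a1 := ne (hD.m_ne i)
    have a2 := ne (hD.m_ne j)
    have a3 := ne (hD.num_ne i)
    have a4 := ne (hD.num_ne j)
    have a5 := ne (hD.den_ne i)
    have a6 := ne (hD.den_ne j)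
    have b1 := ne' (hm i)
    have b2 := ne' (hm j)
    have b3 := ne' (hnum i)
    have b4 := ne' (hnum j)
    have b5 := ne' (hden i)
    have b6 := ne' (hden j)
    have e3 : G * (D.num j * D.den i) = (D.m i * D.m j) ^ r * (D.num i * D.den j) := by
      apply inj
      rw [LBData.φ, LBData.φ, map_mul] at e1
      rw [map_mul, map_mul, map_mul, map_mul, map_pow, map_mul]
      rw [div_div_div_eq, div_eq_div_iff (mul_ne_zero a5 a4) (pow_ne_zero _ (mul_ne_zero a1 a2))]
        at e1
      linear_combination -e1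
    have e4 := congrArg σ e3
    have e5 := congrArg (algebraMap S' (FractionRing S')) e4
    change _ = (algebraMap S' (FractionRing S') (σ (D.num i)) /
      algebraMap S' (FractionRing S') (σ (D.den i))) /
      (algebraMap S' (FractionRing S') (σ (D.num j)) /
      algebraMap S' (FractionRing S') (σ (D.den j)))
    simp only [map_mul, map_pow] at e5 ⊢
    rw [div_div_div_eq, div_eq_div_iff (pow_ne_zero _ (mul_ne_zero b1 b2)) (mul_ne_zero b5 b4)]
    linear_combination e5

end Pool.Agent.KCY
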