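import Pool.Agent.KCY.Targets

/-!
Coordinates on the function field of the central fibre and its chart rings.
-/

open AlgebraicGeometry CategoryTheory Polynomial

namespace Pool.Agent.KCY

open Rees

namespace ModelPf

/-! ### Transport along a homomorphism of fields -/

section Transport

variable {K F : Type} [Field K] [Algebra ℂ K] [Field F] [Algebra ℂ F]

theorem coord_of_map (ψ : K →ₐ[ℂ] F) {u v : K} (h : Coord F (ψ u) (ψ v)) : Coord K u v := by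
  have e1 : (⇑ψ ∘ ![u, v] : Fin 2 → F) = ![ψ u, ψ v] := by
    ext i
    fin_cases i <;> rfl
  have e2 : ∀ p : MvPolynomial (Fin 2) ℂ,
      ψ (MvPolynomial.aeval ![u, v] p) = MvPolynomial.aeval ![ψ u, ψ v] p := by
    intro p
    rw [← e1]
    exact MvPolynomial.comp_aeval_apply _ ψ p
  refine ⟨?_, ?_⟩
  · have h1 := h.1
    rw [← e1] at h1
    exact AlgebraicIndependent.of_comp ψ h1
  · intro z
    obtain ⟨p, q, hq, hz⟩ := h.2 (ψ z)
    refine ⟨p, q, ?_, ?_⟩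
    · intro h0
      apply hq
      rw [← e2, h0, map_zero]
    · apply ψ.toRingHom.injective
      change ψ z = ψ (_ / _)
      rw [map_div₀, e2, e2]
      exact hz

theorem mem_Bring_map (ψ : K →ₐ[ℂ] F) (u v : K) (a : Fin 4 → ℂ) (Q : ℂ[X]) (z : K) :
    z ∈ Bring u v a Q ↔ ψ z ∈ Bring (ψ u) (ψ v) a Q := by
  have e : Bring (ψ u) (ψ v) a Q = (Bring u v a Q).map ψ := by
    rw [Bring, Bring, AlgHom.map_adjoin]
    congr 1
    rw [Set.image_union, Set.image_singleton, ← Set.range_comp]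
    congr 2
    ext i
    simp only [Function.comp_apply, map_div₀, map_sub, AlgHom.commutes,
      Polynomial.aeval_algHom_apply]
  rw [e]
  constructor
  · intro h
    exact Subalgebra.mem_map.mpr ⟨z, h, rfl⟩
  · intro h
    obtain ⟨w, hw, hwz⟩ := Subalgebra.mem_map.mp h
    have : w = z := ψ.toRingHom.injective hwz
    rw [← this]
    exact hw

end Transport

/-! ### The generic point -/

section Generic

variable {k S : Type} [CommRing k] [CommRing S] [Algebra k S] [IsDomain S] (M : Submodule k S)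

omit [IsDomain S] in
theorem el_ne_zero (n : ℕ) (m : S) (h : m ∈ M ^ n) (h0 : m ≠ 0) : el M n m h ≠ 0 := by
  intro h4
  have h5 := congrArg (fun F : alg M => (F : S[X]).coeff n) h4
  simp only [coe_el, Polynomial.coeff_monomial, if_true] at h5
  exact h0 (by simpa using h5)

/-- The zero ideal, as a point of `PX M`. -/
noncomputable def zeroPt (m : S) (h1 : m ∈ M ^ 1) (hm0 : m ≠ 0) : PX M :=
  { asHomogeneousIdeal := ⊥
    isPrime := by
      rw [HomogeneousIdeal.toIdeal_bot]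
      exact Ideal.isPrime_bot
    not_irrelevant_le := by
      intro h
      have h2 : el M 1 m h1 ∈ HomogeneousIdeal.irrelevant (gr M) := by
        rw [HomogeneousIdeal.mem_irrelevant_iff]
        change (DirectSum.decompose (gr M) (el M 1 m h1) 0 : alg M) = 0
        exact DirectSum.decompose_of_mem_ne (gr M) (el_mem M 1 m h1) one_ne_zero
      have h3 := h h2
      have h4 : el M 1 m h1 = 0 := by
        have : el M 1 m h1 ∈ (⊥ : HomogeneousIdeal (gr M)).toIdeal := h3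
        rw [HomogeneousIdeal.toIdeal_bot] at this
        exact this
      exact el_ne_zero M 1 m h1 hm0 h4 }

theorem genericPoint_mem [IsIntegral (PX M)] (m : S) (h1 : m ∈ M ^ 1) (hm0 : m ≠ 0) :
    genericPoint (PX M) ∈ dplus M 1 m h1 := by
  have hz : zeroPt M m h1 hm0 ∈ dplus M 1 m h1 := by
    change el M 1 m h1 ∉ (⊥ : HomogeneousIdeal (gr M)).toIdeal
    rw [HomogeneousIdeal.toIdeal_bot]
    exact el_ne_zero M 1 m h1 hm0
  exact ((genericPoint_spec (PX M)).mem_open_set_iff (dplus M 1 m h1).2).mpr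
    ⟨zeroPt M m h1 hm0, trivial, hz⟩

omit [IsDomain S] in
theorem affine (m : S) (h1 : m ∈ M ^ 1) : IsAffineOpen (dplus M 1 m h1) :=
  Proj.isAffineOpen_basicOpen (gr M) (el M 1 m h1) (el_mem M 1 m h1) one_pos

theorem mem_funRing [IsIntegral (PX M)] (hS : T_FSURJ) (Φ : FracHom M) (m : S) (h1 : m ∈ M ^ 1)
    (hm0 : m ≠ 0) (hU : genericPoint (PX M) ∈ dplus M 1 m h1) (z : (PX M).functionField) :
    z ∈ funRing (PX M) (dplus M 1 m h1) hU ↔
      ∃ (r : ℕ) (N : S), N ∈ M ^ r ∧ Φ.ψ z = algebraMap S (FractionRing S) N /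
        algebraMap S (FractionRing S) m ^ r := by
  constructor
  · rintro ⟨s, rfl⟩
    obtain ⟨j, G, hG, rfl⟩ := (hS k S M 1 m h1 one_pos).1 s
    refine ⟨j, G, ?_, ?_⟩
    · simpa using hG
    · exact Φ.eval 1 m h1 one_pos hm0 j G hG hU
  · rintro ⟨r, N, hN, hz⟩
    have hN' : N ∈ M ^ (r * 1) := by simpa using hN
    refine ⟨frac M 1 m h1 r N hN', ?_⟩
    apply Φ.ψ.injective
    rw [hz]
    exact Φ.eval 1 m h1 one_pos hm0 r N hN' hU

end Generic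

end ModelPf

open ModelPf in
theorem tMODEL : T_FRAC → T_FSURJ → T_INT → T_NZ → T_CHART → T_COVER3 → T_MODEL := by
  intro hFRAC hFSURJ hINT hNZ hCHART hCOVER3
  have hP : PP4 ℂ ≠ 0 := by
    have h := (hNZ ℂ (1 : ℂ) 0).1
    exact left_ne_zero_of_mul (show PP4 ℂ * Vy ℂ ^ 2 ≠ 0 from h)
  have hV : Vy ℂ ≠ 0 := by
    have h := (hNZ ℂ (1 : ℂ) 0).1
    have h2 := right_ne_zero_of_mul (show PP4 ℂ * Vy ℂ ^ 2 ≠ 0 from h)
    intro h3
    apply h2
    rw [h3]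
    simp
  have hU : Uy ℂ ≠ 0 := by
    have h := (hNZ ℂ (1 : ℂ) 1).1
    have h2 := right_ne_zero_of_mul (show PP4 ℂ * (Ul (1 : ℂ) * Uy ℂ) ≠ 0 from h)
    exact right_ne_zero_of_mul h2
  obtain ⟨hcoord, hc1, hc2, hc3, hm1, hm2, hm3⟩ := hCHART _ _ rfl rfl
  have hm20 : PP4 ℂ * yy ℂ ^ 4 ≠ 0 := mul_ne_zero hP (pow_ne_zero _ (MvPolynomial.X_ne_zero _))
  have hm30 : Uy ℂ * Vy ℂ ≠ 0 := mul_ne_zero hU hV
  have hbot : MM (1 : ℂ) ≠ ⊥ := by
    intro h
    have h2 : PP4 ℂ ∈ MM (1 : ℂ) := by simpa using hm1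
    rw [h] at h2
    exact hP ((Submodule.mem_bot _).mp h2)
  have hInt : IsIntegral (PX (MM (1 : ℂ))) := hINT ℂ (Sk ℂ) (MM (1 : ℂ)) hbot
  obtain ⟨Φ⟩ := hFRAC ℂ (Sk ℂ) (MM (1 : ℂ))
  refine ⟨hInt, ?_⟩
  let _ : Algebra ℂ (PX (MM (1 : ℂ))).functionField := ffAlgebra (str (MM (1 : ℂ)))
  let ψ : (PX (MM (1 : ℂ))).functionField →ₐ[ℂ] FractionRing (Sk ℂ) :=
    { Φ.ψ with
      commutes' := by
        intro c
        rw [IsScalarTower.algebraMap_apply ℂ (Sk ℂ) (FractionRing (Sk ℂ))]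
        exact Φ.base c }
  have hψ : ∀ z, ψ z = Φ.ψ z := fun z => rfl
  have g1 := genericPoint_mem (MM (1 : ℂ)) (PP4 ℂ) hm1 hP
  have g2 := genericPoint_mem (MM (1 : ℂ)) (PP4 ℂ * yy ℂ ^ 4) hm2 hm20
  have g3 := genericPoint_mem (MM (1 : ℂ)) (Uy ℂ * Vy ℂ) hm3 hm30
  -- the coordinate `y`
  obtain ⟨y, hy⟩ : ∃ y : (PX (MM (1 : ℂ))).functionField,
      ψ y = algebraMap (Sk ℂ) (FractionRing (Sk ℂ)) (yy ℂ) := by
    have hG : ww ℂ 1 ∈ MM (1 : ℂ) ^ (1 * 1) := by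
      rw [one_mul, pow_one]
      exact ww_mem 1 1
    refine ⟨(PX (MM (1 : ℂ))).presheaf.germ (dplus (MM (1 : ℂ)) 1 (PP4 ℂ) hm1)
      (genericPoint (PX (MM (1 : ℂ)))) g1 (frac (MM (1 : ℂ)) 1 (PP4 ℂ) hm1 1 (ww ℂ 1) hG), ?_⟩
    rw [hψ, Φ.eval 1 (PP4 ℂ) hm1 one_pos hP 1 (ww ℂ 1) hG g1, pow_one, div_eq_iff, ← map_mul]
    · congr 1
      simp only [ww]
      norm_num
      ring
    · exact (map_ne_zero_iff _ (IsFractionRing.injective (Sk ℂ) (FractionRing (Sk ℂ)))).mpr hP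
  -- the coordinate `x`
  obtain ⟨x, hx⟩ : ∃ x : (PX (MM (1 : ℂ))).functionField,
      ψ x = algebraMap (Sk ℂ) (FractionRing (Sk ℂ)) (xx ℂ) := by
    have h1 : algebraMap (Sk ℂ) (FractionRing (Sk ℂ)) (xx ℂ) ∈
        Bring (algebraMap (Sk ℂ) (FractionRing (Sk ℂ)) (yy ℂ))
          (algebraMap (Sk ℂ) (FractionRing (Sk ℂ)) (xx ℂ)) ac (prodP ac) :=
      Algebra.subset_adjoin (Or.inl rfl)
    obtain ⟨r, N, hN, hxN⟩ := (hc3 _).mp h1
    have hN' : N ∈ MM (1 : ℂ) ^ (r * 1) := by simpa using hN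
    refine ⟨(PX (MM (1 : ℂ))).presheaf.germ (dplus (MM (1 : ℂ)) 1 (Uy ℂ * Vy ℂ) hm3)
      (genericPoint (PX (MM (1 : ℂ)))) g3
        (frac (MM (1 : ℂ)) 1 (Uy ℂ * Vy ℂ) hm3 r N hN'), ?_⟩
    rw [hψ, Φ.eval 1 (Uy ℂ * Vy ℂ) hm3 one_pos hm30 r N hN' g3, hxN]
  refine ⟨x, y, ?_, ?_⟩
  · apply coord_of_map ψ
    rw [hx, hy]
    exact hcoord
  · intro p
    rcases hCOVER3 hm1 hm2 hm3 p with hp | hp | hp
    · refine ⟨_, g1, affine _ _ _, hp, Or.inl ?_⟩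
      ext z
      rw [mem_funRing (MM (1 : ℂ)) hFSURJ Φ (PP4 ℂ) hm1 hP g1 z, Subalgebra.mem_toSubring,
        mem_Bring_map ψ, hx, hy, hc1]
      rfl
    · refine ⟨_, g2, affine _ _ _, hp, Or.inr (Or.inl ?_)⟩
      ext z
      rw [mem_funRing (MM (1 : ℂ)) hFSURJ Φ (PP4 ℂ * yy ℂ ^ 4) hm2 hm20 g2 z,
        Subalgebra.mem_toSubring, mem_Bring_map ψ, map_inv₀, hx, hy, hc2]
      rfl
    · refine ⟨_, g3, affine _ _ _, hp, Or.inr (Or.inr ?_)⟩
      ext z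
      rw [mem_funRing (MM (1 : ℂ)) hFSURJ Φ (Uy ℂ * Vy ℂ) hm3 hm30 g3 z,
        Subalgebra.mem_toSubring, mem_Bring_map ψ, hx, hy, hc3]
      rfl

end Pool.Agent.KCY
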