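import Pool.Agent.KCY.Main

/-!
Assembly of the main statement, with explicit data.
-/

open AlgebraicGeometry CategoryTheory Polynomial

namespace Pool.Agent.KCY

open Rees

theorem main_of2 (hINT : T_INT) (hPROP : T_PROP)
    (hFLAT : T_FLAT) (hFRAC : T_FRAC) (hBC : T_BC) (hPOINT : T_POINT) (hLB : T_LB)
    (hLBBC : T_LBBC) (hNSEM : T_NSEM) (hSEM : T_SEM) (hISBC : T_ISBC) (hSPEC : T_SPEC)
    (hDMAP : T_DMAP)
    (hNZ : T_NZ) (hSAT : T_SAT) (hCOVER : T_COVER) (hCOC : T_COC) (hNS : T_NS) (hSA : T_SA)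
    (hLAUR : T_LAUR) :
    ∃ (L : LineBundle (PX (MM (LaurentPolynomial.T 1 : LaurentPolynomial ℂ))))
      (i : PX (MM (1 : ℂ)) ⟶ PX (MM (LaurentPolynomial.T 1 : LaurentPolynomial ℂ))),
      (L.pullback i).IsSemiample ∧
      Flat (str (MM (LaurentPolynomial.T 1 : LaurentPolynomial ℂ))) ∧
      IsProper (str (MM (LaurentPolynomial.T 1 : LaurentPolynomial ℂ))) ∧
      IsPullback i (str (MM (1 : ℂ))) (str (MM (LaurentPolynomial.T 1 : LaurentPolynomial ℂ)))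
        (ptHom 1) ∧
      ¬ IsRelSemiampleNear (str (MM (LaurentPolynomial.T 1 : LaurentPolynomial ℂ))) L (pt 1) ∧
      ∀ c : ℂˣ, (∀ m : ℕ, 0 < m → c ^ m ≠ 1) →
        ∀ (Y : Scheme.{0}) (j : Y ⟶ PX (MM (LaurentPolynomial.T 1 : LaurentPolynomial ℂ)))
          (r : Y ⟶ Spec (CommRingCat.of ℂ)),
          IsPullback j r (str (MM (LaurentPolynomial.T 1 : LaurentPolynomial ℂ))) (ptHom c) →
            ¬ (L.pullback j).IsSemiample := by
  obtain ⟨hdom, hpid, hchar⟩ := hLAUR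
  have neb : ∀ (k : Type) [CommRing k] [IsDomain k] [CharZero k] (l : k), MM l ≠ ⊥ := by
    intro k _ _ _ l h
    have h0 := mm_mem l 0
    rw [h, Submodule.mem_bot] at h0
    exact (hNZ k l 0).1 h0
  set tt : LaurentPolynomial ℂ := LaurentPolynomial.T 1 with htt
  have hinj : ∀ (k : Type) [CommRing k], Function.Injective (algebraMap k (Sk k)) := by
    intro k _
    exact MvPolynomial.C_injective _ _
  have hfg : ∀ (k : Type) [CommRing k] (l : k), (MM l).FG := by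
    intro k _ l
    exact Submodule.fg_span (Set.finite_range _)
  have hI : IsIntegral (PX (MM tt)) := hINT _ _ _ (neb _ _)
  have hI' : ∀ c : ℂ, IsIntegral (PX (MM c)) := fun c => hINT _ _ _ (neb _ _)
  have hunit : IsUnit tt := LaurentPolynomial.isUnit_T 1
  have hgood : (DD tt).Good := by
    refine ⟨fun i => (hNZ _ tt i).1, fun i => (hNZ _ tt i).2.1, fun i => (hNZ _ tt i).2.2,
      hCOVER _ tt hunit, fun i j => hCOC _ tt i j⟩
  obtain ⟨Φ⟩ := hFRAC (LaurentPolynomial ℂ) (Sk (LaurentPolynomial ℂ)) (MM tt)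
  obtain ⟨L, hL⟩ := hLB _ _ _ (DD tt) Φ hgood
  have hpull : ∀ c : ℂˣ, IsPullback (bcMap (hISBC c)) (str (MM (c : ℂ))) (str (MM tt))
      (ptHom c) := by
    intro c
    refine hBC _ _ _ _ _ _ _ _ (hISBC c) (hSAT c) (Fin 6) (mm tt) (fun i => (DD tt).mem i) ?_ ?_
    · intro i
      rw [(hSPEC c i).1]
      exact (hNZ ℂ (c : ℂ) i).1
    · exact hCOVER _ tt hunit
  have hrep : ∀ (c : ℂˣ) [IsIntegral (PX (MM (c : ℂ)))] (Φ' : FracHom (MM (c : ℂ))),
      Represents (DD (c : ℂ)) Φ' (L.pullback (bcMap (hISBC c))) := by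
    intro c _ Φ'
    have h := hLBBC _ _ _ _ _ _ _ _ (hISBC c) (DD tt) Φ Φ' L hgood
      (fun i => by
        have e : MvPolynomial.map (evalAt c) (mm tt i) ≠ 0 := by
          rw [(hSPEC c i).1]; exact (hNZ ℂ (c : ℂ) i).1
        exact e)
      (fun i => by
        have e : MvPolynomial.map (evalAt c) (num (LaurentPolynomial ℂ) i) ≠ 0 := by
          rw [(hSPEC c i).2.1]; exact (hNZ ℂ (c : ℂ) i).2.1
        exact e)
      (fun i => by
        have e : MvPolynomial.map (evalAt c) (den tt i) ≠ 0 := by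
          rw [(hSPEC c i).2.2]; exact (hNZ ℂ (c : ℂ) i).2.2
        exact e) hL
    rw [hDMAP c (hISBC c)] at h
    exact h
  have hnon : ∀ c : ℂˣ, (∀ m : ℕ, 0 < m → c ^ m ≠ 1) →
      ∀ (Y : Scheme.{0}) (j : Y ⟶ PX (MM tt)) (r : Y ⟶ Spec (CommRingCat.of ℂ)),
        IsPullback j r (str (MM tt)) (ptHom c) → ¬ (L.pullback j).IsSemiample := by
    intro c hc Y j r hY hs
    have hIc := hI' (c : ℂ)
    obtain ⟨Φ'⟩ := hFRAC ℂ (Sk ℂ) (MM (c : ℂ))
    have h1 : (L.pullback (bcMap (hISBC c))).IsSemiample := by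
      have e := hs.pull (hY.lift (bcMap (hISBC c)) (str (MM (c : ℂ))) (hpull c).w)
      rw [← LineBundle.pullback_comp, hY.lift_fst] at e
      exact e
    obtain ⟨x0, hx0⟩ := hPOINT ℂ (Sk ℂ) ℂ[X] (MM (c : ℂ)) evx.toRingHom
      ⟨ee (c : ℂ) 0, ee_mem _ _, evx_ee0 _⟩
    refine hNSEM ℂ (Sk ℂ) (MM (c : ℂ)) (DD (c : ℂ)) Φ' _ (fun i => (hNZ ℂ (c : ℂ) i).1)
      (fun i => (hNZ ℂ (c : ℂ) i).2.1)
      (fun i => (hNZ ℂ (c : ℂ) i).2.2) (hrep c Φ') x0 ?_ h1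
    intro r hr w hw i hi jj G hG hwG hxG
    have hi2 : i = (2 : Fin 6) := by
      have h2 := (hx0 1 (mm (c : ℂ) i) ((DD (c : ℂ)).mem i)).mp hi
      have h3 : evx (mm (c : ℂ) i) ≠ 0 := h2
      by_contra hne
      apply h3
      change Fin 6 at i
      fin_cases i
      · change evx (PP4 ℂ * Vy ℂ ^ 2) = 0
        rw [map_mul, evx_PP4, zero_mul]
      · change evx (PP4 ℂ * (Ul (c : ℂ) * Uy ℂ)) = 0
        rw [map_mul, evx_PP4, zero_mul]
      · exact absurd rfl hne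
      · change evx (Pe ℂ 1 * Qf (c : ℂ) 1) = 0
        rw [map_mul, evx_Pe 1 (by decide), zero_mul]
      · change evx (Pe ℂ 2 * Qf (c : ℂ) 2) = 0
        rw [map_mul, evx_Pe 2 (by decide), zero_mul]
      · change evx (Pe ℂ 3 * Qf (c : ℂ) 3) = 0
        rw [map_mul, evx_Pe 3 (by decide), zero_mul]
    subst hi2
    exact (hx0 jj G hG).mp hxG (hNS c hc r hr w hw jj G hG hwG)
  refine ⟨L, bcMap (hISBC 1), ?_, hFLAT _ _ _ (hinj _), hPROP _ _ _ (hinj _) (hfg _ _),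
    hpull 1, ?_, hnon⟩
  · have hI1 := hI' (1 : ℂ)
    obtain ⟨Φ'⟩ := hFRAC ℂ (Sk ℂ) (MM (1 : ℂ))
    exact hSEM ℂ (Sk ℂ) (MM (1 : ℂ)) (DD (1 : ℂ)) Φ' _ (fun i => (hNZ ℂ (1 : ℂ) i).1)
      (fun i => (hNZ ℂ (1 : ℂ) i).2.1)
      (fun i => (hNZ ℂ (1 : ℂ) i).2.2) (hrep 1 Φ') hSA
  · exact not_isRelSemiampleNear _ _ hnon _

end Pool.Agent.KCY
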