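import Pool.Agent.KCY.Targets

/-!
`T_NF`: the normal form of the elements of `(MM l)^n`.
-/

open AlgebraicGeometry CategoryTheory Polynomial

namespace Pool.Agent.KCY

open Rees

namespace NF_

variable {k : Type} [CommRing k]

/-- the polynomial behind `Qf` -/
noncomputable def Qp (l : k) (i : Fin 4) : k[X] :=
  if i = 0 then ((C (2 * l - 1) * X + 1) * (X - 2)) * ((X - 1) * X)
  else ((X + 1) * (X - 2)) * ((X - 1) * X)

theorem Qp_deg (l : k) (i : Fin 4) : (Qp l i).natDegree ≤ 4 := by
  unfold Qp
  split_ifs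
  · have h1 : (C (2 * l - 1) * X + 1 : k[X]).natDegree ≤ 1 := by compute_degree
    have h2 : (X - 2 : k[X]).natDegree ≤ 1 := by compute_degree
    have h3 : ((X - 1) * X : k[X]).natDegree ≤ 2 := by compute_degree
    calc _ ≤ ((C (2 * l - 1) * X + 1 : k[X]) * (X - 2)).natDegree + ((X - 1) * X : k[X]).natDegree :=
          natDegree_mul_le
      _ ≤ ((C (2 * l - 1) * X + 1 : k[X]).natDegree + (X - 2 : k[X]).natDegree) +
          ((X - 1) * X : k[X]).natDegree := Nat.add_le_add_right natDegree_mul_le _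
      _ ≤ 4 := by omega
  · have h1 : (X + 1 : k[X]).natDegree ≤ 1 := by compute_degree
    have h2 : (X - 2 : k[X]).natDegree ≤ 1 := by compute_degree
    have h3 : ((X - 1) * X : k[X]).natDegree ≤ 2 := by compute_degree
    calc _ ≤ ((X + 1 : k[X]) * (X - 2)).natDegree + ((X - 1) * X : k[X]).natDegree :=
          natDegree_mul_le
      _ ≤ ((X + 1 : k[X]).natDegree + (X - 2 : k[X]).natDegree) +
          ((X - 1) * X : k[X]).natDegree := Nat.add_le_add_right natDegree_mul_le _
      _ ≤ 4 := by omega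

theorem Qp_eval (l : k) (i : Fin 4) : aeval (yy k) (Qp l i) = Qf l i := by
  unfold Qp Qf
  split_ifs
  · simp only [map_mul, map_sub, map_add, aeval_C, aeval_X, map_one, map_ofNat, Ul, Vy]
    rfl
  · simp only [map_mul, map_sub, map_add, aeval_X, map_one, map_ofNat, Uy, Vy]

theorem P_eq (i : Fin 4) : PP4 k = Xf k i * Pe k i := by
  unfold PP4 Pe
  exact (Finset.mul_prod_erase _ _ (Finset.mem_univ i)).symm

theorem key (l : k) (i j : Fin 4) : ((aa i - aa j : ℤ) : Sk k) * (ee l i * ee l j) =
    PP4 k * Qf l j * ee l i - PP4 k * Qf l i * ee l j := by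
  have h1 := P_eq (k := k) i
  have h2 := P_eq (k := k) j
  have h3 : Xf k j - Xf k i = ((aa i - aa j : ℤ) : Sk k) := by
    unfold Xf
    push_cast
    ring
  unfold ee
  calc ((aa i - aa j : ℤ) : Sk k) * (Pe k i * Qf l i * (Pe k j * Qf l j))
      = (Xf k j * Pe k j) * Qf l j * (Pe k i * Qf l i) -
          (Xf k i * Pe k i) * Qf l i * (Pe k j * Qf l j) := by
        rw [← h3]
        ring
    _ = _ := by rw [← h1, ← h2]

/-- the normal forms -/
noncomputable def NFs (l : k) (n : ℕ) : Submodule k (Sk k) where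
  carrier := {G | ∃ (p : k[X]) (q : Fin 4 → ℕ → k[X]), p.natDegree ≤ 4 * n ∧
      (∀ i m, (q i m).natDegree ≤ 4 * (n - m)) ∧
      G = PP4 k ^ n * aeval (yy k) p +
        ∑ i, ∑ m ∈ Finset.Icc 1 n, PP4 k ^ (n - m) * ee l i ^ m * aeval (yy k) (q i m)}
  zero_mem' := ⟨0, fun _ _ => 0, by simp, by simp, by simp⟩
  add_mem' := by
    rintro G G' ⟨p, q, hp, hq, rfl⟩ ⟨p', q', hp', hq', rfl⟩
    refine ⟨p + p', fun i m => q i m + q' i m, natDegree_add_le_of_degree_le hp hp',
      fun i m => natDegree_add_le_of_degree_le (hq i m) (hq' i m), ?_⟩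
    simp only [map_add, mul_add, Finset.sum_add_distrib]
    ring
  smul_mem' := by
    rintro c G ⟨p, q, hp, hq, rfl⟩
    refine ⟨c • p, fun i m => c • q i m, (natDegree_smul_le _ _).trans hp,
      fun i m => (natDegree_smul_le _ _).trans (hq i m), ?_⟩
    simp only [map_smul, mul_smul_comm, smul_add, Finset.smul_sum]

theorem g1 (l : k) (n j : ℕ) (hj : j ≤ 4 * n) : PP4 k ^ n * yy k ^ j ∈ NFs l n := by
  refine ⟨X ^ j, fun _ _ => 0, (natDegree_X_pow_le j).trans hj, by simp, ?_⟩
  simp

theorem g2 (l : k) (n : ℕ) (i : Fin 4) (m j : ℕ) (hm : 1 ≤ m) (hmn : m ≤ n)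
    (hj : j ≤ 4 * (n - m)) : PP4 k ^ (n - m) * ee l i ^ m * yy k ^ j ∈ NFs l n := by
  classical
  refine ⟨0, fun i' m' => if i' = i ∧ m' = m then X ^ j else 0, by simp, ?_, ?_⟩
  · intro i' m'
    simp only
    split_ifs with h
    · rw [h.2]
      exact (natDegree_X_pow_le j).trans hj
    · simp
  · rw [map_zero, mul_zero, zero_add, Finset.sum_eq_single i, Finset.sum_eq_single m]
    · simp
    · intro m' _ hm'
      have e : (if i = i ∧ m' = m then X ^ j else 0 : k[X]) = 0 := if_neg (fun h => hm' h.2)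
      change PP4 k ^ (n - m') * ee l i ^ m' *
        (aeval (yy k)) (if i = i ∧ m' = m then X ^ j else 0 : k[X]) = 0
      rw [e, map_zero, mul_zero]
    · intro h
      exact absurd (Finset.mem_Icc.2 ⟨hm, hmn⟩) h
    · intro i' _ hi'
      apply Finset.sum_eq_zero
      intro m' _
      have e : (if i' = i ∧ m' = m then X ^ j else 0 : k[X]) = 0 := if_neg (fun h => hi' h.1)
      simp only [e, map_zero, mul_zero]
    · intro h
      exact absurd (Finset.mem_univ i) h

/-- polynomial multiples -/
theorem poly_mem (N : Submodule k (Sk k)) (A : Sk k) (d : ℕ)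
    (h : ∀ j ≤ d, A * yy k ^ j ∈ N) (q : k[X]) (hq : q.natDegree ≤ d) :
    A * aeval (yy k) q ∈ N := by
  rw [aeval_eq_sum_range' (Nat.lt_succ_of_le hq), Finset.mul_sum]
  refine Submodule.sum_mem _ fun j hj => ?_
  rw [mul_smul_comm]
  exact N.smul_mem _ (h j (Nat.lt_succ_iff.1 (Finset.mem_range.1 hj)))

theorem inv_aa [Algebra ℂ k] (i j : Fin 4) (hij : i ≠ j) : ∃ c : k,
    ∀ z : Sk k, c • (((aa i - aa j : ℤ) : Sk k) * z) = z := by
  have h0 : (aa i - aa j : ℤ) ≠ 0 := by
    revert i j
    decide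
  have h1 : ((aa i - aa j : ℤ) : ℂ) ≠ 0 := Int.cast_ne_zero.2 h0
  refine ⟨algebraMap ℂ k (((aa i - aa j : ℤ) : ℂ)⁻¹), fun z => ?_⟩
  have h2 : ((aa i - aa j : ℤ) : Sk k) * z = algebraMap ℂ k ((aa i - aa j : ℤ) : ℂ) • z := by
    rw [map_intCast, Algebra.smul_def, map_intCast]
  rw [h2, smul_smul, ← map_mul, inv_mul_cancel₀ h1, map_one, one_smul]

theorem mixed [Algebra ℂ k] (l : k) (i i' : Fin 4) (hii : i ≠ i') (m : ℕ) :
    ∀ r j : ℕ, j ≤ 4 * r → PP4 k ^ r * ee l i ^ m * ee l i' * yy k ^ j ∈ NFs l (r + m + 1) := by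
  induction m with
  | zero =>
    intro r j hj
    have h := g2 l (r + 1) i' 1 j le_rfl (by omega) (by omega)
    rw [pow_one, Nat.add_sub_cancel] at h
    rw [pow_zero, mul_one, add_zero]
    exact h
  | succ m ih =>
    intro r j hj
    obtain ⟨c, hc⟩ := inv_aa (k := k) i i' hii
    have e1 : PP4 k ^ r * ee l i ^ (m + 1) * ee l i' * yy k ^ j =
        c • ((PP4 k ^ (r + 1) * ee l i ^ (m + 1)) * (yy k ^ j * Qf l i') -
          (PP4 k ^ (r + 1) * ee l i ^ m * ee l i') * (yy k ^ j * Qf l i)) := by
      rw [← hc (PP4 k ^ r * ee l i ^ (m + 1) * ee l i' * yy k ^ j)]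
      congr 1
      have hk := key l i i'
      calc ((aa i - aa i' : ℤ) : Sk k) * (PP4 k ^ r * ee l i ^ (m + 1) * ee l i' * yy k ^ j)
          = PP4 k ^ r * ee l i ^ m * yy k ^ j *
              (((aa i - aa i' : ℤ) : Sk k) * (ee l i * ee l i')) := by ring
        _ = PP4 k ^ r * ee l i ^ m * yy k ^ j *
              (PP4 k * Qf l i' * ee l i - PP4 k * Qf l i * ee l i') := by rw [hk]
        _ = _ := by ring
    rw [e1]
    apply Submodule.smul_mem
    have e2 : ∀ s : Fin 4, yy k ^ j * Qf l s = aeval (yy k) (X ^ j * Qp l s) := by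
      intro s
      rw [map_mul, map_pow, aeval_X, Qp_eval]
    have e3 : ∀ s : Fin 4, (X ^ j * Qp l s : k[X]).natDegree ≤ 4 * (r + 1) := by
      intro s
      refine natDegree_mul_le.trans ?_
      have h1 := natDegree_X_pow_le (R := k) j
      have h2 := Qp_deg l s
      omega
    apply Submodule.sub_mem
    · rw [e2]
      refine poly_mem _ _ _ (fun j' hj' => ?_) _ (e3 i')
      have h := g2 l (r + (m + 1) + 1) i (m + 1) j' (by omega) (by omega) (by omega)
      have e4 : r + (m + 1) + 1 - (m + 1) = r + 1 := by omega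
      rw [e4] at h
      exact h
    · rw [e2]
      refine poly_mem _ _ _ (fun j' hj' => ?_) _ (e3 i)
      have h := ih (r + 1) j' hj'
      have e4 : r + 1 + m + 1 = r + (m + 1) + 1 := by omega
      rw [e4] at h
      exact h

theorem ww_mem (l : k) (j : ℕ) (hj : j ≤ 4) : PP4 k * yy k ^ j ∈ MM l :=
  Submodule.subset_span ⟨Sum.inl ⟨j, by omega⟩, rfl⟩

theorem ee_mem (l : k) (i : Fin 4) : ee l i ∈ MM l :=
  Submodule.subset_span ⟨Sum.inr i, rfl⟩

theorem wpow (l : k) (r : ℕ) : ∀ j : ℕ, j ≤ 4 * r → PP4 k ^ r * yy k ^ j ∈ MM l ^ r := by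
  induction r with
  | zero =>
    intro j hj
    have : j = 0 := by omega
    rw [this, pow_zero, pow_zero, pow_zero, mul_one]
    exact Submodule.one_le.1 le_rfl
  | succ r ih =>
    intro j hj
    obtain ⟨s, t, hs, ht, hst⟩ : ∃ s t : ℕ, s ≤ 4 * r ∧ t ≤ 4 ∧ j = s + t := by
      by_cases h : j ≤ 4 * r
      · exact ⟨j, 0, h, by omega, rfl⟩
      · exact ⟨4 * r, j - 4 * r, le_rfl, by omega, by omega⟩
    have e : PP4 k ^ (r + 1) * yy k ^ j = (PP4 k ^ r * yy k ^ s) * (PP4 k * yy k ^ t) := by
      rw [hst]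
      ring
    rw [e, pow_succ]
    exact Submodule.mul_mem_mul (ih s hs) (ww_mem l t ht)

theorem one_dir [Algebra ℂ k] (l : k) (n : ℕ) : MM l ^ n ≤ NFs l n := by
  induction n with
  | zero =>
    rw [pow_zero, Submodule.one_le]
    refine ⟨1, fun _ _ => 0, by simp, by simp, by simp⟩
  | succ n ih =>
    rw [pow_succ]
    rw [Submodule.mul_le]
    intro G hG' g hg
    have hG := ih hG'
    have hgen : ∀ x, G * gens l x ∈ NFs l (n + 1) := by
      obtain ⟨p, q, hp, hq, rfl⟩ := hG
      intro x
      rw [add_mul, Finset.sum_mul]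
      apply Submodule.add_mem
      · rcases x with s | i
        · have e : PP4 k ^ n * aeval (yy k) p * gens l (Sum.inl s) =
              (PP4 k ^ (n + 1) * yy k ^ (s : ℕ)) * aeval (yy k) p := by
            change PP4 k ^ n * aeval (yy k) p * (PP4 k * yy k ^ (s : ℕ)) = _
            ring
          rw [e]
          refine poly_mem _ _ _ (fun j hj => ?_) _ hp
          have h := g1 l (n + 1) (s + j) (by omega)
          rw [pow_add (yy k), ← mul_assoc] at h
          exact h
        · have e : PP4 k ^ n * aeval (yy k) p * gens l (Sum.inr i) =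
              (PP4 k ^ n * ee l i) * aeval (yy k) p := by
            change PP4 k ^ n * aeval (yy k) p * (ee l i) = _
            ring
          rw [e]
          refine poly_mem _ _ _ (fun j hj => ?_) _ hp
          have h := g2 l (n + 1) i 1 j le_rfl (by omega) (by omega)
          rw [pow_one, Nat.add_sub_cancel] at h
          exact h
      · refine Submodule.sum_mem _ fun i _ => ?_
        rw [Finset.sum_mul]
        refine Submodule.sum_mem _ fun m hm => ?_
        obtain ⟨hm1, hmn⟩ := Finset.mem_Icc.1 hm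
        rcases x with s | i'
        · have e : PP4 k ^ (n - m) * ee l i ^ m * aeval (yy k) (q i m) * gens l (Sum.inl s) =
              (PP4 k ^ (n + 1 - m) * ee l i ^ m * yy k ^ (s : ℕ)) * aeval (yy k) (q i m) := by
            change PP4 k ^ (n - m) * ee l i ^ m * aeval (yy k) (q i m) *
              (PP4 k * yy k ^ (s : ℕ)) = _
            have e' : n + 1 - m = (n - m) + 1 := by omega
            rw [e', pow_succ]
            ring
          rw [e]
          refine poly_mem _ _ _ (fun j hj => ?_) _ (hq i m)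
          have h := g2 l (n + 1) i m (s + j) hm1 (by omega) (by omega)
          rw [pow_add (yy k), ← mul_assoc] at h
          exact h
        · by_cases hii : i = i'
          · have e : PP4 k ^ (n - m) * ee l i ^ m * aeval (yy k) (q i m) *
                gens l (Sum.inr i') =
                (PP4 k ^ (n + 1 - (m + 1)) * ee l i ^ (m + 1)) * aeval (yy k) (q i m) := by
              change PP4 k ^ (n - m) * ee l i ^ m * aeval (yy k) (q i m) * (ee l i') = _
              rw [← hii, Nat.add_sub_add_right]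
              ring
            rw [e]
            refine poly_mem _ _ _ (fun j hj => ?_) _ (hq i m)
            exact g2 l (n + 1) i (m + 1) j (by omega) (by omega) (by omega)
          · have e : PP4 k ^ (n - m) * ee l i ^ m * aeval (yy k) (q i m) *
                gens l (Sum.inr i') =
                (PP4 k ^ (n - m) * ee l i ^ m * ee l i') * aeval (yy k) (q i m) := by
              change PP4 k ^ (n - m) * ee l i ^ m * aeval (yy k) (q i m) * (ee l i') = _
              ring
            rw [e]
            refine poly_mem _ _ _ (fun j hj => ?_) _ (hq i m)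
            have h := mixed l i i' hii m (n - m) j hj
            have e' : n - m + m + 1 = n + 1 := by omega
            rw [e'] at h
            exact h
    have hle : MM l ≤ (NFs l (n + 1)).comap (LinearMap.mulLeft k G) := by
      unfold MM
      rw [Submodule.span_le]
      rintro _ ⟨x, rfl⟩
      exact hgen x
    exact hle hg

end NF_

theorem tNF : T_NF := by
  intro k _ _ l n G
  constructor
  · intro h
    exact NF_.one_dir l n h
  · rintro ⟨p, q, hp, hq, rfl⟩
    apply Submodule.add_mem
    · exact NF_.poly_mem _ _ _ (NF_.wpow l n) _ hp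
    · refine Submodule.sum_mem _ fun i _ => Submodule.sum_mem _ fun m hm => ?_
      obtain ⟨hm1, hmn⟩ := Finset.mem_Icc.1 hm
      refine NF_.poly_mem _ _ _ (fun j hj => ?_) _ (hq i m)
      have e : PP4 k ^ (n - m) * ee l i ^ m * yy k ^ j =
          (PP4 k ^ (n - m) * yy k ^ j) * ee l i ^ m := by ring
      have e' : MM l ^ n = MM l ^ (n - m) * MM l ^ m := by
        rw [← pow_add, Nat.sub_add_cancel hmn]
      rw [e, e']
      exact Submodule.mul_mem_mul (NF_.wpow l (n - m) j hj)
        (Submodule.pow_mem_pow _ (NF_.ee_mem l i) m)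

end Pool.Agent.KCY
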