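import Pool.Agent.KCY.Targets

set_option autoImplicit false

/-!
For `c` not a root of unity all sections of powers vanish at the point `x = -1` (target `T_NS`).
-/

open AlgebraicGeometry CategoryTheory Polynomial

namespace Pool.Agent.KCY

open Rees

namespace NS_

/-- Substitution of a constant for a variable. -/
noncomputable def evS (v : Fin 2) (a : ℂ) : Sk ℂ →ₐ[ℂ] Sk ℂ :=
  MvPolynomial.aeval (Function.update MvPolynomial.X v (MvPolynomial.C a))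

lemma evS_self (v : Fin 2) (a : ℂ) : evS v a (MvPolynomial.X v) = MvPolynomial.C a := by
  simp [evS]

lemma evS_ne {v i : Fin 2} (a : ℂ) (h : i ≠ v) :
    evS v a (MvPolynomial.X i) = MvPolynomial.X i := by
  simp [evS, h]

lemma evS_C (v : Fin 2) (a b : ℂ) : evS v a (MvPolynomial.C b) = MvPolynomial.C b := by
  simp [evS, MvPolynomial.algebraMap_eq]

lemma dvd_sub (v : Fin 2) (a : ℂ) (G : Sk ℂ) :
    (MvPolynomial.X v - MvPolynomial.C a : Sk ℂ) ∣ G - evS v a G := by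
  rw [← Ideal.mem_span_singleton, ← Ideal.Quotient.eq]
  have h : Ideal.Quotient.mkₐ ℂ (Ideal.span {(MvPolynomial.X v - MvPolynomial.C a : Sk ℂ)}) =
      (Ideal.Quotient.mkₐ ℂ (Ideal.span {(MvPolynomial.X v - MvPolynomial.C a : Sk ℂ)})).comp
        (evS v a) := by
    apply MvPolynomial.algHom_ext
    intro i
    by_cases hi : i = v
    · subst hi
      rw [AlgHom.comp_apply, evS_self]
      show Ideal.Quotient.mk _ _ = Ideal.Quotient.mk _ _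
      rw [Ideal.Quotient.eq]
      exact Ideal.subset_span rfl
    · rw [AlgHom.comp_apply, evS_ne a hi]
  exact DFunLike.congr_fun h G

lemma evS_lin (v : Fin 2) (a : ℂ) :
    evS v a (MvPolynomial.X v - MvPolynomial.C a : Sk ℂ) = 0 := by
  rw [map_sub, evS_self, evS_C, sub_self]

lemma lin_ne (v : Fin 2) (a : ℂ) : (MvPolynomial.X v - MvPolynomial.C a : Sk ℂ) ≠ 0 := by
  intro h
  have h1 := congrArg (MvPolynomial.eval fun _ => a + 1) h
  simp at h1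

lemma dvd_iff (v : Fin 2) (a : ℂ) (G : Sk ℂ) :
    (MvPolynomial.X v - MvPolynomial.C a : Sk ℂ) ∣ G ↔ evS v a G = 0 := by
  constructor
  · rintro ⟨K, rfl⟩
    rw [map_mul, evS_lin, zero_mul]
  · intro h
    have := dvd_sub v a G
    rwa [h, sub_zero] at this

lemma prime_lin (v : Fin 2) (a : ℂ) : Prime (MvPolynomial.X v - MvPolynomial.C a : Sk ℂ) := by
  refine ⟨lin_ne v a, ?_, ?_⟩
  · intro h
    have h1 := h.map (evS v a)
    rw [evS_lin] at h1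
    exact not_isUnit_zero h1
  · intro f g h
    rw [dvd_iff, map_mul, mul_eq_zero] at h
    rw [dvd_iff, dvd_iff]
    exact h

/-- Evaluation at a point. -/
noncomputable def ev (a b : ℂ) : Sk ℂ →ₐ[ℂ] ℂ := MvPolynomial.aeval ![a, b]

lemma ev_evS0 (a b : ℂ) (G : Sk ℂ) : ev a b (evS 0 a G) = ev a b G := by
  have h : (ev a b).comp (evS 0 a) = ev a b := by
    apply MvPolynomial.algHom_ext
    intro i
    fin_cases i
    · show ev a b (evS 0 a (MvPolynomial.X 0)) = _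
      rw [evS_self]
      simp [ev, MvPolynomial.algebraMap_eq]
    · show ev a b (evS 0 a (MvPolynomial.X 1)) = _
      rw [evS_ne a (by decide)]
      rfl
  exact DFunLike.congr_fun h G

lemma ev_evS1 (a b : ℂ) (G : Sk ℂ) : ev a b (evS 1 b G) = ev a b G := by
  have h : (ev a b).comp (evS 1 b) = ev a b := by
    apply MvPolynomial.algHom_ext
    intro i
    fin_cases i
    · show ev a b (evS 1 b (MvPolynomial.X 0)) = _
      rw [evS_ne b (by decide)]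
      rfl
    · show ev a b (evS 1 b (MvPolynomial.X 1)) = _
      rw [evS_self]
      simp [ev, MvPolynomial.algebraMap_eq]
  exact DFunLike.congr_fun h G

lemma not_dvd0 {a b : ℂ} {T : Sk ℂ} (h : ev a b T ≠ 0) :
    ¬ (MvPolynomial.X 0 - MvPolynomial.C a : Sk ℂ) ∣ T := by
  intro hd
  rw [dvd_iff] at hd
  apply h
  rw [← ev_evS0, hd, map_zero]

lemma not_dvd1 {a b : ℂ} {T : Sk ℂ} (h : ev a b T ≠ 0) :
    ¬ (MvPolynomial.X 1 - MvPolynomial.C b : Sk ℂ) ∣ T := by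
  intro hd
  rw [dvd_iff] at hd
  apply h
  rw [← ev_evS1, hd, map_zero]

lemma bridge (a b A B : ℂ) (G H R T α β : Sk ℂ) (l j : ℕ)
    (hE : G * ((MvPolynomial.X 0 - MvPolynomial.C a) * R) ^ l * α =
      H * ((MvPolynomial.X 1 - MvPolynomial.C b) * T) ^ j * β)
    (hG : evS 0 a G = MvPolynomial.C A *
      (evS 0 a ((MvPolynomial.X 1 - MvPolynomial.C b) * T)) ^ j)
    (hH : evS 1 b H = MvPolynomial.C B *
      (evS 1 b ((MvPolynomial.X 0 - MvPolynomial.C a) * R)) ^ l)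
    (hR : ev a b R ≠ 0) (hT : ev a b T ≠ 0) (hα : ev a b α ≠ 0) (hβ : ev a b β ≠ 0) :
    A * ev a b α = B * ev a b β := by
  obtain ⟨s, hs⟩ : ∃ s : Sk ℂ, s = MvPolynomial.X 0 - MvPolynomial.C a := ⟨_, rfl⟩
  obtain ⟨t, ht⟩ : ∃ t : Sk ℂ, t = MvPolynomial.X 1 - MvPolynomial.C b := ⟨_, rfl⟩
  have hsp : Prime s := hs ▸ prime_lin 0 a
  have htp : Prime t := ht ▸ prime_lin 1 b
  rw [← hs, ← ht] at hE
  rw [← ht] at hG
  rw [← hs] at hH
  have hst : evS 0 a t = t := by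
    rw [ht, map_sub, evS_ne a (by decide), evS_C]
  have hts : evS 1 b s = s := by
    rw [hs, map_sub, evS_ne b (by decide), evS_C]
  have h1 : ¬ s ∣ t := by
    intro hd
    rw [hs, dvd_iff, hst] at hd
    exact htp.ne_zero hd
  have h2 : ¬ t ∣ s := by
    intro hd
    rw [ht, dvd_iff, hts] at hd
    exact hsp.ne_zero hd
  have h3 : ¬ s ∣ (t * T) ^ j * β := by
    intro hd
    rcases hsp.dvd_or_dvd hd with hd | hd
    · rcases hsp.dvd_or_dvd (hsp.dvd_of_dvd_pow hd) with hd | hd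
      · exact h1 hd
      · rw [hs] at hd; exact not_dvd0 hT hd
    · rw [hs] at hd; exact not_dvd0 hβ hd
  have h4 : ¬ t ∣ (s * R) ^ l * α := by
    intro hd
    rcases htp.dvd_or_dvd hd with hd | hd
    · rcases htp.dvd_or_dvd (htp.dvd_of_dvd_pow hd) with hd | hd
      · exact h2 hd
      · rw [ht] at hd; exact not_dvd1 hR hd
    · rw [ht] at hd; exact not_dvd1 hα hd
  have h5 : s ^ l ∣ H := by
    apply hsp.pow_dvd_of_dvd_mul_right l h3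
    rw [← mul_assoc, ← hE, mul_pow]
    exact ⟨G * R ^ l * α, by ring⟩
  have h6 : t ^ j ∣ G := by
    apply htp.pow_dvd_of_dvd_mul_right j h4
    rw [← mul_assoc, hE, mul_pow]
    exact ⟨H * T ^ j * β, by ring⟩
  obtain ⟨H', rfl⟩ := h5
  obtain ⟨G', rfl⟩ := h6
  have hsl : s ^ l ≠ 0 := pow_ne_zero _ hsp.ne_zero
  have htj : t ^ j ≠ 0 := pow_ne_zero _ htp.ne_zero
  have h7 : G' * R ^ l * α = H' * T ^ j * β := by
    apply mul_left_cancel₀ (mul_ne_zero hsl htj)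
    calc s ^ l * t ^ j * (G' * R ^ l * α) = t ^ j * G' * (s * R) ^ l * α := by ring
      _ = s ^ l * H' * (t * T) ^ j * β := hE
      _ = _ := by ring
  have h8 : evS 0 a G' = MvPolynomial.C A * (evS 0 a T) ^ j := by
    apply mul_left_cancel₀ htj
    rw [map_mul, map_pow, hst, map_mul, hst] at hG
    rw [hG]
    ring
  have h9 : evS 1 b H' = MvPolynomial.C B * (evS 1 b R) ^ l := by
    apply mul_left_cancel₀ hsl
    rw [map_mul, map_pow, hts, map_mul, hts] at hH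
    rw [hH]
    ring
  have h10 : ev a b G' = A * (ev a b T) ^ j := by
    rw [← ev_evS0, h8, map_mul, map_pow, ev_evS0]
    simp [ev, MvPolynomial.algebraMap_eq]
  have h11 : ev a b H' = B * (ev a b R) ^ l := by
    rw [← ev_evS1, h9, map_mul, map_pow, ev_evS1]
    simp [ev, MvPolynomial.algebraMap_eq]
  have h12 := congrArg (ev a b) h7
  simp only [map_mul, map_pow, h10, h11] at h12
  have h13 : (ev a b T) ^ j * (ev a b R) ^ l ≠ 0 :=
    mul_ne_zero (pow_ne_zero _ hT) (pow_ne_zero _ hR)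
  apply mul_left_cancel₀ h13
  linear_combination h12

lemma span_lemma (f : Sk ℂ →ₐ[ℂ] Sk ℂ) (c : ℂ) (g : Sk ℂ)
    (hf : ∀ i, ∃ A : ℂ, f (gens c i) = A • g) (n : ℕ) (G : Sk ℂ) (hG : G ∈ MM c ^ n) :
    ∃ A : ℂ, f G = MvPolynomial.C A * g ^ n := by
  have h1 : (MM c).map f.toLinearMap ≤ Submodule.span ℂ {g} := by
    unfold MM
    rw [Submodule.map_span, Submodule.span_le]
    rintro _ ⟨_, ⟨i, rfl⟩, rfl⟩
    obtain ⟨A, hA⟩ := hf i
    show f (gens c i) ∈ Submodule.span ℂ {g}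
    rw [hA]
    exact Submodule.smul_mem _ _ (Submodule.subset_span rfl)
  have h2 : ((MM c) ^ n).map f.toLinearMap ≤ Submodule.span ℂ {g ^ n} := by
    rw [Submodule.map_pow]
    refine (pow_le_pow_left' h1 n).trans ?_
    rw [Submodule.span_pow, Set.singleton_pow]
  have h3 : f G ∈ Submodule.span ℂ {g ^ n} := h2 ⟨G, hG, rfl⟩
  obtain ⟨A, hA⟩ := Submodule.mem_span_singleton.1 h3
  refine ⟨A, ?_⟩
  rw [← hA, MvPolynomial.smul_eq_C_mul]

lemma Xf_eq (i : Fin 4) : Xf ℂ i = MvPolynomial.X 0 - MvPolynomial.C ((aa i : ℤ) : ℂ) := by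
  rw [Xf, map_intCast]

lemma evS0_Xf (i : Fin 4) : evS 0 ((aa i : ℤ) : ℂ) (Xf ℂ i) = 0 := by
  rw [Xf_eq, evS_lin]

lemma evS1_Xf (b : ℂ) (i : Fin 4) : evS 1 b (Xf ℂ i) = Xf ℂ i := by
  rw [Xf_eq, map_sub, evS_ne b (by decide), evS_C]

lemma gens_fact0 (c : ℂ) (i : Fin 4) (x : Fin 5 ⊕ Fin 4) :
    ∃ A : ℂ, evS 0 ((aa i : ℤ) : ℂ) (gens c x) = A • evS 0 ((aa i : ℤ) : ℂ) (ee c i) := by
  rcases x with j | j
  · refine ⟨0, ?_⟩
    rw [zero_smul]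
    show evS 0 _ (ww ℂ j) = 0
    rw [ww, PP4, map_mul, map_prod, Finset.prod_eq_zero (Finset.mem_univ i) (evS0_Xf i), zero_mul]
  · by_cases hji : j = i
    · subst hji
      exact ⟨1, by rw [one_smul]; rfl⟩
    · refine ⟨0, ?_⟩
      rw [zero_smul]
      show evS 0 _ (ee c j) = 0
      rw [ee, Pe, map_mul, map_prod, Finset.prod_eq_zero
        (Finset.mem_erase.2 ⟨Ne.symm hji, Finset.mem_univ i⟩) (evS0_Xf i), zero_mul]

lemma gens_fact1 (c b : ℂ) (hb : evS 1 b (Vy ℂ) = 0) (x : Fin 5 ⊕ Fin 4) :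
    ∃ A : ℂ, evS 1 b (gens c x) = A • PP4 ℂ := by
  rcases x with j | j
  · refine ⟨b ^ (j : ℕ), ?_⟩
    show evS 1 b (ww ℂ j) = _
    rw [ww, PP4, map_mul, map_prod, map_pow, evS_self, MvPolynomial.smul_eq_C_mul, map_pow,
      Finset.prod_congr rfl (fun i _ => evS1_Xf b i), mul_comm]
  · refine ⟨0, ?_⟩
    rw [zero_smul]
    show evS 1 b (ee c j) = 0
    rw [ee, map_mul, Qf]
    split_ifs
    · rw [map_mul, hb, mul_zero, mul_zero]
    · rw [map_mul, hb, mul_zero, mul_zero]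

lemma ne_of_ev {f : Sk ℂ} (a b : ℂ) (h : ev a b f ≠ 0) : f ≠ 0 := by
  rintro rfl
  exact h (map_zero _)

lemma ev_x (a b : ℂ) : ev a b (MvPolynomial.X 0) = a := by simp [ev]
lemma ev_y (a b : ℂ) : ev a b (MvPolynomial.X 1) = b := by simp [ev]
lemma ev_C (a b z : ℂ) : ev a b (MvPolynomial.C z) = z := by
  simp [ev, MvPolynomial.algebraMap_eq]

lemma ev_Xf (a b : ℂ) (i : Fin 4) : ev a b (Xf ℂ i) = a - ((aa i : ℤ) : ℂ) := by
  rw [Xf_eq, map_sub, ev_x, ev_C]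

lemma ev_Vy (a b : ℂ) : ev a b (Vy ℂ) = (b - 1) * b := by
  rw [Vy, map_mul, map_sub, map_one, ev_y]

lemma ev_Uy (a b : ℂ) : ev a b (Uy ℂ) = (b + 1) * (b - 2) := by
  rw [Uy, map_mul, map_sub, map_add, map_one, ev_y]
  congr 2
  exact map_ofNat _ 2

lemma ev_Ul (c a b : ℂ) : ev a b (Ul c) = ((2 * c - 1) * b + 1) * (b - 2) := by
  rw [Ul, map_mul, map_add, map_mul, ev_C, ev_y, map_one, map_sub, ev_y]
  congr 2
  exact map_ofNat _ 2

lemma Pe_zero : Pe ℂ 0 = Xf ℂ 1 * Xf ℂ 2 * Xf ℂ 3 := by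
  have : (Finset.univ.erase (0 : Fin 4)) = {1, 2, 3} := by decide
  rw [Pe, this, Finset.prod_insert (by decide), Finset.prod_insert (by decide),
    Finset.prod_singleton, mul_assoc]

lemma Pe_one : Pe ℂ 1 = Xf ℂ 0 * Xf ℂ 2 * Xf ℂ 3 := by
  have : (Finset.univ.erase (1 : Fin 4)) = {0, 2, 3} := by decide
  rw [Pe, this, Finset.prod_insert (by decide), Finset.prod_insert (by decide),
    Finset.prod_singleton, mul_assoc]

lemma PP4_eq : PP4 ℂ = Xf ℂ 0 * Xf ℂ 1 * Xf ℂ 2 * Xf ℂ 3 := by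
  rw [PP4, Fin.prod_univ_four]

lemma aa0 : ((aa 0 : ℤ) : ℂ) = -1 := by simp [aa]
lemma aa1 : ((aa 1 : ℤ) : ℂ) = 2 := by simp [aa]
lemma aa2 : ((aa 2 : ℤ) : ℂ) = 1 := by simp [aa]
lemma aa3 : ((aa 3 : ℤ) : ℂ) = 0 := by simp [aa]

lemma Xf_ne (i : Fin 4) : Xf ℂ i ≠ 0 := by
  rw [Xf_eq]
  exact lin_ne 0 _

lemma Vy_ne : Vy ℂ ≠ 0 := ne_of_ev 0 5 (by rw [ev_Vy]; norm_num)
lemma Uy_ne : Uy ℂ ≠ 0 := ne_of_ev 0 5 (by rw [ev_Uy]; norm_num)
lemma Ul_ne (c : ℂ) : Ul c ≠ 0 := ne_of_ev 0 0 (by rw [ev_Ul]; norm_num)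

/-- the equation between two expressions of the same fraction -/
lemma cross (w G H e0 m1 n1 d1 n2 d2 : FractionRing (Sk ℂ)) (r j l : ℕ)
    (he0 : e0 ≠ 0) (hm1 : m1 ≠ 0) (hd1 : d1 ≠ 0) (hd2 : d2 ≠ 0)
    (h2 : w * (n2 / d2) ^ r = G / e0 ^ j) (h1 : w * (n1 / d1) ^ r = H / m1 ^ l) :
    G * m1 ^ l * (n1 ^ r * d2 ^ r) = H * e0 ^ j * (n2 ^ r * d1 ^ r) := by
  have h3 : G / e0 ^ j * (n1 / d1) ^ r = H / m1 ^ l * (n2 / d2) ^ r := by
    rw [← h2, ← h1]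
    ring
  have h4 : e0 ^ j ≠ 0 := pow_ne_zero _ he0
  have h5 : m1 ^ l ≠ 0 := pow_ne_zero _ hm1
  have h6 : d1 ^ r ≠ 0 := pow_ne_zero _ hd1
  have h7 : d2 ^ r ≠ 0 := pow_ne_zero _ hd2
  rw [div_pow, div_pow, div_mul_div_comm, div_mul_div_comm,
    div_eq_div_iff (mul_ne_zero h4 h6) (mul_ne_zero h5 h7)] at h3
  linear_combination h3

end NS_

open NS_ in
theorem tNS : T_NF → T_NS := by
  intro _ c hc r hr w hw j G hG hwG
  set cc : ℂ := (c : ℂ) with hcc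
  have hc0 : cc ≠ 0 := c.ne_zero
  obtain ⟨j1, G1, hG1, hw1⟩ := hw (3 : Fin 6)
  obtain ⟨l, H, hH, hwH⟩ := hw (1 : Fin 6)
  have inj := IsFractionRing.injective (Sk ℂ) (FractionRing (Sk ℂ))
  have hne : ∀ f : Sk ℂ, f ≠ 0 → algebraMap (Sk ℂ) (FractionRing (Sk ℂ)) f ≠ 0 := by
    intro f hf h0
    apply hf
    apply inj
    rw [h0, map_zero]
  have hX := Xf_ne
  have hV := Vy_ne
  have hU := Uy_ne
  have hUl := Ul_ne cc
  have he0 : ee cc 0 ≠ 0 := by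
    rw [ee, Pe_zero, Qf, if_pos rfl]
    exact mul_ne_zero (mul_ne_zero (mul_ne_zero (hX _) (hX _)) (hX _)) (mul_ne_zero hUl hV)
  have he1 : ee cc 1 ≠ 0 := by
    rw [ee, Pe_one, Qf, if_neg (by decide)]
    exact mul_ne_zero (mul_ne_zero (mul_ne_zero (hX _) (hX _)) (hX _)) (mul_ne_zero hU hV)
  have hP : PP4 ℂ ≠ 0 := by
    rw [PP4_eq]
    exact mul_ne_zero (mul_ne_zero (mul_ne_zero (hX _) (hX _)) (hX _)) (hX _)
  have hm1 : PP4 ℂ * (Ul cc * Uy ℂ) ≠ 0 := mul_ne_zero hP (mul_ne_zero hUl hU)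
  -- the two equations
  have E1 : G * (PP4 ℂ * (Ul cc * Uy ℂ)) ^ l * (Xf ℂ 1 * Ul cc) ^ r =
      H * (ee cc 0) ^ j * (Uy ℂ * Xf ℂ 2 * Xf ℂ 3) ^ r := by
    have h2 : w * (algebraMap (Sk ℂ) (FractionRing (Sk ℂ)) (Xf ℂ 0 * Vy ℂ) /
        algebraMap (Sk ℂ) (FractionRing (Sk ℂ)) (Ul cc)) ^ r =
        algebraMap (Sk ℂ) (FractionRing (Sk ℂ)) G /
          algebraMap (Sk ℂ) (FractionRing (Sk ℂ)) (ee cc 0) ^ j := hwG
    have h1 : w * (algebraMap (Sk ℂ) (FractionRing (Sk ℂ)) (Vy ℂ * Xf ℂ 0 * Xf ℂ 1) /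
        algebraMap (Sk ℂ) (FractionRing (Sk ℂ)) (Uy ℂ * Xf ℂ 2 * Xf ℂ 3)) ^ r =
        algebraMap (Sk ℂ) (FractionRing (Sk ℂ)) H /
          algebraMap (Sk ℂ) (FractionRing (Sk ℂ)) (PP4 ℂ * (Ul cc * Uy ℂ)) ^ l := hwH
    have h3 := cross _ _ _ _ _ _ _ _ _ r j l (hne _ he0) (hne _ hm1)
      (hne _ (mul_ne_zero (mul_ne_zero hU (hX 2)) (hX 3))) (hne _ hUl) h2 h1
    simp only [← map_pow, ← map_mul] at h3
    have h4 := inj h3
    apply mul_left_cancel₀ (pow_ne_zero r (mul_ne_zero hV (hX 0)))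
    calc (Vy ℂ * Xf ℂ 0) ^ r * (G * (PP4 ℂ * (Ul cc * Uy ℂ)) ^ l * (Xf ℂ 1 * Ul cc) ^ r)
        = G * (PP4 ℂ * (Ul cc * Uy ℂ)) ^ l * ((Vy ℂ * Xf ℂ 0 * Xf ℂ 1) ^ r * Ul cc ^ r) := by
          simp only [mul_pow]; ring
      _ = _ := h4
      _ = _ := by simp only [mul_pow]; ring
  have E2 : G1 * (PP4 ℂ * (Ul cc * Uy ℂ)) ^ l * (Xf ℂ 0) ^ r =
      H * (ee cc 1) ^ j1 * (Xf ℂ 2 * Xf ℂ 3) ^ r := by
    have h2 : w * (algebraMap (Sk ℂ) (FractionRing (Sk ℂ)) (Xf ℂ 1 * Vy ℂ) /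
        algebraMap (Sk ℂ) (FractionRing (Sk ℂ)) (Uy ℂ)) ^ r =
        algebraMap (Sk ℂ) (FractionRing (Sk ℂ)) G1 /
          algebraMap (Sk ℂ) (FractionRing (Sk ℂ)) (ee cc 1) ^ j1 := hw1
    have h1 : w * (algebraMap (Sk ℂ) (FractionRing (Sk ℂ)) (Vy ℂ * Xf ℂ 0 * Xf ℂ 1) /
        algebraMap (Sk ℂ) (FractionRing (Sk ℂ)) (Uy ℂ * Xf ℂ 2 * Xf ℂ 3)) ^ r =
        algebraMap (Sk ℂ) (FractionRing (Sk ℂ)) H /
          algebraMap (Sk ℂ) (FractionRing (Sk ℂ)) (PP4 ℂ * (Ul cc * Uy ℂ)) ^ l := hwH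
    have h3 := cross _ _ _ _ _ _ _ _ _ r j1 l (hne _ he1) (hne _ hm1)
      (hne _ (mul_ne_zero (mul_ne_zero hU (hX 2)) (hX 3))) (hne _ hU) h2 h1
    simp only [← map_pow, ← map_mul] at h3
    have h4 := inj h3
    apply mul_left_cancel₀ (pow_ne_zero r (mul_ne_zero (mul_ne_zero hV (hX 1)) hU))
    calc (Vy ℂ * Xf ℂ 1 * Uy ℂ) ^ r * (G1 * (PP4 ℂ * (Ul cc * Uy ℂ)) ^ l * (Xf ℂ 0) ^ r)
        = G1 * (PP4 ℂ * (Ul cc * Uy ℂ)) ^ l * ((Vy ℂ * Xf ℂ 0 * Xf ℂ 1) ^ r * Uy ℂ ^ r) := by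
          simp only [mul_pow]; ring
      _ = _ := h4
      _ = _ := by simp only [mul_pow]; ring
  -- constants
  obtain ⟨A0, hA0⟩ := span_lemma (evS 0 ((aa 0 : ℤ) : ℂ)) cc _ (gens_fact0 cc 0) j G hG
  obtain ⟨A1, hA1⟩ := span_lemma (evS 0 ((aa 1 : ℤ) : ℂ)) cc _ (gens_fact0 cc 1) j1 G1 hG1
  -- the values of `H`
  have hB : ∀ b : ℂ, (b = 0 ∨ b = 1) → ∃ B : ℂ,
      evS 1 b H = MvPolynomial.C B * (evS 1 b (PP4 ℂ * (Ul cc * Uy ℂ))) ^ l := by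
    intro b hb
    have hVb : evS 1 b (Vy ℂ) = 0 := by
      rw [Vy, map_mul, map_sub, evS_self, map_one]
      rcases hb with rfl | rfl <;> simp
    obtain ⟨B', hB'⟩ := span_lemma (evS 1 b) cc _ (gens_fact1 cc b hVb) l H hH
    have hPb : evS 1 b (PP4 ℂ) = PP4 ℂ := by
      rw [PP4, map_prod]
      exact Finset.prod_congr rfl (fun i _ => evS1_Xf b i)
    have hu : evS 1 b (Ul cc * Uy ℂ) =
        MvPolynomial.C ((((2 * cc - 1) * b + 1) * (b - 2)) * ((b + 1) * (b - 2))) := by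
      rw [Ul, Uy]
      simp only [map_mul, map_sub, map_add, map_one, evS_self, evS_C]
      have h2 : evS 1 b (2 : Sk ℂ) = MvPolynomial.C 2 := by
        rw [map_ofNat]
        rfl
      rw [h2]
    obtain ⟨u, hu'⟩ : ∃ u : ℂ, u = (((2 * cc - 1) * b + 1) * (b - 2)) * ((b + 1) * (b - 2)) :=
      ⟨_, rfl⟩
    rw [← hu'] at hu
    have hu0 : u ≠ 0 := by
      rw [hu']
      rcases hb with rfl | rfl
      · norm_num
      · have : ((2 * cc - 1) * 1 + 1) * (1 - 2) * ((1 + 1) * (1 - 2)) = 4 * cc := by ring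
        rw [this]
        exact mul_ne_zero (by norm_num) hc0
    refine ⟨B' / u ^ l, ?_⟩
    rw [hB', map_mul, hPb, hu, mul_pow, ← map_pow, mul_comm (PP4 ℂ ^ l), ← mul_assoc,
      ← map_mul, div_mul_cancel₀ _ (pow_ne_zero l hu0)]
  obtain ⟨B0, hB0⟩ := hB 0 (Or.inl rfl)
  obtain ⟨B1, hB1⟩ := hB 1 (Or.inr rfl)
  -- factorisations
  have hPf0 : PP4 ℂ * (Ul cc * Uy ℂ) = (MvPolynomial.X 0 - MvPolynomial.C ((aa 0 : ℤ) : ℂ)) *
      (Xf ℂ 1 * Xf ℂ 2 * Xf ℂ 3 * (Ul cc * Uy ℂ)) := by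
    rw [PP4_eq, ← Xf_eq]; ring
  have hPf1 : PP4 ℂ * (Ul cc * Uy ℂ) = (MvPolynomial.X 0 - MvPolynomial.C ((aa 1 : ℤ) : ℂ)) *
      (Xf ℂ 0 * Xf ℂ 2 * Xf ℂ 3 * (Ul cc * Uy ℂ)) := by
    rw [PP4_eq, ← Xf_eq]; ring
  have hV0 : Vy ℂ = (MvPolynomial.X 1 - MvPolynomial.C 0) * (yy ℂ - 1) := by
    rw [Vy, MvPolynomial.C_0, sub_zero]; ring
  have hV1 : Vy ℂ = (MvPolynomial.X 1 - MvPolynomial.C 1) * yy ℂ := by
    rw [Vy, MvPolynomial.C_1]
  have he00 : ee cc 0 = (MvPolynomial.X 1 - MvPolynomial.C 0) *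
      ((yy ℂ - 1) * (Xf ℂ 1 * Xf ℂ 2 * Xf ℂ 3) * Ul cc) := by
    rw [ee, Pe_zero, Qf, if_pos rfl, hV0]; ring
  have he01 : ee cc 0 = (MvPolynomial.X 1 - MvPolynomial.C 1) *
      (yy ℂ * (Xf ℂ 1 * Xf ℂ 2 * Xf ℂ 3) * Ul cc) := by
    rw [ee, Pe_zero, Qf, if_pos rfl, hV1]; ring
  have he10 : ee cc 1 = (MvPolynomial.X 1 - MvPolynomial.C 0) *
      ((yy ℂ - 1) * (Xf ℂ 0 * Xf ℂ 2 * Xf ℂ 3) * Uy ℂ) := by
    rw [ee, Pe_one, Qf, if_neg (by decide), hV0]; ring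
  have he11 : ee cc 1 = (MvPolynomial.X 1 - MvPolynomial.C 1) *
      (yy ℂ * (Xf ℂ 0 * Xf ℂ 2 * Xf ℂ 3) * Uy ℂ) := by
    rw [ee, Pe_one, Qf, if_neg (by decide), hV1]; ring
  have hy : ∀ a b : ℂ, ev a b (yy ℂ) = b := ev_y
  have hy1 : ∀ a b : ℂ, ev a b (yy ℂ - 1) = b - 1 := by
    intro a b; rw [map_sub, hy, map_one]
  -- the four relations
  have R00 := bridge ((aa 0 : ℤ) : ℂ) 0 A0 B0 G H _ _ _ _ l j
    (by rw [← hPf0, ← he00]; exact E1) (by rw [← he00]; exact hA0) (by rw [← hPf0]; exact hB0)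
    (by simp only [map_mul, ev_Xf, ev_Ul, ev_Uy, aa0, aa1, aa2, aa3]; norm_num)
    (by simp only [map_mul, ev_Xf, ev_Ul, hy1, aa0, aa1, aa2, aa3]; norm_num)
    (by simp only [map_mul, map_pow, ev_Xf, ev_Ul, aa0, aa1]
        exact pow_ne_zero _ (by norm_num))
    (by simp only [map_mul, map_pow, ev_Xf, ev_Uy, aa0, aa2, aa3]
        exact pow_ne_zero _ (by norm_num))
  have R01 := bridge ((aa 0 : ℤ) : ℂ) 1 A0 B1 G H _ _ _ _ l j
    (by rw [← hPf0, ← he01]; exact E1) (by rw [← he01]; exact hA0) (by rw [← hPf0]; exact hB1)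
    (by simp only [map_mul, ev_Xf, ev_Ul, ev_Uy, aa0, aa1, aa2, aa3]; norm_num; exact hc0)
    (by simp only [map_mul, ev_Xf, ev_Ul, hy, aa0, aa1, aa2, aa3]; norm_num; exact hc0)
    (by simp only [map_mul, map_pow, ev_Xf, ev_Ul, aa0, aa1]
        exact pow_ne_zero _ (by norm_num; exact hc0))
    (by simp only [map_mul, map_pow, ev_Xf, ev_Uy, aa0, aa2, aa3]
        exact pow_ne_zero _ (by norm_num))
  have R10 := bridge ((aa 1 : ℤ) : ℂ) 0 A1 B0 G1 H _ _ _ _ l j1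
    (by rw [← hPf1, ← he10]; exact E2) (by rw [← he10]; exact hA1) (by rw [← hPf1]; exact hB0)
    (by simp only [map_mul, ev_Xf, ev_Ul, ev_Uy, aa0, aa1, aa2, aa3]; norm_num)
    (by simp only [map_mul, ev_Xf, ev_Uy, hy1, aa0, aa1, aa2, aa3]; norm_num)
    (by simp only [map_mul, map_pow, ev_Xf, ev_Ul, aa0, aa1]
        exact pow_ne_zero _ (by norm_num))
    (by simp only [map_mul, map_pow, ev_Xf, ev_Uy, aa1, aa2, aa3]
        exact pow_ne_zero _ (by norm_num))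
  have R11 := bridge ((aa 1 : ℤ) : ℂ) 1 A1 B1 G1 H _ _ _ _ l j1
    (by rw [← hPf1, ← he11]; exact E2) (by rw [← he11]; exact hA1) (by rw [← hPf1]; exact hB1)
    (by simp only [map_mul, ev_Xf, ev_Ul, ev_Uy, aa0, aa1, aa2, aa3]; norm_num; exact hc0)
    (by simp only [map_mul, ev_Xf, ev_Uy, hy, aa0, aa1, aa2, aa3]; norm_num)
    (by simp only [map_mul, map_pow, ev_Xf, ev_Ul, aa0, aa1]
        exact pow_ne_zero _ (by norm_num))
    (by simp only [map_mul, map_pow, ev_Xf, ev_Uy, aa1, aa2, aa3]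
        exact pow_ne_zero _ (by norm_num))
  have hBB : B0 = B1 := by
    simp only [map_mul, map_pow, ev_Xf, aa0, aa1, aa2, aa3] at R10 R11
    have h3 : (((2 : ℂ) - 1) * (2 - 0)) ^ r ≠ 0 := pow_ne_zero _ (by norm_num)
    apply mul_right_cancel₀ h3
    rw [← R10, ← R11]
  have hA00 : A0 = 0 := by
    simp only [map_mul, map_pow, ev_Xf, ev_Ul, ev_Uy, aa0, aa1, aa2, aa3] at R00 R01
    rw [hBB] at R00
    have h4 : ((-1 : ℂ) - 2) * (((2 * cc - 1) * 1 + 1) * (1 - 2)) = 6 * cc := by ring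
    have h5 : ((-1 : ℂ) - 2) * (((2 * cc - 1) * 0 + 1) * (0 - 2)) = 6 := by ring
    have h6 : ((1 : ℂ) + 1) * (1 - 2) * (-1 - 1) * (-1 - 0) = -4 := by norm_num
    have h7 : ((0 : ℂ) + 1) * (0 - 2) * (-1 - 1) * (-1 - 0) = -4 := by norm_num
    rw [h4, h6] at R01
    rw [h5, h7] at R00
    rw [mul_pow] at R01
    have h8 : A0 * (6 : ℂ) ^ r * (cc ^ r - 1) = 0 := by
      linear_combination R01 - R00
    have h9 : cc ^ r - 1 ≠ 0 := by
      intro h0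
      apply hc r hr
      apply Units.ext
      rw [Units.val_pow_eq_pow_val, Units.val_one]
      exact sub_eq_zero.1 h0
    rcases mul_eq_zero.1 h8 with h10 | h10
    · rcases mul_eq_zero.1 h10 with h11 | h11
      · exact h11
      · exact absurd h11 (pow_ne_zero _ (by norm_num))
    · exact absurd h10 h9
  have hG0 : evS 0 ((aa 0 : ℤ) : ℂ) G = 0 := by
    rw [hA0, hA00, MvPolynomial.C_0, zero_mul]
  have hcomp : evx.comp (evS 0 ((aa 0 : ℤ) : ℂ)) = evx := by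
    apply MvPolynomial.algHom_ext
    intro i
    fin_cases i
    · show evx (evS 0 _ (MvPolynomial.X 0)) = evx (MvPolynomial.X 0)
      rw [evS_self, aa0]
      simp [evx, MvPolynomial.algebraMap_eq]
    · show evx (evS 0 _ (MvPolynomial.X 1)) = evx (MvPolynomial.X 1)
      rw [evS_ne _ (by decide)]
  have h20 := DFunLike.congr_fun hcomp G
  rw [AlgHom.comp_apply, hG0, map_zero] at h20
  exact h20.symm

end Pool.Agent.KCY
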