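import Pool.Agent.KCY.Targets

/-!
# Criterion for not being semi-ample (job KCY-NSEM)
-/

open AlgebraicGeometry CategoryTheory Polynomial

namespace Pool.Agent.KCY

open Rees

namespace NSEM_

variable {k S : Type} [CommRing k] [CommRing S] [Algebra k S] (M : Submodule k S)

theorem dplus_congr {n n' : ℕ} (h : n = n') (G : S) (hG : G ∈ M ^ n) (hG' : G ∈ M ^ n') :
    dplus M n G hG = dplus M n' G hG' := by
  subst h
  rfl

/-- The basic open of a nonzero element contains the generic point. -/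
theorem generic_mem [IsDomain S] [IsIntegral (PX M)] (m : S) (hm : m ∈ M ^ 1) (h0 : m ≠ 0) :
    genericPoint (PX M) ∈ dplus M 1 m hm := by
  have hdom : IsDomain (alg M) := inferInstance
  have hne : el M 1 m hm ≠ 0 := by
    intro h
    have h1 := congrArg (fun F : alg M => (F : S[X]).coeff 1) h
    simp only [coe_el, Polynomial.coeff_monomial, if_true] at h1
    exact h0 h1
  have hprime : (⊥ : HomogeneousIdeal (gr M)).toIdeal.IsPrime := by
    rw [HomogeneousIdeal.toIdeal_bot]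
    exact Ideal.isPrime_bot
  have hirr : ¬ HomogeneousIdeal.irrelevant (gr M) ≤ ⊥ := by
    intro h
    have h1 := h (HomogeneousIdeal.mem_irrelevant_of_mem (gr M) one_pos (el_mem M 1 m hm))
    exact hne h1
  let y : PX M := (⟨⊥, hprime, hirr⟩ : ProjectiveSpectrum (gr M))
  have hy : y ∈ dplus M 1 m hm := by
    change el M 1 m hm ∉ (⊥ : HomogeneousIdeal (gr M))
    intro h
    exact hne h
  exact (genericPoint_specializes y).mem_open (dplus M 1 m hm).2 hy

/-- A section over an open of the data is a fraction. -/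
theorem key [IsDomain S] [IsIntegral (PX M)] (hF : T_FSURJ) (Φ : FracHom M) (m : S)
    (hm : m ∈ M ^ 1) (h0 : m ≠ 0) (U : (PX M).Opens) (hU : U = dplus M 1 m hm)
    (s : Γ(PX M, U)) (hg : genericPoint (PX M) ∈ U) :
    ∃ (j : ℕ) (G : S) (hG : G ∈ M ^ j),
      Φ.ψ ((PX M).presheaf.germ U (genericPoint (PX M)) hg s) =
        algebraMap S (FractionRing S) G / algebraMap S (FractionRing S) m ^ j ∧
      ∀ x : PX M, x ∈ (PX M).basicOpen s → x ∈ dplus M 1 m hm ∧ x ∈ dplus M j G hG := by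
  subst hU
  obtain ⟨hsurj, hbas⟩ := hF k S M 1 m hm one_pos
  obtain ⟨j, G, hG, rfl⟩ := hsurj s
  have hG' : G ∈ M ^ j := by rwa [mul_one] at hG
  refine ⟨j, G, hG', Φ.eval 1 m hm one_pos h0 j G hG hg, ?_⟩
  intro x hx
  rw [hbas j G hG] at hx
  refine ⟨hx.1, ?_⟩
  rw [dplus_congr M (mul_one j).symm G hG' hG]
  exact hx.2

end NSEM_

open NSEM_ in
theorem tNSEM : T_FSURJ → T_NSEM := by
  intro hF k S _ _ _ _ M _ D Φ L hm hnum hden hrep x0 H hL
  obtain ⟨e, hU, hgl⟩ := hrep
  obtain ⟨r, hr, hsec⟩ := hL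
  obtain ⟨t, i', hi'⟩ := hsec x0
  obtain ⟨i0, rfl⟩ := e.surjective i'
  have hφ : ∀ i, D.φ i ≠ 0 := by
    intro i
    unfold LBData.φ
    exact div_ne_zero
      (fun h => hnum i ((IsFractionRing.to_map_eq_zero_iff (K := FractionRing S)).1 h))
      (fun h => hden i ((IsFractionRing.to_map_eq_zero_iff (K := FractionRing S)).1 h))
  have hgen : ∀ i, genericPoint (PX M) ∈ L.U (e i) := by
    intro i
    rw [hU i]
    exact generic_mem M (D.m i) (D.mem i) (hm i)
  set v : D.ι → FractionRing S := fun i =>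
    Φ.ψ ((PX M).presheaf.germ (L.U (e i)) (genericPoint (PX M)) (hgen i) (t.s (e i))) with hv
  have hcomp : ∀ i j, v i = (D.φ i / D.φ j) ^ r * v j := by
    intro i j
    have hij : genericPoint (PX M) ∈ L.U (e i) ⊓ L.U (e j) := ⟨hgen i, hgen j⟩
    have h1 := congrArg (fun a => Φ.ψ ((PX M).presheaf.germ (L.U (e i) ⊓ L.U (e j))
      (genericPoint (PX M)) hij a)) (t.compat (e i) (e j))
    simp only [map_mul, map_pow] at h1
    rw [hgl i j hij] at h1
    rw [TopCat.Presheaf.germ_res_apply, TopCat.Presheaf.germ_res_apply] at h1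
    exact h1
  have hw : ∀ i, v i0 / D.φ i0 ^ r * D.φ i ^ r = v i := by
    intro i
    rw [hcomp i i0, div_pow]
    field_simp
  have hkey := fun i => key M hF Φ (D.m i) (D.mem i) (hm i) (L.U (e i)) (hU i) (t.s (e i)) (hgen i)
  obtain ⟨j, G, hG, h1, h2⟩ := hkey i0
  obtain ⟨h3, h4⟩ := h2 x0 hi'
  refine H r hr (v i0 / D.φ i0 ^ r) ?_ i0 h3 j G hG ?_ h4
  · intro i
    obtain ⟨j', G', hG', h1', -⟩ := hkey i
    exact ⟨j', G', hG', by rw [hw i]; exact h1'⟩
  · rw [hw i0]
    exact h1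

end Pool.Agent.KCY
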