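import Pool.Agent.KCY.Targets

/-!
Points of `PX M` from ring homomorphisms.
-/

open AlgebraicGeometry CategoryTheory Polynomial

namespace Pool.Agent.KCY

open Rees

namespace PointPf

variable {k S D : Type} [CommRing k] [CommRing S] [Algebra k S] [CommRing D]
  (M : Submodule k S) (τ : S →+* D)

/-- The ring homomorphism `⊕ Mⁿ Tⁿ → D[T]`. -/
noncomputable def theta : alg M →+* D[X] :=
  (Polynomial.mapRingHom τ).comp ((alg M).val : alg M →+* S[X])

theorem theta_apply (F : alg M) : theta M τ F = (F : S[X]).map τ := rfl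

theorem theta_el (n : ℕ) (G : S) (hG : G ∈ M ^ n) :
    theta M τ (el M n G hG) = monomial n (τ G) := by
  rw [theta_apply, coe_el, Polynomial.map_monomial]

theorem theta_el_eq_zero (n : ℕ) (G : S) (hG : G ∈ M ^ n) :
    theta M τ (el M n G hG) = 0 ↔ τ G = 0 := by
  rw [theta_el, Polynomial.monomial_eq_zero_iff]

theorem homog : (RingHom.ker (theta M τ)).IsHomogeneous (gr M) := by
  intro i F hF
  have h1 : ((DirectSum.decompose (gr M) F i : gr M i) : alg M) =
      el M i ((F : S[X]).coeff i) (F.2 i) := by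
    change ((dec M F i : gr M i) : alg M) = _
    rw [dec_apply]
    rfl
  rw [h1, RingHom.mem_ker, theta_el_eq_zero]
  rw [RingHom.mem_ker, theta_apply] at hF
  have h2 := congrArg (fun P : D[X] => P.coeff i) hF
  simpa using h2

end PointPf

open PointPf in
theorem tPOINT : T_POINT := by
  intro k S D _ _ _ _ _ M τ hG0
  obtain ⟨G0, hG0M, hG0⟩ := hG0
  have h1 : G0 ∈ M ^ 1 := by rw [pow_one]; exact hG0M
  refine ⟨{ asHomogeneousIdeal := ⟨RingHom.ker (theta M τ), homog M τ⟩
            isPrime := RingHom.ker_isPrime _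
            not_irrelevant_le := ?_ }, ?_⟩
  · intro h
    have h2 : el M 1 G0 h1 ∈ HomogeneousIdeal.irrelevant (gr M) := by
      rw [HomogeneousIdeal.mem_irrelevant_iff]
      change (DirectSum.decompose (gr M) (el M 1 G0 h1) 0 : alg M) = 0
      exact DirectSum.decompose_of_mem_ne (gr M) (el_mem M 1 G0 h1) one_ne_zero
    have h3 : el M 1 G0 h1 ∈ RingHom.ker (theta M τ) := h h2
    rw [RingHom.mem_ker, theta_el_eq_zero] at h3
    exact hG0 h3
  · intro n G hG
    change ¬ (el M n G hG ∈ RingHom.ker (theta M τ)) ↔ τ G ≠ 0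
    rw [RingHom.mem_ker, theta_el_eq_zero]

end Pool.Agent.KCY
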