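import Pool.Agent.KCY.Targets

/-!
`PX M` is a closed subscheme of projective space (target `T_PROJ`).
-/

open AlgebraicGeometry CategoryTheory Polynomial HomogeneousLocalization Limits
open scoped HomogeneousIdeal

namespace Pool.Agent.KCY

open Rees

namespace ProjPf

attribute [local instance] MvPolynomial.gradedAlgebra

variable {S : Type} [CommRing S] [Algebra ℂ S] {M : Submodule ℂ S} {N : ℕ}
  {v : Fin (N + 1) → S}

/-- The homomorphism `X_i ↦ v_i T`. -/
noncomputable def phi (hv : ∀ i, v i ∈ M ^ 1) : MvPolynomial (Fin (N + 1)) ℂ →ₐ[ℂ] alg M :=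
  MvPolynomial.aeval fun i => el M 1 (v i) (hv i)

theorem phi_mem (hv : ∀ i, v i ∈ M ^ 1) {n : ℕ} {F : MvPolynomial (Fin (N + 1)) ℂ}
    (hF : F ∈ MvPolynomial.homogeneousSubmodule (Fin (N + 1)) ℂ n) : phi hv F ∈ gr M n := by
  rw [MvPolynomial.mem_homogeneousSubmodule] at hF
  rw [F.as_sum, map_sum]
  refine Submodule.sum_mem _ fun d hd => ?_
  rw [phi, MvPolynomial.aeval_monomial, ← Algebra.smul_def]
  refine Submodule.smul_mem _ _ ?_
  have h1 : ∑ i ∈ d.support, d i = n := by
    have h2 := hF (MvPolynomial.mem_support_iff.mp hd)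
    have h3 : Finsupp.degree d = n :=
      (congrArg (fun q => q d) (Finsupp.degree_eq_weight_one (σ := Fin (N + 1)) (R := ℕ))).trans h2
    exact h3
  rw [← h1]
  change ∏ i ∈ d.support, el M 1 (v i) (hv i) ^ (d i) ∈ _
  refine SetLike.prod_mem_graded (gr M) _ _ ?_
  intro i hi
  have := SetLike.pow_mem_graded (A := gr M) (d i) (el_mem M 1 (v i) (hv i))
  simpa using this

/-- The graded homomorphism. -/
noncomputable def Phi (hv : ∀ i, v i ∈ M ^ 1) :
    MvPolynomial.homogeneousSubmodule (Fin (N + 1)) ℂ →+*ᵍ gr M where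
  toFun F := phi hv F
  map_one' := map_one _
  map_mul' a b := map_mul _ a b
  map_zero' := map_zero _
  map_add' a b := map_add _ a b
  map_mem := by
    intro n F hF
    exact phi_mem hv hF

theorem Phi_apply (hv : ∀ i, v i ∈ M ^ 1) (F : MvPolynomial (Fin (N + 1)) ℂ) :
    Phi hv F = phi hv F := rfl

theorem lift (hv : ∀ i, v i ∈ M ^ 1) (hM : M = Submodule.span ℂ (Set.range v)) (n : ℕ)
    {G : S} (hG : G ∈ M ^ n) :
    ∃ F ∈ MvPolynomial.homogeneousSubmodule (Fin (N + 1)) ℂ n, phi hv F = el M n G hG := by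
  have key : ∀ G ∈ M ^ n, ∃ F ∈ MvPolynomial.homogeneousSubmodule (Fin (N + 1)) ℂ n,
      (phi hv F : S[X]) = monomial n G := by
    clear hG G
    induction n with
    | zero =>
      intro G hG
      rw [pow_zero] at hG
      obtain ⟨c, rfl⟩ := Submodule.mem_one.mp hG
      refine ⟨MvPolynomial.C c, MvPolynomial.isHomogeneous_C _ c, ?_⟩
      have : phi hv (MvPolynomial.C c) = algebraMap ℂ (alg M) c := MvPolynomial.aeval_C _ c
      rw [this]
      change algebraMap ℂ S[X] c = _
      rw [Polynomial.algebraMap_apply, Polynomial.monomial_zero_left]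
    | succ n ih =>
      intro G hG
      rw [pow_succ] at hG
      induction hG using Submodule.mul_induction_on' with
      | mem_mul_mem a ha b hb =>
        obtain ⟨A, hA, eA⟩ := ih a ha
        have hb1 : ∃ B ∈ MvPolynomial.homogeneousSubmodule (Fin (N + 1)) ℂ 1,
            (phi hv B : S[X]) = monomial 1 b := by
          rw [hM] at hb
          induction hb using Submodule.span_induction with
          | mem x hx =>
            obtain ⟨i, rfl⟩ := hx
            refine ⟨MvPolynomial.X i, MvPolynomial.isHomogeneous_X _ i, ?_⟩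
            have : phi hv (MvPolynomial.X i) = el M 1 (v i) (hv i) := MvPolynomial.aeval_X _ i
            rw [this, coe_el]
          | zero => exact ⟨0, Submodule.zero_mem _, by simp⟩
          | add x y _ _ hx hy =>
            obtain ⟨X, hX, eX⟩ := hx
            obtain ⟨Y, hY, eY⟩ := hy
            refine ⟨X + Y, Submodule.add_mem _ hX hY, ?_⟩
            rw [map_add, map_add, ← eX, ← eY]
            rfl
          | smul c x _ hx =>
            obtain ⟨X, hX, eX⟩ := hx
            refine ⟨c • X, Submodule.smul_mem _ c hX, ?_⟩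
            rw [map_smul, ← Polynomial.smul_monomial, ← eX]
            rfl
        obtain ⟨B, hB, eB⟩ := hb1
        refine ⟨A * B, ?_, ?_⟩
        · exact MvPolynomial.IsHomogeneous.mul hA hB
        · rw [map_mul]
          change (phi hv A : S[X]) * (phi hv B : S[X]) = _
          rw [eA, eB, Polynomial.monomial_mul_monomial]
      | add a _ b _ ha hb =>
        obtain ⟨X, hX, eX⟩ := ha
        obtain ⟨Y, hY, eY⟩ := hb
        refine ⟨X + Y, Submodule.add_mem _ hX hY, ?_⟩
        rw [map_add, map_add, ← eX, ← eY]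
        rfl
  obtain ⟨F, hF, e⟩ := key G hG
  exact ⟨F, hF, Subtype.ext (e.trans (coe_el M n G hG).symm)⟩

theorem irr (hv : ∀ i, v i ∈ M ^ 1) (hM : M = Submodule.span ℂ (Set.range v)) :
    HomogeneousIdeal.irrelevant (gr M) ≤
      (HomogeneousIdeal.irrelevant
        (MvPolynomial.homogeneousSubmodule (Fin (N + 1)) ℂ)).map (Phi hv) := by
  rw [HomogeneousIdeal.irrelevant_le]
  intro i hi F hF
  obtain ⟨G, hG, e1⟩ := lift hv hM i (F.2 i)
  have e2 : F = Phi hv G := by
    rw [Phi_apply, e1]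
    exact eq_el hF
  rw [e2]
  exact Ideal.mem_map_of_mem _ (HomogeneousIdeal.mem_irrelevant_of_mem _ hi hG)

theorem map_surj (hv : ∀ i, v i ∈ M ^ 1) (hM : M = Submodule.span ℂ (Set.range v)) {d : ℕ}
    {f : MvPolynomial (Fin (N + 1)) ℂ}
    (hf : f ∈ MvPolynomial.homogeneousSubmodule (Fin (N + 1)) ℂ d) :
    Function.Surjective (Away.map (Phi hv) f :
      Away (MvPolynomial.homogeneousSubmodule (Fin (N + 1)) ℂ) f →+*
        Away (gr M) (Phi hv f)) := by
  intro x
  obtain ⟨n, a, ha, rfl⟩ := Away.mk_surjective (gr M) ((Phi hv).map_mem hf) x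
  obtain ⟨G, hG, e1⟩ := lift hv hM (n • d) (a.2 (n • d))
  refine ⟨Away.mk _ hf n G hG, ?_⟩
  rw [Away.map_mk]
  congr 1
  rw [Phi_apply, e1]
  exact (eq_el ha).symm

/-- The ring map `ℂ → Away (gr M) f`. -/
noncomputable def sc (M : Submodule ℂ S) (f : alg M) : ℂ →+* Away (gr M) f :=
  (fromZeroRingHom (gr M) (Submonoid.powers f)).comp (algebraMap ℂ (gr M 0))

theorem awayι_str {i : ℕ} (hi : 0 < i) (f : alg M) (hf : f ∈ gr M i) :
    Proj.awayι (gr M) f hf hi ≫ str M = Spec.map (CommRingCat.ofHom (sc M f)) := by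
  rw [str, Proj.awayι_toSpecZero_assoc, ← Spec.map_comp]
  rfl

/-- The ring map `ℂ → Away f` for the polynomial ring. -/
noncomputable def scP (f : MvPolynomial (Fin (N + 1)) ℂ) :
    ℂ →+* Away (MvPolynomial.homogeneousSubmodule (Fin (N + 1)) ℂ) f :=
  (fromZeroRingHom (MvPolynomial.homogeneousSubmodule (Fin (N + 1)) ℂ)
    (Submonoid.powers f)).comp
      (algebraMap ℂ (MvPolynomial.homogeneousSubmodule (Fin (N + 1)) ℂ 0))

theorem awayι_PPstr {i : ℕ} (hi : 0 < i) (f : MvPolynomial (Fin (N + 1)) ℂ)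
    (hf : f ∈ MvPolynomial.homogeneousSubmodule (Fin (N + 1)) ℂ i) :
    Proj.awayι (MvPolynomial.homogeneousSubmodule (Fin (N + 1)) ℂ) f hf hi ≫ PPstr N =
      Spec.map (CommRingCat.ofHom (scP f)) := by
  have h := Proj.awayι_toSpecZero (MvPolynomial.homogeneousSubmodule (Fin (N + 1)) ℂ) f hf hi
  exact (Category.assoc _ _ _).symm.trans ((congrArg (fun q => q ≫ Spec.map (CommRingCat.ofHom
    (algebraMap ℂ (MvPolynomial.homogeneousSubmodule (Fin (N + 1)) ℂ 0)))) h).trans
      (Spec.map_comp _ _).symm)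

theorem sc_comm (hv : ∀ i, v i ∈ M ^ 1) (f : MvPolynomial (Fin (N + 1)) ℂ) (r : ℂ) :
    Away.map (Phi hv) f (scP f r) = sc M (Phi hv f) r := by
  have h1 : (Phi hv) (algebraMap ℂ (MvPolynomial (Fin (N + 1)) ℂ) r) =
      algebraMap ℂ (alg M) r := by
    rw [Phi_apply]
    exact (phi hv).commutes r
  have h2 : scP f r = HomogeneousLocalization.mk
    ⟨0, algebraMap ℂ (MvPolynomial.homogeneousSubmodule (Fin (N + 1)) ℂ 0) r, 1, one_mem _⟩ :=
    rfl
  have h3 : sc M (Phi hv f) r = HomogeneousLocalization.mk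
    ⟨0, algebraMap ℂ (gr M 0) r, 1, one_mem _⟩ := rfl
  rw [h2, h3]
  apply HomogeneousLocalization.val_injective
  rw [Away.map, HomogeneousLocalization.map_mk, HomogeneousLocalization.val_mk,
    HomogeneousLocalization.val_mk]
  congr 1
  apply Subtype.ext
  change (Phi hv) (1 : MvPolynomial (Fin (N + 1)) ℂ) = 1
  exact map_one _

theorem closed (hv : ∀ i, v i ∈ M ^ 1) (hM : M = Submodule.span ℂ (Set.range v)) :
    IsClosedImmersion (Proj.map (Phi hv) (irr hv hM)) := by
  refine IsZariskiLocalAtTarget.of_openCover (P := @IsClosedImmersion)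
    (Proj.affineOpenCover (MvPolynomial.homogeneousSubmodule (Fin (N + 1)) ℂ)).openCover ?_
  rintro ⟨d, ⟨f, hf⟩⟩
  have h1 : IsPullback (Proj.awayι (gr M) (Phi hv f) ((Phi hv).map_mem hf) d.2)
      (Spec.map (CommRingCat.ofHom (Away.map (Phi hv) f)))
      (Proj.map (Phi hv) (irr hv hM))
      (Proj.awayι (MvPolynomial.homogeneousSubmodule (Fin (N + 1)) ℂ) f hf d.2) := by
    apply IsPullback.flip
    apply IsOpenImmersion.isPullback
    · exact Proj.awayι_comp_map (Phi hv) (irr hv hM) d.2 f hf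
    · rw [Proj.opensRange_awayι, Proj.opensRange_awayι]
      rfl
  have h2 : IsClosedImmersion (Spec.map (CommRingCat.ofHom (Away.map (Phi hv) f))) :=
    IsClosedImmersion.spec_of_surjective _ (map_surj hv hM hf)
  have h3 : IsClosedImmersion (h1.isoPullback.inv ≫
      Spec.map (CommRingCat.ofHom (Away.map (Phi hv) f))) := inferInstance
  rw [h1.isoPullback_inv_snd] at h3
  exact h3

theorem comp_str (hv : ∀ i, v i ∈ M ^ 1) (hM : M = Submodule.span ℂ (Set.range v)) :
    (Proj.map (Phi hv) (irr hv hM) : PX M ⟶ PP N) ≫ PPstr N = str M := by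
  refine (Proj.mapAffineOpenCover (Phi hv) (irr hv hM)).openCover.hom_ext _ _ ?_
  rintro ⟨d, ⟨f, hf⟩⟩
  have h2 : Proj.awayι (gr M) (Phi hv f) ((Phi hv).map_mem hf) d.2 ≫
      Proj.map (Phi hv) (irr hv hM) = Spec.map (CommRingCat.ofHom (Away.map (Phi hv) f)) ≫
      Proj.awayι (MvPolynomial.homogeneousSubmodule (Fin (N + 1)) ℂ) f hf d.2 :=
    Proj.awayι_comp_map (Phi hv) (irr hv hM) d.2 f hf
  have h3 : Spec.map (CommRingCat.ofHom (Away.map (Phi hv) f)) ≫
      Spec.map (CommRingCat.ofHom (scP f)) = Spec.map (CommRingCat.ofHom (sc M (Phi hv f))) := by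
    rw [← Spec.map_comp]
    congr 1
    refine CommRingCat.hom_ext (RingHom.ext fun r => ?_)
    exact sc_comm hv f r
  exact (Category.assoc _ _ _).symm.trans ((congrArg (fun q => q ≫ PPstr N) h2).trans
    ((Category.assoc _ _ _).trans ((congrArg (fun q => Spec.map (CommRingCat.ofHom
      (Away.map (Phi hv) f)) ≫ q) (awayι_PPstr d.2 f hf)).trans
        (h3.trans (awayι_str d.2 (Phi hv f) ((Phi hv).map_mem hf)).symm))))

theorem isProj (hv : ∀ i, v i ∈ M ^ 1) (hM : M = Submodule.span ℂ (Set.range v)) :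
    IsProjective (str M) :=
  ⟨N, Proj.map (Phi hv) (irr hv hM), closed hv hM, comp_str hv hM⟩

end ProjPf

open ProjPf in
theorem tPROJ : T_PROJ := by
  intro S _ _ _ M N v hM
  have hv : ∀ i, v i ∈ M ^ 1 := by
    intro i
    rw [pow_one, hM]
    exact Submodule.subset_span ⟨i, rfl⟩
  exact isProj hv hM

end Pool.Agent.KCY
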