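import Pool.Agent.KCY.Targets

/-!
`PX M` is proper over `k`, for a finitely generated submodule `M`.
-/

open AlgebraicGeometry CategoryTheory Polynomial

namespace Pool.Agent.KCY

open Rees

namespace PropPf

variable {k S : Type} [CommRing k] [CommRing S] [Algebra k S] (M : Submodule k S)

theorem el_mul {n m : ℕ} {a b : S} (ha : a ∈ M ^ n) (hb : b ∈ M ^ m) (hab : a * b ∈ M ^ (n + m)) :
    el M (n + m) (a * b) hab = el M n a ha * el M m b hb := by
  apply Subtype.ext
  change (el M (n + m) (a * b) hab : S[X]) = (el M n a ha : S[X]) * (el M m b hb : S[X])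
  rw [coe_el, coe_el, coe_el, Polynomial.monomial_mul_monomial]

theorem el_add {n : ℕ} {a b : S} (ha : a ∈ M ^ n) (hb : b ∈ M ^ n) (hab : a + b ∈ M ^ n) :
    el M n (a + b) hab = el M n a ha + el M n b hb := by
  apply Subtype.ext
  change (el M n (a + b) hab : S[X]) = (el M n a ha : S[X]) + (el M n b hb : S[X])
  rw [coe_el, coe_el, coe_el, map_add]

theorem el_smul {n : ℕ} (c : k) {a : S} (ha : a ∈ M ^ n) (hca : c • a ∈ M ^ n) :
    el M n (c • a) hca = c • el M n a ha := by
  apply Subtype.ext
  change (el M n (c • a) hca : S[X]) = c • (el M n a ha : S[X])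
  rw [coe_el, coe_el, Polynomial.smul_monomial]

theorem el_zero (n : ℕ) (h : (0 : S) ∈ M ^ n) : el M n 0 h = 0 := by
  apply Subtype.ext
  change (el M n 0 h : S[X]) = 0
  rw [coe_el, map_zero]

theorem el_algebraMap (c : k) (h : algebraMap k S c ∈ M ^ 0) :
    el M 0 (algebraMap k S c) h = algebraMap k (alg M) c := by
  apply Subtype.ext
  change (el M 0 (algebraMap k S c) h : S[X]) = algebraMap k S[X] c
  rw [coe_el, Polynomial.algebraMap_apply, Polynomial.monomial_zero_left]

theorem sum_el (F : alg M) :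
    F = ∑ i ∈ (F : S[X]).support, el M i ((F : S[X]).coeff i) (F.2 i) := by
  apply Subtype.ext
  rw [AddSubmonoidClass.coe_finsetSum]
  simp only [coe_el]
  exact (Polynomial.as_sum_support (F : S[X]))

/-- `alg M` is generated over `k` by the elements of degree one given by generators of `M`. -/
theorem adjoin_eq_top (s : Set S) (hs : Submodule.span k s = M) :
    Algebra.adjoin k {F : alg M | ∃ g ∈ s, ∃ h : g ∈ M ^ 1, F = el M 1 g h} = ⊤ := by
  set A := Algebra.adjoin k {F : alg M | ∃ g ∈ s, ∃ h : g ∈ M ^ 1, F = el M 1 g h} with hA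
  have h1 : ∀ (g : S) (h : g ∈ M ^ 1), el M 1 g h ∈ A := by
    intro g h
    have hg : g ∈ Submodule.span k s := by rw [hs]; rwa [pow_one] at h
    have key : ∀ g ∈ Submodule.span k s, ∃ h : g ∈ M ^ 1, el M 1 g h ∈ A := by
      intro g hg
      induction hg using Submodule.span_induction with
      | mem x hx =>
        have hx1 : x ∈ M ^ 1 := by rw [pow_one, ← hs]; exact Submodule.subset_span hx
        exact ⟨hx1, Algebra.subset_adjoin ⟨x, hx, hx1, rfl⟩⟩
      | zero =>
        refine ⟨Submodule.zero_mem _, ?_⟩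
        rw [el_zero]
        exact A.zero_mem
      | add x y _ _ hx hy =>
        obtain ⟨hx1, hx2⟩ := hx
        obtain ⟨hy1, hy2⟩ := hy
        refine ⟨Submodule.add_mem _ hx1 hy1, ?_⟩
        rw [el_add M hx1 hy1]
        exact A.add_mem hx2 hy2
      | smul c x _ hx =>
        obtain ⟨hx1, hx2⟩ := hx
        refine ⟨Submodule.smul_mem _ c hx1, ?_⟩
        rw [el_smul M c hx1]
        exact A.smul_mem hx2 c
    obtain ⟨h', h''⟩ := key g hg
    exact h''
  have h2 : ∀ (n : ℕ) (g : S) (h : g ∈ M ^ n), ∃ h : g ∈ M ^ n, el M n g h ∈ A := by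
    intro n
    induction n with
    | zero =>
      intro g h
      refine ⟨h, ?_⟩
      have h' := h
      rw [pow_zero] at h'
      obtain ⟨c, rfl⟩ := Submodule.mem_one.mp h'
      rw [el_algebraMap]
      exact A.algebraMap_mem c
    | succ n ih =>
      intro g h
      have h' := h
      rw [pow_succ] at h'
      induction h' using Submodule.mul_induction_on' with
      | mem_mul_mem a ha b hb =>
        have hb1 : b ∈ M ^ 1 := by rw [pow_one]; exact hb
        refine ⟨h, ?_⟩
        rw [el_mul M ha hb1 h]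
        obtain ⟨_, ha2⟩ := ih a ha
        exact A.mul_mem ha2 (h1 b hb1)
      | add a ha b hb iha ihb =>
        rw [← pow_succ] at ha hb
        obtain ⟨_, ha2⟩ := iha ha
        obtain ⟨_, hb2⟩ := ihb hb
        refine ⟨h, ?_⟩
        rw [el_add M ha hb h]
        exact A.add_mem ha2 hb2
  rw [eq_top_iff]
  intro F _
  rw [sum_el M F]
  refine A.sum_mem fun i _ => ?_
  obtain ⟨_, h⟩ := h2 i _ (F.2 i)
  exact h

theorem finiteType (hM : M.FG) : Algebra.FiniteType k (alg M) := by
  obtain ⟨s, hs⟩ := hM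
  refine ⟨?_⟩
  rw [Subalgebra.fg_def]
  refine ⟨{F : alg M | ∃ g ∈ (s : Set S), ∃ h : g ∈ M ^ 1, F = el M 1 g h}, ?_,
    adjoin_eq_top M s hs⟩
  have hsub : ∀ g ∈ (s : Set S), g ∈ M ^ 1 := by
    intro g hg
    rw [pow_one, ← hs]
    exact Submodule.subset_span hg
  have : {F : alg M | ∃ g ∈ (s : Set S), ∃ h : g ∈ M ^ 1, F = el M 1 g h} ⊆
      Set.range (fun g : (s : Set S) => el M 1 g.1 (hsub g.1 g.2)) := by
    rintro F ⟨g, hg, h, rfl⟩
    exact ⟨⟨g, hg⟩, rfl⟩
  exact (Set.finite_range _).subset this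

theorem surj_zero : Function.Surjective (algebraMap k (gr M 0)) := by
  intro F
  have h0 := (F : alg M).2 0
  rw [pow_zero] at h0
  obtain ⟨c, hc⟩ := Submodule.mem_one.mp h0
  refine ⟨c, ?_⟩
  apply Subtype.ext
  rw [eq_el F.2]
  have : algebraMap k S c ∈ M ^ 0 := by
    rw [pow_zero]; exact Submodule.algebraMap_mem c
  change algebraMap k (alg M) c = _
  rw [← el_algebraMap M c this]
  apply Subtype.ext
  rw [coe_el, coe_el, hc]

end PropPf

theorem tPROP : T_PROP := by
  intro k S _ _ _ M _ hM
  have h1 := PropPf.finiteType M hM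
  have h4 : IsScalarTower k (gr M 0) (alg M) :=
    ⟨fun c a F => smul_mul_assoc c (a : alg M) F⟩
  have h2 : Algebra.FiniteType (gr M 0) (alg M) :=
    Algebra.FiniteType.of_restrictScalars_finiteType k (gr M 0) (alg M)
  unfold str
  refine MorphismProperty.comp_mem @IsProper _ _ inferInstance ?_
  have h3 := IsClosedImmersion.spec_of_surjective
    (R := CommRingCat.of k) (S := CommRingCat.of (gr M 0))
    (CommRingCat.ofHom (algebraMap k (gr M 0))) (PropPf.surj_zero M)
  infer_instance

end Pool.Agent.KCY
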