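import Pool.Agent.KCY.Targets

/-!
For `c = 1` two sections of `L` generate it.
-/

open AlgebraicGeometry CategoryTheory Polynomial

namespace Pool.Agent.KCY

open Rees

namespace SaPf

section General

variable {k S : Type} [CommRing k] [CommRing S] [Algebra k S] {M : Submodule k S}

theorem mem_dplus {n : ℕ} {G : S} {hG : G ∈ M ^ n} (x : PX M) :
    x ∈ dplus M n G hG ↔ ¬ (el M n G hG ∈ x.asHomogeneousIdeal) := Iff.rfl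

theorem mem_dplus_one (h : (1 : S) ∈ M ^ 0) (x : PX M) : x ∈ dplus M 0 1 h := by
  rw [mem_dplus]
  intro hx
  have h1 : el M 0 1 h = 1 := by
    apply Subtype.ext
    rw [coe_el]
    simp
  rw [h1] at hx
  exact x.isPrime.ne_top ((Ideal.eq_top_iff_one _).mpr hx)

theorem mem_dplus_of_mul {m G G' : S} {hm : m ∈ M ^ 1} (hG : G ∈ M ^ 1) (hG' : G' ∈ M ^ 1)
    (h : G * G' = m * m) (x : PX M) (hx : x ∈ dplus M 1 m hm) : x ∈ dplus M 1 G hG := by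
  rw [mem_dplus] at hx ⊢
  intro hmem
  apply hx
  have h1 : el M 1 G hG * el M 1 G' hG' = el M 1 m hm * el M 1 m hm := by
    apply Subtype.ext
    change (el M 1 G hG : S[X]) * (el M 1 G' hG' : S[X]) =
      (el M 1 m hm : S[X]) * (el M 1 m hm : S[X])
    rw [coe_el, coe_el, coe_el, Polynomial.monomial_mul_monomial,
      Polynomial.monomial_mul_monomial, h]
  have h2 : el M 1 m hm * el M 1 m hm ∈ x.asHomogeneousIdeal.toIdeal := by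
    rw [← h1]
    exact Ideal.mul_mem_right _ _ hmem
  rcases x.isPrime.mem_or_mem h2 with h3 | h3 <;> exact h3

theorem frac_eq [IsDomain S] (W1 W2 N D G m : S) (j : ℕ) (hW2 : W2 ≠ 0) (hD : D ≠ 0)
    (hm : m ≠ 0) (h : W1 * N * m ^ j = G * (W2 * D)) :
    (algebraMap S (FractionRing S) W1 / algebraMap S (FractionRing S) W2) *
      (algebraMap S (FractionRing S) N / algebraMap S (FractionRing S) D) =
      algebraMap S (FractionRing S) G / algebraMap S (FractionRing S) m ^ j := by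
  have inj := IsFractionRing.injective S (FractionRing S)
  have hne : ∀ a : S, a ≠ 0 → algebraMap S (FractionRing S) a ≠ 0 := by
    intro a ha h0
    apply ha
    apply inj
    rw [h0, map_zero]
  rw [div_mul_div_comm, div_eq_div_iff (mul_ne_zero (hne _ hW2) (hne _ hD))
    (pow_ne_zero _ (hne _ hm)), ← map_mul, ← map_mul, ← map_pow, ← map_mul, ← map_mul, h]

end General

/-- the constant `1/6` -/
noncomputable def u : Sk ℂ := MvPolynomial.C (1 / 6)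

theorem hu : 6 * u = 1 := by
  unfold u
  have h : (MvPolynomial.C (6 : ℂ) : Sk ℂ) = 6 := map_ofNat _ 6
  rw [← h, ← map_mul]
  norm_num

theorem X0 : Xf ℂ 0 = xx ℂ + 1 := by simp [Xf, aa]
theorem X1 : Xf ℂ 1 = xx ℂ - 2 := by simp [Xf, aa]
theorem X2 : Xf ℂ 2 = xx ℂ - 1 := by simp [Xf, aa]
theorem X3 : Xf ℂ 3 = xx ℂ := by simp [Xf, aa]

theorem PPe : PP4 ℂ = (xx ℂ + 1) * (xx ℂ - 2) * (xx ℂ - 1) * xx ℂ := by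
  unfold PP4
  rw [Fin.prod_univ_four, X0, X1, X2, X3]

theorem Pe0 : Pe ℂ 0 = (xx ℂ - 2) * (xx ℂ - 1) * xx ℂ := by
  unfold Pe
  have : (Finset.univ.erase (0 : Fin 4)) = {1, 2, 3} := by decide
  rw [this, Finset.prod_insert (by decide), Finset.prod_insert (by decide),
    Finset.prod_singleton, X1, X2, X3]
  ring

theorem Pe1 : Pe ℂ 1 = (xx ℂ + 1) * (xx ℂ - 1) * xx ℂ := by
  unfold Pe
  have : (Finset.univ.erase (1 : Fin 4)) = {0, 2, 3} := by decide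
  rw [this, Finset.prod_insert (by decide), Finset.prod_insert (by decide),
    Finset.prod_singleton, X0, X2, X3]
  ring

theorem Pe2 : Pe ℂ 2 = (xx ℂ + 1) * (xx ℂ - 2) * xx ℂ := by
  unfold Pe
  have : (Finset.univ.erase (2 : Fin 4)) = {0, 1, 3} := by decide
  rw [this, Finset.prod_insert (by decide), Finset.prod_insert (by decide),
    Finset.prod_singleton, X0, X1, X3]
  ring

theorem Pe3 : Pe ℂ 3 = (xx ℂ + 1) * (xx ℂ - 2) * (xx ℂ - 1) := by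
  unfold Pe
  have : (Finset.univ.erase (3 : Fin 4)) = {0, 1, 2} := by decide
  rw [this, Finset.prod_insert (by decide), Finset.prod_insert (by decide),
    Finset.prod_singleton, X0, X1, X2]
  ring

theorem Ul1 : Ul (1 : ℂ) = Uy ℂ := by
  unfold Ul Uy
  have : (2 * 1 - 1 : ℂ) = 1 := by norm_num
  rw [this, map_one]
  ring

theorem ee0 : ee (1 : ℂ) 0 = Pe ℂ 0 * (Uy ℂ * Vy ℂ) := by
  unfold ee Qf
  rw [if_pos rfl, Ul1]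

theorem ee1 : ee (1 : ℂ) 1 = Pe ℂ 1 * (Uy ℂ * Vy ℂ) := by
  unfold ee Qf
  rw [if_neg (by decide)]

theorem ee2 : ee (1 : ℂ) 2 = Pe ℂ 2 * (Uy ℂ * Vy ℂ) := by
  unfold ee Qf
  rw [if_neg (by decide)]

theorem ee3 : ee (1 : ℂ) 3 = Pe ℂ 3 * (Uy ℂ * Vy ℂ) := by
  unfold ee Qf
  rw [if_neg (by decide)]

theorem PUV_mem : PP4 ℂ * (Uy ℂ * Vy ℂ) ∈ MM (1 : ℂ) := by
  have h := PPq_mem (1 : ℂ) (![0, 2, -1, -2, 1] : Fin 5 → ℂ)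
  have e : PP4 ℂ * ∑ j, MvPolynomial.C ((![0, 2, -1, -2, 1] : Fin 5 → ℂ) j) * yy ℂ ^ (j : ℕ) =
      PP4 ℂ * (Uy ℂ * Vy ℂ) := by
    have h2 : (MvPolynomial.C (2 : ℂ) : Sk ℂ) = 2 := map_ofNat _ 2
    simp [Fin.sum_univ_succ, Vy, Uy, h2]
    left
    ring
  rw [e] at h
  exact h

theorem PUU_mem : PP4 ℂ * (Uy ℂ * Uy ℂ) ∈ MM (1 : ℂ) := by
  have h := mm_mem (1 : ℂ) 1
  have e : mm (1 : ℂ) 1 = PP4 ℂ * (Ul (1 : ℂ) * Uy ℂ) := rfl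
  rw [e, Ul1] at h
  exact h

theorem PVV_mem : PP4 ℂ * Vy ℂ ^ 2 ∈ MM (1 : ℂ) := mm_mem (1 : ℂ) 0

theorem u_mul_mem {e : Sk ℂ} (he : e ∈ MM (1 : ℂ)) : u * e ∈ MM (1 : ℂ) := by
  unfold u
  rw [← MvPolynomial.smul_eq_C_mul]
  exact Submodule.smul_mem _ _ he

theorem n_mul_mem (n : ℕ) {e : Sk ℂ} (he : e ∈ MM (1 : ℂ)) : (n : Sk ℂ) * e ∈ MM (1 : ℂ) := by
  rw [← nsmul_eq_mul]
  exact nsmul_mem he n

/-- first section in the opens 1 -/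
theorem G1_mem : Uy ℂ * Vy ℂ * (Xf ℂ 0) ^ 2 * (Xf ℂ 1) ^ 2 ∈ MM (1 : ℂ) := by
  have h := Submodule.add_mem _ PUV_mem (Submodule.sub_mem _ (n_mul_mem 2 (ee_mem (1 : ℂ) 3))
    (n_mul_mem 2 (ee_mem (1 : ℂ) 2)))
  have e : PP4 ℂ * (Uy ℂ * Vy ℂ) + ((2 : ℕ) * ee (1 : ℂ) 3 - (2 : ℕ) * ee (1 : ℂ) 2) =
      Uy ℂ * Vy ℂ * (Xf ℂ 0) ^ 2 * (Xf ℂ 1) ^ 2 := by
    rw [ee2, ee3, PPe, Pe2, Pe3, X0, X1]
    push_cast
    ring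
  rw [e] at h
  exact h

theorem Gs_mem : Uy ℂ * Vy ℂ * (Xf ℂ 2) ^ 2 * (Xf ℂ 3) ^ 2 ∈ MM (1 : ℂ) := by
  have h := Submodule.add_mem _ PUV_mem (Submodule.sub_mem _
    (n_mul_mem 4 (u_mul_mem (ee_mem (1 : ℂ) 1))) (n_mul_mem 4 (u_mul_mem (ee_mem (1 : ℂ) 0))))
  have e : PP4 ℂ * (Uy ℂ * Vy ℂ) + ((4 : ℕ) * (u * ee (1 : ℂ) 1) - (4 : ℕ) * (u * ee (1 : ℂ) 0)) =
      Uy ℂ * Vy ℂ * (Xf ℂ 2) ^ 2 * (Xf ℂ 3) ^ 2 := by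
    rw [ee0, ee1, PPe, Pe0, Pe1, X2, X3]
    push_cast
    linear_combination (2 * Uy ℂ * Vy ℂ * (xx ℂ - 1) * xx ℂ) * hu
  rw [e] at h
  exact h

theorem Gi2_mem : Uy ℂ * Vy ℂ * (Xf ℂ 1) ^ 2 ∈ MM (1 : ℂ) := by
  have h := Submodule.sub_mem _ (Submodule.sub_mem _ (n_mul_mem 2 (ee_mem (1 : ℂ) 3))
    (n_mul_mem 3 (u_mul_mem (ee_mem (1 : ℂ) 2)))) (n_mul_mem 9 (u_mul_mem (ee_mem (1 : ℂ) 0)))
  have e : ((2 : ℕ) * ee (1 : ℂ) 3 - (3 : ℕ) * (u * ee (1 : ℂ) 2)) - (9 : ℕ) * (u * ee (1 : ℂ) 0) =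
      Uy ℂ * Vy ℂ * (Xf ℂ 1) ^ 2 := by
    rw [ee0, ee2, ee3, Pe0, Pe2, Pe3, X1]
    push_cast
    linear_combination (Uy ℂ * Vy ℂ * (xx ℂ - 2) * (-2 * xx ℂ ^ 2 + xx ℂ)) * hu
  rw [e] at h
  exact h

theorem Gi3_mem : Uy ℂ * Vy ℂ * (Xf ℂ 0) ^ 2 ∈ MM (1 : ℂ) := by
  have h := Submodule.add_mem _ (Submodule.sub_mem _ (n_mul_mem 9 (u_mul_mem (ee_mem (1 : ℂ) 1)))
    (n_mul_mem 2 (ee_mem (1 : ℂ) 2))) (n_mul_mem 3 (u_mul_mem (ee_mem (1 : ℂ) 3)))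
  have e : ((9 : ℕ) * (u * ee (1 : ℂ) 1) - (2 : ℕ) * ee (1 : ℂ) 2) + (3 : ℕ) * (u * ee (1 : ℂ) 3) =
      Uy ℂ * Vy ℂ * (Xf ℂ 0) ^ 2 := by
    rw [ee1, ee2, ee3, Pe1, Pe2, Pe3, X0]
    push_cast
    linear_combination (Uy ℂ * Vy ℂ * (xx ℂ + 1) * (2 * xx ℂ ^ 2 - 3 * xx ℂ + 1)) * hu
  rw [e] at h
  exact h

theorem H4_mem : Uy ℂ * Vy ℂ * (Xf ℂ 3) ^ 2 ∈ MM (1 : ℂ) := by
  have h := Submodule.sub_mem _ (Submodule.sub_mem _ (n_mul_mem 4 (u_mul_mem (ee_mem (1 : ℂ) 1)))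
    (n_mul_mem 3 (u_mul_mem (ee_mem (1 : ℂ) 2)))) (u_mul_mem (ee_mem (1 : ℂ) 0))
  have e : ((4 : ℕ) * (u * ee (1 : ℂ) 1) - (3 : ℕ) * (u * ee (1 : ℂ) 2)) - (u * ee (1 : ℂ) 0) =
      Uy ℂ * Vy ℂ * (Xf ℂ 3) ^ 2 := by
    rw [ee0, ee1, ee2, Pe0, Pe1, Pe2, X3]
    push_cast
    linear_combination (Uy ℂ * Vy ℂ * xx ℂ * xx ℂ) * hu
  rw [e] at h
  exact h

theorem H5_mem : Uy ℂ * Vy ℂ * (Xf ℂ 2) ^ 2 ∈ MM (1 : ℂ) := by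
  have h := Submodule.add_mem _ (Submodule.sub_mem _ (n_mul_mem 3 (u_mul_mem (ee_mem (1 : ℂ) 3)))
    (n_mul_mem 4 (u_mul_mem (ee_mem (1 : ℂ) 0)))) (u_mul_mem (ee_mem (1 : ℂ) 1))
  have e : ((3 : ℕ) * (u * ee (1 : ℂ) 3) - (4 : ℕ) * (u * ee (1 : ℂ) 0)) + (u * ee (1 : ℂ) 1) =
      Uy ℂ * Vy ℂ * (Xf ℂ 2) ^ 2 := by
    rw [ee0, ee1, ee3, Pe0, Pe1, Pe3, X2]
    push_cast
    linear_combination (Uy ℂ * Vy ℂ * (xx ℂ - 1) * (xx ℂ - 1)) * hu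
  rw [e] at h
  exact h

theorem one_mem0 : (1 : Sk ℂ) ∈ MM (1 : ℂ) ^ 0 := by
  rw [pow_zero]
  exact Submodule.one_le.mp le_rfl

theorem pow1 {G : Sk ℂ} (h : G ∈ MM (1 : ℂ)) : G ∈ MM (1 : ℂ) ^ 1 := by
  rw [pow_one]; exact h

theorem pow2 {G H : Sk ℂ} (h : G ∈ MM (1 : ℂ)) (h' : H ∈ MM (1 : ℂ)) :
    G * H ∈ MM (1 : ℂ) ^ 2 := by
  rw [pow_two]; exact Submodule.mul_mem_mul h h'

end SaPf

open SaPf in
theorem tSA : T_CCR1 → T_NZ → T_COVER → T_SA := by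
  intro _ hNZ hCov x
  have hm : ∀ i : Fin 6, mm (1 : ℂ) i ≠ 0 := fun i => (hNZ ℂ 1 i).1
  have hn : ∀ i : Fin 6, num ℂ i ≠ 0 := fun i => (hNZ ℂ 1 i).2.1
  have hd : ∀ i : Fin 6, den (1 : ℂ) i ≠ 0 := fun i => (hNZ ℂ 1 i).2.2
  have key : ∀ (W1 W2 : Sk ℂ), W2 ≠ 0 → ∀ (i : Fin 6) (j : ℕ) (G : Sk ℂ),
      W1 * num ℂ i * mm (1 : ℂ) i ^ j = G * (W2 * den (1 : ℂ) i) →
      (algebraMap (Sk ℂ) (FractionRing (Sk ℂ)) W1 / algebraMap (Sk ℂ) (FractionRing (Sk ℂ)) W2) *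
        (DD (1 : ℂ)).φ i =
      algebraMap (Sk ℂ) (FractionRing (Sk ℂ)) G /
        algebraMap (Sk ℂ) (FractionRing (Sk ℂ)) (mm (1 : ℂ) i) ^ j := by
    intro W1 W2 hW2 i j G h
    exact frac_eq W1 W2 (num ℂ i) (den (1 : ℂ) i) G (mm (1 : ℂ) i) j hW2 (hd i) (hm i) h
  have eN0 : num ℂ 0 = 1 := rfl
  have eN1 : num ℂ 1 = Vy ℂ * Xf ℂ 0 * Xf ℂ 1 := rfl
  have eN2 : num ℂ 2 = Xf ℂ 0 * Vy ℂ := rfl
  have eN3 : num ℂ 3 = Xf ℂ 1 * Vy ℂ := rfl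
  have eN4 : num ℂ 4 = 1 := rfl
  have eN5 : num ℂ 5 = 1 := rfl
  have eD0 : den (1 : ℂ) 0 = 1 := rfl
  have eD1 : den (1 : ℂ) 1 = Uy ℂ * Xf ℂ 2 * Xf ℂ 3 := rfl
  have eD2 : den (1 : ℂ) 2 = Uy ℂ := Ul1
  have eD3 : den (1 : ℂ) 3 = Uy ℂ := rfl
  have eD4 : den (1 : ℂ) 4 = 1 := rfl
  have eD5 : den (1 : ℂ) 5 = 1 := rfl
  have eM0 : mm (1 : ℂ) 0 = PP4 ℂ * Vy ℂ ^ 2 := rfl
  have eM1 : mm (1 : ℂ) 1 = PP4 ℂ * (Uy ℂ * Uy ℂ) := by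
    have : mm (1 : ℂ) 1 = PP4 ℂ * (Ul (1 : ℂ) * Uy ℂ) := rfl
    rw [this, Ul1]
  have eM2 : mm (1 : ℂ) 2 = Pe ℂ 0 * (Uy ℂ * Vy ℂ) := ee0
  have eM3 : mm (1 : ℂ) 3 = Pe ℂ 1 * (Uy ℂ * Vy ℂ) := ee1
  have eM4 : mm (1 : ℂ) 4 = Pe ℂ 2 * (Uy ℂ * Vy ℂ) := ee2
  have eM5 : mm (1 : ℂ) 5 = Pe ℂ 3 * (Uy ℂ * Vy ℂ) := ee3
  -- the section `1`
  have secA : ∀ i : Fin 6, ∃ (j : ℕ) (G : Sk ℂ), G ∈ MM (1 : ℂ) ^ j ∧
      (algebraMap (Sk ℂ) (FractionRing (Sk ℂ)) 1 / algebraMap (Sk ℂ) (FractionRing (Sk ℂ)) 1) *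
        (DD (1 : ℂ)).φ i =
      algebraMap (Sk ℂ) (FractionRing (Sk ℂ)) G /
        algebraMap (Sk ℂ) (FractionRing (Sk ℂ)) (mm (1 : ℂ) i) ^ j := by
    intro i
    fin_cases i
    · exact ⟨0, 1, one_mem0, key 1 1 one_ne_zero 0 0 1 (by rw [eN0, eD0]; ring)⟩
    · refine ⟨1, _, pow1 G1_mem, key 1 1 one_ne_zero 1 1 _ ?_⟩
      rw [eN1, eD1, eM1, PPe, X0, X1, X2, X3]
      ring
    · refine ⟨1, _, pow1 PVV_mem, key 1 1 one_ne_zero 2 1 _ ?_⟩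
      rw [eN2, eD2, eM2, PPe, Pe0, X0]
      ring
    · refine ⟨1, _, pow1 PVV_mem, key 1 1 one_ne_zero 3 1 _ ?_⟩
      rw [eN3, eD3, eM3, PPe, Pe1, X1]
      ring
    · exact ⟨0, 1, one_mem0, key 1 1 one_ne_zero 4 0 1 (by rw [eN4, eD4]; ring)⟩
    · exact ⟨0, 1, one_mem0, key 1 1 one_ne_zero 5 0 1 (by rw [eN5, eD5]; ring)⟩
  -- the other section
  have hW2 : num ℂ 1 ≠ 0 := hn 1
  have secB : ∀ i : Fin 6, ∃ (j : ℕ) (G : Sk ℂ), G ∈ MM (1 : ℂ) ^ j ∧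
      (algebraMap (Sk ℂ) (FractionRing (Sk ℂ)) (den (1 : ℂ) 1) /
        algebraMap (Sk ℂ) (FractionRing (Sk ℂ)) (num ℂ 1)) * (DD (1 : ℂ)).φ i =
      algebraMap (Sk ℂ) (FractionRing (Sk ℂ)) G /
        algebraMap (Sk ℂ) (FractionRing (Sk ℂ)) (mm (1 : ℂ) i) ^ j := by
    intro i
    fin_cases i
    · refine ⟨1, _, pow1 Gs_mem, key _ _ hW2 0 1 _ ?_⟩
      rw [eN0, eN1, eD0, eD1, eM0, PPe, X0, X1, X2, X3]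
      ring
    · refine ⟨0, 1, one_mem0, key _ _ hW2 1 0 1 ?_⟩
      ring
    · refine ⟨1, _, pow1 Gs_mem, key _ _ hW2 2 1 _ ?_⟩
      rw [eN2, eN1, eD2, eD1, eM2, Pe0, X0, X1, X2, X3]
      ring
    · refine ⟨1, _, pow1 Gs_mem, key _ _ hW2 3 1 _ ?_⟩
      rw [eN3, eN1, eD3, eD1, eM3, Pe1, X0, X1, X2, X3]
      ring
    · refine ⟨2, _, pow2 PUU_mem H4_mem, key _ _ hW2 4 2 _ ?_⟩
      rw [eN4, eN1, eD4, eD1, eM4, Pe2, PPe, X0, X1, X2, X3]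
      ring
    · refine ⟨2, _, pow2 PUU_mem H5_mem, key _ _ hW2 5 2 _ ?_⟩
      rw [eN5, eN1, eD5, eD1, eM5, Pe3, PPe, X0, X1, X2, X3]
      ring
  obtain ⟨i, hi⟩ := hCov ℂ 1 isUnit_one x
  change Fin 6 at i
  fin_cases i
  · exact ⟨_, secA, 0, hi, 0, 1, one_mem0, key 1 1 one_ne_zero 0 0 1 (by rw [eN0, eD0]; ring),
      mem_dplus_one _ x⟩
  · exact ⟨_, secB, 1, hi, 0, 1, one_mem0, key _ _ hW2 1 0 1 (by ring), mem_dplus_one _ x⟩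
  · refine ⟨_, secB, 2, hi, 1, _, pow1 Gs_mem, key _ _ hW2 2 1 _ ?_, ?_⟩
    · rw [eN2, eN1, eD2, eD1, eM2, Pe0, X0, X1, X2, X3]
      ring
    · refine mem_dplus_of_mul _ (pow1 Gi2_mem) ?_ x hi
      change _ = mm (1 : ℂ) 2 * mm (1 : ℂ) 2
      rw [eM2, Pe0, X1, X2, X3]
      ring
  · refine ⟨_, secB, 3, hi, 1, _, pow1 Gs_mem, key _ _ hW2 3 1 _ ?_, ?_⟩
    · rw [eN3, eN1, eD3, eD1, eM3, Pe1, X0, X1, X2, X3]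
      ring
    · refine mem_dplus_of_mul _ (pow1 Gi3_mem) ?_ x hi
      change _ = mm (1 : ℂ) 3 * mm (1 : ℂ) 3
      rw [eM3, Pe1, X0, X2, X3]
      ring
  · exact ⟨_, secA, 4, hi, 0, 1, one_mem0, key 1 1 one_ne_zero 4 0 1 (by rw [eN4, eD4]; ring),
      mem_dplus_one _ x⟩
  · exact ⟨_, secA, 5, hi, 0, 1, one_mem0, key 1 1 one_ne_zero 5 0 1 (by rw [eN5, eD5]; ring),
      mem_dplus_one _ x⟩

end Pool.Agent.KCY
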