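import Pool.Agent.KCY.Targets

/-!
SAT: saturation of the powers of `MM` at the points of the base.
-/

open AlgebraicGeometry CategoryTheory Polynomial

namespace Pool.Agent.KCY

open Rees

namespace SATaux

section Map

variable {k k' : Type} [CommRing k] [CommRing k'] (e : k →+* k')

theorem map_Xf (i : Fin 4) : MvPolynomial.map e (Xf k i) = Xf k' i := by
  simp [Xf]

theorem map_PP4 : MvPolynomial.map e (PP4 k) = PP4 k' := by
  simp [PP4, map_prod, map_Xf]

theorem map_Pe (i : Fin 4) : MvPolynomial.map e (Pe k i) = Pe k' i := by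
  simp [Pe, map_prod, map_Xf]

theorem map_Vy : MvPolynomial.map e (Vy k) = Vy k' := by
  simp [Vy]

theorem map_Uy : MvPolynomial.map e (Uy k) = Uy k' := by
  simp [Uy]

theorem map_Ul (l : k) : MvPolynomial.map e (Ul l) = Ul (e l) := by
  simp [Ul, map_ofNat]

theorem map_ee (l : k) (i : Fin 4) : MvPolynomial.map e (ee l i) = ee (e l) i := by
  unfold ee Qf
  split_ifs with h
  · rw [map_mul, map_mul, map_Pe, map_Ul, map_Vy]
  · rw [map_mul, map_mul, map_Pe, map_Uy, map_Vy]

theorem map_aeval (p : k[X]) : MvPolynomial.map e (aeval (yy k) p) = aeval (yy k') (p.map e) := by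
  rw [Polynomial.aeval_def, Polynomial.aeval_def, Polynomial.hom_eval₂, Polynomial.eval₂_map]
  congr 1
  · ext a
    simp [MvPolynomial.algebraMap_eq]
  · simp

end Map

section Sat

variable {k : Type} [CommRing k]

theorem mul_aeval_mem (I : Ideal k) (N : Submodule k (Sk k)) (Z : Sk k) (q : k[X]) (D : ℕ)
    (hD : q.natDegree ≤ D) (hI : ∀ j, q.coeff j ∈ I) (hN : ∀ j ≤ D, Z * yy k ^ j ∈ N) :
    Z * aeval (yy k) q ∈ I • N := by
  rw [Polynomial.aeval_eq_sum_range, Finset.mul_sum]
  refine Submodule.sum_mem _ fun j hj => ?_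
  rw [mul_smul_comm]
  refine Submodule.smul_mem_smul (hI j) (hN j ?_)
  have := Finset.mem_range.mp hj
  omega

theorem mem1 (hNF : T_NF) [Algebra ℂ k] (l : k) (n j : ℕ) (hj : j ≤ 4 * n) :
    PP4 k ^ n * yy k ^ j ∈ MM l ^ n := by
  rw [hNF k l n]
  refine ⟨X ^ j, fun _ _ => 0, (natDegree_X_pow_le j).trans hj, fun i m => by simp, ?_⟩
  simp

theorem mem2 (hNF : T_NF) [Algebra ℂ k] (l : k) (n m j : ℕ) (i : Fin 4)
    (hm : m ∈ Finset.Icc 1 n) (hj : j ≤ 4 * (n - m)) :
    PP4 k ^ (n - m) * ee l i ^ m * yy k ^ j ∈ MM l ^ n := by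
  classical
  rw [hNF k l n]
  refine ⟨0, fun i' m' => if i' = i ∧ m' = m then X ^ j else 0, by simp, fun i' m' => ?_, ?_⟩
  · dsimp only
    split_ifs with h
    · rw [h.2]
      exact (natDegree_X_pow_le j).trans hj
    · simp
  · rw [map_zero, mul_zero, zero_add, Finset.sum_eq_single i, Finset.sum_eq_single m]
    · simp
    · intro b _ hb
      simp [hb]
    · intro h
      exact absurd hm h
    · intro b _ hb
      refine Finset.sum_eq_zero fun m' _ => ?_
      simp [hb]
    · intro h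
      exact absurd (Finset.mem_univ i) h

end Sat

end SATaux

open SATaux in
/-- Saturation. -/
theorem tSAT : T_NF → T_IND → T_SAT := by
  intro hNF hIND c n G hG h0
  obtain ⟨p, q, hp, hq, rfl⟩ := (hNF _ _ _ _).mp hG
  have h1 := hIND ℂ (evalAt c (LaurentPolynomial.T 1)) n (p.map (evalAt c))
    (fun i m => (q i m).map (evalAt c)) (by
      rw [← h0]
      simp only [map_add, map_mul, map_sum, map_pow, map_PP4, map_ee, map_aeval])
  obtain ⟨h2, h3⟩ := h1
  have hpc : ∀ j, p.coeff j ∈ RingHom.ker (evalAt c) := fun j => by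
    rw [RingHom.mem_ker, ← Polynomial.coeff_map, h2, Polynomial.coeff_zero]
  have hqc : ∀ i, ∀ m ∈ Finset.Icc 1 n, ∀ j, (q i m).coeff j ∈ RingHom.ker (evalAt c) :=
    fun i m hm j => by
      have := h3 i m hm
      rw [RingHom.mem_ker, ← Polynomial.coeff_map, this, Polynomial.coeff_zero]
  refine Submodule.add_mem _ ?_ ?_
  · exact mul_aeval_mem _ _ _ _ (4 * n) hp hpc fun j hj => mem1 hNF _ n j hj
  · refine Submodule.sum_mem _ fun i _ => Submodule.sum_mem _ fun m hm => ?_
    exact mul_aeval_mem _ _ _ _ (4 * (n - m)) (hq i m) (hqc i m hm)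
      fun j hj => mem2 hNF _ n m j i hm hj

end Pool.Agent.KCY
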