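import Pool.Agent.KCY.Targets

/-!
`T_SCALE` and `T_CHG`: changing the form by a function, coordinate changes.
-/

set_option autoImplicit false

open AlgebraicGeometry CategoryTheory Polynomial

namespace Pool.Agent.KCY

open Rees

namespace SCALE_

private lemma back {K : Type} [Field K] {m : ℕ} {f c : K} (hc : c ≠ 0) :
    f / c ^ m / c⁻¹ ^ m = f := by
  rw [inv_pow]
  field_simp

section Scale

variable {K : Type} [Field K] [Algebra ℂ K]

private lemma zero_scale {n : ℕ} {O : Subring K} {m : ℕ} {f c : K} {ω : ⋀[K]^n (Ω[K⁄ℂ])}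
    (hc : c ≠ 0) (h : OrderZero n O m f ω) : OrderZero n O m (f / c ^ m) (c • ω) := by
  obtain ⟨ht, η, hη, d, hd, h1, h2⟩ := h
  have e : f / c ^ m * (c * d) ^ m = f * d ^ m := by
    rw [mul_pow]
    field_simp
  refine ⟨ht, η, hη, c * d, ?_, ?_, ?_⟩
  · rw [hd, smul_smul]
  · rw [e]; exact h1
  · rw [e]; exact h2

private lemma ge_scale {n : ℕ} {O : Subring K} {m : ℕ} {f c : K} {ω : ⋀[K]^n (Ω[K⁄ℂ])} {N : ℤ}
    (hc : c ≠ 0) (h : OrderGE n O m f ω N) : OrderGE n O m (f / c ^ m) (c • ω) N := by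
  obtain ⟨t, ht, η, hη, d, hd, h1⟩ := h
  have e : f / c ^ m * (c * d) ^ m = f * d ^ m := by
    rw [mul_pow]
    field_simp
  refine ⟨t, ht, η, hη, c * d, ?_, ?_⟩
  · rw [hd, smul_smul]
  · rw [e]; exact h1

end Scale

section Chg

variable {K : Type} [Field K] [Algebra ℂ K]

/-- a quotient of two elements of a subalgebra is algebraic over it -/
private lemma isAlg {ι : Type} (x : ι → K)
    (h : ∀ z : K, ∃ p q : MvPolynomial ι ℂ, MvPolynomial.aeval x q ≠ 0 ∧
      z = MvPolynomial.aeval x p / MvPolynomial.aeval x q) :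
    Algebra.IsAlgebraic (Algebra.adjoin ℂ (Set.range x)) K := by
  refine ⟨fun z => ?_⟩
  obtain ⟨p, q, hq, hz⟩ := h z
  have mem : ∀ p : MvPolynomial ι ℂ, MvPolynomial.aeval x p ∈ Algebra.adjoin ℂ (Set.range x) := by
    intro p
    rw [Algebra.adjoin_range_eq_range_aeval]
    exact ⟨p, rfl⟩
  refine ⟨C (⟨_, mem q⟩ : Algebra.adjoin ℂ (Set.range x)) * X -
    C (⟨_, mem p⟩ : Algebra.adjoin ℂ (Set.range x)), ?_, ?_⟩
  · intro h0
    have h1 := congrArg (fun P => Polynomial.coeff P 1) h0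
    simp only [Polynomial.coeff_sub, Polynomial.coeff_C_mul, Polynomial.coeff_X_one, mul_one,
      Polynomial.coeff_zero, Polynomial.coeff_C_succ, sub_zero] at h1
    exact hq (congrArg Subtype.val h1)
  · rw [map_sub, map_mul, aeval_C, aeval_X, aeval_C]
    have e1 : (algebraMap (Algebra.adjoin ℂ (Set.range x)) K)
        ⟨MvPolynomial.aeval x q, mem q⟩ = MvPolynomial.aeval x q := rfl
    have e2 : (algebraMap (Algebra.adjoin ℂ (Set.range x)) K)
        ⟨MvPolynomial.aeval x p, mem p⟩ = MvPolynomial.aeval x p := rfl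
    rw [e1, e2, hz]
    field_simp
    ring

private lemma adjoin_top {ι : Type} (x : ι → K)
    (h : ∀ z : K, ∃ p q : MvPolynomial ι ℂ, MvPolynomial.aeval x q ≠ 0 ∧
      z = MvPolynomial.aeval x p / MvPolynomial.aeval x q) :
    IntermediateField.adjoin ℂ (Set.range x) = ⊤ := by
  rw [eq_top_iff]
  intro z _
  rw [IntermediateField.mem_adjoin_range_iff]
  obtain ⟨p, q, _, hz⟩ := h z
  exact ⟨p, q, hz⟩

private lemma of_adjoin_top {ι : Type} (x : ι → K)
    (h : IntermediateField.adjoin ℂ (Set.range x) = ⊤) :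
    ∀ z : K, ∃ p q : MvPolynomial ι ℂ, MvPolynomial.aeval x q ≠ 0 ∧
      z = MvPolynomial.aeval x p / MvPolynomial.aeval x q := by
  intro z
  have hz : z ∈ IntermediateField.adjoin ℂ (Set.range x) := by rw [h]; trivial
  rw [IntermediateField.mem_adjoin_range_iff] at hz
  obtain ⟨p, q, hz⟩ := hz
  by_cases hq : MvPolynomial.aeval x q = 0
  · refine ⟨0, 1, ?_, ?_⟩
    · rw [map_one]; exact one_ne_zero
    · rw [hz, hq, div_zero, map_zero, zero_div]
  · exact ⟨p, q, hq, hz⟩

theorem trdeg_two {u v : K} (h : Coord K u v) : Algebra.trdeg ℂ K = 2 := by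
  have h1 := isAlg ![u, v] h.2
  have h2 : IsTranscendenceBasis ℂ ![u, v] := h.1.isTranscendenceBasis_iff_isAlgebraic.2 h1
  have h3 := h2.cardinalMk_eq_trdeg
  rw [← h3]
  simp

/-- change of coordinates -/
private lemma coord_of {u v u' v' : K} (h : Coord K u v)
    (hu : u ∈ IntermediateField.adjoin ℂ (Set.range ![u', v']))
    (hv : v ∈ IntermediateField.adjoin ℂ (Set.range ![u', v'])) : Coord K u' v' := by
  have htop : IntermediateField.adjoin ℂ (Set.range ![u', v']) = ⊤ := by
    rw [eq_top_iff, ← adjoin_top ![u, v] h.2, IntermediateField.adjoin_le_iff]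
    rintro _ ⟨i, rfl⟩
    fin_cases i
    · exact hu
    · exact hv
  have h2 := of_adjoin_top ![u', v'] htop
  have := isAlg ![u', v'] h2
  have h3 : IsTranscendenceBasis ℂ ![u', v'] := by
    apply Algebra.IsAlgebraic.isTranscendenceBasis_of_le_trdeg_of_finite
    rw [trdeg_two h]
    simp
  exact ⟨h3.1, h2⟩

private lemma mem_fst (u' v' : K) : u' ∈ IntermediateField.adjoin ℂ (Set.range ![u', v']) :=
  IntermediateField.subset_adjoin _ _ ⟨0, rfl⟩

private lemma mem_snd (u' v' : K) : v' ∈ IntermediateField.adjoin ℂ (Set.range ![u', v']) :=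
  IntermediateField.subset_adjoin _ _ ⟨1, rfl⟩

private lemma aeval_mem (E : IntermediateField ℂ K) {v : K} (hv : v ∈ E) (Q : ℂ[X]) :
    aeval v Q ∈ E := by
  rw [aeval_eq_sum_range]
  exact sum_mem fun i _ => E.smul_mem (pow_mem hv i)

private lemma fst_sub_ne {u v : K} (h : Coord K u v) (a : ℂ) : u - algebraMap ℂ K a ≠ 0 := by
  intro h0
  have h1 : MvPolynomial.aeval ![u, v] (MvPolynomial.X 0 - MvPolynomial.C a :
      MvPolynomial (Fin 2) ℂ) = MvPolynomial.aeval ![u, v] (0 : MvPolynomial (Fin 2) ℂ) := by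
    rw [map_sub, MvPolynomial.aeval_X, MvPolynomial.aeval_C, map_zero]
    exact h0
  have h2 := h.1 h1
  have h3 := congrArg (MvPolynomial.coeff (Finsupp.single (0 : Fin 2) 1)) h2
  rw [MvPolynomial.coeff_sub, MvPolynomial.coeff_X, MvPolynomial.coeff_C,
    MvPolynomial.coeff_zero] at h3
  have h4 : (0 : Fin 2 →₀ ℕ) ≠ Finsupp.single (0 : Fin 2) 1 := by
    intro h5
    have h6 := DFunLike.congr_fun h5 0
    simp at h6
  rw [if_neg h4] at h3
  norm_num at h3

private lemma snd_ne {u v : K} (h : Coord K u v) {Q : ℂ[X]} (hQ : Q ≠ 0) : aeval v Q ≠ 0 := by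
  intro h0
  have h1 : MvPolynomial.aeval ![u, v] (aeval (MvPolynomial.X 1 : MvPolynomial (Fin 2) ℂ) Q) =
      MvPolynomial.aeval ![u, v] (0 : MvPolynomial (Fin 2) ℂ) := by
    rw [map_zero]
    have h2 := Polynomial.aeval_algHom_apply (MvPolynomial.aeval ![u, v])
      (MvPolynomial.X 1 : MvPolynomial (Fin 2) ℂ) Q
    rw [← h2, MvPolynomial.aeval_X]
    exact h0
  have h2 := h.1 h1
  have h3 := congrArg (MvPolynomial.aeval (![0, X] : Fin 2 → ℂ[X])) h2
  rw [map_zero] at h3
  have h4 := Polynomial.aeval_algHom_apply (MvPolynomial.aeval (![0, X] : Fin 2 → ℂ[X]))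
    (MvPolynomial.X 1 : MvPolynomial (Fin 2) ℂ) Q
  rw [← h4, MvPolynomial.aeval_X] at h3
  have h5 : aeval ((![0, X] : Fin 2 → ℂ[X]) 1) Q = Q := by
    show aeval (X : ℂ[X]) Q = Q
    exact Polynomial.aeval_X_left_apply Q
  rw [h5] at h3
  exact hQ h3

/-! ### two-forms -/

/-- the product of two one-forms -/
private noncomputable def w2 (a b : Ω[K⁄ℂ]) : ⋀[K]^2 (Ω[K⁄ℂ]) := exteriorPower.ιMulti K 2 ![a, b]

private lemma wedge_eq (x y : K) :
    wedgeD K ![x, y] = w2 (KaehlerDifferential.D ℂ K x) (KaehlerDifferential.D ℂ K y) := by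
  unfold wedgeD w2
  congr 1
  funext i
  fin_cases i <;> rfl

private lemma w2_smul_left (c : K) (a b : Ω[K⁄ℂ]) : w2 (c • a) b = c • w2 a b := by
  unfold w2
  have h := (exteriorPower.ιMulti K 2 (M := Ω[K⁄ℂ])).toMultilinearMap.map_update_smul ![a, b] 0 c a
  have e1 : Function.update ![a, b] 0 (c • a) = ![c • a, b] := by
    funext i
    fin_cases i <;> rfl
  have e2 : Function.update ![a, b] 0 a = ![a, b] := by
    funext i
    fin_cases i <;> rfl
  rw [e1, e2] at h
  exact h

private lemma w2_smul_right (c : K) (a b : Ω[K⁄ℂ]) : w2 a (c • b) = c • w2 a b := by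
  unfold w2
  have h := (exteriorPower.ιMulti K 2 (M := Ω[K⁄ℂ])).toMultilinearMap.map_update_smul ![a, b] 1 c b
  have e1 : Function.update ![a, b] 1 (c • b) = ![a, c • b] := by
    funext i
    fin_cases i <;> rfl
  have e2 : Function.update ![a, b] 1 b = ![a, b] := by
    funext i
    fin_cases i <;> rfl
  rw [e1, e2] at h
  exact h

private lemma w2_add_left (a a' b : Ω[K⁄ℂ]) : w2 (a + a') b = w2 a b + w2 a' b := by
  unfold w2
  have h := (exteriorPower.ιMulti K 2 (M := Ω[K⁄ℂ])).toMultilinearMap.map_update_add ![a, b] 0 a a'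
  have e1 : Function.update ![a, b] 0 (a + a') = ![a + a', b] := by
    funext i
    fin_cases i <;> rfl
  have e2 : Function.update ![a, b] 0 a = ![a, b] := by
    funext i
    fin_cases i <;> rfl
  have e3 : Function.update ![a, b] 0 a' = ![a', b] := by
    funext i
    fin_cases i <;> rfl
  rw [e1, e2, e3] at h
  exact h

private lemma w2_sub_left (a a' b : Ω[K⁄ℂ]) : w2 (a - a') b = w2 a b - w2 a' b := by
  rw [eq_sub_iff_add_eq, ← w2_add_left, sub_add_cancel]

private lemma w2_self (a : Ω[K⁄ℂ]) : w2 a a = 0 := by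
  unfold w2
  exact (exteriorPower.ιMulti K 2 (M := Ω[K⁄ℂ])).map_eq_zero_of_eq ![a, a] (i := 0) (j := 1) rfl
    (by decide)

private lemma w2_swap (a b : Ω[K⁄ℂ]) : w2 b a = (-1 : K) • w2 a b := by
  unfold w2
  have h := (exteriorPower.ιMulti K 2 (M := Ω[K⁄ℂ])).map_swap ![a, b] (i := 0) (j := 1)
    (by decide)
  have e1 : (![a, b] ∘ (Equiv.swap (0 : Fin 2) 1)) = ![b, a] := by
    funext i
    fin_cases i <;> rfl
  rw [e1] at h
  rw [h]
  exact (neg_one_smul K _).symm

private lemma D_aeval (v : K) (Q : ℂ[X]) : ∃ c : K,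
    KaehlerDifferential.D ℂ K (aeval v Q) = c • KaehlerDifferential.D ℂ K v :=
  ⟨aeval v (derivative Q), Derivation.map_aeval _ _ _⟩

private lemma D_sub_const (u : K) (a : ℂ) :
    KaehlerDifferential.D ℂ K (u - algebraMap ℂ K a) = KaehlerDifferential.D ℂ K u := by
  rw [map_sub, Derivation.map_algebraMap, sub_zero]

end Chg

end SCALE_

open SCALE_

theorem tSCALE : T_SCALE ∧ T_CHG := by
  constructor
  · intro K _ _ n O m f c ω N hc
    have hc' : c⁻¹ ≠ 0 := inv_ne_zero hc
    refine ⟨⟨fun h => ?_, zero_scale hc⟩, ⟨fun h => ?_, ge_scale hc⟩⟩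
    · have h1 := zero_scale hc' h
      rw [back hc, smul_smul, inv_mul_cancel₀ hc, one_smul] at h1
      exact h1
    · have h1 := ge_scale hc' h
      rw [back hc, smul_smul, inv_mul_cancel₀ hc, one_smul] at h1
      exact h1
  · intro K _ _ u v h
    refine ⟨?_, ?_, ?_, ?_, ?_, ?_, ?_, ?_⟩
    · exact coord_of h (mem_snd v u) (mem_fst v u)
    · intro a
      refine coord_of h ?_ (mem_snd _ _)
      have h1 := add_mem (inv_mem (mem_fst (1 / (u - algebraMap ℂ K a)) v))
        ((IntermediateField.adjoin ℂ (Set.range ![1 / (u - algebraMap ℂ K a), v])).algebraMap_mem a)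
      rw [one_div, inv_inv, sub_add_cancel] at h1
      rw [one_div]
      exact h1
    · refine coord_of h (mem_fst _ _) ?_
      have h1 := inv_mem (mem_snd u v⁻¹)
      rw [inv_inv] at h1
      exact h1
    · intro a Q hQ
      refine coord_of h ?_ (mem_snd _ _)
      have hQ0 := snd_ne h hQ
      have h1 := add_mem (div_mem (aeval_mem _ (mem_snd (aeval v Q / (u - algebraMap ℂ K a)) v) Q)
        (mem_fst (aeval v Q / (u - algebraMap ℂ K a)) v))
        ((IntermediateField.adjoin ℂ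
          (Set.range ![aeval v Q / (u - algebraMap ℂ K a), v])).algebraMap_mem a)
      have e : aeval v Q / (aeval v Q / (u - algebraMap ℂ K a)) + algebraMap ℂ K a = u := by
        rw [div_div_cancel₀ hQ0]
        ring
      rw [e] at h1
      exact h1
    · rw [wedge_eq, wedge_eq, w2_swap]
    · rw [wedge_eq, wedge_eq, Derivation.leibniz_inv, w2_smul_right]
      congr 1
      rw [inv_pow]
    · intro a
      have h0 := fst_sub_ne h a
      rw [wedge_eq, wedge_eq, one_div, Derivation.leibniz_inv, D_sub_const, w2_smul_left,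
        smul_smul]
      have e : -(u - algebraMap ℂ K a) ^ 2 * -(u - algebraMap ℂ K a)⁻¹ ^ 2 = 1 := by
        field_simp
      rw [e, one_smul]
    · intro a Q hQ
      have h0 := fst_sub_ne h a
      have hQ0 := snd_ne h hQ
      obtain ⟨c, hc⟩ := D_aeval v Q
      rw [wedge_eq, wedge_eq, Derivation.leibniz_div, D_sub_const, hc, w2_smul_left, w2_sub_left,
        w2_smul_left, w2_smul_left, w2_smul_left, w2_self, smul_zero, smul_zero, zero_sub,
        smul_neg, smul_smul, smul_neg, smul_smul, ← neg_smul]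
      have e : -(-(u - algebraMap ℂ K a) ^ 2 / aeval v Q * ((u - algebraMap ℂ K a)⁻¹ ^ 2 *
          aeval v Q)) = 1 := by
        field_simp
      rw [e, one_smul]

end Pool.Agent.KCY
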