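import Pool.Agent.KCY.Targets

/-!
Criterion for being semi-ample.
-/

open AlgebraicGeometry CategoryTheory Polynomial

namespace Pool.Agent.KCY

open Rees

namespace SemAux

/-- Two sections over an open set of an integral scheme with the same value at the generic point
are equal. -/
theorem eq_of_value {X : Scheme.{0}} [IsIntegral X] {F : Type} [Field F]
    (ψ : X.functionField →+* F) (U : X.Opens) (s t : Γ(X, U))
    (h : ∀ hg : genericPoint X ∈ U, ψ (X.presheaf.germ U (genericPoint X) hg s) =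
      ψ (X.presheaf.germ U (genericPoint X) hg t)) : s = t := by
  by_cases hg : genericPoint X ∈ U
  · exact germ_injective_of_isIntegral X (genericPoint X) hg (ψ.injective (h hg))
  · have hU : U = ⊥ := by
      rw [← le_bot_iff]
      intro x hx
      refine absurd ?_ hg
      exact ((genericPoint_spec X).mem_open_set_iff U.isOpen).mpr ⟨x, Set.mem_univ _, hx⟩
    subst hU
    exact Subsingleton.elim _ _

variable {k S : Type} [CommRing k] [CommRing S] [Algebra k S] [IsDomain S] {M : Submodule k S}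

/-- Existence of a section with a given value. -/
theorem exists_section [IsIntegral (PX M)] (Φ : FracHom M) (m : S) (hm : m ∈ M ^ 1) (hm0 : m ≠ 0)
    (U : (PX M).Opens) (hU : U = dplus M 1 m hm) (j : ℕ) (G : S) (hG : G ∈ M ^ j) :
    ∃ s : Γ(PX M, U), ∀ hg : genericPoint (PX M) ∈ U,
      Φ.ψ ((PX M).presheaf.germ U (genericPoint (PX M)) hg s) =
        algebraMap S (FractionRing S) G / algebraMap S (FractionRing S) m ^ j := by
  subst hU
  have hG' : G ∈ M ^ (j * 1) := by rw [mul_one]; exact hG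
  exact ⟨frac M 1 m hm j G hG', fun hg => Φ.eval 1 m hm one_pos hm0 j G hG' hg⟩

omit [IsDomain S] in
theorem dplus_congr {n n' : ℕ} (h : n = n') (G : S) (hG : G ∈ M ^ n) (hG' : G ∈ M ^ n') :
    dplus M n G hG = dplus M n' G hG' := by
  subst h
  rfl

/-- A section with a given value does not vanish at the points of the corresponding basic
open. -/
theorem mem_basicOpen [IsIntegral (PX M)] (hF : T_FSURJ) (Φ : FracHom M) (m : S)
    (hm : m ∈ M ^ 1) (hm0 : m ≠ 0)
    (U : (PX M).Opens) (hU : U = dplus M 1 m hm) (j : ℕ) (G : S) (hG : G ∈ M ^ j)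
    (s : Γ(PX M, U)) (hs : ∀ hg : genericPoint (PX M) ∈ U,
      Φ.ψ ((PX M).presheaf.germ U (genericPoint (PX M)) hg s) =
        algebraMap S (FractionRing S) G / algebraMap S (FractionRing S) m ^ j)
    (x : PX M) (hx : x ∈ dplus M 1 m hm) (hx' : x ∈ dplus M j G hG) :
    x ∈ (PX M).basicOpen s := by
  subst hU
  have hG' : G ∈ M ^ (j * 1) := by rw [mul_one]; exact hG
  have e : s = frac M 1 m hm j G hG' := by
    refine eq_of_value Φ.ψ _ _ _ fun hg => ?_
    rw [hs hg, Φ.eval 1 m hm one_pos hm0 j G hG' hg]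
  rw [e, (hF k S M 1 m hm one_pos).2 j G hG']
  refine ⟨hx, ?_⟩
  rw [dplus_congr (mul_one j) G hG' hG]
  exact hx'

end SemAux

theorem tSEM : T_FSURJ → T_SEM := by
  intro hF k S _ _ _ _ M _ D Φ L hm hnum hden hrep hx
  obtain ⟨e, hU, hg⟩ := hrep
  refine ⟨1, one_pos, fun x => ?_⟩
  obtain ⟨w, hw, i0, hi0, j0, G0, hG0, hval, hx0⟩ := hx x
  have hφ : ∀ i, D.φ i ≠ 0 := by
    intro i
    refine div_ne_zero ?_ ?_
    · exact (map_ne_zero_iff _ (IsFractionRing.injective S (FractionRing S))).mpr (hnum i)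
    · exact (map_ne_zero_iff _ (IsFractionRing.injective S (FractionRing S))).mpr (hden i)
  have hsec : ∀ i : L.ι, ∃ s : Γ(PX M, L.U i), ∀ hg : genericPoint (PX M) ∈ L.U i,
      Φ.ψ ((PX M).presheaf.germ (L.U i) (genericPoint (PX M)) hg s) = w * D.φ (e.symm i) := by
    intro i
    obtain ⟨j, G, hG, hv⟩ := hw (e.symm i)
    have hUi : L.U i = dplus M 1 (D.m (e.symm i)) (D.mem (e.symm i)) := by
      have h := hU (e.symm i)
      rw [e.apply_symm_apply] at h
      exact h
    obtain ⟨s, hs⟩ := SemAux.exists_section Φ (D.m (e.symm i)) (D.mem (e.symm i)) (hm _)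
      (L.U i) hUi j G hG
    exact ⟨s, fun hg => by rw [hs hg, hv]⟩
  choose s hs using hsec
  have hg' : ∀ (i j : L.ι) (h : genericPoint (PX M) ∈ L.U i ⊓ L.U j),
      Φ.ψ ((PX M).presheaf.germ _ (genericPoint (PX M)) h (L.g i j)) =
        D.φ (e.symm i) / D.φ (e.symm j) := by
    intro i j
    obtain ⟨i, rfl⟩ := e.surjective i
    obtain ⟨j, rfl⟩ := e.surjective j
    intro h
    rw [e.symm_apply_apply, e.symm_apply_apply]
    exact hg i j h
  refine ⟨⟨s, fun i j => ?_⟩, e i0, ?_⟩
  · refine SemAux.eq_of_value Φ.ψ _ _ _ fun hgen => ?_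
    rw [pow_one, map_mul, map_mul, hg' i j hgen]
    rw [TopCat.Presheaf.germ_res_apply, TopCat.Presheaf.germ_res_apply, hs i, hs j]
    rw [div_mul_eq_mul_div, eq_div_iff (hφ _)]
    ring
  · refine SemAux.mem_basicOpen hF Φ (D.m i0) (D.mem i0) (hm i0) (L.U (e i0)) (hU i0) j0 G0 hG0
      (s (e i0)) ?_ x hi0 hx0
    intro hgen
    rw [hs (e i0) hgen, e.symm_apply_apply, hval]

end Pool.Agent.KCY
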