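import Pool.Agent.KCY.Targets

/-!
Transcendence degree and generation of a field with two coordinates.
-/

open AlgebraicGeometry CategoryTheory Polynomial

namespace Pool.Agent.KCY

open Rees

theorem tTRD : T_TRD := by
  intro K _ _ u v huv
  obtain ⟨hind, hgen⟩ := huv
  constructor
  · have halg : Algebra.IsAlgebraic (Algebra.adjoin ℂ (Set.range ![u, v])) K := by
      refine ⟨fun z => ?_⟩
      obtain ⟨p, q, hq, rfl⟩ := hgen z
      have hmem : ∀ r : MvPolynomial (Fin 2) ℂ,
          MvPolynomial.aeval ![u, v] r ∈ Algebra.adjoin ℂ (Set.range ![u, v]) := by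
        intro r
        rw [Algebra.adjoin_range_eq_range_aeval]
        exact ⟨r, rfl⟩
      have h1 : ∀ r : MvPolynomial (Fin 2) ℂ,
          IsAlgebraic (Algebra.adjoin ℂ (Set.range ![u, v]))
            (MvPolynomial.aeval ![u, v] r : K) := fun r =>
        isAlgebraic_algebraMap (⟨_, hmem r⟩ : Algebra.adjoin ℂ (Set.range ![u, v]))
      rw [div_eq_mul_inv]
      exact (h1 p).mul (h1 q).inv
    have hb : IsTranscendenceBasis ℂ ![u, v] := hind.isTranscendenceBasis_iff_isAlgebraic.mpr halg
    rw [← hb.cardinalMk_eq_trdeg]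
    simp
  · rw [eq_top_iff]
    intro z _
    obtain ⟨p, q, hq, rfl⟩ := hgen z
    have hmem : ∀ r : MvPolynomial (Fin 2) ℂ,
        MvPolynomial.aeval ![u, v] r ∈ IntermediateField.adjoin ℂ (Set.range ![u, v]) := by
      intro r
      apply IntermediateField.algebra_adjoin_le_adjoin ℂ
      rw [Algebra.adjoin_range_eq_range_aeval]
      exact ⟨r, rfl⟩
    exact div_mem (hmem p) (hmem q)

end Pool.Agent.KCY
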