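import Pool.Agent.KCY.Targets

/-!
`T_UFD`: a localised polynomial ring in two coordinates is integrally closed in the field.
-/

open AlgebraicGeometry CategoryTheory Polynomial

namespace Pool.Agent.KCY

open Rees

theorem tUFD : T_UFD := by
  intro K _ _ u v hc g hg z A hA hz
  obtain ⟨hind, hfr⟩ := hc
  let φ : MvPolynomial (Fin 2) ℂ →+* K := (MvPolynomial.aeval ![u, v]).toRingHom
  have hφ : ∀ p, φ p = MvPolynomial.aeval ![u, v] p := fun _ => rfl
  have hinj : Function.Injective φ := hind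
  have hg0 : φ g ≠ 0 := fun h => hg (hinj (h.trans (map_zero φ).symm))
  have hmem : ∀ p, φ p ∈ A := fun p => (hA _).2 ⟨p, 0, by rw [pow_zero, div_one, hφ]⟩
  have hinv : (φ g)⁻¹ ∈ A := (hA _).2 ⟨1, 1, by rw [pow_one, map_one, one_div, hφ]⟩
  let a1 : Algebra (MvPolynomial (Fin 2) ℂ) A := (φ.codRestrict A hmem).toAlgebra
  let a2 : Algebra (MvPolynomial (Fin 2) ℂ) K := φ.toAlgebra
  have : IsScalarTower (MvPolynomial (Fin 2) ℂ) A K := IsScalarTower.of_algebraMap_eq fun _ => rfl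
  have : IsLocalization (Submonoid.powers g) A := by
    refine ⟨?_, ?_, ?_⟩
    · rintro ⟨x, n, rfl⟩
      have h1 : (algebraMap (MvPolynomial (Fin 2) ℂ) A) (g ^ n) * (⟨(φ g)⁻¹, hinv⟩ : A) ^ n = 1 := by
        apply Subtype.ext
        change φ (g ^ n) * ((φ g)⁻¹) ^ n = 1
        rw [map_pow, ← mul_pow, mul_inv_cancel₀ hg0, one_pow]
      exact IsUnit.of_mul_eq_one _ h1
    · intro w
      obtain ⟨p, n, hp⟩ := (hA w.1).1 w.2
      refine ⟨(p, ⟨g ^ n, n, rfl⟩), ?_⟩
      apply Subtype.ext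
      change w.1 * φ (g ^ n) = φ p
      rw [hp, map_pow, ← hφ, ← hφ, div_mul_cancel₀ _ (pow_ne_zero _ hg0)]
    · intro x y h
      refine ⟨1, ?_⟩
      have h' : φ x = φ y := congrArg Subtype.val h
      rw [hinj h']
  have : IsFractionRing (MvPolynomial (Fin 2) ℂ) K := by
    refine ⟨?_, ?_, ?_⟩
    · rintro ⟨x, hx⟩
      have hx0 : x ≠ 0 := nonZeroDivisors.ne_zero hx
      exact isUnit_iff_ne_zero.2 fun h => hx0 (hinj (h.trans (map_zero φ).symm))
    · intro w
      obtain ⟨p, q, hq, hw⟩ := hfr w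
      have hq0 : q ≠ 0 := by
        rintro rfl
        exact hq (map_zero _)
      refine ⟨(p, ⟨q, mem_nonZeroDivisors_of_ne_zero hq0⟩), ?_⟩
      change w * φ q = φ p
      rw [hw, hφ, hφ, div_mul_cancel₀ _ hq]
    · intro x y h
      refine ⟨1, ?_⟩
      have h' : φ x = φ y := h
      rw [hinj h']
  obtain ⟨⟨_, n, rfl⟩, hm⟩ := IsIntegral.exists_multiple_integral_of_isLocalization
    (Submonoid.powers g) z hz
  obtain ⟨y, hy⟩ := IsIntegrallyClosed.isIntegral_iff.1 hm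
  have hy' : φ y = φ (g ^ n) * z := by
    have h : φ y = (g ^ n) • z := hy
    rw [h, Algebra.smul_def]
    rfl
  refine (hA z).2 ⟨y, n, ?_⟩
  rw [← hφ, ← hφ, hy', map_pow, mul_comm, mul_div_assoc, div_self (pow_ne_zero _ hg0), mul_one]

end Pool.Agent.KCY
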