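import Pool.Agent.KCY.Main
import Pool.Agent.KCY.Main2
import Pool.Agent.KCY.Bridge
import Pool.Agent.KCY.AFF
import Pool.Agent.KCY.BC
import Pool.Agent.KCY.BRH
import Pool.Agent.KCY.BRN
import Pool.Agent.KCY.CCR
import Pool.Agent.KCY.CHART
import Pool.Agent.KCY.COC
import Pool.Agent.KCY.COVER
import Pool.Agent.KCY.COVER3
import Pool.Agent.KCY.CY
import Pool.Agent.KCY.FLAT
import Pool.Agent.KCY.FRAC
import Pool.Agent.KCY.FRC
import Pool.Agent.KCY.IND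
import Pool.Agent.KCY.INT
import Pool.Agent.KCY.KLT2
import Pool.Agent.KCY.LB
import Pool.Agent.KCY.LBBC
import Pool.Agent.KCY.MODEL
import Pool.Agent.KCY.NF
import Pool.Agent.KCY.NS
import Pool.Agent.KCY.NSEM
import Pool.Agent.KCY.OMEGA
import Pool.Agent.KCY.POINT
import Pool.Agent.KCY.PROJ
import Pool.Agent.KCY.PROP
import Pool.Agent.KCY.SA
import Pool.Agent.KCY.SAT
import Pool.Agent.KCY.SCALE
import Pool.Agent.KCY.SEM
import Pool.Agent.KCY.SMALL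
import Pool.Agent.KCY.TRD
import Pool.Agent.KCY.UFD

/-!
Assembly of all parts.
-/

namespace Pool.Agent.KCY

open Rees

open AlgebraicGeometry CategoryTheory in
/-- The main statement. -/
theorem main_statement :
    ∃ (X₀ : Scheme.{0}) (s : X₀ ⟶ Spec (CommRingCat.of ℂ)) (L₀ : KCYS.LineBundle X₀)
      (X : Scheme.{0}) (π : X ⟶ KCYS.Gm) (L : KCYS.LineBundle X) (i : X₀ ⟶ X),
      KCYS.IsCalabiYau s 2 ∧ KCYS.IsRationalSurface s ∧ L₀.IsSemiample ∧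
      KCYS.IsDeformation s L₀ π L i ∧
      ¬ KCYS.IsRelSemiampleNear π L (KCYS.pt 1) ∧
      ∀ c : ℂˣ, (∀ m : ℕ, 0 < m → c ^ m ≠ 1) →
        ∀ (Y : Scheme.{0}) (j : Y ⟶ X) (r : Y ⟶ Spec (CommRingCat.of ℂ)),
          IsPullback j r π (KCYS.ptHom c) → ¬ (L.pullback j).IsSemiample := by
  obtain ⟨hDMUL, hFSURJ, hFBC⟩ := tFRC
  obtain ⟨hCCR, hCCR1⟩ := tCCR
  obtain ⟨hISBC, hSPEC, hDMAP, hNZ, hLAUR⟩ := tSMALL
  obtain ⟨hSCALE, hCHG⟩ := tSCALE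
  have hBRH : T_BRH := tBRH tOMEGA hSCALE hCHG
  have hMODEL : T_MODEL := tMODEL tFRAC hFSURJ tINT hNZ (tCHART hCCR1) tCOVER3
  have hCY : T_CY := tCY hMODEL tAFF (tBRN tUFD hCHG) hBRH tKLT2 hSCALE hCHG tPROJ tTRD
  obtain ⟨hI, hT⟩ := tCY2 hMODEL tAFF hBRH tKLT2 hSCALE hCHG
  obtain ⟨L, i, h1, h2, h3, h4, h5, h6⟩ := main_of2 tINT tPROP tFLAT tFRAC tBC tPOINT
    (tLB hDMUL) (tLBBC hFSURJ hFBC hDMUL)
    (tNSEM hFSURJ) (tSEM hFSURJ) hISBC hSPEC hDMAP hNZ (tSAT tNF tIND) tCOVER (tCOC hCCR)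
    (tNS tNF) (tSA hCCR1 hNZ tCOVER) hLAUR
  refine ⟨PX (MM (1 : ℂ)), str (MM (1 : ℂ)), (L.pullback i).toS, _, _, L.toS, i,
    calabiYau_S hCY.1 hI hT, rational_S hCY.2, (L.pullback i).toS_semiample.mpr h1,
    ⟨h2, h3, h4, rfl⟩, fun h => h5 (relSemiample_of _ _ _ h), ?_⟩
  intro c hc Y j r hY hs
  rw [LineBundle.toS_pullback, LineBundle.toS_semiample] at hs
  exact h6 c hc Y j r hY hs

end Pool.Agent.KCY
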