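import Pool.Agent.KCY.Targets

/-!
Independence of the normal form.
-/

open AlgebraicGeometry CategoryTheory Polynomial

namespace Pool.Agent.KCY

open Rees

namespace IND

variable {k : Type} [CommRing k]

/-- Evaluation `x = a i`. -/
noncomputable def tau (k : Type) [CommRing k] (i : Fin 4) : Sk k →ₐ[k] k[X] :=
  MvPolynomial.aeval ![C ((aa i : ℤ) : k), X]

theorem tau_Xf (i j : Fin 4) : tau k i (Xf k j) = C (((aa i - aa j : ℤ)) : k) := by
  simp [tau, Xf]

theorem tau_yy (i : Fin 4) : tau k i (yy k) = X := by
  simp [tau]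

theorem tau_PP4 (i : Fin 4) : tau k i (PP4 k) = 0 := by
  rw [PP4, map_prod]
  exact Finset.prod_eq_zero (Finset.mem_univ i) (by rw [tau_Xf]; simp)

theorem tau_ee_ne (l : k) (i j : Fin 4) (h : j ≠ i) : tau k i (ee l j) = 0 := by
  have h1 : tau k i (Pe k j) = 0 := by
    rw [Pe, map_prod]
    exact Finset.prod_eq_zero (Finset.mem_erase.mpr ⟨h.symm, Finset.mem_univ i⟩)
      (by rw [tau_Xf]; simp)
  rw [ee, map_mul, h1, zero_mul]

theorem tau_aeval (i : Fin 4) (p : k[X]) : tau k i (aeval (yy k) p) = p := by
  rw [← Polynomial.aeval_algHom_apply, tau_yy]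
  simp

theorem aa_inj {i j : Fin 4} (h : aa i = aa j) : i = j := by
  revert h
  fin_cases i <;> fin_cases j <;> simp [aa]

variable [IsDomain k] [CharZero k]

theorem tau_ee_self (l : k) (i : Fin 4) : tau k i (ee l i) ≠ 0 := by
  have h1 : tau k i (Pe k i) ≠ 0 := by
    rw [Pe, map_prod]
    refine Finset.prod_ne_zero_iff.mpr fun j hj => ?_
    rw [tau_Xf]
    intro h
    have h2 : ((aa i - aa j : ℤ) : k) = 0 := by
      exact C_eq_zero.mp h
    have h3 : aa i - aa j = 0 := by exact_mod_cast h2
    exact (Finset.mem_erase.mp hj).1 (aa_inj (sub_eq_zero.mp h3)).symm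
  have hV : tau k i (Vy k) ≠ 0 := by
    intro h
    have h2 := congrArg (Polynomial.eval 2) h
    simp [Vy, tau] at h2
    norm_num at h2
  have hU : tau k i (Uy k) ≠ 0 := by
    intro h
    have h2 := congrArg (Polynomial.eval 0) h
    simp [Uy, tau] at h2
  have hL : tau k i (Ul l) ≠ 0 := by
    intro h
    have h2 := congrArg (Polynomial.eval 0) h
    simp [Ul, tau] at h2
  rw [ee, map_mul]
  refine mul_ne_zero h1 ?_
  rw [Qf]
  split_ifs
  · rw [map_mul]
    exact mul_ne_zero hL hV
  · rw [map_mul]
    exact mul_ne_zero hU hV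

theorem PP4_ne : PP4 k ≠ 0 := by
  intro h
  have h2 := congrArg (MvPolynomial.eval fun _ => (3 : k)) h
  simp [PP4, Fin.prod_univ_succ, Xf, aa] at h2
  norm_num at h2

end IND

open IND in
theorem tIND : T_IND := by
  intro k _ _ _ l n
  induction n with
  | zero =>
    intro p q h
    refine ⟨?_, fun i m hm => by simp at hm⟩
    have h2 := congrArg (tau k 0) h
    simp only [pow_zero, one_mul, map_add, map_zero] at h2
    rw [tau_aeval] at h2
    simpa using h2
  | succ n ih =>
    intro p q h
    have hq : ∀ i, q i (n + 1) = 0 := by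
      intro i
      have h2 := congrArg (tau k i) h
      rw [map_add, map_mul, map_pow, tau_PP4, zero_pow (Nat.succ_ne_zero n), zero_mul, zero_add,
        map_zero, map_sum, Finset.sum_eq_single i] at h2
      · rw [map_sum, Finset.sum_eq_single (n + 1)] at h2
        · rw [map_mul, map_mul, Nat.sub_self, pow_zero, map_one, one_mul, map_pow,
            tau_aeval] at h2
          rcases mul_eq_zero.mp h2 with h3 | h3
          · exact absurd h3 (pow_ne_zero _ (tau_ee_self l i))
          · exact h3
        · intro m hm hne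
          have hm' : n + 1 - m ≠ 0 := by
            have := (Finset.mem_Icc.mp hm).2
            omega
          rw [map_mul, map_mul, map_pow, tau_PP4, zero_pow hm', zero_mul, zero_mul]
        · intro hm
          exact absurd (Finset.mem_Icc.mpr ⟨by omega, le_refl _⟩) hm
      · intro j _ hj
        rw [map_sum]
        refine Finset.sum_eq_zero fun m hm => ?_
        have hm' : m ≠ 0 := by
          have := (Finset.mem_Icc.mp hm).1
          omega
        rw [map_mul, map_mul, map_pow (tau k i) (ee l j), tau_ee_ne l i j hj, zero_pow hm',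
          mul_zero, zero_mul]
      · intro hi
        exact absurd (Finset.mem_univ i) hi
    have e1 : PP4 k ^ (n + 1) * aeval (yy k) p = PP4 k * (PP4 k ^ n * aeval (yy k) p) := by
      rw [pow_succ]
      ring
    have e2 : ∑ i, ∑ m ∈ Finset.Icc 1 (n + 1),
        PP4 k ^ (n + 1 - m) * ee l i ^ m * aeval (yy k) (q i m) =
        PP4 k * ∑ i, ∑ m ∈ Finset.Icc 1 n,
          PP4 k ^ (n - m) * ee l i ^ m * aeval (yy k) (q i m) := by
      rw [Finset.mul_sum]
      refine Finset.sum_congr rfl fun i _ => ?_
      rw [Finset.sum_Icc_succ_top (by omega), hq i, map_zero, mul_zero, add_zero,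
        Finset.mul_sum]
      refine Finset.sum_congr rfl fun m hm => ?_
      have hm' := (Finset.mem_Icc.mp hm).2
      rw [show n + 1 - m = (n - m) + 1 by omega, pow_succ' (PP4 k) (n - m), mul_assoc, mul_assoc,
        mul_assoc]
    rw [e1, e2, ← mul_add] at h
    have hfac := h
    have h3 := ih p q ((mul_eq_zero.mp hfac).resolve_left PP4_ne)
    refine ⟨h3.1, fun i m hm => ?_⟩
    rcases Nat.lt_or_ge n m with hlt | hge
    · have h4 := (Finset.mem_Icc.mp hm).2
      have h5 : m = n + 1 := by omega
      rw [h5]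
      exact hq i
    · exact h3.2 i m (Finset.mem_Icc.mpr ⟨(Finset.mem_Icc.mp hm).1, hge⟩)

end Pool.Agent.KCY
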