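import Pool.Agent.KCY.Defs

/-!
The graded algebra `⊕ₙ Mⁿ Tⁿ ⊆ S[T]` of a submodule `M` of a commutative algebra `S`.
-/

open AlgebraicGeometry CategoryTheory Polynomial

namespace Pool.Agent.KCY.Rees

variable {k S : Type} [CommRing k] [CommRing S] [Algebra k S] (M : Submodule k S)

/-- The subalgebra `⊕ₙ Mⁿ Tⁿ` of `S[T]`. -/
def alg : Subalgebra k S[X] where
  carrier := {F | ∀ n, F.coeff n ∈ M ^ n}
  mul_mem' := by
    intro a b ha hb n
    rw [Polynomial.coeff_mul]
    refine Submodule.sum_mem _ fun p hp => ?_
    rw [← Finset.HasAntidiagonal.mem_antidiagonal.mp hp, pow_add]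
    exact Submodule.mul_mem_mul (ha _) (hb _)
  add_mem' := by
    intro a b ha hb n
    rw [Polynomial.coeff_add]
    exact Submodule.add_mem _ (ha n) (hb n)
  algebraMap_mem' := by
    intro r n
    rw [Polynomial.algebraMap_apply, Polynomial.coeff_C]
    split_ifs with h
    · subst h
      rw [pow_zero]
      exact Submodule.algebraMap_mem r
    · exact Submodule.zero_mem _

variable {M} in
theorem mem_alg {F : S[X]} : F ∈ alg M ↔ ∀ n, F.coeff n ∈ M ^ n := Iff.rfl

/-- The homogeneous part of degree `n`. -/
def gr (n : ℕ) : Submodule k (alg M) where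
  carrier := {F | ∀ i, i ≠ n → (F : S[X]).coeff i = 0}
  add_mem' := by
    intro a b ha hb i hi
    simp [ha i hi, hb i hi]
  zero_mem' := by intro i _; simp
  smul_mem' := by
    intro c a ha i hi
    simp [ha i hi]

variable {M} in
theorem mem_gr {n : ℕ} {F : alg M} : F ∈ gr M n ↔ ∀ i, i ≠ n → (F : S[X]).coeff i = 0 := Iff.rfl

/-- The homogeneous element `G Tⁿ`. -/
noncomputable def el (n : ℕ) (G : S) (h : G ∈ M ^ n) : alg M :=
  ⟨monomial n G, by
    intro i
    rw [Polynomial.coeff_monomial]
    split_ifs with hi
    · subst hi; exact h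
    · exact Submodule.zero_mem _⟩

theorem el_mem (n : ℕ) (G : S) (h : G ∈ M ^ n) : el M n G h ∈ gr M n := by
  intro i hi
  simp only [el, Polynomial.coeff_monomial]
  rw [if_neg (fun h' => hi h'.symm)]

theorem coe_el (n : ℕ) (G : S) (h : G ∈ M ^ n) : (el M n G h : S[X]) = monomial n G := rfl

variable {M} in
theorem eq_el {n : ℕ} {F : alg M} (hF : F ∈ gr M n) : F = el M n ((F : S[X]).coeff n) (F.2 n) := by
  apply Subtype.ext
  ext i
  rw [coe_el, Polynomial.coeff_monomial]
  split_ifs with h
  · rw [h]
  · exact hF i (fun h' => h h'.symm)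

instance gradedMonoid : SetLike.GradedMonoid (gr M) where
  one_mem := by
    intro i hi
    simp [Polynomial.coeff_one, hi]
  mul_mem := by
    intro i j a b ha hb l hl
    rw [eq_el ha, eq_el hb]
    change (((el M i _ _ : alg M) : S[X]) * ((el M j _ _ : alg M) : S[X])).coeff l = 0
    rw [coe_el, coe_el, Polynomial.monomial_mul_monomial, Polynomial.coeff_monomial,
      if_neg (fun h => hl h.symm)]

/-- The coefficient of degree `n`, as a homogeneous element. -/
noncomputable def part (n : ℕ) : alg M →+ gr M n where
  toFun F := ⟨el M n ((F : S[X]).coeff n) (F.2 n), el_mem M _ _ _⟩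
  map_zero' := by
    apply Subtype.ext
    apply Subtype.ext
    simp [el]
  map_add' := by
    intro a b
    apply Subtype.ext
    apply Subtype.ext
    simp [el]

theorem part_of_mem {n : ℕ} {F : alg M} (hF : F ∈ gr M n) : part M n F = ⟨F, hF⟩ :=
  Subtype.ext (eq_el hF).symm

theorem part_of_mem_ne {n i : ℕ} (h : i ≠ n) {F : alg M} (hF : F ∈ gr M n) :
    part M i F = 0 := by
  apply Subtype.ext
  apply Subtype.ext
  simp [part, el, hF i h]

open scoped Classical in
/-- The family of homogeneous parts, as an element of the direct sum. -/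
noncomputable def decFun (F : alg M) : DirectSum ℕ (fun n => gr M n) :=
  DirectSum.mk (fun n => gr M n) (F : S[X]).support (fun n => part M n F)

theorem decFun_apply (F : alg M) (n : ℕ) : decFun M F n = part M n F := by
  classical
  by_cases h : n ∈ (F : S[X]).support
  · exact DirectSum.mk_apply_of_mem h
  · have h' := h
    rw [Polynomial.mem_support_iff, not_not] at h'
    have e : part M n F = 0 := by
      apply Subtype.ext
      apply Subtype.ext
      simp [part, el, h']
    rw [e]
    exact DirectSum.mk_apply_of_notMem h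

/-- The decomposition of an element into its homogeneous parts. -/
noncomputable def dec : alg M →+ DirectSum ℕ (fun n => gr M n) where
  toFun F := decFun M F
  map_zero' := by
    refine DFinsupp.ext fun n => ?_
    rw [decFun_apply, map_zero]
    rfl
  map_add' := by
    intro a b
    refine DFinsupp.ext fun n => ?_
    rw [DirectSum.add_apply, decFun_apply, decFun_apply, decFun_apply, map_add]

theorem dec_apply (F : alg M) (n : ℕ) : dec M F n = part M n F := decFun_apply M F n

theorem coeff_coe (x : DirectSum ℕ (fun n => gr M n)) (i : ℕ) :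
    ((DirectSum.coeAddMonoidHom (gr M) x : alg M) : S[X]).coeff i =
      ((x i : alg M) : S[X]).coeff i := by
  classical
  induction x using DirectSum.induction_on with
  | zero => simp
  | of n F =>
    rw [DirectSum.coeAddMonoidHom_of]
    by_cases h : i = n
    · subst h
      rw [DirectSum.of_eq_same]
    · rw [DirectSum.of_eq_of_ne _ _ _ h, F.2 i h]
      simp
  | add x y hx hy =>
    rw [map_add, DirectSum.add_apply]
    simp [hx, hy]

noncomputable instance decomposition : DirectSum.Decomposition (gr M) :=
  DirectSum.Decomposition.ofAddHom (gr M) (dec M)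
    (by
      ext F : 1
      change DirectSum.coeAddMonoidHom (gr M) (dec M F) = F
      apply Subtype.ext
      ext i
      rw [coeff_coe, dec_apply]
      simp [part, el])
    (by
      classical
      refine DirectSum.addHom_ext' fun n => ?_
      ext F : 1
      change dec M (DirectSum.coeAddMonoidHom (gr M) (DirectSum.of _ n F)) = DirectSum.of _ n F
      rw [DirectSum.coeAddMonoidHom_of]
      refine DFinsupp.ext fun i => ?_
      rw [dec_apply]
      by_cases h : i = n
      · subst h
        rw [part_of_mem M F.2, DirectSum.of_eq_same]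
      · rw [part_of_mem_ne M h F.2, DirectSum.of_eq_of_ne _ _ _ h])

noncomputable instance gradedAlgebra : GradedAlgebra (gr M) where
  toGradedMonoid := gradedMonoid M
  toDecomposition := decomposition M

/-- The scheme `Proj ⊕ₙ Mⁿ Tⁿ`. -/
noncomputable abbrev PX : Scheme.{0} := Proj (gr M)

/-- The structure morphism of `PX M` over `Spec k`. -/
noncomputable def str : PX M ⟶ Spec (CommRingCat.of k) :=
  Proj.toSpecZero (gr M) ≫ Spec.map (CommRingCat.ofHom (algebraMap k (gr M 0)))

/-- The open subset `D₊(G Tⁿ)` of `PX M`. -/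
noncomputable def dplus (n : ℕ) (G : S) (h : G ∈ M ^ n) : (PX M).Opens :=
  Proj.basicOpen (gr M) (el M n G h)

/-- The regular function `G / m^j` on `D₊(m Tⁿ)`. -/
noncomputable def frac (n : ℕ) (m : S) (hm : m ∈ M ^ n) (j : ℕ) (G : S)
    (hG : G ∈ M ^ (j * n)) : Γ(PX M, dplus M n m hm) :=
  (Proj.awayToSection (gr M) (el M n m hm)).hom
    (HomogeneousLocalization.Away.mk (gr M) (el_mem M n m hm) j (el M (j * n) G hG)
      (el_mem M (j * n) G hG))

end Pool.Agent.KCY.Rees
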