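import Pool.Agent.KCY.Rees

/-!
Base change for the graded algebras `⊕ₙ Mⁿ Tⁿ`.
-/

open AlgebraicGeometry CategoryTheory Polynomial
open scoped HomogeneousIdeal

namespace Pool.Agent.KCY.Rees

variable {k S : Type} [CommRing k] [CommRing S] [Algebra k S]
variable {k' S' : Type} [CommRing k'] [CommRing S'] [Algebra k' S']

/-- The data of a base change: a surjection `e` of base rings, a compatible ring homomorphism
`σ`, and `M' = σ M`. -/
structure IsBC (e : k →+* k') (σ : S →+* S') (M : Submodule k S) (M' : Submodule k' S') :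
    Prop where
  surj : Function.Surjective e
  comm : ∀ c, σ (algebraMap k S c) = algebraMap k' S' (e c)
  map_mem : ∀ G ∈ M, σ G ∈ M'
  exists_lift : ∀ G' ∈ M', ∃ G ∈ M, σ G = G'

variable {e : k →+* k'} {σ : S →+* S'} {M : Submodule k S} {M' : Submodule k' S'}

theorem IsBC.map_mem_pow (h : IsBC e σ M M') (n : ℕ) {G : S} (hG : G ∈ M ^ n) :
    σ G ∈ M' ^ n := by
  induction n generalizing G with
  | zero =>
    rw [pow_zero] at hG ⊢
    obtain ⟨c, rfl⟩ := Submodule.mem_one.mp hG
    rw [h.comm]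
    exact Submodule.algebraMap_mem _
  | succ n ih =>
    rw [pow_succ] at hG ⊢
    induction hG using Submodule.mul_induction_on' with
    | mem_mul_mem a ha b hb =>
      rw [map_mul]
      exact Submodule.mul_mem_mul (ih ha) (h.map_mem b hb)
    | add a _ b _ ha hb =>
      rw [map_add]
      exact Submodule.add_mem _ ha hb

theorem IsBC.exists_lift_pow (h : IsBC e σ M M') (n : ℕ) {G' : S'} (hG : G' ∈ M' ^ n) :
    ∃ G ∈ M ^ n, σ G = G' := by
  induction n generalizing G' with
  | zero =>
    rw [pow_zero] at hG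
    obtain ⟨c', rfl⟩ := Submodule.mem_one.mp hG
    obtain ⟨c, rfl⟩ := h.surj c'
    refine ⟨algebraMap k S c, ?_, h.comm c⟩
    rw [pow_zero]
    exact Submodule.algebraMap_mem _
  | succ n ih =>
    rw [pow_succ] at hG
    induction hG using Submodule.mul_induction_on' with
    | mem_mul_mem a ha b hb =>
      obtain ⟨A, hA, rfl⟩ := ih ha
      obtain ⟨B, hB, rfl⟩ := h.exists_lift b hb
      refine ⟨A * B, ?_, map_mul _ _ _⟩
      rw [pow_succ]
      exact Submodule.mul_mem_mul hA hB
    | add a _ b _ ha hb =>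
      obtain ⟨A, hA, rfl⟩ := ha
      obtain ⟨B, hB, rfl⟩ := hb
      exact ⟨A + B, Submodule.add_mem _ hA hB, map_add _ _ _⟩

/-- The graded ring homomorphism induced by a base change. -/
noncomputable def bcHom (h : IsBC e σ M M') : gr M →+*ᵍ gr M' where
  toFun F := ⟨(F : S[X]).map σ, fun n => by
    rw [Polynomial.coeff_map]
    exact h.map_mem_pow n (F.2 n)⟩
  map_one' := Subtype.ext (by simp)
  map_mul' a b := Subtype.ext (by simp)
  map_zero' := Subtype.ext (by simp)
  map_add' a b := Subtype.ext (by simp)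
  map_mem := by
    intro n F hF i hi
    change ((F : S[X]).map σ).coeff i = 0
    rw [Polynomial.coeff_map, hF i hi, map_zero]

theorem bcHom_el (h : IsBC e σ M M') (n : ℕ) (G : S) (hG : G ∈ M ^ n) :
    bcHom h (el M n G hG) = el M' n (σ G) (h.map_mem_pow n hG) := by
  apply Subtype.ext
  change ((monomial n G).map σ : S'[X]) = monomial n (σ G)
  rw [Polynomial.map_monomial]

theorem bcHom_irrelevant (h : IsBC e σ M M') :
    HomogeneousIdeal.irrelevant (gr M') ≤ (HomogeneousIdeal.irrelevant (gr M)).map (bcHom h) := by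
  rw [HomogeneousIdeal.irrelevant_le]
  intro i hi F hF
  obtain ⟨G, hG, e1⟩ := h.exists_lift_pow i (F.2 i)
  have e2 : F = bcHom h (el M i G hG) := by
    rw [bcHom_el, eq_el hF]
    apply Subtype.ext
    rw [coe_el, coe_el, e1]
  rw [e2]
  exact Ideal.mem_map_of_mem _ (HomogeneousIdeal.mem_irrelevant_of_mem (gr M) hi (el_mem M i G hG))

/-- The morphism of schemes `PX M' ⟶ PX M` of a base change. -/
noncomputable def bcMap (h : IsBC e σ M M') : PX M' ⟶ PX M :=
  Proj.map (bcHom h) (bcHom_irrelevant h)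

theorem bc_preimage (h : IsBC e σ M M') (n : ℕ) (m : S) (hm : m ∈ M ^ n) :
    bcMap h ⁻¹ᵁ dplus M n m hm = dplus M' n (σ m) (h.map_mem_pow n hm) := by
  have e1 : bcMap h ⁻¹ᵁ dplus M n m hm = Proj.basicOpen (gr M') (bcHom h (el M n m hm)) := rfl
  rw [e1, bcHom_el]
  rfl

end Pool.Agent.KCY.Rees
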