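import Pool.Agent.KCY.Targets

/-!
Elementary facts on the explicit polynomials and on Laurent polynomials.
-/

open AlgebraicGeometry CategoryTheory Polynomial

namespace Pool.Agent.KCY

open Rees

namespace SmallPf

section Maps

variable {k k' : Type} [CommRing k] [CommRing k'] (f : k →+* k')

theorem map_Xf (i : Fin 4) : MvPolynomial.map f (Xf k i) = Xf k' i := by
  simp [Xf]

theorem map_PP4 : MvPolynomial.map f (PP4 k) = PP4 k' := by
  simp [PP4, map_prod, map_Xf]

theorem map_Pe (i : Fin 4) : MvPolynomial.map f (Pe k i) = Pe k' i := by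
  simp [Pe, map_prod, map_Xf]

theorem map_Vy : MvPolynomial.map f (Vy k) = Vy k' := by
  simp [Vy]

theorem map_Uy : MvPolynomial.map f (Uy k) = Uy k' := by
  simp [Uy, map_ofNat]

theorem map_Ul (l : k) : MvPolynomial.map f (Ul l) = Ul (f l) := by
  simp [Ul, map_ofNat]

theorem map_Qf (l : k) (i : Fin 4) : MvPolynomial.map f (Qf l i) = Qf (f l) i := by
  unfold Qf
  split_ifs
  · rw [map_mul, map_Ul, map_Vy]
  · rw [map_mul, map_Uy, map_Vy]

theorem map_ee (l : k) (i : Fin 4) : MvPolynomial.map f (ee l i) = ee (f l) i := by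
  rw [ee, ee, map_mul, map_Pe, map_Qf]

theorem map_ww (j : Fin 5) : MvPolynomial.map f (ww k j) = ww k' j := by
  rw [ww, ww, map_mul, map_PP4, map_pow, MvPolynomial.map_X]

theorem map_gens (l : k) (i : Fin 5 ⊕ Fin 4) :
    MvPolynomial.map f (gens l i) = gens (f l) i := by
  rcases i with j | i
  · exact map_ww f j
  · exact map_ee f l i

theorem map_mm (l : k) (i : Fin 6) : MvPolynomial.map f (mm l i) = mm (f l) i := by
  fin_cases i
  · change MvPolynomial.map f (PP4 k * Vy k ^ 2) = PP4 k' * Vy k' ^ 2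
    rw [map_mul, map_pow, map_PP4, map_Vy]
  · change MvPolynomial.map f (PP4 k * (Ul l * Uy k)) = PP4 k' * (Ul (f l) * Uy k')
    rw [map_mul, map_mul, map_PP4, map_Ul, map_Uy]
  · exact map_ee f l 0
  · exact map_ee f l 1
  · exact map_ee f l 2
  · exact map_ee f l 3

theorem map_num (i : Fin 6) : MvPolynomial.map f (num k i) = num k' i := by
  fin_cases i
  · exact map_one _
  · change MvPolynomial.map f (Vy k * Xf k 0 * Xf k 1) = Vy k' * Xf k' 0 * Xf k' 1
    rw [map_mul, map_mul, map_Vy, map_Xf, map_Xf]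
  · change MvPolynomial.map f (Xf k 0 * Vy k) = Xf k' 0 * Vy k'
    rw [map_mul, map_Vy, map_Xf]
  · change MvPolynomial.map f (Xf k 1 * Vy k) = Xf k' 1 * Vy k'
    rw [map_mul, map_Vy, map_Xf]
  · exact map_one _
  · exact map_one _

theorem map_den (l : k) (i : Fin 6) : MvPolynomial.map f (den l i) = den (f l) i := by
  fin_cases i
  · exact map_one _
  · change MvPolynomial.map f (Uy k * Xf k 2 * Xf k 3) = Uy k' * Xf k' 2 * Xf k' 3
    rw [map_mul, map_mul, map_Uy, map_Xf, map_Xf]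
  · exact map_Ul f l
  · exact map_Uy f
  · exact map_one _
  · exact map_one _

end Maps

theorem evalAt_T (c : ℂˣ) : evalAt c (LaurentPolynomial.T 1) = (c : ℂ) := by
  simp [evalAt]

theorem evalAt_C (c : ℂˣ) (r : ℂ) : evalAt c (LaurentPolynomial.C r) = r := by
  simp [evalAt]

theorem isbc_general {k k' : Type} [CommRing k] [CommRing k'] (f : k →+* k')
    (hf : Function.Surjective f) (l : k) :
    IsBC f (MvPolynomial.map f) (MM l) (MM (f l)) where
  surj := hf
  comm c := by
    rw [MvPolynomial.algebraMap_eq, MvPolynomial.algebraMap_eq, MvPolynomial.map_C]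
  map_mem := by
    intro G hG
    unfold MM at hG
    induction hG using Submodule.span_induction with
    | mem x hx =>
      obtain ⟨i, rfl⟩ := hx
      rw [map_gens]
      exact Submodule.subset_span ⟨i, rfl⟩
    | zero => rw [map_zero]; exact Submodule.zero_mem _
    | add x y _ _ hx hy => rw [map_add]; exact Submodule.add_mem _ hx hy
    | smul c x _ hx =>
      rw [MvPolynomial.smul_eq_C_mul, map_mul, MvPolynomial.map_C, ← MvPolynomial.smul_eq_C_mul]
      exact Submodule.smul_mem _ _ hx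
  exists_lift := by
    intro G hG
    unfold MM at hG
    induction hG using Submodule.span_induction with
    | mem x hx =>
      obtain ⟨i, rfl⟩ := hx
      exact ⟨gens l i, Submodule.subset_span ⟨i, rfl⟩, map_gens f l i⟩
    | zero => exact ⟨0, Submodule.zero_mem _, map_zero _⟩
    | add x y _ _ hx hy =>
      obtain ⟨a, ha, rfl⟩ := hx
      obtain ⟨b, hb, rfl⟩ := hy
      exact ⟨a + b, Submodule.add_mem _ ha hb, map_add _ _ _⟩
    | smul c x _ hx =>
      obtain ⟨a, ha, rfl⟩ := hx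
      obtain ⟨d, rfl⟩ := hf c
      refine ⟨d • a, Submodule.smul_mem _ _ ha, ?_⟩
      rw [MvPolynomial.smul_eq_C_mul, map_mul, MvPolynomial.map_C, ← MvPolynomial.smul_eq_C_mul]

theorem isbc : T_ISBC := by
  intro c
  have h := isbc_general (evalAt c) (fun r => ⟨LaurentPolynomial.C r, evalAt_C c r⟩)
    (LaurentPolynomial.T 1)
  rw [evalAt_T] at h
  exact h

theorem spec : T_SPEC := by
  intro c i
  refine ⟨?_, ?_, ?_⟩
  · rw [map_mm, evalAt_T]
  · rw [map_num]
  · rw [map_den, evalAt_T]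

theorem dmap : T_DMAP := by
  intro c h
  have h1 : (fun i => MvPolynomial.map (evalAt c)
      (mm (LaurentPolynomial.T 1 : LaurentPolynomial ℂ) i)) = mm (c : ℂ) :=
    funext fun i => (spec c i).1
  have h2 : (fun i => MvPolynomial.map (evalAt c) (num (LaurentPolynomial ℂ) i)) = num ℂ :=
    funext fun i => (spec c i).2.1
  have h3 : (fun i => MvPolynomial.map (evalAt c)
      (den (LaurentPolynomial.T 1 : LaurentPolynomial ℂ) i)) = den (c : ℂ) :=
    funext fun i => (spec c i).2.2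
  unfold LBData.map DD
  simp only [LBData.mk.injEq, heq_eq_eq, true_and]
  exact ⟨h1, h2, h3⟩

section NZ

variable {k : Type} [CommRing k] [IsDomain k] [CharZero k]

theorem ne_zero_of_eval (p : Sk k) (a b : k) (h : MvPolynomial.eval ![a, b] p = 1) : p ≠ 0 := by
  intro h0
  rw [h0, map_zero] at h
  exact zero_ne_one h

theorem Xf_ne (i : Fin 4) : Xf k i ≠ 0 := by
  refine ne_zero_of_eval _ ((aa i : ℤ) + 1) 0 ?_
  simp [Xf]

theorem PP4_ne : PP4 k ≠ 0 := Finset.prod_ne_zero_iff.mpr fun i _ => Xf_ne i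

theorem Pe_ne (i : Fin 4) : Pe k i ≠ 0 := Finset.prod_ne_zero_iff.mpr fun i _ => Xf_ne i

theorem Vy_ne : Vy k ≠ 0 := by
  refine mul_ne_zero ?_ ?_
  · refine ne_zero_of_eval _ 0 2 ?_
    simp
    norm_num
  · refine ne_zero_of_eval _ 0 1 ?_
    simp

theorem y2_ne : yy k - 2 ≠ 0 := by
  refine ne_zero_of_eval _ 0 3 ?_
  simp [map_ofNat]
  norm_num

theorem Uy_ne : Uy k ≠ 0 := by
  refine mul_ne_zero ?_ y2_ne
  refine ne_zero_of_eval _ 0 0 ?_
  simp

theorem Ul_ne (l : k) : Ul l ≠ 0 := by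
  refine mul_ne_zero ?_ y2_ne
  refine ne_zero_of_eval _ 0 0 ?_
  simp

theorem ee_ne (l : k) (i : Fin 4) : ee l i ≠ 0 := by
  refine mul_ne_zero (Pe_ne i) ?_
  unfold Qf
  split_ifs
  · exact mul_ne_zero (Ul_ne l) Vy_ne
  · exact mul_ne_zero Uy_ne Vy_ne

end NZ

theorem nz : T_NZ := by
  intro k _ _ _ l i
  refine ⟨?_, ?_, ?_⟩
  · fin_cases i
    · exact mul_ne_zero PP4_ne (pow_ne_zero _ Vy_ne)
    · exact mul_ne_zero PP4_ne (mul_ne_zero (Ul_ne l) Uy_ne)
    · exact ee_ne l 0
    · exact ee_ne l 1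
    · exact ee_ne l 2
    · exact ee_ne l 3
  · fin_cases i
    · exact one_ne_zero
    · exact mul_ne_zero (mul_ne_zero Vy_ne (Xf_ne 0)) (Xf_ne 1)
    · exact mul_ne_zero (Xf_ne 0) Vy_ne
    · exact mul_ne_zero (Xf_ne 1) Vy_ne
    · exact one_ne_zero
    · exact one_ne_zero
  · fin_cases i
    · exact one_ne_zero
    · exact mul_ne_zero (mul_ne_zero Uy_ne (Xf_ne 2)) (Xf_ne 3)
    · exact Ul_ne l
    · exact Uy_ne
    · exact one_ne_zero
    · exact one_ne_zero

theorem laur : T_LAUR := by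
  refine ⟨inferInstance, ?_, ?_⟩
  · refine ⟨fun J => ?_⟩
    have h := IsLocalization.map_under (Submonoid.powers (X : ℂ[X])) (LaurentPolynomial ℂ) J
    obtain ⟨a, ha⟩ := (IsPrincipalIdealRing.principal (Ideal.under ℂ[X] J)).principal
    refine ⟨⟨algebraMap ℂ[X] (LaurentPolynomial ℂ) a, ?_⟩⟩
    rw [← h, ha]
    change Ideal.map _ (Ideal.span {a}) = Ideal.span {_}
    rw [Ideal.map_span, Set.image_singleton]
  · exact charZero_of_injective_algebraMap (FaithfulSMul.algebraMap_injective ℂ (LaurentPolynomial ℂ))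

end SmallPf

theorem tSMALL : T_ISBC ∧ T_SPEC ∧ T_DMAP ∧ T_NZ ∧ T_LAUR :=
  ⟨SmallPf.isbc, SmallPf.spec, SmallPf.dmap, SmallPf.nz, SmallPf.laur⟩

end Pool.Agent.KCY
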