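import Pool.Agent.KCY.Data

/-!
Exact targets of the project KCY (MP_83476f_ag).  Each `T_X` is proved in its own file
`Pool/Agent/KCY/X.lean` as `theorem tX : T_X`.
-/

open AlgebraicGeometry CategoryTheory Polynomial

namespace Pool.Agent.KCY

open Rees

/-! ### G: general schemes -/

/-- Sections of powers pull back, with the expected nonvanishing locus. -/
def T_SPB : Prop :=
  ∀ (X Y : Scheme.{0}) (f : Y ⟶ X) (L : LineBundle X) (m : ℕ) (t : L.PowSection m),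
    ∃ t' : (L.pullback f).PowSection m, ∀ y : Y, t'.NonvanishingAt y ↔ t.NonvanishingAt (f y)

/-- Semi-ampleness is preserved by pullback, for the pullback along a composition. -/
def T_SEMPB : Prop :=
  ∀ (X Y Z : Scheme.{0}) (f : Z ⟶ Y) (g : Y ⟶ X) (L : LineBundle X),
    (L.pullback g).IsSemiample → (L.pullback (f ≫ g)).IsSemiample

/-- Relative semi-ampleness near `1` gives semi-ampleness on a fibre over a point
which is not a root of unity. -/
def T_REL : Prop :=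
  ∀ (X : Scheme.{0}) (π : X ⟶ Gm) (L : LineBundle X), IsRelSemiampleNear π L (pt 1) →
    ∃ c : ℂˣ, (∀ m : ℕ, 0 < m → c ^ m ≠ 1) ∧
      ∀ (Y : Scheme.{0}) (j : Y ⟶ X) (r : Y ⟶ Spec (CommRingCat.of ℂ)),
        IsPullback j r π (ptHom c) → (L.pullback j).IsSemiample

/-- The ring of functions on an open set, as a subring of the function field. -/
noncomputable def funRing (X : Scheme.{0}) [IsIntegral X] (U : X.Opens)
    (hU : genericPoint X ∈ U) : Subring X.functionField :=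
  (X.presheaf.germ U (genericPoint X) hU).hom.range

/-- Local rings of an integral scheme are localisations of the chart rings. -/
def T_AFF : Prop :=
  ∀ (X : Scheme.{0}) [IsIntegral X] (U : X.Opens) (_ : IsAffineOpen U)
    (hg : genericPoint X ∈ U) (x : X), x ∈ U →
    ∃ (p : Ideal (funRing X U hg)) (_ : p.IsPrime),
      localRing X x = locSub (funRing X U hg) p ∧
        Nonempty (X.presheaf.stalk x ≃+* Localization.AtPrime p)

/-! ### R: the algebras `⊕ Mⁿ Tⁿ` -/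

/-- `PX M` is integral. -/
def T_INT : Prop :=
  ∀ (k S : Type) [CommRing k] [CommRing S] [Algebra k S] [IsDomain S] (M : Submodule k S),
    M ≠ ⊥ → IsIntegral (PX M)

/-- `PX M` is proper over `k`. -/
def T_PROP : Prop :=
  ∀ (k S : Type) [CommRing k] [CommRing S] [Algebra k S] (M : Submodule k S),
    Function.Injective (algebraMap k S) → M.FG → IsProper (str M)

/-- `PX M` is flat over a principal ideal domain. -/
def T_FLAT : Prop :=
  ∀ (k S : Type) [CommRing k] [IsDomain k] [IsPrincipalIdealRing k] [CommRing S] [Algebra k S]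
    [IsDomain S] (M : Submodule k S), Function.Injective (algebraMap k S) → Flat (str M)

/-- Products of basic opens. -/
def T_DMUL : Prop :=
  ∀ (k S : Type) [CommRing k] [CommRing S] [Algebra k S] (M : Submodule k S)
    (n n' : ℕ) (m m' : S) (hm : m ∈ M ^ n) (hm' : m' ∈ M ^ n') (h : m * m' ∈ M ^ (n + n')),
    dplus M (n + n') (m * m') h = dplus M n m hm ⊓ dplus M n' m' hm'

/-- Every section over a basic open is a fraction; basic open set of a fraction. -/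
def T_FSURJ : Prop :=
  ∀ (k S : Type) [CommRing k] [CommRing S] [Algebra k S] (M : Submodule k S)
    (n : ℕ) (m : S) (hm : m ∈ M ^ n), 0 < n →
    (∀ s : Γ(PX M, dplus M n m hm), ∃ (j : ℕ) (G : S) (hG : G ∈ M ^ (j * n)),
      s = frac M n m hm j G hG) ∧
    ∀ (j : ℕ) (G : S) (hG : G ∈ M ^ (j * n)),
      (PX M).basicOpen (frac M n m hm j G hG) = dplus M n m hm ⊓ dplus M (j * n) G hG

/-- Fractions under base change. -/
def T_FBC : Prop :=
  ∀ (k S k' S' : Type) [CommRing k] [CommRing S] [Algebra k S] [CommRing k'] [CommRing S']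
    [Algebra k' S'] (e : k →+* k') (σ : S →+* S') (M : Submodule k S) (M' : Submodule k' S')
    (h : IsBC e σ M M') (n : ℕ) (m : S) (hm : m ∈ M ^ n) (j : ℕ) (G : S)
    (hG : G ∈ M ^ (j * n)),
      (bcMap h).app (dplus M n m hm) (frac M n m hm j G hG) =
        (PX M').presheaf.map (homOfLE (bc_preimage h n m hm).le).op
          (frac M' n (σ m) (h.map_mem_pow n hm) j (σ G) (h.map_mem_pow (j * n) hG))

/-- The function field of `PX M`. -/
def T_FRAC : Prop :=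
  ∀ (k S : Type) [CommRing k] [CommRing S] [Algebra k S] [IsDomain S] (M : Submodule k S)
    [IsIntegral (PX M)], Nonempty (FracHom M)

/-- Base change: the square of `PX M' ⟶ PX M` over `Spec k' ⟶ Spec k` is cartesian. -/
def T_BC : Prop :=
  ∀ (k S k' S' : Type) [CommRing k] [CommRing S] [Algebra k S] [CommRing k'] [CommRing S']
    [Algebra k' S'] [IsDomain S'] (e : k →+* k') (σ : S →+* S') (M : Submodule k S)
    (M' : Submodule k' S') (h : IsBC e σ M M'),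
    (∀ (n : ℕ), ∀ G ∈ M ^ n, σ G = 0 → G ∈ (RingHom.ker e) • (M ^ n)) →
    ∀ (ι : Type) (m : ι → S) (hm : ∀ i, m i ∈ M ^ 1), (∀ i, σ (m i) ≠ 0) →
      (∀ x : PX M, ∃ i, x ∈ dplus M 1 (m i) (hm i)) →
      IsPullback (bcMap h) (str M') (str M) (Spec.map (CommRingCat.ofHom e))

/-- `PX M` is projective over `ℂ`. -/
def T_PROJ : Prop :=
  ∀ (S : Type) [CommRing S] [Algebra ℂ S] [IsDomain S] (M : Submodule ℂ S) (N : ℕ)
    (v : Fin (N + 1) → S), M = Submodule.span ℂ (Set.range v) → IsProjective (str M)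

/-- Points of `PX M` from ring homomorphisms. -/
def T_POINT : Prop :=
  ∀ (k S D : Type) [CommRing k] [CommRing S] [Algebra k S] [CommRing D] [IsDomain D]
    (M : Submodule k S) (τ : S →+* D), (∃ G ∈ M, τ G ≠ 0) →
    ∃ x : PX M, ∀ (n : ℕ) (G : S) (hG : G ∈ M ^ n), x ∈ dplus M n G hG ↔ τ G ≠ 0

/-- Fractions with denominators `m m'`. -/
def T_CCR : Prop :=
  ∀ (k S : Type) [CommRing k] [CommRing S] [Algebra k S] [IsDomain S] (M : Submodule k S)
    (m m' : S), m ∈ M → m' ∈ M → m ≠ 0 → m' ≠ 0 →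
    ∀ z ∈ Algebra.adjoin k
      ((fun G => algebraMap S (FractionRing S) G / algebraMap S (FractionRing S) m) '' M ∪
       (fun G => algebraMap S (FractionRing S) G / algebraMap S (FractionRing S) m') '' M),
      ∃ (r : ℕ) (N : S), N ∈ M ^ (r * 2) ∧
        z = algebraMap S (FractionRing S) N / algebraMap S (FractionRing S) ((m * m') ^ r)

/-- Fractions with denominator `m`. -/
def T_CCR1 : Prop :=
  ∀ (k S : Type) [CommRing k] [CommRing S] [Algebra k S] [IsDomain S] (M : Submodule k S)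
    (m : S), m ∈ M → m ≠ 0 → ∀ z : FractionRing S,
    z ∈ Algebra.adjoin k
      ((fun G => algebraMap S (FractionRing S) G / algebraMap S (FractionRing S) m) '' M) ↔
      ∃ (r : ℕ) (N : S), N ∈ M ^ r ∧
        z = algebraMap S (FractionRing S) N / algebraMap S (FractionRing S) m ^ r

/-- Existence of the line bundle with given local equations. -/
def T_LB : Prop :=
  ∀ (k S : Type) [CommRing k] [CommRing S] [Algebra k S] [IsDomain S] (M : Submodule k S)
    [IsIntegral (PX M)] (D : LBData M) (Φ : FracHom M), D.Good →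
    ∃ L : LineBundle (PX M), Represents D Φ L

/-- Its pullback under base change. -/
def T_LBBC : Prop :=
  ∀ (k S k' S' : Type) [CommRing k] [CommRing S] [Algebra k S] [CommRing k'] [CommRing S']
    [Algebra k' S'] [IsDomain S] [IsDomain S'] (e : k →+* k') (σ : S →+* S')
    (M : Submodule k S) (M' : Submodule k' S') [IsIntegral (PX M)] [IsIntegral (PX M')]
    (h : IsBC e σ M M') (D : LBData M) (Φ : FracHom M) (Φ' : FracHom M') (L : LineBundle (PX M)),
    D.Good → (∀ i, σ (D.m i) ≠ 0) → (∀ i, σ (D.num i) ≠ 0) → (∀ i, σ (D.den i) ≠ 0) →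
    Represents D Φ L → Represents (D.map h) Φ' (L.pullback (bcMap h))

/-- Criterion for not being semi-ample. -/
def T_NSEM : Prop :=
  ∀ (k S : Type) [CommRing k] [CommRing S] [Algebra k S] [IsDomain S] (M : Submodule k S)
    [IsIntegral (PX M)] (D : LBData M) (Φ : FracHom M) (L : LineBundle (PX M)),
    (∀ i, D.m i ≠ 0) → (∀ i, D.num i ≠ 0) → (∀ i, D.den i ≠ 0) → Represents D Φ L →
    ∀ x0 : PX M,
    (∀ r : ℕ, 0 < r → ∀ w : FractionRing S,
      (∀ i, ∃ (j : ℕ) (G : S), G ∈ M ^ j ∧ w * D.φ i ^ r =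
        algebraMap S (FractionRing S) G / algebraMap S (FractionRing S) (D.m i) ^ j) →
      ∀ i, x0 ∈ D.V i → ∀ (j : ℕ) (G : S) (hG : G ∈ M ^ j), w * D.φ i ^ r =
        algebraMap S (FractionRing S) G / algebraMap S (FractionRing S) (D.m i) ^ j →
        x0 ∉ dplus M j G hG) →
    ¬ L.IsSemiample

/-- Criterion for being semi-ample. -/
def T_SEM : Prop :=
  ∀ (k S : Type) [CommRing k] [CommRing S] [Algebra k S] [IsDomain S] (M : Submodule k S)
    [IsIntegral (PX M)] (D : LBData M) (Φ : FracHom M) (L : LineBundle (PX M)),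
    (∀ i, D.m i ≠ 0) → (∀ i, D.num i ≠ 0) → (∀ i, D.den i ≠ 0) → Represents D Φ L →
    (∀ x : PX M, ∃ w : FractionRing S,
      (∀ i, ∃ (j : ℕ) (G : S), G ∈ M ^ j ∧ w * D.φ i =
        algebraMap S (FractionRing S) G / algebraMap S (FractionRing S) (D.m i) ^ j) ∧
      ∃ i, x ∈ D.V i ∧ ∃ (j : ℕ) (G : S) (hG : G ∈ M ^ j), w * D.φ i =
        algebraMap S (FractionRing S) G / algebraMap S (FractionRing S) (D.m i) ^ j ∧
        x ∈ dplus M j G hG) →
    L.IsSemiample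

/-! ### A: the explicit algebra -/

/-- Specialisation at `c` is a base change. -/
def T_ISBC : Prop :=
  ∀ c : ℂˣ, IsBC (evalAt c) (MvPolynomial.map (evalAt c))
    (MM (LaurentPolynomial.T 1 : LaurentPolynomial ℂ)) (MM (c : ℂ))

/-- The data specialise. -/
def T_DMAP : Prop :=
  ∀ (c : ℂˣ) (h : IsBC (evalAt c) (MvPolynomial.map (evalAt c))
    (MM (LaurentPolynomial.T 1 : LaurentPolynomial ℂ)) (MM (c : ℂ))),
    (DD (LaurentPolynomial.T 1 : LaurentPolynomial ℂ)).map h = DD (c : ℂ)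

/-- Specialisation of the individual polynomials. -/
def T_SPEC : Prop :=
  ∀ (c : ℂˣ) (i : Fin 6),
    MvPolynomial.map (evalAt c) (mm (LaurentPolynomial.T 1 : LaurentPolynomial ℂ) i) =
      mm (c : ℂ) i ∧
    MvPolynomial.map (evalAt c) (num (LaurentPolynomial ℂ) i) = num ℂ i ∧
    MvPolynomial.map (evalAt c) (den (LaurentPolynomial.T 1 : LaurentPolynomial ℂ) i) =
      den (c : ℂ) i

/-- Nonvanishing of the data. -/
def T_NZ : Prop :=
  ∀ (k : Type) [CommRing k] [IsDomain k] [CharZero k] (l : k) (i : Fin 6),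
    mm l i ≠ 0 ∧ num k i ≠ 0 ∧ den l i ≠ 0

/-- Normal form of the elements of `(MM l)^n`. -/
def T_NF : Prop :=
  ∀ (k : Type) [CommRing k] [Algebra ℂ k] (l : k) (n : ℕ) (G : Sk k), G ∈ MM l ^ n ↔
    ∃ (p : k[X]) (q : Fin 4 → ℕ → k[X]), p.natDegree ≤ 4 * n ∧
      (∀ i m, (q i m).natDegree ≤ 4 * (n - m)) ∧
      G = PP4 k ^ n * aeval (yy k) p +
        ∑ i, ∑ m ∈ Finset.Icc 1 n, PP4 k ^ (n - m) * ee l i ^ m * aeval (yy k) (q i m)

/-- Independence in the normal form. -/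
def T_IND : Prop :=
  ∀ (k : Type) [CommRing k] [IsDomain k] [CharZero k] (l : k) (n : ℕ) (p : k[X])
    (q : Fin 4 → ℕ → k[X]),
    PP4 k ^ n * aeval (yy k) p +
      ∑ i, ∑ m ∈ Finset.Icc 1 n, PP4 k ^ (n - m) * ee l i ^ m * aeval (yy k) (q i m) = 0 →
    p = 0 ∧ ∀ i, ∀ m ∈ Finset.Icc 1 n, q i m = 0

/-- Saturation. -/
def T_SAT : Prop :=
  ∀ (c : ℂˣ) (n : ℕ), ∀ G ∈ MM (LaurentPolynomial.T 1 : LaurentPolynomial ℂ) ^ n,
    MvPolynomial.map (evalAt c) G = 0 → G ∈ (RingHom.ker (evalAt c)) •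
      (MM (LaurentPolynomial.T 1 : LaurentPolynomial ℂ) ^ n)

/-- The six opens cover. -/
def T_COVER : Prop :=
  ∀ (k : Type) [CommRing k] [Algebra ℂ k] (l : k), IsUnit l → ∀ x : PX (MM l),
    ∃ i, x ∈ (DD l).V i

/-- The cocycle condition. -/
def T_COC : Prop :=
  ∀ (k : Type) [CommRing k] [IsDomain k] [Algebra ℂ k] (l : k) (i j : Fin 6),
    ∃ (r : ℕ) (N : Sk k), N ∈ MM l ^ (r * 2) ∧
      N * (num k j * den l i) = (mm l i * mm l j) ^ r * (num k i * den l j)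

/-- For `c` not a root of unity all sections of powers vanish at the point `x = -1`. -/
def T_NS : Prop :=
  ∀ c : ℂˣ, (∀ m : ℕ, 0 < m → c ^ m ≠ 1) → ∀ r : ℕ, 0 < r → ∀ w : FractionRing (Sk ℂ),
    (∀ i : Fin 6, ∃ (j : ℕ) (G : Sk ℂ), G ∈ MM (c : ℂ) ^ j ∧ w * (DD (c : ℂ)).φ i ^ r =
      algebraMap (Sk ℂ) (FractionRing (Sk ℂ)) G /
        algebraMap (Sk ℂ) (FractionRing (Sk ℂ)) (mm (c : ℂ) i) ^ j) →
    ∀ (j : ℕ) (G : Sk ℂ), G ∈ MM (c : ℂ) ^ j → w * (DD (c : ℂ)).φ (2 : Fin 6) ^ r =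
      algebraMap (Sk ℂ) (FractionRing (Sk ℂ)) G /
        algebraMap (Sk ℂ) (FractionRing (Sk ℂ)) (mm (c : ℂ) 2) ^ j → evx G = 0

/-- For `c = 1` two sections of `L` generate it. -/
def T_SA : Prop :=
  ∀ x : PX (MM (1 : ℂ)), ∃ w : FractionRing (Sk ℂ),
    (∀ i : Fin 6, ∃ (j : ℕ) (G : Sk ℂ), G ∈ MM (1 : ℂ) ^ j ∧ w * (DD (1 : ℂ)).φ i =
      algebraMap (Sk ℂ) (FractionRing (Sk ℂ)) G /
        algebraMap (Sk ℂ) (FractionRing (Sk ℂ)) (mm (1 : ℂ) i) ^ j) ∧
    ∃ i : Fin 6, x ∈ (DD (1 : ℂ)).V i ∧ ∃ (j : ℕ) (G : Sk ℂ) (hG : G ∈ MM (1 : ℂ) ^ j),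
      w * (DD (1 : ℂ)).φ i = algebraMap (Sk ℂ) (FractionRing (Sk ℂ)) G /
        algebraMap (Sk ℂ) (FractionRing (Sk ℂ)) (mm (1 : ℂ) i) ^ j ∧
        x ∈ dplus (MM (1 : ℂ)) j G hG

/-- Laurent polynomials over `ℂ` form a principal ideal domain. -/
def T_LAUR : Prop :=
  IsDomain (LaurentPolynomial ℂ) ∧ IsPrincipalIdealRing (LaurentPolynomial ℂ) ∧
    CharZero (LaurentPolynomial ℂ)

/-! ### D: chart rings and differential forms -/

/-- Transcendence degree and generation of a field with coordinates. -/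
def T_TRD : Prop :=
  ∀ (K : Type) [Field K] [Algebra ℂ K] (u v : K), Coord K u v →
    Algebra.trdeg ℂ K = 2 ∧ IntermediateField.adjoin ℂ (Set.range ![u, v]) = ⊤

/-- The form `du ∧ dv` is nonzero for coordinates `u, v`, and generates the regular forms at the
local ring of the plane at an irreducible curve. -/
def T_OMEGA : Prop :=
  ∀ (K : Type) [Field K] [Algebra ℂ K] (u v : K), Coord K u v →
    wedgeD K ![u, v] ≠ 0 ∧
    ∀ (F : MvPolynomial (Fin 2) ℂ), Irreducible F → ∀ O : Subring K,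
      (∀ z : K, z ∈ O ↔ ∃ p q : MvPolynomial (Fin 2) ℂ, ¬ F ∣ q ∧
        z = MvPolynomial.aeval ![u, v] p / MvPolynomial.aeval ![u, v] q) →
      IsUniformizer K O (MvPolynomial.aeval ![u, v] F) ∧
      regForms K 2 O = Submodule.span O {wedgeD K ![u, v]}

/-- Changing the form by a function. -/
def T_SCALE : Prop :=
  ∀ (K : Type) [Field K] [Algebra ℂ K] (n : ℕ) (O : Subring K) (m : ℕ) (f c : K)
    (ω : ⋀[K]^n (Ω[K⁄ℂ])) (N : ℤ), c ≠ 0 →
    (OrderZero n O m (f / c ^ m) (c • ω) ↔ OrderZero n O m f ω) ∧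
    (OrderGE n O m (f / c ^ m) (c • ω) N ↔ OrderGE n O m f ω N)

/-- Coordinate changes: swap, inversion of one coordinate and Moebius maps. -/
def T_CHG : Prop :=
  ∀ (K : Type) [Field K] [Algebra ℂ K] (u v : K), Coord K u v →
    Coord K v u ∧ (∀ a : ℂ, Coord K (1 / (u - algebraMap ℂ K a)) v) ∧
    Coord K u v⁻¹ ∧
    (∀ (a : ℂ) (Q : ℂ[X]), Q ≠ 0 → Coord K (aeval v Q / (u - algebraMap ℂ K a)) v) ∧
    wedgeD K ![v, u] = (-1 : K) • wedgeD K ![u, v] ∧
    wedgeD K ![u, v⁻¹] = (-(v ^ 2)⁻¹ : K) • wedgeD K ![u, v] ∧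
    (∀ a : ℂ, wedgeD K ![u, v] =
      (-(u - algebraMap ℂ K a) ^ 2 : K) • wedgeD K ![1 / (u - algebraMap ℂ K a), v]) ∧
    (∀ (a : ℂ) (Q : ℂ[X]), Q ≠ 0 → wedgeD K ![u, v] =
      (-(u - algebraMap ℂ K a) ^ 2 / aeval v Q : K) •
        wedgeD K ![aeval v Q / (u - algebraMap ℂ K a), v])

/-- A localised polynomial ring in two coordinates is integrally closed in the field. -/
def T_UFD : Prop :=
  ∀ (K : Type) [Field K] [Algebra ℂ K] (u v : K), Coord K u v →
    ∀ (g : MvPolynomial (Fin 2) ℂ), g ≠ 0 → ∀ z : K,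
      (∀ A : Subring K, (∀ w : K, w ∈ A ↔ ∃ (p : MvPolynomial (Fin 2) ℂ) (n : ℕ),
        w = MvPolynomial.aeval ![u, v] p / MvPolynomial.aeval ![u, v] g ^ n) →
        IsIntegral A z → z ∈ A)

/-- The chart rings are integrally closed, with fraction field `K`. -/
def T_BRN : Prop :=
  ∀ (K : Type) [Field K] [Algebra ℂ K] (u v : K), Coord K u v →
    ∀ (a : Fin 4 → ℂ) (Q : ℂ[X]), Function.Injective a → Q ≠ 0 →
      IsIntegrallyClosed (Bring u v a Q).toSubring ∧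
        ∀ z : K, ∃ p q : K, p ∈ Bring u v a Q ∧ q ∈ Bring u v a Q ∧ q ≠ 0 ∧ z = p / q

/-- The canonical form has order zero at the codimension one points of the chart rings. -/
def T_BRH : Prop :=
  ∀ (K : Type) [Field K] [Algebra ℂ K] (u v : K), Coord K u v →
    ∀ (a : Fin 4 → ℂ) (Q : ℂ[X]), Function.Injective a → Q ≠ 0 →
      ∀ (p : Ideal (Bring u v a Q).toSubring) [p.IsPrime],
        ringKrullDim (Localization.AtPrime p) = 1 →
        OrderZero 2 (locSub (Bring u v a Q).toSubring p) 2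
          ((aeval u (prodP a) * aeval v Q)⁻¹) (wedgeD K ![u, v])

/-- The discrepancy bound. -/
def T_KLT : Prop :=
  ∀ (K : Type) [Field K] [Algebra ℂ K] (x y : K) (P Q : ℂ[X]),
    P.Separable → Q.Separable → aeval x P ≠ 0 → aeval y Q ≠ 0 →
    ∀ O : Subring K, (∀ c : ℂ, algebraMap ℂ K c ∈ O) → (∃ t, IsUniformizer K O t) →
      x ∈ O → y ∈ O →
      OrderGE 2 O 2 ((aeval x P * aeval y Q)⁻¹) (wedgeD K ![x, y]) (1 - ((2 : ℕ) : ℤ))

/-- The discrepancy bound for all valuations. -/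
def T_KLT2 : Prop :=
  ∀ (K : Type) [Field K] [Algebra ℂ K] (x y : K), Coord K x y →
    ∀ O : Subring K, (∀ c : ℂ, algebraMap ℂ K c ∈ O) → (∃ t, IsUniformizer K O t) →
      OrderGE 2 O 2 ((aeval x (prodP ac) * aeval y (prodP ac))⁻¹) (wedgeD K ![x, y])
        (1 - ((2 : ℕ) : ℤ))

/-- Three chart rings of the central fibre in the fraction field of `ℂ[x, y]`. -/
def T_CHART : Prop :=
  ∀ (x y : FractionRing (Sk ℂ)), x = algebraMap (Sk ℂ) _ (xx ℂ) →
    y = algebraMap (Sk ℂ) _ (yy ℂ) →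
    Coord (FractionRing (Sk ℂ)) x y ∧
    (∀ z : FractionRing (Sk ℂ), z ∈ Bring x y ac (prodP ac) ↔
      ∃ (r : ℕ) (N : Sk ℂ), N ∈ MM (1 : ℂ) ^ r ∧ z = algebraMap (Sk ℂ) _ N /
        algebraMap (Sk ℂ) _ (PP4 ℂ) ^ r) ∧
    (∀ z : FractionRing (Sk ℂ), z ∈ Bring x y⁻¹ ac Prev ↔
      ∃ (r : ℕ) (N : Sk ℂ), N ∈ MM (1 : ℂ) ^ r ∧ z = algebraMap (Sk ℂ) _ N /
        algebraMap (Sk ℂ) _ (PP4 ℂ * yy ℂ ^ 4) ^ r) ∧
    (∀ z : FractionRing (Sk ℂ), z ∈ Bring y x ac (prodP ac) ↔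
      ∃ (r : ℕ) (N : Sk ℂ), N ∈ MM (1 : ℂ) ^ r ∧ z = algebraMap (Sk ℂ) _ N /
        algebraMap (Sk ℂ) _ (Uy ℂ * Vy ℂ) ^ r) ∧
    PP4 ℂ ∈ MM (1 : ℂ) ^ 1 ∧ PP4 ℂ * yy ℂ ^ 4 ∈ MM (1 : ℂ) ^ 1 ∧ Uy ℂ * Vy ℂ ∈ MM (1 : ℂ) ^ 1

/-- The three basic opens of the central fibre cover. -/
def T_COVER3 : Prop :=
  ∀ (h1 : PP4 ℂ ∈ MM (1 : ℂ) ^ 1) (h2 : PP4 ℂ * yy ℂ ^ 4 ∈ MM (1 : ℂ) ^ 1)
    (h3 : Uy ℂ * Vy ℂ ∈ MM (1 : ℂ) ^ 1) (x : PX (MM (1 : ℂ))),
    x ∈ dplus (MM (1 : ℂ)) 1 (PP4 ℂ) h1 ∨ x ∈ dplus (MM (1 : ℂ)) 1 (PP4 ℂ * yy ℂ ^ 4) h2 ∨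
      x ∈ dplus (MM (1 : ℂ)) 1 (Uy ℂ * Vy ℂ) h3

/-- Coordinates on the function field of the central fibre and its chart rings. -/
def T_MODEL : Prop :=
  ∃ _ : IsIntegral (PX (MM (1 : ℂ))),
    letI := ffAlgebra (str (MM (1 : ℂ)))
    ∃ x y : (PX (MM (1 : ℂ))).functionField,
      Coord (PX (MM (1 : ℂ))).functionField x y ∧
      ∀ p : PX (MM (1 : ℂ)), ∃ (U : (PX (MM (1 : ℂ))).Opens)
        (hU : genericPoint (PX (MM (1 : ℂ))) ∈ U), IsAffineOpen U ∧ p ∈ U ∧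
        (funRing _ U hU = (Bring x y ac (prodP ac)).toSubring ∨
          funRing _ U hU = (Bring x y⁻¹ ac Prev).toSubring ∨
          funRing _ U hU = (Bring y x ac (prodP ac)).toSubring)

/-- The central fibre is a rational Calabi-Yau surface. -/
def T_CY : Prop :=
  IsCalabiYau (str (MM (1 : ℂ))) 2 ∧ IsRationalSurface (str (MM (1 : ℂ)))

end Pool.Agent.KCY
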